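import Mathlib

/-!
# Arithmetic for the results
-/

set_option autoImplicit false

namespace Pool.Agent.T9h19.RM

/-- from the average case to the worst case -/
lemma worst {u Q P : ℕ} {A : ℝ} (hA : A = 1)
    (h : (u : ℝ) * (A - 1 / 2 - 1 / (3 : ℕ)) ≤ (Q : ℝ) * P) : u ≤ 6 * Q * P := by
  have h1 : (u : ℝ) ≤ 6 * Q * P := by
    rw [hA] at h
    push_cast at h
    linarith
  exact_mod_cast h1

lemma worst_num {u d l P : ℕ} (hl : 1 ≤ l)
    (h : u ≤ 6 * (175 * (d + 3 + l)) ^ 175 * P) : u ≤ (220 * (d + l)) ^ 220 * P := by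
  obtain ⟨X, hX⟩ : ∃ X, X = d + l := ⟨_, rfl⟩
  rw [← hX]
  have hX1 : 1 ≤ X := by omega
  calc u ≤ 6 * (175 * (d + 3 + l)) ^ 175 * P := h
    _ ≤ 6 * (700 * X) ^ 175 * P :=
        Nat.mul_le_mul_right _ (Nat.mul_le_mul_left _ (Nat.pow_le_pow_left (by omega) _))
    _ = (6 * 700 ^ 175) * X ^ 175 * P := by rw [mul_pow, ← mul_assoc]
    _ ≤ 220 ^ 220 * X ^ 220 * P :=
        Nat.mul_le_mul_right _ (Nat.mul_le_mul (by norm_num)
          (Nat.pow_le_pow_right hX1 (by norm_num)))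
    _ = _ := by rw [mul_pow]

lemma worst_num_S {S n l d P : ℕ} (hl : 1 ≤ l) (hP : 1 ≤ P) (hS : S ≤ 40 * l ^ 4 * (n + 1))
    (hu : n ≤ 6 * (175 * (d + 3 + l)) ^ 175 * P) :
    S ≤ (220 * (d + l)) ^ 220 * P := by
  obtain ⟨X, hX⟩ : ∃ X, X = d + l := ⟨_, rfl⟩
  rw [← hX]
  have hX1 : 1 ≤ X := by omega
  have hlX : l ≤ X := by omega
  have h1 : 6 * (175 * (d + 3 + l)) ^ 175 ≤ (6 * 700 ^ 175) * X ^ 175 := by
    calc 6 * (175 * (d + 3 + l)) ^ 175 ≤ 6 * (700 * X) ^ 175 :=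
          Nat.mul_le_mul_left _ (Nat.pow_le_pow_left (by omega) _)
      _ = _ := by rw [mul_pow, ← mul_assoc]
  obtain ⟨c, hc⟩ : ∃ c, c = 6 * 700 ^ 175 := ⟨_, rfl⟩
  have hc2 : 80 * c ≤ 220 ^ 220 := by
    rw [hc]
    norm_num
  have hc1 : 1 ≤ c := by
    rw [hc]
    norm_num
  rw [← hc] at h1
  have hX175 : 1 ≤ X ^ 175 := Nat.one_le_pow _ _ hX1
  have h2 : n + 1 ≤ 2 * (c * X ^ 175 * P) := by
    have h3 : n ≤ c * X ^ 175 * P := hu.trans (Nat.mul_le_mul_right _ h1)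
    have h4 : 1 ≤ c * X ^ 175 * P := Nat.mul_pos (Nat.mul_pos hc1 hX175) hP
    omega
  calc S ≤ 40 * l ^ 4 * (n + 1) := hS
    _ ≤ 40 * X ^ 4 * (2 * (c * X ^ 175 * P)) :=
        Nat.mul_le_mul (Nat.mul_le_mul_left _ (Nat.pow_le_pow_left hlX 4)) h2
    _ = (80 * c) * (X ^ 4 * X ^ 175) * P := by ring
    _ ≤ 220 ^ 220 * X ^ 220 * P := by
        apply Nat.mul_le_mul_right
        apply Nat.mul_le_mul hc2
        rw [← pow_add]
        exact Nat.pow_le_pow_right hX1 (by norm_num)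
    _ = _ := by rw [mul_pow]

lemma avg_num {d e l : ℕ} : (175 * (d + e + l)) ^ 175 ≤ (220 * (d + e + l)) ^ 220 := by
  obtain ⟨X, hX⟩ : ∃ X, X = d + e + l := ⟨_, rfl⟩
  rw [← hX]
  rcases Nat.eq_zero_or_pos X with h | h
  · subst h
    simp
  · calc (175 * X) ^ 175 ≤ (220 * X) ^ 175 :=
          Nat.pow_le_pow_left (Nat.mul_le_mul_right _ (by norm_num)) _
      _ ≤ _ := Nat.pow_le_pow_right (by omega) (by norm_num)

end Pool.Agent.T9h19.RM
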