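import Pool.Agent.H540R2.Circ
import Pool.Agent.H540R2.Lift.Defs
import Pool.Agent.H540R2.Lift.NegDefs

/-!
# Definitions: circuits and sets of variables
-/

set_option autoImplicit false

namespace Pool.Agent.T9h19.RM

open Finset Pool.Agent.H540R2

/-- `x` agrees with `α` outside `U`. -/
def Agr {σ : Type} (U : Finset σ) (α x : σ → Bool) : Prop := ∀ i, i ∉ U → x i = α i

/-- The fraction of the inputs `X 0, …, X (N - 1)` on which `g` and `f` agree. -/
noncomputable def agree {n N : ℕ} (X : Fin N → (Fin n → Bool)) (g f : (Fin n → Bool) → Bool) : ℝ :=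
  ((univ.filter (fun i => g (X i) = f (X i))).card : ℝ) / N

/-- The node `w` is an operand of the gate `g`. -/
def GReads {n : ℕ} (g : Gate n) (w : Node n) : Prop :=
  match g with
  | .and a b => w = a ∨ w = b
  | .or a b => w = a ∨ w = b
  | .not a => w = a

/-- There is a path from a variable in `U` to the node. -/
inductive Above {n : ℕ} (D : Circuit n) (U : Finset (Fin n)) : Node n → Prop where
  | var (i : Fin n) (h : i ∈ U) : Above D U (.var i)
  | gate (j : ℕ) (w : Node n) (hw : GReads (D.gate j) w) (h : Above D U w) : Above D U (.gate j)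

open Classical in
/-- The number of NOT gates above `U`: those to which there is a path from a variable in `U`. -/
noncomputable def notsAbove {n : ℕ} (D : Circuit n) (U : Finset (Fin n)) : ℕ :=
  ((range D.size).filter (fun i => (D.gate i).isNot = true ∧ Above D U (.gate i))).card

/-- An assignment of levels `0, …, r` to the gates: the level never drops from an operand to a
gate and increases strictly at the NOT gates above `U`. -/
def NotLevels {n : ℕ} (D : Circuit n) (U : Finset (Fin n)) (lev : ℕ → ℕ) (r : ℕ) : Prop :=
  ∀ i < D.size, lev i ≤ r ∧ ∀ j, GReads (D.gate i) (.gate j) →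
    lev j ≤ lev i ∧ ((D.gate i).isNot = true → Above D U (.gate i) → lev j < lev i)

open Classical in
/-- The number of NOT gates above `U` at level `l`. -/
noncomputable def notsAt {n : ℕ} (D : Circuit n) (U : Finset (Fin n)) (lev : ℕ → ℕ) (l : ℕ) : ℕ :=
  ((range D.size).filter
    (fun i => (D.gate i).isNot = true ∧ Above D U (.gate i) ∧ lev i = l)).card

end Pool.Agent.T9h19.RM
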