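import Mathlib

/-!
# Monotone formulas
-/

set_option autoImplicit false

namespace Pool.Agent.T9h19.RM

/-- monotone formulas -/
inductive MF (σ : Type) where
  | var (v : σ) : MF σ
  | const (b : Bool) : MF σ
  | and (F G : MF σ) : MF σ
  | or (F G : MF σ) : MF σ

namespace MF

variable {σ τ : Type}

/-- the value -/
def eval (x : σ → Bool) : MF σ → Bool
  | .var v => x v
  | .const b => b
  | .and F G => F.eval x && G.eval x
  | .or F G => F.eval x || G.eval x

/-- depth -/
def depth : MF σ → ℕ
  | .var _ => 0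
  | .const _ => 0
  | .and F G => max F.depth G.depth + 1
  | .or F G => max F.depth G.depth + 1

/-- substitution -/
def sub (s : σ → MF τ) : MF σ → MF τ
  | .var v => s v
  | .const b => .const b
  | .and F G => .and (F.sub s) (G.sub s)
  | .or F G => .or (F.sub s) (G.sub s)

lemma eval_sub (s : σ → MF τ) (x : τ → Bool) (F : MF σ) :
    (F.sub s).eval x = F.eval (fun v => (s v).eval x) := by
  induction F with
  | var v => rfl
  | const b => rfl
  | and F G hF hG => simp [sub, eval, hF, hG]
  | or F G hF hG => simp [sub, eval, hF, hG]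

lemma depth_sub (s : σ → MF τ) (hs : ∀ v, (s v).depth = 0) (F : MF σ) :
    (F.sub s).depth = F.depth := by
  induction F with
  | var v => exact hs v
  | const b => rfl
  | and F G hF hG => simp [sub, depth, hF, hG]
  | or F G hF hG => simp [sub, depth, hF, hG]

lemma eval_mono {x y : σ → Bool} (h : ∀ v, x v = true → y v = true) (F : MF σ) :
    F.eval x = true → F.eval y = true := by
  induction F with
  | var v => exact h v
  | const b => exact id
  | and F G hF hG =>
    simp only [eval, Bool.and_eq_true]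
    exact fun ⟨h1, h2⟩ => ⟨hF h1, hG h2⟩
  | or F G hF hG =>
    simp only [eval, Bool.or_eq_true]
    exact fun h1 => h1.imp hF hG

end MF

/-- `f` is computed by a monotone formula of depth at most `d`. -/
def Mo {σ : Type} (f : (σ → Bool) → Bool) (d : ℕ) : Prop :=
  ∃ F : MF σ, F.depth ≤ d ∧ ∀ x, F.eval x = f x

section Mo

variable {σ τ : Type} {f g : (σ → Bool) → Bool} {d : ℕ}

lemma Mo.mono {d' : ℕ} (h : Mo f d) (hd : d ≤ d') : Mo f d' := by
  obtain ⟨F, h1, h2⟩ := h
  exact ⟨F, h1.trans hd, h2⟩

lemma Mo.congr (h : Mo f d) (hg : ∀ x, f x = g x) : Mo g d := by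
  obtain ⟨F, h1, h2⟩ := h
  exact ⟨F, h1, fun x => (h2 x).trans (hg x)⟩

lemma Mo.const (b : Bool) (d : ℕ) : Mo (fun _ : σ → Bool => b) d :=
  ⟨.const b, Nat.zero_le _, fun _ => rfl⟩

lemma Mo.var (v : σ) (d : ℕ) : Mo (fun x : σ → Bool => x v) d :=
  ⟨.var v, Nat.zero_le _, fun _ => rfl⟩

lemma Mo.and (hf : Mo f d) (hg : Mo g d) : Mo (fun x => f x && g x) (d + 1) := by
  obtain ⟨F, h1, h2⟩ := hf
  obtain ⟨G, h3, h4⟩ := hg
  exact ⟨F.and G, by simp [MF.depth, h1, h3], fun x => by simp [MF.eval, h2, h4]⟩

lemma Mo.or (hf : Mo f d) (hg : Mo g d) : Mo (fun x => f x || g x) (d + 1) := by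
  obtain ⟨F, h1, h2⟩ := hf
  obtain ⟨G, h3, h4⟩ := hg
  exact ⟨F.or G, by simp [MF.depth, h1, h3], fun x => by simp [MF.eval, h2, h4]⟩

/-- substitution of variables and constants -/
lemma Mo.sub (h : Mo f d) (s : σ → MF τ) (hs : ∀ v, (s v).depth = 0) :
    Mo (fun x : τ → Bool => f (fun v => (s v).eval x)) d := by
  obtain ⟨F, h1, h2⟩ := h
  exact ⟨F.sub s, by rw [F.depth_sub s hs]; exact h1, fun x => by rw [F.eval_sub, h2]⟩

/-- the disjunction of a list of functions -/
lemma Mo.orList (k : ℕ) : ∀ (L : List ((σ → Bool) → Bool)), L.length ≤ 2 ^ k →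
    (∀ f ∈ L, Mo f d) → Mo (fun x => L.any (fun f => f x)) (d + k) := by
  induction k with
  | zero =>
    intro L hL hf
    cases L with
    | nil => exact (Mo.const false _).congr fun x => rfl
    | cons f L' =>
      have : L' = [] := by
        cases L' with
        | nil => rfl
        | cons g L'' => simp at hL
      subst this
      exact (hf f (by simp)).congr fun x => by simp
  | succ k ih =>
    intro L hL hf
    have h1 := ih (L.take (2 ^ k)) (by rw [List.length_take]; exact min_le_left _ _)
      fun f hf' => hf f (List.mem_of_mem_take hf')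
    have h2 := ih (L.drop (2 ^ k)) (by
      rw [List.length_drop]
      rw [pow_succ] at hL
      omega) fun f hf' => hf f (List.mem_of_mem_drop hf')
    refine (h1.or h2).congr fun x => ?_
    rw [← List.any_append, List.take_append_drop]

end Mo

end Pool.Agent.T9h19.RM
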