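import Mathlib
import Pool.Agent.T9h19.RM.MF

/-!
# The generation function of the triangular grid

Nodes are `(i, j)` with `i + j ≤ h`, each with `m` copies. There are three kinds of rules: an axiom
for a copy of a node with `i + j = h`; a copy of `(i, j)` follows from a copy of `(i + 1, j)` and a
copy of `(i, j + 1)`; the goal follows from a copy of `(0, 0)`. The input says which rules are
present; the output is whether the goal follows.
-/

set_option autoImplicit false

namespace Pool.Agent.T9h19.RM

/-- nodes -/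
abbrev Nd (h : ℕ) : Type := Fin (h + 1) × Fin (h + 1)

/-- rules -/
abbrev Vr (h m : ℕ) : Type := (Nd h × Fin m) ⊕ (Nd h × Fin m × Fin m × Fin m) ⊕ Fin m

variable {h m : ℕ}

/-- the node with given coordinates -/
def nd (h i j : ℕ) : Nd h := (Fin.ofNat (h + 1) i, Fin.ofNat (h + 1) j)

/-- the coordinates of a node -/
def pos (v : Nd h) : ℕ × ℕ := (v.1.val, v.2.val)

lemma pos_nd {i j : ℕ} (hij : i + j ≤ h) : pos (nd h i j) = (i, j) := by
  simp only [pos, nd, Fin.ofNat]
  rw [Nat.mod_eq_of_lt (by omega), Nat.mod_eq_of_lt (by omega)]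

/-- copy `c` of the node `(i, j)`, which is `k` levels above the axioms, follows -/
def Der (X : Vr h m → Bool) : ℕ → ℕ → ℕ → Fin m → Prop
  | 0, i, j, c => X (.inl (nd h i j, c)) = true
  | k + 1, i, j, c => ∃ c1 c2 : Fin m, X (.inr (.inl (nd h i j, c1, c2, c))) = true ∧
      Der X k (i + 1) j c1 ∧ Der X k i (j + 1) c2

/-- the goal follows -/
def Goal (X : Vr h m → Bool) : Prop :=
  ∃ c : Fin m, Der X h 0 0 c ∧ X (.inr (.inr c)) = true

open Classical in
/-- the generation function -/
noncomputable def gen (h m : ℕ) (X : Vr h m → Bool) : Bool := decide (Goal X)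

lemma gen_eq_true {X : Vr h m → Bool} : gen h m X = true ↔ Goal X := by
  simp [gen]

/-- the instance of a choice of one copy for each node -/
def ea (a : Nd h → Fin m) : Vr h m → Bool
  | .inl (v, c) => decide ((pos v).1 + (pos v).2 = h ∧ a v = c)
  | .inr (.inl (v, c1, c2, c)) => decide ((pos v).1 + (pos v).2 < h ∧
      a (nd h ((pos v).1 + 1) (pos v).2) = c1 ∧ a (nd h (pos v).1 ((pos v).2 + 1)) = c2 ∧ a v = c)
  | .inr (.inr c) => decide (a (nd h 0 0) = c)

/-- the instance of a set of copies -/
def eb (b : Nd h → Fin m → Bool) : Vr h m → Bool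
  | .inl (v, c) => b v c
  | .inr (.inl (v, c1, c2, c)) => !(b (nd h ((pos v).1 + 1) (pos v).2) c1 &&
      b (nd h (pos v).1 ((pos v).2 + 1)) c2 && !(b v c))
  | .inr (.inr c) => !(b (nd h 0 0) c)

lemma der_ea (a : Nd h → Fin m) (k : ℕ) : ∀ i j, i + j + k = h →
    Der (ea a) k i j (a (nd h i j)) := by
  induction k with
  | zero =>
    intro i j hij
    simp only [Der, ea, pos_nd (show i + j ≤ h by omega)]
    simpa using hij
  | succ k ih =>
    intro i j hij
    refine ⟨a (nd h (i + 1) j), a (nd h i (j + 1)), ?_, ih (i + 1) j (by omega),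
      ih i (j + 1) (by omega)⟩
    simp only [ea, pos_nd (show i + j ≤ h by omega)]
    simp only [and_self, and_true, decide_eq_true_eq]
    omega

lemma gen_ea (a : Nd h → Fin m) : gen h m (ea a) = true := by
  rw [gen_eq_true]
  exact ⟨a (nd h 0 0), der_ea a h 0 0 (by omega), by simp [ea]⟩

lemma der_eb (b : Nd h → Fin m → Bool) (k : ℕ) : ∀ i j c, i + j + k = h →
    Der (eb b) k i j c → b (nd h i j) c = true := by
  induction k with
  | zero =>
    intro i j c _ hD
    exact hD
  | succ k ih =>
    intro i j c hij hD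
    obtain ⟨c1, c2, h1, h2, h3⟩ := hD
    have h4 := ih (i + 1) j c1 (by omega) h2
    have h5 := ih i (j + 1) c2 (by omega) h3
    simp only [eb, pos_nd (show i + j ≤ h by omega)] at h1
    rw [h4, h5] at h1
    simpa using h1

lemma gen_eb (b : Nd h → Fin m → Bool) : gen h m (eb b) = false := by
  rw [Bool.eq_false_iff, ne_eq, gen_eq_true]
  rintro ⟨c, h1, h2⟩
  have h3 := der_eb b h 0 0 c (by omega) h1
  simp only [eb, h3] at h2
  simp at h2

lemma gen_zero (h m : ℕ) : gen h m (fun _ => false) = false := by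
  rw [Bool.eq_false_iff, ne_eq, gen_eq_true]
  rintro ⟨c, _, h2⟩
  simp at h2

end Pool.Agent.T9h19.RM
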