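import Mathlib

/-!
# The adversary for pebbling a triangular grid

Nodes are pairs `(a, b)` with `a + b ≤ h`. The adversary answers `1` as long as there remains a
path from `(0, 0)` to the level `a + b = h` which avoids all nodes with answer `1`.
-/

set_option autoImplicit false

namespace Pool.Agent.T9h19.RM

open Finset

/-- `Op Q k a b`: there is a path of `k` steps from `(a, b)`, each step increasing one coordinate
by one, which avoids `Q`. -/
def Op (Q : Finset (ℕ × ℕ)) : ℕ → ℕ → ℕ → Prop
  | 0, a, b => (a, b) ∉ Q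
  | k + 1, a, b => (a, b) ∉ Q ∧ (Op Q k (a + 1) b ∨ Op Q k a (b + 1))

lemma Op.notMem {Q : Finset (ℕ × ℕ)} {k a b : ℕ} (h : Op Q k a b) : (a, b) ∉ Q := by
  cases k with
  | zero => exact h
  | succ k => exact h.1

lemma Op.anti {Q Q' : Finset (ℕ × ℕ)} (hQ : Q ⊆ Q') {k : ℕ} : ∀ {a b : ℕ}, Op Q' k a b →
    Op Q k a b := by
  induction k with
  | zero => intro a b h h'; exact h (hQ h')
  | succ k ih =>
    intro a b h
    refine ⟨fun h' => h.1 (hQ h'), ?_⟩
    rcases h.2 with h1 | h1
    · exact Or.inl (ih h1)
    · exact Or.inr (ih h1)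

lemma Op.ray1 {Q : Finset (ℕ × ℕ)} {k : ℕ} : ∀ {a b : ℕ}, (∀ s ≤ k, (a + s, b) ∉ Q) →
    Op Q k a b := by
  induction k with
  | zero => intro a b h; exact h 0 le_rfl
  | succ k ih =>
    intro a b h
    refine ⟨h 0 (Nat.zero_le _), Or.inl (ih fun s hs => ?_)⟩
    have := h (s + 1) (by omega)
    rwa [show a + (s + 1) = a + 1 + s by omega] at this

lemma Op.ray2 {Q : Finset (ℕ × ℕ)} {k : ℕ} : ∀ {a b : ℕ}, (∀ s ≤ k, (a, b + s) ∉ Q) →
    Op Q k a b := by
  induction k with
  | zero => intro a b h; exact h 0 le_rfl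
  | succ k ih =>
    intro a b h
    refine ⟨h 0 (Nat.zero_le _), Or.inr (ih fun s hs => ?_)⟩
    have := h (s + 1) (by omega)
    rwa [show b + (s + 1) = b + 1 + s by omega] at this

/-- the elements of `Q` above `(a, b)` but not above `v` -/
def reg (Q : Finset (ℕ × ℕ)) (a b : ℕ) (v : ℕ × ℕ) : Finset (ℕ × ℕ) :=
  Q.filter (fun u => a ≤ u.1 ∧ b ≤ u.2 ∧ ¬ (v.1 ≤ u.1 ∧ v.2 ≤ u.2))

/-- If all open paths from `(a, b)` pass through `v`, then there are many elements of `Q`. -/
lemma Op.cut {Q : Finset (ℕ × ℕ)} {v : ℕ × ℕ} {k : ℕ} : ∀ {a b : ℕ}, Op Q k a b →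
    ¬ Op (insert v Q) k a b → a ≤ v.1 ∧ b ≤ v.2 ∧ v.1 + v.2 ≤ a + b + (reg Q a b v).card := by
  induction k with
  | zero =>
    intro a b h h'
    have h1 : (a, b) ∈ insert v Q := not_not.mp h'
    rcases mem_insert.mp h1 with h2 | h2
    · subst h2; simp
    · exact absurd h2 h
  | succ k ih =>
    intro a b h h'
    by_cases hv : (a, b) = v
    · subst hv; simp
    · have hab : (a, b) ∉ insert v Q := by
        rw [mem_insert, not_or]
        exact ⟨hv, h.1⟩
      have h1 : ¬ Op (insert v Q) k (a + 1) b := fun hh => h' ⟨hab, Or.inl hh⟩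
      have h2 : ¬ Op (insert v Q) k a (b + 1) := fun hh => h' ⟨hab, Or.inr hh⟩
      rcases h.2 with h3 | h3
      · obtain ⟨i1, i2, i3⟩ := ih h3 h1
        -- the ray in the second direction
        have hex : ∃ s ≤ k, (a, b + 1 + s) ∈ insert v Q := by
          by_contra hc
          push Not at hc
          exact h2 (Op.ray2 hc)
        obtain ⟨s, hs, hm⟩ := hex
        have hc : (a, b + 1 + s) ∈ Q := by
          rcases mem_insert.mp hm with h4 | h4
          · rw [← h4] at i1
            simp at i1
          · exact h4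
        have hlt : (reg Q (a + 1) b v).card < (reg Q a b v).card := by
          apply card_lt_card
          rw [ssubset_iff_of_subset]
          · refine ⟨(a, b + 1 + s), ?_, ?_⟩
            · exact mem_filter.mpr ⟨hc, le_rfl, by simp only; omega, fun h5 => by
                have := h5.1; simp only at this; omega⟩
            · intro h5
              have := (mem_filter.mp h5).2.1
              simp at this
          · intro u hu
            obtain ⟨h5, h6, h7, h8⟩ := mem_filter.mp hu
            exact mem_filter.mpr ⟨h5, by omega, h7, h8⟩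
        exact ⟨by omega, i2, by omega⟩
      · obtain ⟨i1, i2, i3⟩ := ih h3 h2
        have hex : ∃ s ≤ k, (a + 1 + s, b) ∈ insert v Q := by
          by_contra hc
          push Not at hc
          exact h1 (Op.ray1 hc)
        obtain ⟨s, hs, hm⟩ := hex
        have hc : (a + 1 + s, b) ∈ Q := by
          rcases mem_insert.mp hm with h4 | h4
          · rw [← h4] at i2
            simp at i2
          · exact h4
        have hlt : (reg Q a (b + 1) v).card < (reg Q a b v).card := by
          apply card_lt_card
          rw [ssubset_iff_of_subset]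
          · refine ⟨(a + 1 + s, b), ?_, ?_⟩
            · exact mem_filter.mpr ⟨hc, by simp only; omega, le_rfl, fun h5 => by
                have := h5.2; simp only at this; omega⟩
            · intro h5
              have := (mem_filter.mp h5).2.2.1
              simp at this
          · intro u hu
            obtain ⟨h5, h6, h7, h8⟩ := mem_filter.mp hu
            exact mem_filter.mpr ⟨h5, h6, by omega, h8⟩
        exact ⟨i1, by omega, by omega⟩

lemma Op.cut_root {Q : Finset (ℕ × ℕ)} {v : ℕ × ℕ} {h : ℕ} (h1 : Op Q h 0 0)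
    (h2 : ¬ Op (insert v Q) h 0 0) : v.1 + v.2 ≤ Q.card := by
  have h3 := (Op.cut h1 h2).2.2
  have h4 : (reg Q 0 0 v).card ≤ Q.card := card_filter_le _ _
  omega

/-- If all open paths pass through `v`, then `v` has an open successor. -/
lemma Op.pass {Q : Finset (ℕ × ℕ)} {v : ℕ × ℕ} {k : ℕ} : ∀ {a b : ℕ}, Op Q k a b →
    ¬ Op (insert v Q) k a b → v.1 + v.2 < a + b + k →
    ((v.1 + 1, v.2) ∉ Q ∨ (v.1, v.2 + 1) ∉ Q) := by
  induction k with
  | zero =>
    intro a b h h' hlt
    have h1 : (a, b) ∈ insert v Q := not_not.mp h'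
    rcases mem_insert.mp h1 with h2 | h2
    · subst h2; simp at hlt
    · exact absurd h2 h
  | succ k ih =>
    intro a b h h' hlt
    by_cases hv : (a, b) = v
    · subst hv
      rcases h.2 with h3 | h3
      · exact Or.inl h3.notMem
      · exact Or.inr h3.notMem
    · have hab : (a, b) ∉ insert v Q := by
        rw [mem_insert, not_or]
        exact ⟨hv, h.1⟩
      have h1 : ¬ Op (insert v Q) k (a + 1) b := fun hh => h' ⟨hab, Or.inl hh⟩
      have h2 : ¬ Op (insert v Q) k a (b + 1) := fun hh => h' ⟨hab, Or.inr hh⟩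
      rcases h.2 with h3 | h3
      · exact ih h3 h1 (by omega)
      · exact ih h3 h2 (by omega)

end Pool.Agent.T9h19.RM
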