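import Mathlib

/-!
# Large sets of bit strings: most coordinates take the value `γ` often
-/

set_option autoImplicit false

namespace Pool.Agent.T9h19.RM

open Finset

variable {m : ℕ}

/-- the coordinates which rarely take the value `γ` on `S` -/
def bad (S : Finset (Fin m → Bool)) (γ : Bool) : Finset (Fin m) :=
  univ.filter (fun u => 16 * (S.filter (fun y => y u = γ)).card < S.card)

/-- the number of coordinates in `T` with value `γ` -/
def cnt (T : Finset (Fin m)) (γ : Bool) (y : Fin m → Bool) : ℕ :=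
  (T.filter (fun u => y u = γ)).card

/-- a weighted count -/
lemma weighted (T : Finset (Fin m)) (γ : Bool) :
    ∑ y : Fin m → Bool, 16 ^ (T.card - cnt T γ y) = 17 ^ T.card * 2 ^ (m - T.card) := by
  classical
  have h1 : ∀ y : Fin m → Bool, 16 ^ (T.card - cnt T γ y) =
      ∏ u : Fin m, (if u ∈ T then (if y u = γ then 1 else 16) else 1) := by
    intro y
    have h2 : T.card - cnt T γ y = (T.filter (fun u => ¬ y u = γ)).card := by
      have := card_filter_add_card_filter_not (s := T) (fun u => y u = γ)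
      unfold cnt
      omega
    rw [h2, prod_ite_mem, univ_inter, prod_ite, prod_const_one, one_mul, prod_const]
  rw [sum_congr rfl fun y _ => h1 y]
  have h3 := (Finset.prod_univ_sum (fun _ : Fin m => (univ : Finset Bool))
    (fun u c => (if u ∈ T then (if c = γ then 1 else 16) else 1 : ℕ)))
  rw [Fintype.piFinset_univ] at h3
  rw [← h3]
  have h4 : ∀ u : Fin m, ∑ c : Bool, (if u ∈ T then (if c = γ then 1 else 16) else 1 : ℕ) =
      if u ∈ T then 17 else 2 := by
    intro u
    by_cases hu : u ∈ T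
    · simp only [if_pos hu]
      cases γ <;> simp
    · simp only [if_neg hu]
      simp
  rw [prod_congr rfl fun u _ => h4 u, prod_ite, prod_const, prod_const]
  congr 2
  · congr 1
    ext u; simp
  · rw [show (univ.filter (fun u : Fin m => u ∉ T)) = Tᶜ by ext u; simp, card_compl,
      Fintype.card_fin]

/-- **Few bad coordinates.** -/
lemma bad_card {S : Finset (Fin m → Bool)} {γ : Bool} {D : ℕ} (hS : 2 ^ m ≤ S.card * 2 ^ D) :
    (bad S γ).card ≤ 4 * (D + 1) := by
  classical
  set T := bad S γ with hT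
  set b := T.card with hb
  by_contra hc
  push Not at hc
  have hSpos : 0 < S.card := by
    rcases Nat.eq_zero_or_pos S.card with h | h
    · rw [h, zero_mul] at hS
      have := Nat.one_le_two_pow (n := m)
      omega
    · exact h
  have hbm : b ≤ m := by
    have := card_le_univ T
    rwa [Fintype.card_fin] at this
  -- the sum of the counts
  have h1 : ∑ y ∈ S, cnt T γ y = ∑ u ∈ T, (S.filter (fun y => y u = γ)).card := by
    simp only [cnt, card_filter]
    exact sum_comm
  have h2 : 16 * ∑ y ∈ S, cnt T γ y ≤ b * S.card := by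
    rw [h1, mul_sum]
    calc ∑ u ∈ T, 16 * (S.filter (fun y => y u = γ)).card ≤ ∑ _u ∈ T, S.card :=
          sum_le_sum fun u hu => (mem_filter.mp hu).2.le
      _ = b * S.card := by rw [sum_const, smul_eq_mul]
  -- the strings with few `γ`
  set S1 := S.filter (fun y => 8 * cnt T γ y ≤ b) with hS1
  set S2 := S.filter (fun y => ¬ 8 * cnt T γ y ≤ b) with hS2
  have h3 : S1.card + S2.card = S.card := card_filter_add_card_filter_not _
  have h4 : S2.card * b ≤ 8 * ∑ y ∈ S, cnt T γ y := by
    calc S2.card * b = ∑ _y ∈ S2, b := by rw [sum_const, smul_eq_mul]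
      _ ≤ ∑ y ∈ S2, 8 * cnt T γ y := sum_le_sum fun y hy => by
        have := (mem_filter.mp hy).2
        omega
      _ ≤ ∑ y ∈ S, 8 * cnt T γ y := sum_le_sum_of_subset (filter_subset _ _)
      _ = 8 * ∑ y ∈ S, cnt T γ y := by rw [mul_sum]
  have h5 : S.card ≤ 2 * S1.card := by
    have h6 : 2 * S2.card * b ≤ S.card * b := by nlinarith
    have h7 : 2 * S2.card ≤ S.card := Nat.le_of_mul_le_mul_right h6 (by omega)
    omega
  -- counting them with weights
  have h6 : S1.card * 16 ^ b ≤ 2 ^ (b / 2) * (17 ^ b * 2 ^ (m - b)) := by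
    rw [← weighted T γ, mul_sum]
    calc S1.card * 16 ^ b = ∑ _y ∈ S1, 16 ^ b := by rw [sum_const, smul_eq_mul]
      _ ≤ ∑ y ∈ S1, 2 ^ (b / 2) * 16 ^ (T.card - cnt T γ y) := sum_le_sum fun y hy => by
        have h8 := (mem_filter.mp hy).2
        have h9 : (16 : ℕ) = 2 ^ 4 := by norm_num
        rw [h9, ← pow_mul, ← pow_mul, ← pow_add]
        apply Nat.pow_le_pow_right (by norm_num)
        omega
      _ ≤ ∑ y : Fin m → Bool, 2 ^ (b / 2) * 16 ^ (T.card - cnt T γ y) :=
        sum_le_sum_of_subset (subset_univ _)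
  have h7 : 2 ^ m * 16 ^ b ≤ 2 ^ (D + 1) * (2 ^ (b / 2) * (17 ^ b * 2 ^ (m - b))) := by
    calc 2 ^ m * 16 ^ b ≤ (S.card * 2 ^ D) * 16 ^ b := Nat.mul_le_mul_right _ hS
      _ ≤ (2 * S1.card * 2 ^ D) * 16 ^ b :=
        Nat.mul_le_mul_right _ (Nat.mul_le_mul_right _ h5)
      _ = 2 ^ (D + 1) * (S1.card * 16 ^ b) := by ring
      _ ≤ _ := Nat.mul_le_mul_left _ h6
  have h8 : 2 ^ m = 2 ^ (m - b) * 2 ^ b := by rw [← pow_add]; congr 1; omega
  have h9 : 32 ^ b ≤ 2 ^ (D + 1 + b / 2) * 17 ^ b := by
    have h10 : 2 ^ (m - b) * 32 ^ b ≤ 2 ^ (m - b) * (2 ^ (D + 1 + b / 2) * 17 ^ b) := by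
      calc 2 ^ (m - b) * 32 ^ b = 2 ^ m * 16 ^ b := by
            rw [h8, mul_assoc, ← mul_pow]; norm_num
        _ ≤ _ := h7
        _ = _ := by rw [pow_add 2 (D + 1)]; ring
    exact Nat.le_of_mul_le_mul_left h10 (by positivity)
  -- fourth powers
  have h11 : (32 ^ b) ^ 4 ≤ (2 ^ (D + 1 + b / 2) * 17 ^ b) ^ 4 := Nat.pow_le_pow_left h9 4
  have h12 : (2 ^ (D + 1 + b / 2) * 17 ^ b) ^ 4 ≤ 2 ^ (3 * b) * (17 ^ b) ^ 4 := by
    rw [mul_pow, ← pow_mul]
    apply Nat.mul_le_mul_right
    apply Nat.pow_le_pow_right (by norm_num)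
    omega
  have h13 : (32 ^ b) ^ 4 = 1048576 ^ b := by
    rw [← pow_mul, mul_comm, pow_mul]; norm_num
  have h14 : 2 ^ (3 * b) * (17 ^ b) ^ 4 = 668168 ^ b := by
    rw [← pow_mul 17, mul_comm b 4, pow_mul 17, pow_mul 2, ← mul_pow]; norm_num
  have h15 : 668168 ^ b < 1048576 ^ b := Nat.pow_lt_pow_left (by norm_num) (by omega)
  omega

/-! ### tuples of coordinates -/

/-- all strings of `S` miss the value `γ` somewhere on the tuple `u` -/
def Miss (S : Finset (Fin m → Bool)) (γ : Bool) {k : ℕ} (u : Fin k → Fin m) : Prop :=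
  ∀ y ∈ S, ∃ j, y (u j) ≠ γ

open Classical in
/-- **Most tuples are good.** -/
lemma miss_card (γ : Bool) (k : ℕ) : ∀ (D : ℕ) (S : Finset (Fin m → Bool)),
    2 ^ m ≤ S.card * 2 ^ D →
    (univ.filter (fun u : Fin k → Fin m => Miss S γ u)).card * m ≤
      4 * k * (D + 4 * k) * m ^ k := by
  induction k with
  | zero =>
    intro D S hS
    have hne : S.Nonempty := by
      rw [← card_pos]
      rcases Nat.eq_zero_or_pos S.card with h | h
      · rw [h, zero_mul] at hS
        have := Nat.one_le_two_pow (n := m)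
        omega
      · exact h
    obtain ⟨y, hy⟩ := hne
    have : (univ.filter (fun u : Fin 0 → Fin m => Miss S γ u)) = ∅ := by
      rw [filter_eq_empty_iff]
      intro u _ h
      obtain ⟨j, _⟩ := h y hy
      exact j.elim0
    rw [this]; simp
  | succ k ih =>
    intro D S hS
    -- fibre over the first coordinate
    have h1 : (univ.filter (fun u : Fin (k + 1) → Fin m => Miss S γ u)).card =
        ∑ u0 : Fin m, (univ.filter (fun u : Fin k → Fin m =>
          Miss (S.filter (fun y => y u0 = γ)) γ u)).card := by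
      rw [← card_sigma]
      refine card_bij' (fun u _ => ⟨u 0, Fin.tail u⟩) (fun p _ => Fin.cons p.1 p.2) ?_ ?_ ?_ ?_
      · intro u hu
        have hu' := (mem_filter.mp hu).2
        refine mem_sigma.mpr ⟨mem_univ _, mem_filter.mpr ⟨mem_univ _, ?_⟩⟩
        intro y hy
        obtain ⟨hy1, hy2⟩ := mem_filter.mp hy
        obtain ⟨j, hj⟩ := hu' y hy1
        refine Fin.cases ?_ ?_ j hj
        · intro h; exact absurd hy2 h
        · intro i h; exact ⟨i, h⟩
      · rintro ⟨u0, u⟩ hp
        have hp' := (mem_filter.mp (mem_sigma.mp hp).2).2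
        refine mem_filter.mpr ⟨mem_univ _, ?_⟩
        intro y hy
        by_cases h : y u0 = γ
        · obtain ⟨j, hj⟩ := hp' y (mem_filter.mpr ⟨hy, h⟩)
          exact ⟨j.succ, by simpa using hj⟩
        · exact ⟨0, by simpa using h⟩
      · intro u _
        exact Fin.cons_self_tail u
      · rintro ⟨u0, u⟩ _
        simp
    have h2 : ∀ u0 : Fin m, (univ.filter (fun u : Fin k → Fin m =>
        Miss (S.filter (fun y => y u0 = γ)) γ u)).card * m ≤
        (if u0 ∈ bad S γ then m ^ k * m else 0) + 4 * k * (D + 4 + 4 * k) * m ^ k := by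
      intro u0
      by_cases hb : u0 ∈ bad S γ
      · rw [if_pos hb]
        have : (univ.filter (fun u : Fin k → Fin m =>
            Miss (S.filter (fun y => y u0 = γ)) γ u)).card ≤ m ^ k := by
          refine (card_le_univ _).trans ?_
          simp
        have := Nat.mul_le_mul_right m this
        omega
      · rw [if_neg hb, zero_add]
        apply ih
        have h3 : S.card ≤ 16 * (S.filter (fun y => y u0 = γ)).card := by
          by_contra hc
          push Not at hc
          exact hb (mem_filter.mpr ⟨mem_univ _, hc⟩)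
        calc 2 ^ m ≤ S.card * 2 ^ D := hS
          _ ≤ 16 * (S.filter (fun y => y u0 = γ)).card * 2 ^ D := Nat.mul_le_mul_right _ h3
          _ = _ := by rw [pow_add]; ring
    rw [h1, sum_mul]
    refine (sum_le_sum fun u0 _ => h2 u0).trans ?_
    rw [sum_add_distrib, ← sum_filter, sum_const, sum_const, smul_eq_mul, smul_eq_mul]
    have h3 : (univ.filter (fun u0 : Fin m => u0 ∈ bad S γ)).card ≤ 4 * (D + 1) := by
      rw [filter_univ_mem]
      exact bad_card hS
    have h4 : (univ : Finset (Fin m)).card = m := by simp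
    rw [h4]
    calc (univ.filter (fun u0 : Fin m => u0 ∈ bad S γ)).card * (m ^ k * m) +
          m * (4 * k * (D + 4 + 4 * k) * m ^ k)
        ≤ 4 * (D + 1) * (m ^ k * m) + m * (4 * k * (D + 4 + 4 * k) * m ^ k) :=
          Nat.add_le_add_right (Nat.mul_le_mul_right _ h3) _
      _ = (4 * (D + 1) + 4 * k * (D + 4 + 4 * k)) * m ^ (k + 1) := by ring
      _ ≤ 4 * (k + 1) * (D + 4 * (k + 1)) * m ^ (k + 1) := by
          apply Nat.mul_le_mul_right
          nlinarith

end Pool.Agent.T9h19.RM
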