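import Mathlib

/-!
# Projections of sets of functions, thick sets
-/

set_option autoImplicit false

namespace Pool.Agent.T9h19.RM

open Finset

variable {ι α : Type} [Fintype ι] [DecidableEq ι] [Fintype α] [DecidableEq α] [Inhabited α]

/-- forget the coordinates outside `I` -/
def mask (I : Finset ι) (x : ι → α) : ι → α := fun i => if i ∈ I then x i else default

lemma mask_mem {I : Finset ι} {x : ι → α} {i : ι} (hi : i ∈ I) : mask I x i = x i := if_pos hi

lemma mask_notMem {I : Finset ι} {x : ι → α} {i : ι} (hi : i ∉ I) : mask I x i = default :=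
  if_neg hi

lemma mask_eq_iff {I : Finset ι} {x y : ι → α} : mask I x = mask I y ↔ ∀ i ∈ I, x i = y i := by
  constructor
  · intro h i hi
    have := congrFun h i
    rwa [mask_mem hi, mask_mem hi] at this
  · intro h
    funext i
    by_cases hi : i ∈ I
    · rw [mask_mem hi, mask_mem hi, h i hi]
    · rw [mask_notMem hi, mask_notMem hi]

lemma mask_mask {I J : Finset ι} (hJ : J ⊆ I) (x : ι → α) : mask J (mask I x) = mask J x := by
  rw [mask_eq_iff]
  intro i hi
  exact mask_mem (hJ hi)

/-- projection -/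
def pr (I : Finset ι) (A : Finset (ι → α)) : Finset (ι → α) := A.image (mask I)

lemma mem_pr {I : Finset ι} {A : Finset (ι → α)} {g : ι → α} :
    g ∈ pr I A ↔ ∃ a ∈ A, mask I a = g := mem_image

lemma pr_pr {I J : Finset ι} (hJ : J ⊆ I) (A : Finset (ι → α)) : pr J (pr I A) = pr J A := by
  unfold pr
  rw [image_image]
  congr 1
  funext x
  exact mask_mask hJ x

lemma pr_mono (I : Finset ι) {A B : Finset (ι → α)} (h : A ⊆ B) : pr I A ⊆ pr I B :=
  image_subset_image h

lemma pr_card_le (I : Finset ι) (A : Finset (ι → α)) :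
    (pr I A).card ≤ Fintype.card α ^ I.card := by
  have h1 : pr I A ⊆ Fintype.piFinset (fun i => if i ∈ I then (univ : Finset α) else {default}) := by
    intro g hg
    obtain ⟨a, _, rfl⟩ := mem_pr.mp hg
    rw [Fintype.mem_piFinset]
    intro i
    by_cases hi : i ∈ I
    · rw [if_pos hi]; exact mem_univ _
    · rw [if_neg hi, mask_notMem hi]; exact mem_singleton_self _
  refine (card_le_card h1).trans ?_
  rw [Fintype.card_piFinset]
  have h2 : ∀ i, (if i ∈ I then (univ : Finset α) else {default}).card =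
      if i ∈ I then Fintype.card α else 1 := by
    intro i
    split_ifs
    · exact card_univ
    · exact card_singleton _
  rw [prod_congr rfl fun i _ => h2 i, prod_ite_mem, univ_inter, prod_const]

lemma pr_univ_card (I : Finset ι) :
    (pr I (univ : Finset (ι → α))).card = Fintype.card α ^ I.card := by
  apply le_antisymm (pr_card_le _ _)
  have h1 : Fintype.piFinset (fun i => if i ∈ I then (univ : Finset α) else {default}) ⊆
      pr I (univ : Finset (ι → α)) := by
    intro g hg
    rw [Fintype.mem_piFinset] at hg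
    refine mem_pr.mpr ⟨g, mem_univ _, ?_⟩
    funext i
    by_cases hi : i ∈ I
    · exact mask_mem hi
    · have := hg i
      rw [if_neg hi] at this
      rw [mask_notMem hi, mem_singleton.mp this]
  refine le_trans (le_of_eq ?_) (card_le_card h1)
  rw [Fintype.card_piFinset]
  have h2 : ∀ i, (if i ∈ I then (univ : Finset α) else {default}).card =
      if i ∈ I then Fintype.card α else 1 := by
    intro i
    split_ifs
    · exact card_univ
    · exact card_singleton _
  rw [prod_congr rfl fun i _ => h2 i, prod_ite_mem, univ_inter, prod_const]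

/-- the line through `g` in direction `i` -/
def line (I : Finset ι) (G : Finset (ι → α)) (i : ι) (g : ι → α) : Finset (ι → α) :=
  G.filter (fun g' => mask (I.erase i) g' = mask (I.erase i) g)

/-- all lines have at least `T` elements -/
def Thick (T : ℕ) (I : Finset ι) (G : Finset (ι → α)) : Prop :=
  ∀ i ∈ I, ∀ g ∈ G, T ≤ (line I G i g).card

/-- **Pruning.** -/
lemma prune (T : ℕ) (I : Finset ι) (G : Finset (ι → α)) : ∃ G' ⊆ G, Thick T I G' ∧
    G.card + T * ∑ i ∈ I, (pr (I.erase i) G').card ≤
      G'.card + T * ∑ i ∈ I, (pr (I.erase i) G).card := by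
  induction hn : G.card using Nat.strong_induction_on generalizing G with
  | _ n ih =>
    by_cases hG : Thick T I G
    · exact ⟨G, Subset.rfl, hG, by rw [hn]⟩
    · unfold Thick at hG
      push Not at hG
      obtain ⟨i, hi, g, hg, hlt⟩ := hG
      set L := line I G i g with hL
      have hLG : L ⊆ G := filter_subset _ _
      have hgL : g ∈ L := mem_filter.mpr ⟨hg, rfl⟩
      have hcard : (G \ L).card + L.card = G.card := card_sdiff_add_card_eq_card hLG
      have hLpos : 0 < L.card := card_pos.mpr ⟨g, hgL⟩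
      obtain ⟨G', h1, h2, h3⟩ := ih (G \ L).card (by omega) (G \ L) rfl
      refine ⟨G', h1.trans sdiff_subset, h2, ?_⟩
      -- the projections
      have h4 : ∀ j ∈ I, (pr (I.erase j) (G \ L)).card ≤ (pr (I.erase j) G).card :=
        fun j _ => card_le_card (pr_mono _ sdiff_subset)
      have h5 : (pr (I.erase i) (G \ L)).card + 1 ≤ (pr (I.erase i) G).card := by
        apply card_lt_card
        rw [ssubset_iff_of_subset (pr_mono _ sdiff_subset)]
        refine ⟨mask (I.erase i) g, mem_pr.mpr ⟨g, hg, rfl⟩, ?_⟩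
        intro hmem
        obtain ⟨a, ha, ha'⟩ := mem_pr.mp hmem
        obtain ⟨ha1, ha2⟩ := mem_sdiff.mp ha
        exact ha2 (mem_filter.mpr ⟨ha1, ha'⟩)
      have h6 : (∑ j ∈ I, (pr (I.erase j) (G \ L)).card) + 1 ≤
          ∑ j ∈ I, (pr (I.erase j) G).card := by
        rw [← add_sum_erase _ _ hi, ← add_sum_erase _ _ hi]
        have : ∑ j ∈ I.erase i, (pr (I.erase j) (G \ L)).card ≤
            ∑ j ∈ I.erase i, (pr (I.erase j) G).card :=
          sum_le_sum fun j hj => h4 j (mem_of_mem_erase hj)
        omega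
      have h7 := Nat.mul_le_mul_left T h6
      rw [mul_add, mul_one] at h7
      omega

/-- the values at `i` on the line through `g` -/
def vals (I : Finset ι) (A : Finset (ι → α)) (i : ι) (g : ι → α) : Finset α :=
  (A.filter (fun a => mask (I.erase i) a = mask (I.erase i) g)).image (fun a => a i)

lemma vals_card {I : Finset ι} {A : Finset (ι → α)} {i : ι} (hi : i ∈ I) (g : ι → α) :
    (line I (pr I A) i g).card ≤ (vals I A i g).card := by
  have h1 : ((line I (pr I A) i g).image (fun a => a i)) ⊆ vals I A i g := by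
    intro v hv
    obtain ⟨g', hg', rfl⟩ := mem_image.mp hv
    obtain ⟨h2, h3⟩ := mem_filter.mp hg'
    obtain ⟨a, ha, rfl⟩ := mem_pr.mp h2
    refine mem_image.mpr ⟨a, mem_filter.mpr ⟨ha, ?_⟩, (mask_mem hi).symm⟩
    rw [← h3, mask_mask (erase_subset _ _)]
  refine le_trans (le_of_eq ?_) (card_le_card h1)
  rw [card_image_of_injOn]
  intro a ha b hb hab
  have ha' := mem_filter.mp (mem_coe.mp ha)
  have hb' := mem_filter.mp (mem_coe.mp hb)
  obtain ⟨a0, _, rfl⟩ := mem_pr.mp ha'.1
  obtain ⟨b0, _, rfl⟩ := mem_pr.mp hb'.1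
  rw [mask_eq_iff]
  intro j hj
  by_cases hji : j = i
  · subst hji
    simpa only [mask_mem hi] using hab
  · have h4 : mask (I.erase i) (mask I a0) = mask (I.erase i) (mask I b0) := ha'.2.trans hb'.2.symm
    rw [mask_mask (erase_subset _ _), mask_mask (erase_subset _ _), mask_eq_iff] at h4
    exact h4 j (mem_erase.mpr ⟨hji, hj⟩)

/-- projections of thick sets are thick -/
lemma Thick.erase {T : ℕ} {I : Finset ι} {A : Finset (ι → α)} (h : Thick T I (pr I A)) {i : ι} :
    Thick T (I.erase i) (pr (I.erase i) A) := by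
  intro j hj g hg
  obtain ⟨a, ha, rfl⟩ := mem_pr.mp hg
  have hjI := mem_of_mem_erase hj
  have hji := ne_of_mem_erase hj
  refine (h j hjI (mask I a) (mem_pr.mpr ⟨a, ha, rfl⟩)).trans ?_
  have h1 : (line I (pr I A) j (mask I a)).image (mask (I.erase i)) ⊆
      line (I.erase i) (pr (I.erase i) A) j (mask (I.erase i) a) := by
    intro g' hg'
    obtain ⟨g0, hg0, rfl⟩ := mem_image.mp hg'
    obtain ⟨h2, h3⟩ := mem_filter.mp hg0
    obtain ⟨b, hb, rfl⟩ := mem_pr.mp h2
    rw [mask_mask (erase_subset _ _), mask_mask (erase_subset _ _), mask_eq_iff] at h3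
    refine mem_filter.mpr ⟨mem_pr.mpr ⟨b, hb, (mask_mask (erase_subset _ _) b).symm⟩, ?_⟩
    rw [mask_mask (erase_subset _ _), mask_mask (erase_subset _ _),
      mask_mask ((erase_subset _ _).trans (erase_subset _ _)), mask_eq_iff]
    intro l hl
    exact h3 l (mem_erase.mpr ⟨ne_of_mem_erase hl, mem_of_mem_erase (mem_of_mem_erase hl)⟩)
  refine le_trans (le_of_eq ?_) (card_le_card h1)
  rw [card_image_of_injOn]
  intro x hx y hy hxy
  have hx' := mem_filter.mp (mem_coe.mp hx)
  have hy' := mem_filter.mp (mem_coe.mp hy)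
  obtain ⟨x0, _, rfl⟩ := mem_pr.mp hx'.1
  obtain ⟨y0, _, rfl⟩ := mem_pr.mp hy'.1
  have h4 := hx'.2.trans hy'.2.symm
  rw [mask_mask (erase_subset _ _), mask_mask (erase_subset _ _), mask_eq_iff] at h4
  have h5 : mask (I.erase i) (mask I x0) = mask (I.erase i) (mask I y0) := hxy
  rw [mask_mask (erase_subset _ _), mask_mask (erase_subset _ _), mask_eq_iff] at h5
  rw [mask_eq_iff]
  intro l hl
  by_cases hlj : l = j
  · subst hlj
    exact h5 l (mem_erase.mpr ⟨hji, hl⟩)
  · exact h4 l (mem_erase.mpr ⟨hlj, hl⟩)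

end Pool.Agent.T9h19.RM
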