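import Mathlib
import Pool.Agent.T9h19.RM.Bad
import Pool.Agent.T9h19.RM.Thick

/-!
# The projection lemma for the index gadget
-/

set_option autoImplicit false

namespace Pool.Agent.T9h19.RM

open Finset

variable {ι : Type} [Fintype ι] [DecidableEq ι]

section general

variable {α : Type} [Fintype α] [DecidableEq α] [Inhabited α]

lemma vals_congr {I : Finset ι} {A : Finset (ι → α)} {i : ι} {g g' : ι → α}
    (h : mask (I.erase i) g = mask (I.erase i) g') : vals I A i g = vals I A i g' := by
  unfold vals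
  rw [h]

lemma mask_self_of_mem_pr {I : Finset ι} {A : Finset (ι → α)} {r : ι → α} (hr : r ∈ pr I A) :
    mask I r = r := by
  obtain ⟨a, _, rfl⟩ := mem_pr.mp hr
  exact mask_mask Subset.rfl a

lemma Thick.vals {T : ℕ} {I : Finset ι} {A : Finset (ι → α)} (h : Thick T I (pr I A)) {i : ι}
    (hi : i ∈ I) {r : ι → α} (hr : r ∈ pr (I.erase i) A) : T ≤ (vals I A i r).card := by
  obtain ⟨a, ha, rfl⟩ := mem_pr.mp hr
  refine (h i hi (mask I a) (mem_pr.mpr ⟨a, ha, rfl⟩)).trans ((vals_card hi _).trans ?_)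
  rw [vals_congr (g := mask I a) (g' := mask (I.erase i) a)]
  rw [mask_mask (erase_subset _ _), mask_mask Subset.rfl]

lemma pr_card_le_sum {I : Finset ι} {A : Finset (ι → α)} {i : ι} (hi : i ∈ I) :
    (pr I A).card ≤ ∑ r ∈ pr (I.erase i) A, (vals I A i r).card := by
  have h1 : ∀ g ∈ pr I A, mask (I.erase i) g ∈ pr (I.erase i) A := by
    intro g hg
    obtain ⟨a, ha, rfl⟩ := mem_pr.mp hg
    exact mem_pr.mpr ⟨a, ha, (mask_mask (erase_subset _ _) a).symm⟩
  rw [card_eq_sum_card_fiberwise h1]
  refine sum_le_sum fun r hr => ?_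
  refine le_trans (le_of_eq ?_) (vals_card (A := A) hi r)
  unfold line
  rw [mask_self_of_mem_pr hr]

end general

open Classical in
/-- **The projection lemma.** -/
lemma proj {m : ℕ} [NeZero m] {k T D : ℕ} {I : Finset ι} {i : ι} (hi : i ∈ I) (γ : Bool)
    {A : Finset (ι → Fin m)} {B : Finset (ι → (Fin m → Bool))}
    (hA : Thick T I (pr I A)) (hB : (2 ^ m) ^ I.card ≤ (pr I B).card * 2 ^ D)
    (hk : 4 * (m ^ I.card * (m - T) ^ k) ≤ m ^ k) (hm : 16 * k * (D + 1 + 4 * k) ≤ m) :
    ∃ A' ⊆ A, ∃ B' ⊆ B, (∀ a ∈ A', ∀ b ∈ B', b i (a i) = γ) ∧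
      pr (I.erase i) A' = pr (I.erase i) A ∧
      (2 ^ m) ^ (I.erase i).card ≤ (pr (I.erase i) B').card * 2 ^ (D + 2) := by
  have hm0 : 0 < m := Nat.pos_of_ne_zero (NeZero.ne m)
  have hIc : (I.erase i).card + 1 = I.card := card_erase_add_one hi
  -- tuples which miss some set of values
  set BH : Finset (Fin k → Fin m) :=
    (pr (I.erase i) A).biUnion (fun r => Fintype.piFinset (fun _ => (vals I A i r)ᶜ)) with hBH
  have hBHc : 4 * BH.card ≤ m ^ k := by
    have h1 : BH.card ≤ m ^ I.card * (m - T) ^ k := by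
      refine card_biUnion_le.trans ?_
      calc ∑ r ∈ pr (I.erase i) A, (Fintype.piFinset (fun _ : Fin k => (vals I A i r)ᶜ)).card
          ≤ ∑ _r ∈ pr (I.erase i) A, (m - T) ^ k := by
            refine sum_le_sum fun r hr => ?_
            rw [Fintype.card_piFinset_const, card_compl, Fintype.card_fin]
            have := hA.vals hi hr
            exact Nat.pow_le_pow_left (by omega) _
        _ = (pr (I.erase i) A).card * (m - T) ^ k := by rw [sum_const, smul_eq_mul]
        _ ≤ m ^ I.card * (m - T) ^ k := by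
            apply Nat.mul_le_mul_right
            refine (pr_card_le _ _).trans ?_
            rw [Fintype.card_fin]
            exact Nat.pow_le_pow_right hm0 (by omega)
    omega
  -- the large fibres of `B`
  set Y := (pr (I.erase i) B).filter (fun r => 2 ^ m ≤ (vals I B i r).card * 2 ^ (D + 1)) with hY
  have hYc : (2 ^ m) ^ (I.erase i).card ≤ Y.card * 2 ^ (D + 1) := by
    have h1 := pr_card_le_sum (A := B) hi
    rw [← sum_filter_add_sum_filter_not (pr (I.erase i) B)
      (fun r => 2 ^ m ≤ (vals I B i r).card * 2 ^ (D + 1))] at h1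
    set s1 := ∑ r ∈ (pr (I.erase i) B).filter
      (fun r => 2 ^ m ≤ (vals I B i r).card * 2 ^ (D + 1)), (vals I B i r).card with hs1
    set s2 := ∑ r ∈ (pr (I.erase i) B).filter
      (fun r => ¬ 2 ^ m ≤ (vals I B i r).card * 2 ^ (D + 1)), (vals I B i r).card with hs2
    have h2 : s1 ≤ Y.card * 2 ^ m := by
      calc s1 ≤ ∑ _r ∈ Y, 2 ^ m := by
            refine sum_le_sum fun r _ => ?_
            refine (card_le_univ _).trans ?_
            simp
        _ = Y.card * 2 ^ m := by rw [sum_const, smul_eq_mul]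
    have h3 : s2 * 2 ^ (D + 1) ≤ (2 ^ m) ^ I.card := by
      calc s2 * 2 ^ (D + 1) = ∑ r ∈ (pr (I.erase i) B).filter
            (fun r => ¬ 2 ^ m ≤ (vals I B i r).card * 2 ^ (D + 1)),
              (vals I B i r).card * 2 ^ (D + 1) := by rw [hs2, sum_mul]
        _ ≤ ∑ _r ∈ (pr (I.erase i) B).filter
            (fun r => ¬ 2 ^ m ≤ (vals I B i r).card * 2 ^ (D + 1)), 2 ^ m :=
            sum_le_sum fun r hr => by
              have := (mem_filter.mp hr).2
              omega
        _ ≤ (pr (I.erase i) B).card * 2 ^ m := by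
            rw [sum_const, smul_eq_mul]
            exact Nat.mul_le_mul_right _ (card_filter_le _ _)
        _ ≤ (2 ^ m) ^ (I.erase i).card * 2 ^ m := by
            apply Nat.mul_le_mul_right
            refine (pr_card_le _ _).trans ?_
            simp
        _ = (2 ^ m) ^ I.card := by rw [← pow_succ, hIc]
    have h4 : 2 * s2 ≤ (pr I B).card := by
      have h5 : 2 * s2 * 2 ^ D ≤ (pr I B).card * 2 ^ D := by
        calc 2 * s2 * 2 ^ D = s2 * 2 ^ (D + 1) := by ring
          _ ≤ _ := h3.trans hB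
      exact Nat.le_of_mul_le_mul_right h5 (by positivity)
    have h5 : (pr I B).card ≤ 2 * (Y.card * 2 ^ m) := by omega
    have h6 : (2 ^ m) ^ (I.erase i).card * 2 ^ m ≤ Y.card * 2 ^ (D + 1) * 2 ^ m := by
      calc (2 ^ m) ^ (I.erase i).card * 2 ^ m = (2 ^ m) ^ I.card := by rw [← pow_succ, hIc]
        _ ≤ (pr I B).card * 2 ^ D := hB
        _ ≤ 2 * (Y.card * 2 ^ m) * 2 ^ D := Nat.mul_le_mul_right _ h5
        _ = _ := by ring
    exact Nat.le_of_mul_le_mul_right h6 (by positivity)
  -- the choice of the tuple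
  obtain ⟨u, hu1, hu2⟩ : ∃ u : Fin k → Fin m, u ∉ BH ∧
      2 * (Y.filter (fun r => Miss (vals I B i r) γ u)).card ≤ Y.card := by
    by_contra hc
    push Not at hc
    have h1 : ∀ r ∈ Y, 4 * (univ.filter (fun u : Fin k → Fin m =>
        Miss (vals I B i r) γ u)).card ≤ m ^ k := by
      intro r hr
      have h2 := miss_card γ k (D + 1) (vals I B i r) (mem_filter.mp hr).2
      have h3 : 4 * (univ.filter (fun u : Fin k → Fin m =>
          Miss (vals I B i r) γ u)).card * m ≤ m ^ k * m := by
        calc 4 * (univ.filter (fun u : Fin k → Fin m => Miss (vals I B i r) γ u)).card * m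
            = 4 * ((univ.filter (fun u : Fin k → Fin m =>
                Miss (vals I B i r) γ u)).card * m) := by ring
          _ ≤ 4 * (4 * k * (D + 1 + 4 * k) * m ^ k) := Nat.mul_le_mul_left _ h2
          _ = 16 * k * (D + 1 + 4 * k) * m ^ k := by ring
          _ ≤ m * m ^ k := Nat.mul_le_mul_right _ hm
          _ = m ^ k * m := mul_comm _ _
      exact Nat.le_of_mul_le_mul_right h3 hm0
    have h2 : 2 * ((univ \ BH).card * (Y.card + 1)) ≤ Y.card * m ^ k := by
      calc 2 * ((univ \ BH).card * (Y.card + 1))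
          = 2 * ∑ _u ∈ univ \ BH, (Y.card + 1) := by rw [sum_const, smul_eq_mul]
        _ ≤ 2 * ∑ u ∈ univ \ BH,
            2 * (Y.filter (fun r => Miss (vals I B i r) γ u)).card := by
            apply Nat.mul_le_mul_left
            exact sum_le_sum fun u hu => hc u (mem_sdiff.mp hu).2
        _ ≤ 2 * ∑ u : Fin k → Fin m,
            2 * (Y.filter (fun r => Miss (vals I B i r) γ u)).card := by
            apply Nat.mul_le_mul_left
            exact sum_le_sum_of_subset (subset_univ _)
        _ = 4 * ∑ u : Fin k → Fin m, (Y.filter (fun r => Miss (vals I B i r) γ u)).card := by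
            rw [← mul_sum]; ring
        _ = 4 * ∑ r ∈ Y, (univ.filter (fun u : Fin k → Fin m =>
              Miss (vals I B i r) γ u)).card := by
            congr 1
            simp only [card_filter]
            exact sum_comm
        _ = ∑ r ∈ Y, 4 * (univ.filter (fun u : Fin k → Fin m =>
              Miss (vals I B i r) γ u)).card := by rw [mul_sum]
        _ ≤ ∑ _r ∈ Y, m ^ k := sum_le_sum h1
        _ = Y.card * m ^ k := by rw [sum_const, smul_eq_mul]
    have h3 : (univ \ BH).card + BH.card = m ^ k := by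
      rw [card_sdiff_add_card_eq_card (subset_univ _), card_univ]
      simp
    have h4 : m ^ k ≤ 2 * (univ \ BH).card := by omega
    have h5 : 0 < m ^ k := pow_pos hm0 k
    have h6 : m ^ k * (Y.card + 1) ≤ 2 * (univ \ BH).card * (Y.card + 1) :=
      Nat.mul_le_mul_right _ h4
    nlinarith
  refine ⟨A.filter (fun a => ∃ j, a i = u j), filter_subset _ _,
    B.filter (fun b => ∀ j, b i (u j) = γ), filter_subset _ _, ?_, ?_, ?_⟩
  · intro a ha b hb
    obtain ⟨j, hj⟩ := (mem_filter.mp ha).2
    rw [hj]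
    exact (mem_filter.mp hb).2 j
  · apply Subset.antisymm (pr_mono _ (filter_subset _ _))
    intro r hr
    have h1 : ∃ j, u j ∈ vals I A i r := by
      by_contra hc
      push Not at hc
      exact hu1 (mem_biUnion.mpr ⟨r, hr, Fintype.mem_piFinset.mpr fun j => mem_compl.mpr (hc j)⟩)
    obtain ⟨j, hj⟩ := h1
    obtain ⟨a, ha, ha'⟩ := mem_image.mp hj
    obtain ⟨h2, h3⟩ := mem_filter.mp ha
    exact mem_pr.mpr ⟨a, mem_filter.mpr ⟨h2, j, ha'⟩, h3.trans (mask_self_of_mem_pr hr)⟩
  · have h1 : (Y.filter (fun r => ¬ Miss (vals I B i r) γ u)) ⊆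
        pr (I.erase i) (B.filter (fun b => ∀ j, b i (u j) = γ)) := by
      intro r hr
      obtain ⟨hr1, hr2⟩ := mem_filter.mp hr
      have hr3 := (mem_filter.mp hr1).1
      unfold Miss at hr2
      push Not at hr2
      obtain ⟨y, hy, hy'⟩ := hr2
      obtain ⟨b, hb, hb'⟩ := mem_image.mp hy
      obtain ⟨h2, h3⟩ := mem_filter.mp hb
      refine mem_pr.mpr ⟨b, mem_filter.mpr ⟨h2, fun j => ?_⟩, h3.trans (mask_self_of_mem_pr hr3)⟩
      rw [hb']
      exact hy' j
    have h2 := card_le_card h1
    have h3 : (Y.filter (fun r => Miss (vals I B i r) γ u)).card +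
        (Y.filter (fun r => ¬ Miss (vals I B i r) γ u)).card = Y.card :=
      card_filter_add_card_filter_not _
    calc (2 ^ m) ^ (I.erase i).card ≤ Y.card * 2 ^ (D + 1) := hYc
      _ ≤ (2 * (pr (I.erase i) (B.filter
            (fun b : ι → Fin m → Bool => ∀ j, b i (u j) = γ))).card) * 2 ^ (D + 1) := by
          apply Nat.mul_le_mul_right
          omega
      _ = _ := by ring

end Pool.Agent.T9h19.RM
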