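import Mathlib
import Pool.Agent.T9h19.RM.Grid
import Pool.Agent.T9h19.RM.Proj
import Pool.Agent.T9h19.RM.Fun

/-!
# Lifting: the monotone depth of the generation function
-/

set_option autoImplicit false

namespace Pool.Agent.T9h19.RM

open Finset

variable {h m : ℕ} [NeZero m]

/-- The state of the simulation: `I` is the set of free nodes, `κ` the number of bits used. -/
structure St (h m : ℕ) [NeZero m] (T κ : ℕ) (I : Finset (Nd h)) (A : Finset (Nd h → Fin m))
    (B : Finset (Nd h → Fin m → Bool)) : Prop where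
  thick : Thick T I (pr I A)
  dA : m ^ I.card * 4 ^ Iᶜ.card ≤ (pr I A).card * 4 ^ κ
  dB : (2 ^ m) ^ I.card ≤ (pr I B).card * 2 ^ (κ + 2 * Iᶜ.card)
  adv : ∃ Q Z : Finset (ℕ × ℕ), Q.card ≤ Iᶜ.card ∧ Op Q h 0 0 ∧
    (∀ z ∈ Z, ¬ Op (insert z Q) h 0 0 ∧ z.1 + z.2 < h) ∧
    ∀ i, i ∉ I → (pos i ∈ Q ∧ ∀ a ∈ A, ∀ b ∈ B, b i (a i) = true) ∨
      (pos i ∈ Z ∧ ∀ a ∈ A, ∀ b ∈ B, b i (a i) = false)

/-- The parameters are suitable. -/
structure Par (h m T k : ℕ) : Prop where
  t2 : 2 ≤ T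
  tm : 16 * (h + 1) ^ 2 * T ≤ m
  hit : 4 * (m ^ ((h + 1) ^ 2) * (m - T) ^ k) ≤ m ^ k
  big : 16 * k * (3 * h + 1 + 4 * k) ≤ m

section St

variable {T k κ : ℕ} {I : Finset (Nd h)} {A : Finset (Nd h → Fin m)}
  {B : Finset (Nd h → Fin m → Bool)}

omit [NeZero m] in
lemma card_nd (I : Finset (Nd h)) : I.card ≤ (h + 1) ^ 2 := by
  refine (card_le_univ I).trans ?_
  simp [sq]

lemma St.q_le (s : St h m T κ I A B) : Iᶜ.card ≤ κ := by
  have h1 := pr_card_le I A
  rw [Fintype.card_fin] at h1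
  have h2 : m ^ I.card * 4 ^ Iᶜ.card ≤ m ^ I.card * 4 ^ κ :=
    s.dA.trans (Nat.mul_le_mul_right _ h1)
  have h3 : 4 ^ Iᶜ.card ≤ 4 ^ κ :=
    Nat.le_of_mul_le_mul_left h2 (pow_pos (Nat.pos_of_ne_zero (NeZero.ne m)) _)
  exact (Nat.pow_le_pow_iff_right (by norm_num)).mp h3

lemma St.neA (s : St h m T κ I A B) : ∃ a, a ∈ A := by
  by_contra hc
  push Not at hc
  have : A = ∅ := eq_empty_of_forall_notMem hc
  have h1 := s.dA
  rw [this] at h1
  have h2 : 0 < m ^ I.card * 4 ^ Iᶜ.card :=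
    Nat.mul_pos (pow_pos (Nat.pos_of_ne_zero (NeZero.ne m)) _) (by positivity)
  simp [pr] at h1
  have h3 : m ≠ 0 := NeZero.ne m
  exact h3 h1.1

lemma St.neB (s : St h m T κ I A B) : ∃ b, b ∈ B := by
  by_contra hc
  push Not at hc
  have : B = ∅ := eq_empty_of_forall_notMem hc
  have h1 := s.dB
  rw [this] at h1
  simp [pr] at h1

/-- free coordinates are not constant -/
lemma St.fixed (s : St h m T κ I A B) (hT : 2 ≤ T) {i : Nd h} {c : Fin m}
    (hc : ∀ a ∈ A, a i = c) : i ∉ I := by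
  intro hi
  obtain ⟨a, ha⟩ := s.neA
  have h1 := s.thick i hi (mask I a) (mem_pr.mpr ⟨a, ha, rfl⟩)
  have h2 := h1.trans (vals_card (A := A) hi (mask I a))
  have h3 : vals I A i (mask I a) ⊆ {c} := by
    intro v hv
    obtain ⟨a', ha', rfl⟩ := mem_image.mp hv
    exact mem_singleton.mpr (hc a' (mem_filter.mp ha').1)
  have h4 := card_le_card h3
  rw [card_singleton] at h4
  omega

/-- one query -/
lemma St.query (p : Par h m T k) (s : St h m T κ I A B) (hκ : κ < h) {i : Nd h} (hi : i ∈ I)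
    (hlow : 4 * (pr I A).card < m * (pr (I.erase i) A).card) :
    ∃ A' ⊆ A, ∃ B' ⊆ B, St h m T κ (I.erase i) A' B' := by
  classical
  have hq := s.q_le
  have hm0 : 0 < m := Nat.pos_of_ne_zero (NeZero.ne m)
  have hcc : (I.erase i)ᶜ.card = Iᶜ.card + 1 := by
    rw [compl_erase, card_insert_of_notMem (by simpa using hi)]
  have hIc : (I.erase i).card + 1 = I.card := card_erase_add_one hi
  have hhit : 4 * (m ^ I.card * (m - T) ^ k) ≤ m ^ k :=
    (Nat.mul_le_mul_left 4 (Nat.mul_le_mul_right _ (Nat.pow_le_pow_right hm0 (card_nd I)))).trans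
      p.hit
  have hbig : 16 * k * (κ + 2 * Iᶜ.card + 1 + 4 * k) ≤ m :=
    (Nat.mul_le_mul_left _ (by omega)).trans p.big
  obtain ⟨Q, Z, a1, a2, a3, a4⟩ := s.adv
  -- the answer of the adversary
  obtain ⟨γ, Q', Z', b1, b2, b3, b4, b5, b6⟩ : ∃ (γ : Bool) (Q' Z' : Finset (ℕ × ℕ)),
      Q'.card ≤ Iᶜ.card + 1 ∧ Op Q' h 0 0 ∧ (∀ z ∈ Z', ¬ Op (insert z Q') h 0 0 ∧ z.1 + z.2 < h) ∧
      Q ⊆ Q' ∧ Z ⊆ Z' ∧ ((γ = true ∧ pos i ∈ Q') ∨ (γ = false ∧ pos i ∈ Z')) := by
    by_cases ho : Op (insert (pos i) Q) h 0 0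
    · refine ⟨true, insert (pos i) Q, Z, (card_insert_le _ _).trans (by omega), ho, ?_,
        subset_insert _ _, Subset.rfl, Or.inl ⟨rfl, mem_insert_self _ _⟩⟩
      intro z hz
      obtain ⟨c1, c2⟩ := a3 z hz
      exact ⟨fun hh => c1 (hh.anti (insert_subset_insert _ (subset_insert _ _))), c2⟩
    · refine ⟨false, Q, insert (pos i) Z, by omega, a2, ?_, Subset.rfl, subset_insert _ _,
        Or.inr ⟨rfl, mem_insert_self _ _⟩⟩
      intro z hz
      rcases mem_insert.mp hz with hz | hz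
      · subst hz
        have := Op.cut_root a2 ho
        exact ⟨ho, by omega⟩
      · exact a3 z hz
  obtain ⟨A', hA', B', hB', c1, c2, c3⟩ := proj (D := κ + 2 * Iᶜ.card) hi γ s.thick s.dB hhit hbig
  refine ⟨A', hA', B', hB', ?_, ?_, ?_, ?_⟩
  · rw [c2]; exact s.thick.erase
  · rw [c2, hcc]
    have h1 : m * (m ^ (I.erase i).card * 4 ^ (Iᶜ.card + 1)) ≤
        m * ((pr (I.erase i) A).card * 4 ^ κ) := by
      calc m * (m ^ (I.erase i).card * 4 ^ (Iᶜ.card + 1))
          = 4 * (m ^ I.card * 4 ^ Iᶜ.card) := by rw [← hIc, pow_succ, pow_succ]; ring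
        _ ≤ 4 * ((pr I A).card * 4 ^ κ) := Nat.mul_le_mul_left _ s.dA
        _ = (4 * (pr I A).card) * 4 ^ κ := by ring
        _ ≤ (m * (pr (I.erase i) A).card) * 4 ^ κ := Nat.mul_le_mul_right _ hlow.le
        _ = _ := by ring
    exact Nat.le_of_mul_le_mul_left h1 hm0
  · rw [hcc, show κ + 2 * (Iᶜ.card + 1) = κ + 2 * Iᶜ.card + 2 by ring]
    exact c3
  · refine ⟨Q', Z', by omega, b2, b3, ?_⟩
    intro j hj
    by_cases hji : j = i
    · subst hji
      rcases b6 with ⟨hγ, hp⟩ | ⟨hγ, hp⟩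
      · left
        exact ⟨hp, fun a ha b hb => by rw [c1 a ha b hb, hγ]⟩
      · right
        exact ⟨hp, fun a ha b hb => by rw [c1 a ha b hb, hγ]⟩
    · have hjI : j ∉ I := fun hh => hj (mem_erase.mpr ⟨hji, hh⟩)
      rcases a4 j hjI with ⟨d1, d2⟩ | ⟨d1, d2⟩
      · exact Or.inl ⟨b4 d1, fun a ha b hb => d2 a (hA' ha) b (hB' hb)⟩
      · exact Or.inr ⟨b5 d1, fun a ha b hb => d2 a (hA' ha) b (hB' hb)⟩

/-- queries until the set is thick on average -/
lemma St.avg (p : Par h m T k) (hκ : κ < h) : ∀ (I : Finset (Nd h)) (A : Finset (Nd h → Fin m))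
    (B : Finset (Nd h → Fin m → Bool)), St h m T κ I A B →
    ∃ (I' : Finset (Nd h)), ∃ A' ⊆ A, ∃ B' ⊆ B, St h m T κ I' A' B' ∧
      ∀ i ∈ I', m * (pr (I'.erase i) A').card ≤ 4 * (pr I' A').card := by
  intro I
  induction hn : I.card using Nat.strong_induction_on generalizing I with
  | _ n ih =>
    intro A B s
    by_cases hc : ∀ i ∈ I, m * (pr (I.erase i) A).card ≤ 4 * (pr I A).card
    · exact ⟨I, A, Subset.rfl, B, Subset.rfl, s, hc⟩
    · push Not at hc
      obtain ⟨i, hi, hlow⟩ := hc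
      obtain ⟨A', hA', B', hB', s'⟩ := s.query p hκ hi hlow
      obtain ⟨I'', A'', hA'', B'', hB'', s'', hs''⟩ := ih (I.erase i).card
        (by have := card_erase_add_one hi; omega) (I.erase i) rfl A' B' s'
      exact ⟨I'', A'', hA''.trans hA', B'', hB''.trans hB', s'', hs''⟩

/-- a bit of the first player -/
lemma St.bitA (p : Par h m T k) (s : St h m T κ I A B)
    (hav : ∀ i ∈ I, m * (pr (I.erase i) A).card ≤ 4 * (pr I A).card)
    {A1 : Finset (Nd h → Fin m)} (hA1 : A1 ⊆ A) (hhalf : (pr I A).card ≤ 2 * (pr I A1).card) :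
    ∃ A' ⊆ A1, St h m T (κ + 1) I A' B := by
  classical
  obtain ⟨G', g1, g2, g3⟩ := prune T I (pr I A1)
  have hT2 := p.t2
  have h1 : 2 * (T * ∑ i ∈ I, (pr (I.erase i) (pr I A1)).card) ≤ (pr I A1).card := by
    have h2 : m * ∑ i ∈ I, (pr (I.erase i) (pr I A1)).card ≤
        8 * (h + 1) ^ 2 * (pr I A1).card := by
      calc m * ∑ i ∈ I, (pr (I.erase i) (pr I A1)).card
          = ∑ i ∈ I, m * (pr (I.erase i) (pr I A1)).card := by rw [mul_sum]
        _ ≤ ∑ _i ∈ I, 8 * (pr I A1).card := by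
            refine sum_le_sum fun i hi => ?_
            rw [pr_pr (erase_subset _ _)]
            calc m * (pr (I.erase i) A1).card ≤ m * (pr (I.erase i) A).card :=
                  Nat.mul_le_mul_left _ (card_le_card (pr_mono _ hA1))
              _ ≤ 4 * (pr I A).card := hav i hi
              _ ≤ 4 * (2 * (pr I A1).card) := Nat.mul_le_mul_left _ hhalf
              _ = _ := by ring
        _ = I.card * (8 * (pr I A1).card) := by rw [sum_const, smul_eq_mul]
        _ ≤ (h + 1) ^ 2 * (8 * (pr I A1).card) := Nat.mul_le_mul_right _ (card_nd I)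
        _ = _ := by ring
    have h3 : m * (2 * (T * ∑ i ∈ I, (pr (I.erase i) (pr I A1)).card)) ≤
        m * (pr I A1).card := by
      calc m * (2 * (T * ∑ i ∈ I, (pr (I.erase i) (pr I A1)).card))
          = 2 * T * (m * ∑ i ∈ I, (pr (I.erase i) (pr I A1)).card) := by ring
        _ ≤ 2 * T * (8 * (h + 1) ^ 2 * (pr I A1).card) := Nat.mul_le_mul_left _ h2
        _ = (16 * (h + 1) ^ 2 * T) * (pr I A1).card := by ring
        _ ≤ m * (pr I A1).card := Nat.mul_le_mul_right _ p.tm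
    exact Nat.le_of_mul_le_mul_left h3 (Nat.pos_of_ne_zero (NeZero.ne m))
  have h4 : (pr I A1).card ≤ 2 * G'.card := by omega
  have h5 : pr I (A1.filter (fun a => mask I a ∈ G')) = G' := by
    apply Subset.antisymm
    · intro g hg
      obtain ⟨a, ha, rfl⟩ := mem_pr.mp hg
      exact (mem_filter.mp ha).2
    · intro g hg
      obtain ⟨a, ha, rfl⟩ := mem_pr.mp (g1 hg)
      exact mem_pr.mpr ⟨a, mem_filter.mpr ⟨ha, hg⟩, rfl⟩
  refine ⟨A1.filter (fun a => mask I a ∈ G'), filter_subset _ _, ?_, ?_, ?_, ?_⟩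
  · rw [h5]; exact g2
  · rw [h5]
    calc m ^ I.card * 4 ^ Iᶜ.card ≤ (pr I A).card * 4 ^ κ := s.dA
      _ ≤ (4 * G'.card) * 4 ^ κ := Nat.mul_le_mul_right _ (by omega)
      _ = _ := by rw [pow_succ]; ring
  · refine s.dB.trans (Nat.mul_le_mul_left _ (Nat.pow_le_pow_right (by norm_num) (by omega)))
  · obtain ⟨Q, Z, a1, a2, a3, a4⟩ := s.adv
    refine ⟨Q, Z, a1, a2, a3, fun i hi => ?_⟩
    have hsub : A1.filter (fun a => mask I a ∈ G') ⊆ A := (filter_subset _ _).trans hA1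
    rcases a4 i hi with ⟨d1, d2⟩ | ⟨d1, d2⟩
    · exact Or.inl ⟨d1, fun a ha b hb => d2 a (hsub ha) b hb⟩
    · exact Or.inr ⟨d1, fun a ha b hb => d2 a (hsub ha) b hb⟩

/-- a bit of the second player -/
lemma St.bitB (s : St h m T κ I A B) {B1 : Finset (Nd h → Fin m → Bool)} (hB1 : B1 ⊆ B)
    (hhalf : (pr I B).card ≤ 2 * (pr I B1).card) : St h m T (κ + 1) I A B1 := by
  refine ⟨s.thick, ?_, ?_, ?_⟩
  · refine s.dA.trans (Nat.mul_le_mul_left _ (Nat.pow_le_pow_right (by norm_num) (by omega)))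
  · calc (2 ^ m) ^ I.card ≤ (pr I B).card * 2 ^ (κ + 2 * Iᶜ.card) := s.dB
      _ ≤ (2 * (pr I B1).card) * 2 ^ (κ + 2 * Iᶜ.card) := Nat.mul_le_mul_right _ hhalf
      _ = _ := by
        rw [show κ + 1 + 2 * Iᶜ.card = (κ + 2 * Iᶜ.card) + 1 by omega, pow_succ]
        ring
  · obtain ⟨Q, Z, a1, a2, a3, a4⟩ := s.adv
    refine ⟨Q, Z, a1, a2, a3, fun i hi => ?_⟩
    rcases a4 i hi with ⟨d1, d2⟩ | ⟨d1, d2⟩
    · exact Or.inl ⟨d1, fun a ha b hb => d2 a ha b (hB1 hb)⟩
    · exact Or.inr ⟨d1, fun a ha b hb => d2 a ha b (hB1 hb)⟩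

/-- The end of the simulation. -/
lemma St.leaf (s : St h m T κ I A B) (hT : 2 ≤ T) (e : Vr h m) (hA : ∀ a ∈ A, ea a e = true)
    (hB : ∀ b ∈ B, eb b e = false) : False := by
  obtain ⟨a0, ha0⟩ := s.neA
  obtain ⟨b0, hb0⟩ := s.neB
  obtain ⟨Q, Z, a1, a2, a3, a4⟩ := s.adv
  rcases e with ⟨v, c⟩ | ⟨v, c1, c2, c⟩ | c
  · have h1 : ∀ a ∈ A, (pos v).1 + (pos v).2 = h ∧ a v = c := by
      intro a ha
      have := hA a ha
      simpa [ea] using this
    have h2 : v ∉ I := s.fixed hT fun a ha => (h1 a ha).2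
    have h3 : b0 v c = false := hB b0 hb0
    obtain ⟨h4, h5⟩ := h1 a0 ha0
    rcases a4 v h2 with ⟨d1, d2⟩ | ⟨d1, d2⟩
    · have := d2 a0 ha0 b0 hb0
      rw [h5, h3] at this
      exact absurd this (by simp)
    · have := (a3 _ d1).2
      omega
  · have h1 : ∀ a ∈ A, (pos v).1 + (pos v).2 < h ∧
        a (nd h ((pos v).1 + 1) (pos v).2) = c1 ∧
        a (nd h (pos v).1 ((pos v).2 + 1)) = c2 ∧ a v = c := by
      intro a ha
      have := hA a ha
      simpa [ea] using this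
    obtain ⟨h4, h5, h6, h7⟩ := h1 a0 ha0
    have i1 : nd h ((pos v).1 + 1) (pos v).2 ∉ I := s.fixed hT fun a ha => (h1 a ha).2.1
    have i2 : nd h (pos v).1 ((pos v).2 + 1) ∉ I := s.fixed hT fun a ha => (h1 a ha).2.2.1
    have i3 : v ∉ I := s.fixed hT fun a ha => (h1 a ha).2.2.2
    have h8 : b0 (nd h ((pos v).1 + 1) (pos v).2) c1 = true ∧
        b0 (nd h (pos v).1 ((pos v).2 + 1)) c2 = true ∧ b0 v c = false := by
      have := hB b0 hb0
      simpa [eb, and_assoc] using this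
    obtain ⟨j1, j2, j3⟩ := h8
    have k1 : ((pos v).1 + 1, (pos v).2) ∈ Q := by
      rcases a4 _ i1 with ⟨d1, d2⟩ | ⟨d1, d2⟩
      · rwa [pos_nd (by omega)] at d1
      · have := d2 a0 ha0 b0 hb0
        rw [h5, j1] at this
        exact absurd this (by simp)
    have k2 : ((pos v).1, (pos v).2 + 1) ∈ Q := by
      rcases a4 _ i2 with ⟨d1, d2⟩ | ⟨d1, d2⟩
      · rwa [pos_nd (by omega)] at d1
      · have := d2 a0 ha0 b0 hb0
        rw [h6, j2] at this
        exact absurd this (by simp)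
    have k3 : pos v ∈ Z := by
      rcases a4 _ i3 with ⟨d1, d2⟩ | ⟨d1, d2⟩
      · have := d2 a0 ha0 b0 hb0
        rw [h7, j3] at this
        exact absurd this (by simp)
      · exact d1
    rcases Op.pass a2 (a3 _ k3).1 (by omega) with hh | hh
    · exact hh k1
    · exact hh k2
  · have h1 : ∀ a ∈ A, a (nd h 0 0) = c := by
      intro a ha
      have := hA a ha
      simpa [ea] using this
    have i1 : nd h 0 0 ∉ I := s.fixed hT h1
    have h3 : b0 (nd h 0 0) c = true := by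
      have := hB b0 hb0
      simpa [eb] using this
    rcases a4 _ i1 with ⟨d1, d2⟩ | ⟨d1, d2⟩
    · rw [pos_nd (by omega)] at d1
      exact a2.notMem d1
    · have := d2 a0 ha0 b0 hb0
      rw [h1 a0 ha0, h3] at this
      exact absurd this (by simp)

omit [NeZero m] in
lemma pr_union_card {α : Type} [Fintype α] [DecidableEq α] [Inhabited α] (I : Finset (Nd h))
    (A A1 A2 : Finset (Nd h → α)) (hA : A ⊆ A1 ∪ A2) :
    (pr I A).card ≤ 2 * (pr I A1).card ∨ (pr I A).card ≤ 2 * (pr I A2).card := by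
  have h1 : pr I A ⊆ pr I A1 ∪ pr I A2 := by
    unfold pr
    rw [← image_union]
    exact image_subset_image hA
  have h2 := (card_le_card h1).trans (card_union_le _ _)
  omega

/-- **The simulation.** -/
theorem St.sim (p : Par h m T k) (F : MF (Vr h m)) : ∀ (κ : ℕ) (I : Finset (Nd h))
    (A : Finset (Nd h → Fin m)) (B : Finset (Nd h → Fin m → Bool)), κ + F.depth < h →
    St h m T κ I A B → (∀ a ∈ A, F.eval (ea a) = true) → (∀ b ∈ B, F.eval (eb b) = false) →
    False := by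
  classical
  induction F with
  | var v =>
    intro κ I A B _ s hA hB
    exact s.leaf p.t2 v hA hB
  | const c =>
    intro κ I A B _ s hA hB
    obtain ⟨a0, ha0⟩ := s.neA
    obtain ⟨b0, hb0⟩ := s.neB
    have h1 : c = true := hA a0 ha0
    have h2 : c = false := hB b0 hb0
    rw [h1] at h2
    exact absurd h2 (by simp)
  | and F G hF hG =>
    intro κ I A B hd s hA hB
    simp only [MF.depth] at hd
    set B1 := B.filter (fun b => F.eval (eb b) = false) with hB1
    set B2 := B.filter (fun b => G.eval (eb b) = false) with hB2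
    have hBs : B ⊆ B1 ∪ B2 := by
      intro b hb
      have h1 := hB b hb
      simp only [MF.eval, Bool.and_eq_false_iff] at h1
      rcases h1 with h1 | h1
      · exact mem_union_left _ (mem_filter.mpr ⟨hb, h1⟩)
      · exact mem_union_right _ (mem_filter.mpr ⟨hb, h1⟩)
    have hA' : ∀ a ∈ A, F.eval (ea a) = true ∧ G.eval (ea a) = true := by
      intro a ha
      have := hA a ha
      simpa [MF.eval] using this
    rcases pr_union_card I B B1 B2 hBs with h1 | h1
    · exact hF (κ + 1) I A B1 (by omega) (s.bitB (filter_subset _ _) h1)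
        (fun a ha => (hA' a ha).1) (fun b hb => (mem_filter.mp hb).2)
    · exact hG (κ + 1) I A B2 (by omega) (s.bitB (filter_subset _ _) h1)
        (fun a ha => (hA' a ha).2) (fun b hb => (mem_filter.mp hb).2)
  | or F G hF hG =>
    intro κ I A B hd s hA hB
    simp only [MF.depth] at hd
    obtain ⟨I', A', hA', B', hB', s', hs'⟩ := St.avg p (by omega) I A B s
    set A1 := A'.filter (fun a => F.eval (ea a) = true) with hA1
    set A2 := A'.filter (fun a => G.eval (ea a) = true) with hA2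
    have hAs : A' ⊆ A1 ∪ A2 := by
      intro a ha
      have h1 := hA a (hA' ha)
      simp only [MF.eval, Bool.or_eq_true] at h1
      rcases h1 with h1 | h1
      · exact mem_union_left _ (mem_filter.mpr ⟨ha, h1⟩)
      · exact mem_union_right _ (mem_filter.mpr ⟨ha, h1⟩)
    have hB'' : ∀ b ∈ B', F.eval (eb b) = false ∧ G.eval (eb b) = false := by
      intro b hb
      have := hB b (hB' hb)
      simpa [MF.eval] using this
    rcases pr_union_card I' A' A1 A2 hAs with h1 | h1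
    · obtain ⟨A'', hA'', s''⟩ := s'.bitA p hs' (filter_subset _ _) h1
      exact hF (κ + 1) I' A'' B' (by omega) s''
        (fun a ha => (mem_filter.mp (hA'' ha)).2) (fun b hb => (hB'' b hb).1)
    · obtain ⟨A'', hA'', s''⟩ := s'.bitA p hs' (filter_subset _ _) h1
      exact hG (κ + 1) I' A'' B' (by omega) s''
        (fun a ha => (mem_filter.mp (hA'' ha)).2) (fun b hb => (hB'' b hb).2)

/-- the initial state -/
lemma St.init (p : Par h m T k) {e : ℕ} (he : 16 * (h + 1) ^ 2 * T * 2 ^ e ≤ m) (hκ : e + 1 ≤ κ)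
    {A1 : Finset (Nd h → Fin m)} (hA : m ^ ((h + 1) ^ 2) ≤ A1.card * 2 ^ e)
    {B1 : Finset (Nd h → Fin m → Bool)} (hB : (2 ^ m) ^ ((h + 1) ^ 2) ≤ B1.card * 2 ^ κ) :
    ∃ A' ⊆ A1, St h m T κ univ A' B1 := by
  classical
  have hm0 : 0 < m := Nat.pos_of_ne_zero (NeZero.ne m)
  have hN : (univ : Finset (Nd h)).card = (h + 1) ^ 2 := by
    rw [card_univ, Fintype.card_prod, Fintype.card_fin, sq]
  have hpr : ∀ {α : Type} [Fintype α] [DecidableEq α] [Inhabited α] (A : Finset (Nd h → α)),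
      pr univ A = A := by
    intro α _ _ _ A
    unfold pr
    have : mask (univ : Finset (Nd h)) = fun x : Nd h → α => x := by
      funext x
      funext j
      exact mask_mem (mem_univ j)
    rw [this, image_id']
  have hNpos : 1 ≤ (h + 1) ^ 2 := Nat.one_le_pow _ _ (by omega)
  obtain ⟨G', g1, g2, g3⟩ := prune T univ A1
  have h1 : 2 * (T * ∑ i ∈ (univ : Finset (Nd h)), (pr (univ.erase i) A1).card) ≤ A1.card := by
    have h2 : ∀ i ∈ (univ : Finset (Nd h)), (pr (univ.erase i) A1).card ≤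
        m ^ ((h + 1) ^ 2 - 1) := by
      intro i hi
      have h3 := pr_card_le (univ.erase i) A1
      rwa [Fintype.card_fin, card_erase_of_mem hi, hN] at h3
    have h3 : m * (2 * (T * ∑ i ∈ (univ : Finset (Nd h)), (pr (univ.erase i) A1).card)) ≤
        m * A1.card := by
      calc m * (2 * (T * ∑ i ∈ (univ : Finset (Nd h)), (pr (univ.erase i) A1).card))
          ≤ m * (2 * (T * ∑ _i ∈ (univ : Finset (Nd h)), m ^ ((h + 1) ^ 2 - 1))) :=
            Nat.mul_le_mul_left _ (Nat.mul_le_mul_left _ (Nat.mul_le_mul_left _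
              (sum_le_sum h2)))
        _ = 2 * (h + 1) ^ 2 * T * (m * m ^ ((h + 1) ^ 2 - 1)) := by
            rw [sum_const, smul_eq_mul, hN]; ring
        _ = 2 * (h + 1) ^ 2 * T * m ^ ((h + 1) ^ 2) := by
            rw [← pow_succ', Nat.sub_add_cancel hNpos]
        _ ≤ 2 * (h + 1) ^ 2 * T * (A1.card * 2 ^ e) := Nat.mul_le_mul_left _ hA
        _ ≤ (16 * (h + 1) ^ 2 * T * 2 ^ e) * A1.card := by
            have e1 : (16 * (h + 1) ^ 2 * T * 2 ^ e) * A1.card =
                8 * (2 * (h + 1) ^ 2 * T * (A1.card * 2 ^ e)) := by ring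
            rw [e1]
            omega
        _ ≤ m * A1.card := Nat.mul_le_mul_right _ he
    exact Nat.le_of_mul_le_mul_left h3 hm0
  have h4 : A1.card ≤ 2 * G'.card := by omega
  refine ⟨G', g1, ?_, ?_, ?_, ∅, ∅, by simp, Op.ray1 (by simp), by simp, by simp⟩
  · rw [hpr]; exact g2
  · rw [hpr, hN, compl_univ, card_empty, pow_zero, mul_one]
    calc m ^ ((h + 1) ^ 2) ≤ A1.card * 2 ^ e := hA
      _ ≤ (2 * G'.card) * 2 ^ e := Nat.mul_le_mul_right _ h4
      _ = G'.card * 2 ^ (e + 1) := by rw [pow_succ]; ring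
      _ ≤ G'.card * 4 ^ κ := by
          apply Nat.mul_le_mul_left
          calc 2 ^ (e + 1) ≤ 2 ^ κ := Nat.pow_le_pow_right (by norm_num) hκ
            _ ≤ 4 ^ κ := Nat.pow_le_pow_left (by norm_num) _
  · rw [hpr, hN, compl_univ, card_empty]
    exact hB

end St

/-- **A monotone formula of small depth errs on most instances of one of the two kinds.** -/
theorem two_sided {T k e κ : ℕ} (p : Par h m T k) (he : 16 * (h + 1) ^ 2 * T * 2 ^ e ≤ m)
    (hκ : e + 1 ≤ κ) {F : (Vr h m → Bool) → Bool} {d : ℕ} (hF : Mo F d) (hd : κ + d < h) :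
    (univ.filter (fun a : Nd h → Fin m => F (ea a) = true)).card * 2 ^ e < m ^ ((h + 1) ^ 2) ∨
    (univ.filter (fun b : Nd h → Fin m → Bool => F (eb b) = false)).card * 2 ^ κ <
      (2 ^ m) ^ ((h + 1) ^ 2) := by
  by_contra hc
  push Not at hc
  obtain ⟨G, h1, h2⟩ := hF
  obtain ⟨A', hA', s⟩ := St.init p he hκ hc.1 hc.2
  refine St.sim p G κ univ A' _ (by omega) s (fun a ha => ?_) (fun b hb => ?_)
  · rw [h2]
    exact (mem_filter.mp (hA' ha)).2
  · rw [h2]
    exact (mem_filter.mp hb).2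

end Pool.Agent.T9h19.RM
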