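import Mathlib
import Pool.Agent.T9h19.RM.Lift

/-!
# Suitable parameters
-/

set_option autoImplicit false

namespace Pool.Agent.T9h19.RM

open Finset

lemma bern (a k : ℕ) : a ^ (k + 1) + (k + 1) * a ^ k ≤ (a + 1) ^ (k + 1) := by
  induction k with
  | zero => simp
  | succ k ih =>
    calc a ^ (k + 1 + 1) + (k + 1 + 1) * a ^ (k + 1)
        ≤ (a + 1) * (a ^ (k + 1) + (k + 1) * a ^ k) := by
          have : a ^ (k + 1) = a * a ^ k := by rw [pow_succ]; ring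
          have h2 : a ^ (k + 1 + 1) = a * (a * a ^ k) := by rw [pow_succ, pow_succ]; ring
          rw [h2, this]
          nlinarith [Nat.zero_le ((k + 1) * a ^ k)]
      _ ≤ (a + 1) * (a + 1) ^ (k + 1) := Nat.mul_le_mul_left _ ih
      _ = (a + 1) ^ (k + 1 + 1) := by rw [pow_succ (a + 1) (k + 1)]; ring

lemma two_pow_le (N : ℕ) (hN : 1 ≤ N) : 2 * (N - 1) ^ N ≤ N ^ N := by
  obtain ⟨k, rfl⟩ : ∃ k, N = k + 1 := ⟨N - 1, by omega⟩
  have h := bern k k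
  have e : k + 1 - 1 = k := by omega
  rw [e]
  have h2 : k ^ (k + 1) = k * k ^ k := by rw [pow_succ]; ring
  nlinarith [Nat.zero_le (k ^ k)]

lemma sq_le (a : ℕ) : (11 * a + 32) ^ 2 ≤ 2 ^ (a + 15) := by
  induction a with
  | zero => norm_num
  | succ a ih =>
    have h1 : (11 * (a + 1) + 32) ^ 2 ≤ 2 * (11 * a + 32) ^ 2 := by
      have e : 2 * (11 * a + 32) ^ 2 = (11 * (a + 1) + 32) ^ 2 + (121 * a ^ 2 + 462 * a + 199) := by
        ring
      rw [e]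
      exact Nat.le_add_right _ _
    have h2 : 2 ^ (a + 1 + 15) = 2 * 2 ^ (a + 15) := by
      rw [show a + 1 + 15 = (a + 15) + 1 by ring, pow_succ]; ring
    rw [h2]
    exact h1.trans (Nat.mul_le_mul_left 2 ih)

lemma hit_pow (N T w : ℕ) (hN : 1 ≤ N) :
    2 ^ w * ((N - 1) * T) ^ (N * w) ≤ (N * T) ^ (N * w) := by
  rw [pow_mul ((N - 1) * T), pow_mul (N * T), ← mul_pow]
  apply Nat.pow_le_pow_left
  rw [mul_pow, mul_pow, ← mul_assoc]
  exact Nat.mul_le_mul_right _ (two_pow_le N hN)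

lemma big_le {k P Q R : ℕ} (h1 : k ≤ P * Q) (h2 : Q ^ 2 ≤ R) : 80 * k ^ 2 ≤ 128 * (P ^ 2 * R) := by
  calc 80 * k ^ 2 ≤ 80 * (P * Q) ^ 2 := Nat.mul_le_mul_left _ (Nat.pow_le_pow_left h1 2)
    _ = 80 * (P ^ 2 * Q ^ 2) := by rw [mul_pow]
    _ ≤ 128 * (P ^ 2 * R) := Nat.mul_le_mul (by norm_num) (Nat.mul_le_mul_left _ h2)

/-- the parameters for height `2 ^ a - 1` -/
lemma par (a : ℕ) : Par (2 ^ a - 1) (2 ^ (11 * a + 30)) (2 ^ (8 * a + 26))
    (16 * 2 ^ (3 * a) * (2 ^ (2 * a) * (11 * a + 30) + 2)) := by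
  have h1 : 1 ≤ 2 ^ a := Nat.one_le_two_pow
  have e1 : 2 ^ a - 1 + 1 = 2 ^ a := by omega
  have e2 : (2 ^ a) ^ 2 = 2 ^ (2 * a) := by rw [← pow_mul, mul_comm]
  have hN : 16 * 2 ^ (3 * a) * 2 ^ (8 * a + 26) = 2 ^ (11 * a + 30) := by
    rw [show (16 : ℕ) = 2 ^ 4 by norm_num, ← pow_add, ← pow_add]
    congr 1; ring
  refine ⟨?_, ?_, ?_, ?_⟩
  · calc 2 = 2 ^ 1 := by norm_num
      _ ≤ 2 ^ (8 * a + 26) := Nat.pow_le_pow_right (by norm_num) (by omega)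
  · rw [e1, e2]
    refine le_trans (Nat.mul_le_mul_right _ (Nat.mul_le_mul_left _ ?_)) hN.le
    exact Nat.pow_le_pow_right (by norm_num) (by omega)
  · rw [e1, e2]
    obtain ⟨N, hNdef⟩ : ∃ N, N = 16 * 2 ^ (3 * a) := ⟨_, rfl⟩
    obtain ⟨T, hT⟩ : ∃ T, T = 2 ^ (8 * a + 26) := ⟨_, rfl⟩
    obtain ⟨w, hw⟩ : ∃ w, w = 2 ^ (2 * a) * (11 * a + 30) + 2 := ⟨_, rfl⟩
    rw [← hNdef, ← hT] at hN
    rw [← hNdef, ← hT, ← hw]
    have hN1 : 1 ≤ N := by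
      have : 1 ≤ 2 ^ (3 * a) := Nat.one_le_two_pow
      omega
    have h4 : 4 * (N * T) ^ (2 ^ (2 * a)) = 2 ^ w := by
      rw [hN, ← pow_mul, hw, pow_add, mul_comm (11 * a + 30) (2 ^ (2 * a))]
      ring
    rw [← hN]
    have h2 : N * T - T = (N - 1) * T := by rw [Nat.sub_mul, one_mul]
    rw [h2]
    calc 4 * ((N * T) ^ 2 ^ (2 * a) * ((N - 1) * T) ^ (N * w))
        = (4 * (N * T) ^ 2 ^ (2 * a)) * ((N - 1) * T) ^ (N * w) := by ring
      _ = 2 ^ w * ((N - 1) * T) ^ (N * w) := by rw [h4]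
      _ ≤ _ := hit_pow N T w hN1
  · obtain ⟨x, hx⟩ : ∃ x, x = 2 ^ a := ⟨_, rfl⟩
    obtain ⟨μ, hμ⟩ : ∃ μ, μ = 11 * a + 30 := ⟨_, rfl⟩
    have e3 : 2 ^ (3 * a) = x ^ 3 := by rw [hx, ← pow_mul, mul_comm]
    have e4 : 2 ^ (2 * a) = x ^ 2 := by rw [hx, ← pow_mul, mul_comm]
    obtain ⟨k, hk⟩ : ∃ k, k = 16 * x ^ 3 * (x ^ 2 * μ + 2) := ⟨_, rfl⟩
    rw [e3, e4, ← hμ, ← hk, ← hx]
    rw [← hx] at h1
    have h2 : 3 * (x - 1) + 1 ≤ k := by
      have h5 : 16 * x ^ 3 * 1 ≤ k := by rw [hk]; exact Nat.mul_le_mul_left _ (by omega)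
      have h6 : x ^ 1 ≤ x ^ 3 := Nat.pow_le_pow_right h1 (by norm_num)
      rw [pow_one] at h6
      omega
    have h3 : k ≤ (16 * x ^ 5) * (11 * a + 32) := by
      rw [hk, show 11 * a + 32 = μ + 2 by omega]
      have h5 : x ^ 2 * μ + 2 ≤ x ^ 2 * (μ + 2) := by
        have h6 : 1 ≤ x ^ 2 := Nat.one_le_pow _ _ h1
        nlinarith
      calc 16 * x ^ 3 * (x ^ 2 * μ + 2) ≤ 16 * x ^ 3 * (x ^ 2 * (μ + 2)) :=
            Nat.mul_le_mul_left _ h5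
        _ = _ := by ring
    have h4 := big_le h3 (sq_le a)
    have h5 : 128 * ((16 * x ^ 5) ^ 2 * 2 ^ (a + 15)) = 2 ^ μ := by
      have e5 : x ^ 10 = 2 ^ (10 * a) := by rw [hx, ← pow_mul, mul_comm]
      calc 128 * ((16 * x ^ 5) ^ 2 * 2 ^ (a + 15)) = 2 ^ 15 * x ^ 10 * 2 ^ (a + 15) := by ring
        _ = 2 ^ 15 * 2 ^ (10 * a) * 2 ^ (a + 15) := by rw [e5]
        _ = 2 ^ μ := by
          have e6 : μ = 15 + 10 * a + (a + 15) := by omega
          rw [e6, pow_add 2 (15 + 10 * a), pow_add 2 15]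
    calc 16 * k * (3 * (x - 1) + 1 + 4 * k) ≤ 16 * k * (k + 4 * k) :=
          Nat.mul_le_mul_left _ (by omega)
      _ = 80 * k ^ 2 := by ring
      _ ≤ _ := h4
      _ = 2 ^ μ := h5

instance (a : ℕ) : NeZero (2 ^ (11 * a + 30)) := ⟨by positivity⟩

/-- the variables of the generation function of height `2 ^ a - 1` -/
abbrev Va (a : ℕ) : Type := Vr (2 ^ a - 1) (2 ^ (11 * a + 30))

/-- the generation function of height `2 ^ a - 1` -/
noncomputable abbrev ga (a : ℕ) : (Va a → Bool) → Bool := gen (2 ^ a - 1) (2 ^ (11 * a + 30))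

/-- the nodes -/
abbrev Na (a : ℕ) : Type := Nd (2 ^ a - 1)

/-- the instances which are accepted -/
abbrev Aa (a : ℕ) : Type := Na a → Fin (2 ^ (11 * a + 30))

/-- the instances which are rejected -/
abbrev Ba (a : ℕ) : Type := Na a → Fin (2 ^ (11 * a + 30)) → Bool

lemma card_Aa (a : ℕ) : Fintype.card (Aa a) = (2 ^ (11 * a + 30)) ^ ((2 ^ a - 1 + 1) ^ 2) := by
  rw [Fintype.card_pi, prod_const, card_univ, Fintype.card_fin, Fintype.card_prod,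
    Fintype.card_fin, sq]

lemma card_Ba (a : ℕ) :
    Fintype.card (Ba a) = (2 ^ 2 ^ (11 * a + 30)) ^ ((2 ^ a - 1 + 1) ^ 2) := by
  rw [Fintype.card_pi, prod_const, card_univ, Fintype.card_prod, Fintype.card_fin, sq,
    Fintype.card_pi, prod_const, card_univ, Fintype.card_fin, Fintype.card_bool]

/-- **Average-case hardness of the generation function.** -/
theorem gen_avg (a : ℕ) {F : (Va a → Bool) → Bool} {d κ : ℕ} (hF : Mo F d) (hκ : a + 1 ≤ κ)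
    (hd : κ + d + 1 < 2 ^ a) :
    (univ.filter (fun x : Aa a => F (ea x) = true)).card * 2 ^ a < Fintype.card (Aa a) ∨
    (univ.filter (fun y : Ba a => F (eb y) = false)).card * 2 ^ κ < Fintype.card (Ba a) := by
  rw [card_Aa, card_Ba]
  refine two_sided (par a) ?_ hκ hF (by omega)
  have h1 : 1 ≤ 2 ^ a := Nat.one_le_two_pow
  have e1 : 2 ^ a - 1 + 1 = 2 ^ a := by omega
  rw [e1, show (16 : ℕ) = 2 ^ 4 by norm_num, ← pow_mul, ← pow_add, ← pow_add, ← pow_add]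
  apply Nat.pow_le_pow_right (by norm_num)
  omega

end Pool.Agent.T9h19.RM
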