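import Mathlib
import Pool.Agent.T9h19.RM.Params

/-!
# Dispersers

A few maps of a set of `n` elements to a set `P` such that every set of at least `3 q |P|` elements
covers almost all of `P` under one of them.
-/

set_option autoImplicit false

namespace Pool.Agent.T9h19.RM

open Finset

lemma frac_pow {N t q : ℕ} (hq : 1 ≤ q) (ht : N ≤ t * q) : 2 * (N - t) ^ q ≤ N ^ q := by
  rcases Nat.lt_or_ge N t with h | h
  · rw [Nat.sub_eq_zero_of_le h.le, zero_pow (by omega)]
    exact Nat.zero_le _
  · have h1 : q * (N - t) ≤ (q - 1) * N := by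
      obtain ⟨q', rfl⟩ : ∃ q', q = q' + 1 := ⟨q - 1, by omega⟩
      obtain ⟨s, rfl⟩ : ∃ s, N = t + s := ⟨N - t, by omega⟩
      have e1 : t + s - t = s := by omega
      have e2 : q' + 1 - 1 = q' := by omega
      rw [e1, e2]
      nlinarith
    have h2 := Nat.pow_le_pow_left h1 q
    rw [mul_pow, mul_pow] at h2
    have h3 := two_pow_le q hq
    have hpos : 0 < q ^ q := Nat.pow_pos hq
    have h4 : q ^ q * (2 * (N - t) ^ q) ≤ q ^ q * N ^ q := by
      calc q ^ q * (2 * (N - t) ^ q) = 2 * (q ^ q * (N - t) ^ q) := by ring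
        _ ≤ 2 * ((q - 1) ^ q * N ^ q) := Nat.mul_le_mul_left _ h2
        _ = (2 * (q - 1) ^ q) * N ^ q := by ring
        _ ≤ _ := Nat.mul_le_mul_right _ h3
    exact Nat.le_of_mul_le_mul_left h4 hpos

variable {P : Type} [Fintype P] [DecidableEq P]

/-- the maps which avoid `T` on `U` -/
def avoid {n : ℕ} (U : Finset (Fin n)) (T : Finset P) : Finset (Fin n → P) :=
  Fintype.piFinset (fun j => if j ∈ U then Tᶜ else univ)

lemma avoid_card {n q : ℕ} {U : Finset (Fin n)} {T : Finset P} (hq : 1 ≤ q)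
    (hU : U.card = 3 * q * Fintype.card P) (hT : Fintype.card P ≤ T.card * q) :
    (avoid U T).card * 2 ^ (3 * Fintype.card P) ≤ Fintype.card P ^ n := by
  set N := Fintype.card P with hN
  have hUn : U.card ≤ n := by
    have := card_le_univ U
    rwa [Fintype.card_fin] at this
  have h1 : (avoid U T).card = (N - T.card) ^ U.card * N ^ (n - U.card) := by
    unfold avoid
    rw [Fintype.card_piFinset]
    have h2 : ∀ j : Fin n, (if j ∈ U then Tᶜ else (univ : Finset P)).card =
        if j ∈ U then N - T.card else N := by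
      intro j
      by_cases hj : j ∈ U
      · rw [if_pos hj, if_pos hj, card_compl]
      · rw [if_neg hj, if_neg hj, card_univ]
    rw [prod_congr rfl fun j _ => h2 j, prod_ite, prod_const, prod_const]
    congr 2
    · congr 1
      ext u; simp
    · rw [show (univ.filter (fun u : Fin n => u ∉ U)) = Uᶜ by ext u; simp, card_compl,
        Fintype.card_fin]
  have h3 : 2 ^ (3 * N) * (N - T.card) ^ U.card ≤ N ^ U.card := by
    have h4 := Nat.pow_le_pow_left (frac_pow hq hT) (3 * N)
    rw [mul_pow, ← pow_mul, ← pow_mul] at h4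
    rw [hU, show 3 * q * N = q * (3 * N) by ring]
    exact h4
  calc (avoid U T).card * 2 ^ (3 * N)
      = (2 ^ (3 * N) * (N - T.card) ^ U.card) * N ^ (n - U.card) := by rw [h1]; ring
    _ ≤ N ^ U.card * N ^ (n - U.card) := Nat.mul_le_mul_right _ h3
    _ = N ^ n := by rw [← pow_add]; congr 1; omega

/-- **Dispersers.** -/
theorem disp (n l q G : ℕ) [Nonempty P] (hq : 1 ≤ q) (hn : n ≤ 2 ^ l)
    (hG : 3 * q * l < 2 * G) : ∃ h : Fin G → Fin n → P, ∀ U : Finset (Fin n),
      3 * q * Fintype.card P ≤ U.card → ∃ g, (U.image (h g))ᶜ.card * q < Fintype.card P := by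
  classical
  set N := Fintype.card P with hN
  have hNpos : 0 < N := Fintype.card_pos
  by_contra hc
  push Not at hc
  set Us : Finset (Finset (Fin n)) := powersetCard (3 * q * N) univ with hUs
  set Ts : Finset (Fin G → Finset P) :=
    Fintype.piFinset (fun _ => univ.filter (fun T : Finset P => N ≤ T.card * q)) with hTs
  set Bad : Finset (Fin G → Fin n → P) := Us.biUnion (fun U => Ts.biUnion (fun T =>
    Fintype.piFinset (fun g => avoid U (T g)))) with hBad
  have h1 : (univ : Finset (Fin G → Fin n → P)) ⊆ Bad := by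
    intro h _
    obtain ⟨U, hU1, hU2⟩ := hc h
    obtain ⟨U0, hU0, hU0c⟩ := exists_subset_card_eq hU1
    rw [hBad, mem_biUnion]
    refine ⟨U0, mem_powersetCard.mpr ⟨subset_univ _, hU0c⟩, ?_⟩
    rw [mem_biUnion]
    refine ⟨fun g => (U0.image (h g))ᶜ, ?_, ?_⟩
    · rw [hTs, Fintype.mem_piFinset]
      intro g
      refine mem_filter.mpr ⟨mem_univ _, (hU2 g).trans (Nat.mul_le_mul_right _ ?_)⟩
      apply card_le_card
      exact compl_subset_compl.mpr (image_subset_image hU0)
    · rw [Fintype.mem_piFinset]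
      intro g
      unfold avoid
      rw [Fintype.mem_piFinset]
      intro j
      by_cases hj : j ∈ U0
      · rw [if_pos hj]
        simp only [compl_compl]
        exact mem_image_of_mem _ hj
      · rw [if_neg hj]
        exact mem_univ _
  have h2 : Bad.card * 2 ^ (3 * N * G) ≤ Us.card * (Ts.card * (N ^ n) ^ G) := by
    have h3 : Bad.card ≤ ∑ U ∈ Us, ∑ T ∈ Ts, (Fintype.piFinset (fun g => avoid U (T g))).card :=
      card_biUnion_le.trans (sum_le_sum fun U _ => card_biUnion_le)
    have h4 : ∀ U ∈ Us, ∀ T ∈ Ts,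
        (Fintype.piFinset (fun g => avoid U (T g))).card * 2 ^ (3 * N * G) ≤ (N ^ n) ^ G := by
      intro U hU T hT
      rw [Fintype.card_piFinset]
      have e1 : 2 ^ (3 * N * G) = ∏ _g : Fin G, 2 ^ (3 * N) := by
        rw [prod_const, card_univ, Fintype.card_fin, ← pow_mul]
      have e2 : (N ^ n) ^ G = ∏ _g : Fin G, N ^ n := by
        rw [prod_const, card_univ, Fintype.card_fin]
      rw [e1, e2, ← prod_mul_distrib]
      apply prod_le_prod' fun g _ => ?_
      exact avoid_card hq (mem_powersetCard.mp hU).2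
        (mem_filter.mp ((Fintype.mem_piFinset.mp hT) g)).2
    calc Bad.card * 2 ^ (3 * N * G)
        ≤ (∑ U ∈ Us, ∑ T ∈ Ts, (Fintype.piFinset (fun g => avoid U (T g))).card) *
            2 ^ (3 * N * G) := Nat.mul_le_mul_right _ h3
      _ = ∑ U ∈ Us, ∑ T ∈ Ts, (Fintype.piFinset (fun g => avoid U (T g))).card *
            2 ^ (3 * N * G) := by rw [sum_mul]; exact sum_congr rfl fun U _ => sum_mul _ _ _
      _ ≤ ∑ _U ∈ Us, ∑ _T ∈ Ts, (N ^ n) ^ G :=
          sum_le_sum fun U hU => sum_le_sum fun T hT => h4 U hU T hT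
      _ = _ := by rw [sum_const, sum_const, smul_eq_mul, smul_eq_mul]
  have h5 : (N ^ n) ^ G ≤ Bad.card := by
    have := card_le_card h1
    rw [card_univ] at this
    simpa [hN] using this
  have h6 : Us.card ≤ 2 ^ (l * (3 * q * N)) := by
    rw [hUs, card_powersetCard, card_univ, Fintype.card_fin, pow_mul]
    exact (Nat.choose_le_pow _ _).trans (Nat.pow_le_pow_left hn _)
  have h7 : Ts.card ≤ 2 ^ (N * G) := by
    rw [hTs, Fintype.card_piFinset, prod_const, card_univ, Fintype.card_fin, pow_mul]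
    apply Nat.pow_le_pow_left
    refine (card_filter_le _ _).trans ?_
    rw [card_univ, Fintype.card_finset]
  have hpos : 0 < (N ^ n) ^ G := Nat.pow_pos (Nat.pow_pos hNpos)
  have h8 : (N ^ n) ^ G * 2 ^ (3 * N * G) ≤
      (N ^ n) ^ G * 2 ^ (l * (3 * q * N) + N * G) := by
    calc (N ^ n) ^ G * 2 ^ (3 * N * G) ≤ Bad.card * 2 ^ (3 * N * G) :=
          Nat.mul_le_mul_right _ h5
      _ ≤ Us.card * (Ts.card * (N ^ n) ^ G) := h2
      _ ≤ 2 ^ (l * (3 * q * N)) * (2 ^ (N * G) * (N ^ n) ^ G) :=
          Nat.mul_le_mul h6 (Nat.mul_le_mul_right _ h7)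
      _ = _ := by rw [pow_add]; ring
  have h9 := Nat.le_of_mul_le_mul_left h8 hpos
  have h10 := (Nat.pow_le_pow_iff_right (by norm_num : 1 < 2)).mp h9
  have h11 : N * (3 * q * l) < N * (2 * G) := Nat.mul_lt_mul_of_pos_left hG hNpos
  nlinarith

end Pool.Agent.T9h19.RM
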