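import Mathlib
import Pool.Agent.W953.NW.Base
import Pool.Agent.T9h19.RM.Fun

/-!
# Monotone circuits for the generation function
-/

set_option autoImplicit false

namespace Pool.Agent.T9h19.RM

open Pool.Agent.H540R2 Pool.Agent.H540R2.Circuit Pool.Agent.W953.NW

variable {N : ℕ}

/-- `f` is computed at a node of `P` -/
def Avv (P : Circuit N) (f : BF N) : Prop := ∃ d, Av P f d

lemma Avv.ext {P P' : Circuit N} (h : Ext P P') {f : BF N} (hf : Avv P f) : Avv P' f :=
  ⟨hf.choose, hf.choose_spec.ext h⟩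

lemma Avv.congr {P : Circuit N} {f g : BF N} (h : Avv P f) (hg : ∀ x, f x = g x) : Avv P g :=
  ⟨h.choose, h.choose_spec.congr hg⟩

lemma Avv.and {P : Circuit N} {f g : BF N} (hf : Avv P f) (hg : Avv P g) :
    ∃ P' : Circuit N, Stp P P' 1 0 ∧ Avv P' (fun x => f x && g x) := by
  obtain ⟨d, hf⟩ := hf
  obtain ⟨e, hg⟩ := hg
  obtain ⟨P', h1, h2⟩ := hf.and hg
  exact ⟨P', h1, _, h2⟩

lemma Avv.or {P : Circuit N} {f g : BF N} (hf : Avv P f) (hg : Avv P g) :
    ∃ P' : Circuit N, Stp P P' 1 0 ∧ Avv P' (fun x => f x || g x) := by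
  obtain ⟨d, hf⟩ := hf
  obtain ⟨e, hg⟩ := hg
  obtain ⟨P', h1, h2⟩ := hf.or hg
  exact ⟨P', h1, _, h2⟩

/-- making all functions of a family available -/
lemma Avv.all (P : Circuit N) (G : ℕ → BF N) (s : ℕ) : ∀ k : ℕ,
    (∀ j < k, ∀ P', Ext P P' → ∃ P'' : Circuit N, Stp P' P'' s 0 ∧ Avv P'' (G j)) →
    ∃ P' : Circuit N, Stp P P' (k * s) 0 ∧ ∀ j < k, Avv P' (G j) := by
  intro k
  induction k with
  | zero =>
    intro _
    exact ⟨P, Stp.refl _ _ _, fun j hj => absurd hj (Nat.not_lt_zero j)⟩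
  | succ k ih =>
    intro h
    obtain ⟨P1, s1, a1⟩ := ih (fun j hj => h j (by omega))
    obtain ⟨P2, s2, a2⟩ := h k (Nat.lt_succ_self k) P1 s1.1
    refine ⟨P2, (s1.trans s2).le (by rw [Nat.succ_mul]) (by omega), fun j hj => ?_⟩
    rcases Nat.lt_succ_iff_lt_or_eq.mp hj with h' | rfl
    · exact (a1 j h').ext s2.1
    · exact a2

open Classical in
/-- the disjunction of a family -/
lemma Avv.any (P : Circuit N) (G : ℕ → BF N) (s : ℕ) : ∀ k : ℕ,
    (∀ j < k, ∀ P', Ext P P' → ∃ P'' : Circuit N, Stp P' P'' s 0 ∧ Avv P'' (G j)) →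
    ∃ P' : Circuit N, Stp P P' (k * (s + 1)) 0 ∧
      Avv P' (fun x => decide (∃ j < k, G j x = true)) := by
  intro k
  induction k with
  | zero =>
    intro _
    refine ⟨P, Stp.refl _ _ _, 0, (Av.const P false 0).congr fun x => ?_⟩
    simp
  | succ k ih =>
    intro h
    obtain ⟨P1, s1, a1⟩ := ih (fun j hj => h j (by omega))
    obtain ⟨P2, s2, a2⟩ := h k (Nat.lt_succ_self k) P1 s1.1
    obtain ⟨P3, s3, a3⟩ := (a1.ext s2.1).or a2
    refine ⟨P3, ((s1.trans s2).trans s3).le (by rw [Nat.succ_mul]; omega) (by omega),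
      a3.congr fun x => ?_⟩
    by_cases h1 : ∃ j < k, G j x = true
    · have h2 : ∃ j < k + 1, G j x = true := by
        obtain ⟨j, hj, hj'⟩ := h1
        exact ⟨j, by omega, hj'⟩
      rw [decide_eq_true h1, decide_eq_true h2]; rfl
    · rw [decide_eq_false h1, Bool.false_or]
      by_cases h2 : G k x = true
      · rw [h2]
        exact (decide_eq_true ⟨k, Nat.lt_succ_self k, h2⟩).symm
      · have h3 : ¬ ∃ j < k + 1, G j x = true := by
          rintro ⟨j, hj, hj'⟩
          rcases Nat.lt_succ_iff_lt_or_eq.mp hj with h' | rfl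
          · exact h1 ⟨j, h', hj'⟩
          · exact h2 hj'
        rw [decide_eq_false h3]
        exact Bool.eq_false_iff.mpr h2

section gen

variable {h m : ℕ} (ν : Vr h m → Fin N)

open Classical in
/-- derivability, as a function of the inputs of the circuit -/
noncomputable def DF (k i j : ℕ) (c : Fin m) : BF N :=
  fun x => decide (Der (fun v => x (ν v)) k i j c)

/-- a pair of numbers below `m` from a number below `m * m` -/
def dec (m : ℕ) (q : ℕ) (hq : q < m * m) : Fin m × Fin m :=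
  (⟨q / m, Nat.div_lt_of_lt_mul hq⟩, ⟨q % m, Nat.mod_lt _ (by
    rcases Nat.eq_zero_or_pos m with h | h
    · subst h; simp at hq
    · exact h)⟩)

lemma exists_dec (p : Fin m × Fin m) : ∃ q, ∃ hq : q < m * m, dec m q hq = p := by
  obtain ⟨a, b⟩ := p
  have ha := a.isLt
  have hb := b.isLt
  have hlt : a.val * m + b.val < m * m := by nlinarith
  refine ⟨a.val * m + b.val, hlt, ?_⟩
  unfold dec
  have h1 : (a.val * m + b.val) / m = a.val := by
    rw [mul_comm, Nat.mul_add_div (by omega), Nat.div_eq_of_lt hb]; omega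
  have h2 : (a.val * m + b.val) % m = b.val := by
    rw [mul_comm, Nat.mul_add_mod, Nat.mod_eq_of_lt hb]
  simp only [h1, h2]

/-- one level -/
lemma DF.step (P : Circuit N) (k i j : ℕ) (h1 : ∀ c, Avv P (DF ν k (i + 1) j c))
    (h2 : ∀ c, Avv P (DF ν k i (j + 1) c)) (c : Fin m) :
    ∃ P' : Circuit N, Stp P P' (m * m * 3) 0 ∧ Avv P' (DF ν (k + 1) i j c) := by
  classical
  obtain ⟨P', p1, p2⟩ := Avv.any P (fun q x => if hq : q < m * m then
      (x (ν (.inr (.inl (nd h i j, (dec m q hq).1, (dec m q hq).2, c)))) &&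
        DF ν k (i + 1) j (dec m q hq).1 x) && DF ν k i (j + 1) (dec m q hq).2 x else false)
    2 (m * m) (by
      intro q hq P' hP'
      obtain ⟨P1, s1, a1⟩ := Avv.and (P := P')
        ⟨0, Av.var P' (ν (.inr (.inl (nd h i j, (dec m q hq).1, (dec m q hq).2, c)))) 0⟩
        ((h1 (dec m q hq).1).ext hP')
      obtain ⟨P2, s2, a2⟩ := a1.and (((h2 (dec m q hq).2).ext hP').ext s1.1)
      refine ⟨P2, s1.trans s2, a2.congr fun x => ?_⟩
      rw [dif_pos hq])
  refine ⟨P', p1, p2.congr fun x => ?_⟩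
  unfold DF
  congr 1
  simp only [Der]
  apply propext
  constructor
  · rintro ⟨q, hq, h3⟩
    rw [dif_pos hq] at h3
    simp only [Bool.and_eq_true] at h3
    obtain ⟨⟨h4, h5⟩, h6⟩ := h3
    exact ⟨_, _, h4, of_decide_eq_true h5, of_decide_eq_true h6⟩
  · rintro ⟨c1, c2, h4, h5, h6⟩
    obtain ⟨q, hq, hd⟩ := exists_dec (c1, c2)
    refine ⟨q, hq, ?_⟩
    rw [dif_pos hq, hd]
    simp only [Bool.and_eq_true]
    exact ⟨⟨h4, decide_eq_true h5⟩, decide_eq_true h6⟩

/-- all levels -/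
lemma DF.levels (P : Circuit N) (k : ℕ) (hk : k ≤ h) : ∃ P' : Circuit N,
    Stp P P' (k * ((h + 1) * (m * (m * m * 3)))) 0 ∧
      ∀ i j, i + j + k = h → ∀ c, Avv P' (DF ν k i j c) := by
  classical
  induction k with
  | zero =>
    refine ⟨P, Stp.refl _ _ _, fun i j _ c => ⟨0, (Av.var P (ν (.inl (nd h i j, c))) 0).congr
      fun x => ?_⟩⟩
    unfold DF
    rw [Bool.eq_iff_iff, decide_eq_true_iff]
    exact Iff.rfl
  | succ k ih =>
    obtain ⟨P1, s1, a1⟩ := ih (by omega)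
    -- for fixed `i`, all copies
    have h3 : ∀ i < h + 1, ∀ P', Ext P1 P' → ∃ P'' : Circuit N, Stp P' P'' (m * (m * m * 3)) 0 ∧
        ∀ c, i + (k + 1) ≤ h → Avv P'' (DF ν (k + 1) i (h - (k + 1) - i) c) := by
      intro i _ P' hP'
      by_cases hi : i + (k + 1) ≤ h
      · obtain ⟨P'', p1, p2⟩ := Avv.all P' (fun q x => if hq : q < m then
          DF ν (k + 1) i (h - (k + 1) - i) ⟨q, hq⟩ x else false) (m * m * 3) m (by
            intro q hq Q hQ
            obtain ⟨Q', q1, q2⟩ := DF.step ν Q k i (h - (k + 1) - i)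
              (fun c => ((a1 (i + 1) (h - (k + 1) - i) (by omega) c).ext hP').ext hQ)
              (fun c => ((a1 i (h - (k + 1) - i + 1) (by omega) c).ext hP').ext hQ) ⟨q, hq⟩
            refine ⟨Q', q1, q2.congr fun x => ?_⟩
            rw [dif_pos hq])
        refine ⟨P'', p1, fun c _ => ?_⟩
        have := p2 c.val c.isLt
        refine this.congr fun x => ?_
        rw [dif_pos c.isLt]
      · exact ⟨P', Stp.refl _ _ _, fun c hi' => absurd hi' hi⟩
    -- all `i`
    have h4 : ∀ r ≤ h + 1, ∃ P' : Circuit N, Stp P1 P' (r * (m * (m * m * 3))) 0 ∧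
        ∀ i < r, ∀ c, i + (k + 1) ≤ h → Avv P' (DF ν (k + 1) i (h - (k + 1) - i) c) := by
      intro r
      induction r with
      | zero =>
        intro _
        exact ⟨P1, Stp.refl _ _ _, fun i hi => absurd hi (Nat.not_lt_zero i)⟩
      | succ r ihr =>
        intro hr
        obtain ⟨P2, s2, a2⟩ := ihr (by omega)
        obtain ⟨P3, s3, a3⟩ := h3 r (by omega) P2 s2.1
        refine ⟨P3, (s2.trans s3).le (by rw [Nat.succ_mul]) (by omega), fun i hi c hic => ?_⟩
        rcases Nat.lt_succ_iff_lt_or_eq.mp hi with h' | rfl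
        · exact (a2 i h' c hic).ext s3.1
        · exact a3 c hic
    obtain ⟨P2, s2, a2⟩ := h4 (h + 1) le_rfl
    refine ⟨P2, (s1.trans s2).le (le_of_eq (by ring)) (by omega), fun i j hij c => ?_⟩
    have := a2 i (by omega) c (by omega)
    rwa [show h - (k + 1) - i = j by omega] at this

/-- **Monotone circuits for the generation function.** -/
lemma gen_circ (P : Circuit N) : ∃ P' : Circuit N,
    Stp P P' (h * ((h + 1) * (m * (m * m * 3))) + m * 2) 0 ∧
      Avv P' (fun x => gen h m (fun v => x (ν v))) := by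
  classical
  obtain ⟨P1, s1, a1⟩ := DF.levels ν P h le_rfl
  obtain ⟨P2, s2, a2⟩ := Avv.any P1 (fun q x => if hq : q < m then
      DF ν h 0 0 ⟨q, hq⟩ x && x (ν (.inr (.inr ⟨q, hq⟩))) else false) 1 m (by
    intro q hq P' hP'
    obtain ⟨P2, s2, a2⟩ := Avv.and ((a1 0 0 (by omega) ⟨q, hq⟩).ext hP')
      ⟨0, Av.var P' (ν (.inr (.inr ⟨q, hq⟩))) 0⟩
    refine ⟨P2, s2, a2.congr fun x => ?_⟩
    rw [dif_pos hq])
  refine ⟨P2, (s1.trans s2), a2.congr fun x => ?_⟩
  unfold gen
  congr 1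
  apply propext
  constructor
  · rintro ⟨q, hq, h3⟩
    rw [dif_pos hq] at h3
    simp only [Bool.and_eq_true] at h3
    exact ⟨⟨q, hq⟩, of_decide_eq_true h3.1, h3.2⟩
  · rintro ⟨c, h3, h4⟩
    refine ⟨c.val, c.isLt, ?_⟩
    rw [dif_pos c.isLt]
    simp only [Bool.and_eq_true]
    exact ⟨decide_eq_true h3, h4⟩

end gen

end Pool.Agent.T9h19.RM
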