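import Mathlib
import Pool.Agent.T9h19.RM.GenCirc

/-!
# Monotone circuits for maps
-/

set_option autoImplicit false

namespace Pool.Agent.T9h19.RM

open Finset Pool.Agent.H540R2 Pool.Agent.H540R2.Circuit Pool.Agent.W953.NW

/-- The map `Φ` is computed by monotone circuits with `s` gates. -/
def MSM {σ τ : Type} (Φ : (σ → Bool) → (τ → Bool)) (s : ℕ) : Prop :=
  ∀ (N : ℕ) (P : Circuit N) (Y : σ → BF N), (∀ v, Avv P (Y v)) →
    ∃ P' : Circuit N, Stp P P' s 0 ∧ ∀ b, Avv P' (fun x => Φ (fun v => Y v x) b)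

/-- The function `f` is computed by monotone circuits with `s` gates. -/
def MS {σ : Type} (f : (σ → Bool) → Bool) (s : ℕ) : Prop :=
  ∀ (N : ℕ) (P : Circuit N) (Y : σ → BF N), (∀ v, Avv P (Y v)) →
    ∃ P' : Circuit N, Stp P P' s 0 ∧ Avv P' (fun x => f (fun v => Y v x))

variable {σ τ κ : Type}

lemma MS.le {f : (σ → Bool) → Bool} {s t : ℕ} (h : MS f s) (hst : s ≤ t) : MS f t := by
  intro N P Y hY
  obtain ⟨P', h1, h2⟩ := h N P Y hY
  exact ⟨P', h1.le hst le_rfl, h2⟩

lemma MS.congr {f g : (σ → Bool) → Bool} {s : ℕ} (h : MS f s) (hg : ∀ x, f x = g x) :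
    MS g s := by
  intro N P Y hY
  obtain ⟨P', h1, h2⟩ := h N P Y hY
  exact ⟨P', h1, h2.congr fun x => hg _⟩

lemma MSM.le {Φ : (σ → Bool) → (τ → Bool)} {s t : ℕ} (h : MSM Φ s) (hst : s ≤ t) : MSM Φ t := by
  intro N P Y hY
  obtain ⟨P', h1, h2⟩ := h N P Y hY
  exact ⟨P', h1.le hst le_rfl, h2⟩

lemma MSM.congr {Φ Ψ : (σ → Bool) → (τ → Bool)} {s : ℕ} (h : MSM Φ s)
    (hΨ : ∀ x b, Φ x b = Ψ x b) : MSM Ψ s := by
  intro N P Y hY
  obtain ⟨P', h1, h2⟩ := h N P Y hY
  exact ⟨P', h1, fun b => (h2 b).congr fun x => hΨ _ b⟩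

/-- composition -/
lemma MSM.comp {Φ : (σ → Bool) → (τ → Bool)} {Ψ : (τ → Bool) → (κ → Bool)} {s t : ℕ}
    (h : MSM Φ s) (h' : MSM Ψ t) : MSM (fun x => Ψ (Φ x)) (s + t) := by
  intro N P Y hY
  obtain ⟨P1, s1, a1⟩ := h N P Y hY
  obtain ⟨P2, s2, a2⟩ := h' N P1 _ a1
  exact ⟨P2, s1.trans s2, a2⟩

lemma MS.comp {Φ : (σ → Bool) → (τ → Bool)} {f : (τ → Bool) → Bool} {s t : ℕ}
    (h : MSM Φ s) (h' : MS f t) : MS (fun x => f (Φ x)) (s + t) := by
  intro N P Y hY
  obtain ⟨P1, s1, a1⟩ := h N P Y hY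
  obtain ⟨P2, s2, a2⟩ := h' N P1 _ a1
  exact ⟨P2, s1.trans s2, a2⟩

/-- selecting variables is free -/
lemma MSM.sel (ν : τ → σ) : MSM (fun (x : σ → Bool) (b : τ) => x (ν b)) 0 := by
  intro N P Y hY
  exact ⟨P, Stp.refl _ _ _, fun b => hY (ν b)⟩

lemma MS.sel {f : (τ → Bool) → Bool} {s : ℕ} (h : MS f s) (ν : τ → σ) :
    MS (fun x : σ → Bool => f (fun b => x (ν b))) s := by
  intro N P Y hY
  exact h N P (fun b => Y (ν b)) (fun b => hY (ν b))

lemma MS.var (v : σ) : MS (fun x : σ → Bool => x v) 0 := by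
  intro N P Y hY
  exact ⟨P, Stp.refl _ _ _, hY v⟩

lemma MS.const (b : Bool) : MS (fun _ : σ → Bool => b) 0 := by
  intro N P Y _
  exact ⟨P, Stp.refl _ _ _, 0, Av.const P b 0⟩

lemma MS.and {f g : (σ → Bool) → Bool} {s t : ℕ} (h : MS f s) (h' : MS g t) :
    MS (fun x => f x && g x) (s + t + 1) := by
  intro N P Y hY
  obtain ⟨P1, s1, a1⟩ := h N P Y hY
  obtain ⟨P2, s2, a2⟩ := h' N P1 Y (fun v => (hY v).ext s1.1)
  obtain ⟨P3, s3, a3⟩ := (a1.ext s2.1).and a2
  exact ⟨P3, (s1.trans s2).trans s3, a3⟩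

lemma MS.or {f g : (σ → Bool) → Bool} {s t : ℕ} (h : MS f s) (h' : MS g t) :
    MS (fun x => f x || g x) (s + t + 1) := by
  intro N P Y hY
  obtain ⟨P1, s1, a1⟩ := h N P Y hY
  obtain ⟨P2, s2, a2⟩ := h' N P1 Y (fun v => (hY v).ext s1.1)
  obtain ⟨P3, s3, a3⟩ := (a1.ext s2.1).or a2
  exact ⟨P3, (s1.trans s2).trans s3, a3⟩

open Classical in
/-- the disjunction of a finite family -/
lemma MS.bor {ι : Type} (s : Finset ι) (f : ι → (σ → Bool) → Bool) (c : ι → ℕ)
    (h : ∀ i ∈ s, MS (f i) (c i)) :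
    MS (fun x => decide (∃ i ∈ s, f i x = true)) (∑ i ∈ s, (c i + 1)) := by
  induction s using Finset.induction_on with
  | empty =>
    refine ((MS.const false).le (Nat.zero_le _)).congr fun x => ?_
    simp
  | insert i s hi ih =>
    rw [sum_insert hi]
    refine (((h i (mem_insert_self _ _)).or
      (ih fun j hj => h j (mem_insert_of_mem hj))).le (by omega)).congr fun x => ?_
    rw [Bool.eq_iff_iff, Bool.or_eq_true, decide_eq_true_iff, decide_eq_true_iff]
    constructor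
    · rintro (h | ⟨j, h1, h2⟩)
      · exact ⟨i, mem_insert_self _ _, h⟩
      · exact ⟨j, mem_insert_of_mem h1, h2⟩
    · rintro ⟨j, h1, h2⟩
      rcases mem_insert.mp h1 with h | h
      · subst h
        exact Or.inl h2
      · exact Or.inr ⟨j, h, h2⟩

open Classical in
/-- the conjunction of a finite family -/
lemma MS.band {ι : Type} (s : Finset ι) (f : ι → (σ → Bool) → Bool) (c : ι → ℕ)
    (h : ∀ i ∈ s, MS (f i) (c i)) :
    MS (fun x => decide (∀ i ∈ s, f i x = true)) (∑ i ∈ s, (c i + 1)) := by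
  induction s using Finset.induction_on with
  | empty =>
    refine ((MS.const true).le (Nat.zero_le _)).congr fun x => ?_
    simp
  | insert i s hi ih =>
    rw [sum_insert hi]
    refine (((h i (mem_insert_self _ _)).and
      (ih fun j hj => h j (mem_insert_of_mem hj))).le (by omega)).congr fun x => ?_
    rw [Bool.eq_iff_iff, Bool.and_eq_true, decide_eq_true_iff, decide_eq_true_iff]
    constructor
    · rintro ⟨h1, h2⟩ j hj
      rcases mem_insert.mp hj with h | h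
      · subst h; exact h1
      · exact h2 j h
    · intro h
      exact ⟨h i (mem_insert_self _ _), fun j hj => h j (mem_insert_of_mem hj)⟩

/-- a map from its coordinates -/
lemma MSM.coords [Fintype τ] (Φ : (σ → Bool) → (τ → Bool)) (c : τ → ℕ)
    (h : ∀ b, MS (fun x => Φ x b) (c b)) : MSM Φ (∑ b, c b) := by
  classical
  intro N P Y hY
  have key : ∀ s : Finset τ, ∃ P' : Circuit N, Stp P P' (∑ b ∈ s, c b) 0 ∧
      ∀ b ∈ s, Avv P' (fun x => Φ (fun v => Y v x) b) := by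
    intro s
    induction s using Finset.induction_on with
    | empty => exact ⟨P, Stp.refl _ _ _, fun b hb => absurd hb (notMem_empty b)⟩
    | insert b s hb ih =>
      obtain ⟨P1, s1, a1⟩ := ih
      obtain ⟨P2, s2, a2⟩ := h b N P1 Y (fun v => (hY v).ext s1.1)
      refine ⟨P2, (s1.trans s2).le (by rw [sum_insert hb, add_comm]) (by omega), fun b' hb' => ?_⟩
      rcases mem_insert.mp hb' with h1 | h1
      · subst h1; exact a2
      · exact (a1 b' h1).ext s2.1
  obtain ⟨P', h1, h2⟩ := key univ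
  exact ⟨P', h1, fun b => h2 b (mem_univ b)⟩

/-- two maps side by side -/
lemma MSM.pair {Φ : (σ → Bool) → (τ → Bool)} {Ψ : (σ → Bool) → (κ → Bool)} {s t : ℕ}
    (h : MSM Φ s) (h' : MSM Ψ t) :
    MSM (fun x => Sum.elim (Φ x) (Ψ x)) (s + t) := by
  intro N P Y hY
  obtain ⟨P1, s1, a1⟩ := h N P Y hY
  obtain ⟨P2, s2, a2⟩ := h' N P1 Y (fun v => (hY v).ext s1.1)
  refine ⟨P2, s1.trans s2, fun b => ?_⟩
  cases b with
  | inl b => exact (a1 b).ext s2.1
  | inr b => exact a2 b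

open Classical in
/-- the value at `b` is the disjunction of the values on the preimage of `b` -/
noncomputable def pull (g : σ → τ) (x : σ → Bool) (b : τ) : Bool :=
  decide (∃ v, g v = b ∧ x v = true)

lemma pull_iff {g : σ → τ} {x : σ → Bool} {b : τ} :
    pull g x b = true ↔ ∃ v, g v = b ∧ x v = true := by
  simp [pull]

lemma MSM.pull [Fintype σ] [Fintype τ] (g : σ → τ) : MSM (pull g) (Fintype.card σ) := by
  classical
  have h1 : ∀ b, MS (fun x => RM.pull g x b)
      (∑ v ∈ univ.filter (fun v => g v = b), (0 + 1)) := by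
    intro b
    refine (MS.bor (univ.filter (fun v => g v = b)) (fun v (x : σ → Bool) => x v) (fun _ => 0)
      (fun v _ => MS.var v)).congr fun x => ?_
    rw [Bool.eq_iff_iff, pull_iff, decide_eq_true_iff]
    constructor
    · rintro ⟨v, hv, h⟩
      exact ⟨v, (mem_filter.mp hv).2, h⟩
    · rintro ⟨v, hv, h⟩
      exact ⟨v, mem_filter.mpr ⟨mem_univ _, hv⟩, h⟩
  refine (MSM.coords _ _ h1).le (le_of_eq ?_)
  have h2 : ∀ b, ∑ _v ∈ univ.filter (fun v => g v = b), (0 + 1) =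
      (univ.filter (fun v => g v = b)).card := by
    intro b
    rw [sum_const, smul_eq_mul, zero_add, mul_one]
  rw [sum_congr rfl fun b _ => h2 b, ← card_univ (α := σ)]
  exact (card_eq_sum_card_fiberwise (f := g) (s := univ) (t := univ)
    (fun v _ => mem_coe.mpr (mem_univ _))).symm

/-- from `MS` to circuits -/
lemma MS.circuit [Fintype σ] {f : (σ → Bool) → Bool} {s N : ℕ} (h : MS f s) (e : σ ≃ Fin N) :
    ∃ C : Circuit N, C.Monotone ∧ C.size ≤ s ∧ ∀ x, C.eval x = f (fun v => x (e v)) := by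
  obtain ⟨P, h1, d, h2⟩ := h N (Circuit.empty N) (fun v x => x (e v))
    (fun v => ⟨0, Av.var _ (e v) 0⟩)
  obtain ⟨C, c1, c2, c3, c4⟩ := h2.circuit
  have e1 := h1.2.1
  have e2 := h1.2.2
  rw [empty_nots] at e2
  have e3 : (Circuit.empty N).size = 0 := rfl
  exact ⟨C, (nots_eq_zero_iff C).mp (by omega), by omega, c4⟩

/-- the generation function -/
lemma MS.gen (h m : ℕ) : MS (RM.gen h m) (h * ((h + 1) * (m * (m * m * 3))) + m * 2) := by
  classical
  intro N P Y hY
  set k := Fintype.card (Vr h m) with hk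
  set e : Vr h m ≃ Fin k := Fintype.equivFin _ with he
  obtain ⟨P1, h1, d, h2⟩ := gen_circ (h := h) (m := m) (fun v => e v) (Circuit.empty k)
  obtain ⟨Q, c1, c2, c3, c4⟩ := h2.circuit
  have e1 := h1.2.1
  have e2 := h1.2.2
  rw [empty_nots] at e2
  have e3 : (Circuit.empty k).size = 0 := rfl
  -- a common bound for the depths
  choose D hD using hY
  obtain ⟨P', s1, a1⟩ := Av.app P Q (fun i => Y (e.symm i)) (univ.sup (fun v => D v))
    (fun i => (hD (e.symm i)).mono (le_sup (f := fun v => D v) (mem_univ _)))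
  refine ⟨P', s1.le (by omega) (by omega), _, a1.congr fun x => ?_⟩
  rw [c4]
  simp

end Pool.Agent.T9h19.RM
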