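import Mathlib
import Pool.Agent.T9h19.RM.Disp
import Pool.Agent.T9h19.RM.Msm

/-!
# A function that contains the hard functions on every set of variables
-/

set_option autoImplicit false

namespace Pool.Agent.T9h19.RM

open Finset Pool.Agent.H540R2 Pool.Agent.H540R2.Circuit Pool.Agent.W953.NW

/-- a bound for the size -/
def wa (a : ℕ) : ℕ := 2 ^ (35 * a + 94)

lemma wa_pos (a : ℕ) : 1 ≤ wa a := Nat.one_le_two_pow

lemma va_pos (a : ℕ) : 1 ≤ Fintype.card (Va a) := by
  have : Nonempty (Va a) := ⟨.inr (.inr ⟨0, by positivity⟩)⟩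
  exact Fintype.card_pos

lemma va_le (a : ℕ) : Fintype.card (Va a) ≤ wa a := by
  have h1 : 1 ≤ 2 ^ a := Nat.one_le_two_pow
  have h2 : Fintype.card (Va a) = 2 ^ a * 2 ^ a * 2 ^ (11 * a + 30) +
      (2 ^ a * 2 ^ a * (2 ^ (11 * a + 30) * (2 ^ (11 * a + 30) * 2 ^ (11 * a + 30))) +
        2 ^ (11 * a + 30)) := by
    have e : 2 ^ a - 1 + 1 = 2 ^ a := by omega
    simp only [Fintype.card_sum, Fintype.card_prod, Fintype.card_fin, e]
  rw [h2]
  unfold wa
  obtain ⟨m, hm⟩ : ∃ m, m = 2 ^ (11 * a + 30) := ⟨_, rfl⟩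
  obtain ⟨x, hx⟩ : ∃ x, x = 2 ^ a := ⟨_, rfl⟩
  have hm1 : 1 ≤ m := by rw [hm]; exact Nat.one_le_two_pow
  have e1 : 2 ^ (35 * a + 94) = 16 * (x ^ 2 * m ^ 3) := by
    have e2 : x ^ 2 = 2 ^ (2 * a) := by rw [hx, ← pow_mul, mul_comm]
    have e3 : m ^ 3 = 2 ^ (33 * a + 90) := by rw [hm, ← pow_mul]; ring_nf
    rw [e2, e3, show 35 * a + 94 = 4 + (2 * a + (33 * a + 90)) by ring, pow_add 2 4,
      pow_add 2 (2 * a)]
    norm_num
  rw [e1, ← hm, ← hx]
  rw [← hx] at h1
  have h3 : m ^ 1 ≤ m ^ 3 := Nat.pow_le_pow_right hm1 (by norm_num)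
  have h4 : 1 ≤ x ^ 2 := Nat.one_le_pow _ _ h1
  have h5 : x * x * m ≤ x ^ 2 * m ^ 3 := by
    calc x * x * m = x ^ 2 * m ^ 1 := by ring
      _ ≤ _ := Nat.mul_le_mul_left _ h3
  have h6 : m ≤ x ^ 2 * m ^ 3 := by
    calc m = 1 * m ^ 1 := by ring
      _ ≤ x ^ 2 * m ^ 3 := Nat.mul_le_mul h4 h3
  have h7 : x * x * (m * (m * m)) = x ^ 2 * m ^ 3 := by ring
  rw [h7]
  omega

lemma gen_cost (a : ℕ) : MS (ga a) (wa a - 1) := by
  have h1 := cost_le' a
  exact (MS.gen _ _).le (by unfold wa; omega)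
where
  cost_le' (a : ℕ) : (2 ^ a - 1) * ((2 ^ a - 1 + 1) *
    (2 ^ (11 * a + 30) * (2 ^ (11 * a + 30) * 2 ^ (11 * a + 30) * 3))) + 2 ^ (11 * a + 30) * 2 + 1 ≤
    2 ^ (35 * a + 94) := by
    have h1 : 1 ≤ 2 ^ a := Nat.one_le_two_pow
    obtain ⟨m, hm⟩ : ∃ m, m = 2 ^ (11 * a + 30) := ⟨_, rfl⟩
    obtain ⟨x, hx⟩ : ∃ x, x = 2 ^ a := ⟨_, rfl⟩
    have hm1 : 1 ≤ m := by rw [hm]; exact Nat.one_le_two_pow
    have e1 : 2 ^ (35 * a + 94) = 16 * (x ^ 2 * m ^ 3) := by
      have e2 : x ^ 2 = 2 ^ (2 * a) := by rw [hx, ← pow_mul, mul_comm]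
      have e3 : m ^ 3 = 2 ^ (33 * a + 90) := by rw [hm, ← pow_mul]; ring_nf
      rw [e2, e3, show 35 * a + 94 = 4 + (2 * a + (33 * a + 90)) by ring, pow_add 2 4,
        pow_add 2 (2 * a)]
      norm_num
    rw [e1, ← hm, ← hx]
    rw [← hx] at h1
    have h2 : (x - 1) * ((x - 1 + 1) * (m * (m * m * 3))) ≤ 3 * (x ^ 2 * m ^ 3) := by
      rw [show x - 1 + 1 = x by omega]
      calc (x - 1) * (x * (m * (m * m * 3))) ≤ x * (x * (m * (m * m * 3))) :=
            Nat.mul_le_mul_right _ (by omega)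
        _ = 3 * (x ^ 2 * m ^ 3) := by ring
    have h3 : m ≤ x ^ 2 * m ^ 3 := by
      have h4 : 1 ≤ x ^ 2 := Nat.one_le_pow _ _ h1
      have h5 : m ^ 1 ≤ m ^ 3 := Nat.pow_le_pow_right hm1 (by norm_num)
      calc m = 1 * m ^ 1 := by ring
        _ ≤ x ^ 2 * m ^ 3 := Nat.mul_le_mul h4 h5
    omega

/-! ### richness -/

/-- For suitable values `α` of the variables outside the range of `e`, which lies in `U`, the
function is the disjunction of `M` generation functions of disjoint sets of variables. -/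
def Rich {σ : Type} (f : (σ → Bool) → Bool) (U : Finset σ) (a M : ℕ) : Prop :=
  ∃ (α : σ → Bool) (e : Fin M × Va a → σ), Function.Injective e ∧ (∀ p, e p ∈ U) ∧
    ∀ x : σ → Bool, (∀ i, (∀ p, e p ≠ i) → x i = α i) →
      (f x = true ↔ ∃ c, ga a (fun v => x (e (c, v))) = true)

lemma Rich.zero {σ : Type} {f : (σ → Bool) → Bool} (U : Finset σ) (a : ℕ)
    (h : f (fun _ => false) = false) : Rich f U a 0 := by
  refine ⟨fun _ => false, fun p => p.1.elim0, fun p => p.1.elim0, fun p => p.1.elim0,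
    fun x hx => ?_⟩
  have hx' : x = fun _ => false := funext fun i => hx i fun p => p.1.elim0
  rw [hx', h]
  constructor
  · intro h'; exact absurd h' (by simp)
  · rintro ⟨c, _⟩; exact c.elim0

lemma Rich.equiv {σ τ : Type} {f : (σ → Bool) → Bool} (ε : σ ≃ τ) (U : Finset τ) (a M : ℕ)
    (h : Rich f (U.map ε.symm.toEmbedding) a M) :
    Rich (fun x : τ → Bool => f (fun v => x (ε v))) U a M := by
  obtain ⟨α, e, h1, h2, h3⟩ := h
  refine ⟨fun i => α (ε.symm i), fun p => ε (e p), fun p q hpq => h1 (ε.injective hpq),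
    fun p => ?_, fun x hx => ?_⟩
  · have := h2 p
    rw [mem_map] at this
    obtain ⟨i, hi, hi'⟩ := this
    show ε (e p) ∈ U
    rw [← hi']
    simpa using hi
  · exact h3 (fun v => x (ε v)) fun i hi => by
      have := hx (ε i) fun p hp => hi p (ε.injective hp)
      simpa using this

/-! ### addresses -/

/-- the variables -/
abbrev Vt (L n : ℕ) : Type := (Fin L × Bool) ⊕ Fin n

open Classical in
/-- the address is `c` -/
noncomputable def sel {L n : ℕ} (c : Fin L → Bool) (x : Vt L n → Bool) : Bool :=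
  decide (∀ k, x (.inl (k, c k)) = true)

lemma sel_ms {L : ℕ} (n : ℕ) (c : Fin L → Bool) : MS (sel (n := n) c) L := by
  classical
  refine ((MS.band (univ : Finset (Fin L)) (fun k (x : Vt L n → Bool) => x (.inl (k, c k)))
    (fun _ => 0) (fun k _ => MS.var _)).le ?_).congr fun x => ?_
  · rw [sum_const, card_univ, Fintype.card_fin, smul_eq_mul]
    omega
  · unfold sel
    simp

lemma sel_iff {L n : ℕ} {c c' : Fin L → Bool} {x : Vt L n → Bool}
    (hx : ∀ k b, x (.inl (k, b)) = decide (c k = b)) : sel c' x = true ↔ c' = c := by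
  simp only [sel, decide_eq_true_eq, hx]
  constructor
  · intro h
    funext k
    exact (h k).symm
  · intro h k
    rw [h]

/-! ### one scale -/

section scale

variable {a L n l : ℕ}

/-- number of maps -/
def Ga (l a : ℕ) : ℕ := 4 * wa a * l

/-- number of groups -/
def na (n a : ℕ) : ℕ := n / (wa a ^ 2) + 1

/-- the group of a variable -/
def grp (n a : ℕ) (j : Fin n) : Fin (na n a) :=
  ⟨j.val / (wa a ^ 2), Nat.lt_succ_of_le (Nat.div_le_div_right j.isLt.le)⟩

lemma grp_fib (U : Finset (Fin n)) : U.card ≤ wa a ^ 2 * (U.image (grp n a)).card := by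
  classical
  have h := card_le_mul_card_image (f := grp n a) U (wa a ^ 2) (fun b hb => ?_)
  · exact h
  · have h1 : ((U.filter (fun j => grp n a j = b)).image (fun j : Fin n => j.val)) ⊆
        Finset.Ico (b.val * wa a ^ 2) (b.val * wa a ^ 2 + wa a ^ 2) := by
      intro j hj
      obtain ⟨j', hj', rfl⟩ := mem_image.mp hj
      have h2 : j'.val / (wa a ^ 2) = b.val := congrArg Fin.val (mem_filter.mp hj').2
      have hpos : 0 < wa a ^ 2 := Nat.pow_pos (wa_pos a)
      have h3 := Nat.div_add_mod j'.val (wa a ^ 2)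
      have h4 := Nat.mod_lt j'.val hpos
      rw [h2] at h3
      obtain ⟨r, hr⟩ : ∃ r, r = j'.val % wa a ^ 2 := ⟨_, rfl⟩
      obtain ⟨z, hz⟩ : ∃ z, z = b.val * wa a ^ 2 := ⟨_, rfl⟩
      rw [mul_comm, ← hz, ← hr] at h3
      rw [← hr] at h4
      rw [Finset.mem_Ico, ← hz]
      omega
    have h2 := card_le_card h1
    rw [card_image_of_injective _ Fin.val_injective, Nat.card_Ico] at h2
    omega

lemma exists_maps (n a i l : ℕ) (hl : 1 ≤ l) (hn : na n a ≤ 2 ^ l) :
    ∃ h : Fin (Ga l a) → Fin (na n a) → Fin (2 ^ i) × Va a, ∀ U : Finset (Fin (na n a)),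
      6 * Fintype.card (Va a) ^ 2 * 2 ^ i ≤ U.card →
        ∃ g, (U.image (h g))ᶜ.card * 2 < 2 ^ i := by
  classical
  have hv := va_pos a
  have hvw := va_le a
  have hne : Nonempty (Fin (2 ^ i) × Va a) := by
    have h1 : Nonempty (Va a) := ⟨.inr (.inr ⟨0, by positivity⟩)⟩
    have h2 : Nonempty (Fin (2 ^ i)) := ⟨⟨0, by positivity⟩⟩
    infer_instance
  obtain ⟨h, hh⟩ := disp (P := Fin (2 ^ i) × Va a) (na n a) l (2 * Fintype.card (Va a)) (Ga l a)
    (by omega) hn (by
      unfold Ga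
      have h1 : Fintype.card (Va a) * l ≤ wa a * l := Nat.mul_le_mul_right _ hvw
      have h2 : 1 ≤ Fintype.card (Va a) * l := Nat.mul_pos hv hl
      nlinarith)
  have hc : Fintype.card (Fin (2 ^ i) × Va a) = 2 ^ i * Fintype.card (Va a) := by
    rw [Fintype.card_prod, Fintype.card_fin]
  refine ⟨h, fun U hU => ?_⟩
  obtain ⟨g, hg⟩ := hh U (by
    rw [hc]
    calc 3 * (2 * Fintype.card (Va a)) * (2 ^ i * Fintype.card (Va a))
        = 6 * Fintype.card (Va a) ^ 2 * 2 ^ i := by ring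
      _ ≤ _ := hU)
  refine ⟨g, ?_⟩
  rw [hc] at hg
  have h3 : Fintype.card (Va a) * ((U.image (h g))ᶜ.card * 2) <
      Fintype.card (Va a) * 2 ^ i := by
    calc Fintype.card (Va a) * ((U.image (h g))ᶜ.card * 2)
        = (U.image (h g))ᶜ.card * (2 * Fintype.card (Va a)) := by ring
      _ < 2 ^ i * Fintype.card (Va a) := hg
      _ = _ := mul_comm _ _
  exact Nat.lt_of_mul_lt_mul_left h3

open Classical in
/-- the disjunction of `2 ^ i` generation functions -/
noncomputable def orga (a i : ℕ) (y : Fin (2 ^ i) × Va a → Bool) : Bool :=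
  decide (∃ c, ga a (fun v => y (c, v)) = true)

lemma orga_ms (a i : ℕ) : MS (orga a i) (2 ^ i * wa a) := by
  classical
  refine ((MS.bor (univ : Finset (Fin (2 ^ i)))
    (fun c (y : Fin (2 ^ i) × Va a → Bool) => ga a (fun v => y (c, v))) (fun _ => wa a - 1)
    (fun c _ => (gen_cost a).sel (fun v => (c, v)))).le ?_).congr fun x => ?_
  · rw [sum_const, card_univ, Fintype.card_fin, smul_eq_mul]
    have := wa_pos a
    rw [Nat.sub_add_cancel this]
  · unfold orga
    simp

/-! ### the function -/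

/-- The parameters: `n` variables, addresses of length `L`, maps for all scales, the set of
relevant scales and the codes of the triples of a scale, a number of copies and a map. -/
structure Prm (n l : ℕ) where
  /-- the length of the addresses -/
  L : ℕ
  /-- the scales -/
  sc : Finset ℕ
  /-- the maps -/
  h : ∀ a i : ℕ, Fin (Ga l a) → Fin (na n a) → Fin (2 ^ i) × Va a
  /-- the codes -/
  code : (Σ a : sc, Fin l × Fin (Ga l a.val)) → (Fin L → Bool)
  /-- the codes are different -/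
  inj : Function.Injective code

open Classical in
/-- the function of a triple, in terms of the groups -/
noncomputable def tf {n l : ℕ} (p : Prm n l) (a i : ℕ) (g : Fin (Ga l a))
    (y : Fin (na n a) → Bool) : Bool :=
  if 6 * Fintype.card (Va a) ^ 2 * 2 ^ i ≤ na n a then orga a i (pull (p.h a i g) y) else false

lemma tf_ms {n l : ℕ} (p : Prm n l) (a i : ℕ) (g : Fin (Ga l a)) :
    MS (tf p a i g) (na n a * (wa a + 1)) := by
  classical
  by_cases hc : 6 * Fintype.card (Va a) ^ 2 * 2 ^ i ≤ na n a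
  · have h1 := MS.comp (MSM.pull (p.h a i g)) (orga_ms a i)
    rw [Fintype.card_fin] at h1
    refine (h1.le ?_).congr fun y => ?_
    · have h2 : 2 ^ i ≤ na n a := by
        have h3 : 1 ≤ 6 * Fintype.card (Va a) ^ 2 := by
          have := Nat.one_le_pow 2 _ (va_pos a)
          omega
        calc 2 ^ i = 1 * 2 ^ i := (one_mul _).symm
          _ ≤ 6 * Fintype.card (Va a) ^ 2 * 2 ^ i := Nat.mul_le_mul_right _ h3
          _ ≤ _ := hc
      have h3 := Nat.mul_le_mul_right (wa a) h2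
      rw [Nat.mul_add, mul_one]
      omega
    · unfold tf
      rw [if_pos hc]
  · refine ((MS.const false).le (Nat.zero_le _)).congr fun y => ?_
    unfold tf
    rw [if_neg hc]

open Classical in
/-- the function -/
noncomputable def E {n l : ℕ} (p : Prm n l) (x : Vt p.L n → Bool) : Bool :=
  decide (∃ t : (Σ a : p.sc, Fin l × Fin (Ga l a.val)), sel (p.code t) x = true ∧
    tf p t.1.val t.2.1.val t.2.2 (pull (grp n t.1.val) (fun j => x (.inr j))) = true)

lemma E_zero {n l : ℕ} (p : Prm n l) (hL : 1 ≤ p.L) : E p (fun _ => false) = false := by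
  unfold E
  rw [decide_eq_false_iff_not]
  rintro ⟨t, h1, _⟩
  have h2 := of_decide_eq_true h1 ⟨0, hL⟩
  exact absurd h2 (by simp)

lemma E_ms {n l : ℕ} (p : Prm n l) : MS (E p)
    (∑ a ∈ p.sc, (n + l * (Ga l a * (p.L + na n a * (wa a + 1) + 2)) + 1)) := by
  classical
  -- one scale, in terms of the groups
  have h1 : ∀ a : p.sc, MS (fun y : (Vt p.L n) ⊕ Fin (na n a.val) → Bool =>
      decide (∃ t ∈ (univ : Finset (Fin l × Fin (Ga l a.val))),
        (sel (p.code ⟨a, t⟩) (fun v => y (.inl v)) &&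
          tf p a.val t.1.val t.2 (fun v => y (.inr v))) = true))
      (l * (Ga l a.val * (p.L + na n a.val * (wa a.val + 1) + 2))) := by
    intro a
    refine (MS.bor univ (fun (t : Fin l × Fin (Ga l a.val))
      (y : (Vt p.L n) ⊕ Fin (na n a.val) → Bool) => (sel (p.code ⟨a, t⟩) (fun v => y (.inl v)) &&
          tf p a.val t.1.val t.2 (fun v => y (.inr v))))
      (fun _ => p.L + na n a.val * (wa a.val + 1) + 1) (fun t _ =>
        ((sel_ms n (p.code ⟨a, t⟩)).sel Sum.inl).and
          ((tf_ms p a.val t.1.val t.2).sel Sum.inr))).le ?_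
    rw [sum_const, card_univ, Fintype.card_prod, Fintype.card_fin, Fintype.card_fin, smul_eq_mul,
      mul_assoc]
  -- one scale
  have h2 : ∀ a : p.sc, MS (fun x : Vt p.L n → Bool =>
      decide (∃ t ∈ (univ : Finset (Fin l × Fin (Ga l a.val))),
        (sel (p.code ⟨a, t⟩) x &&
          tf p a.val t.1.val t.2 (pull (grp n a.val) (fun j => x (.inr j)))) = true))
      (n + l * (Ga l a.val * (p.L + na n a.val * (wa a.val + 1) + 2))) := by
    intro a
    have h3 : MSM (fun x : Vt p.L n → Bool => Sum.elim (fun v => x v)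
        (pull (grp n a.val) (fun j => x (.inr j)))) (0 + (0 + Fintype.card (Fin n))) :=
      MSM.pair (MSM.sel (fun v => v)) (MSM.comp (MSM.sel Sum.inr) (MSM.pull (grp n a.val)))
    rw [Fintype.card_fin] at h3
    refine ((MS.comp h3 (h1 a)).le (by omega)).congr fun x => ?_
    rfl
  refine ((MS.bor (univ : Finset p.sc) _ _ (fun a _ => h2 a)).le ?_).congr fun x => ?_
  · rw [← sum_coe_sort p.sc (fun a => n + l * (Ga l a * (p.L + na n a * (wa a + 1) + 2)) + 1)]
  · unfold E
    rw [Bool.eq_iff_iff, decide_eq_true_iff, decide_eq_true_iff]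
    constructor
    · rintro ⟨a, _, h⟩
      obtain ⟨t, _, h⟩ := of_decide_eq_true h
      rw [Bool.and_eq_true] at h
      exact ⟨⟨a, t⟩, h⟩
    · rintro ⟨⟨a, t⟩, h⟩
      refine ⟨a, mem_univ _, decide_eq_true ⟨t, mem_univ _, ?_⟩⟩
      rw [Bool.and_eq_true]
      exact h

/-- **Richness.** -/
lemma E_rich {n l : ℕ} (p : Prm n l) (hh : ∀ a i, ∀ U : Finset (Fin (na n a)),
      6 * Fintype.card (Va a) ^ 2 * 2 ^ i ≤ U.card →
        ∃ g, (U.image (p.h a i g))ᶜ.card * 2 < 2 ^ i)
    {a i : ℕ} (ha : a ∈ p.sc) (hi : i < l) (U : Finset (Vt p.L n)) (Ud : Finset (Fin n))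
    (hUd : ∀ j ∈ Ud, Sum.inr j ∈ U)
    (hU : 6 * Fintype.card (Va a) ^ 2 * 2 ^ i ≤ (Ud.image (grp n a)).card) :
    ∃ M, 2 ^ i ≤ 2 * M ∧ Rich (E p) U a M := by
  classical
  obtain ⟨g, hg⟩ := hh a i _ hU
  set W := Ud.image (grp n a) with hW
  set h := p.h a i g with hh0
  -- the copies which are covered
  set B : Finset (Fin (2 ^ i)) := univ.filter (fun c => ∀ v, (c, v) ∈ W.image h) with hB
  have hBc : Bᶜ.card ≤ (W.image h)ᶜ.card := by
    have h1 : Bᶜ ⊆ ((W.image h)ᶜ).image Prod.fst := by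
      intro c hc
      have h2 : ¬ ∀ v, (c, v) ∈ W.image h := by
        intro h3
        exact (mem_compl.mp hc) (mem_filter.mpr ⟨mem_univ _, h3⟩)
      push Not at h2
      obtain ⟨v, hv⟩ := h2
      exact mem_image.mpr ⟨(c, v), mem_compl.mpr hv, rfl⟩
    exact (card_le_card h1).trans card_image_le
  have hBM : 2 ^ i ≤ 2 * B.card := by
    have h1 := card_compl B
    rw [Fintype.card_fin] at h1
    omega
  refine ⟨B.card, hBM, ?_⟩
  set ε : Fin B.card ≃ B := (B.equivFin).symm with hε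
  have hcov : ∀ q : Fin B.card × Va a, ∃ j ∈ Ud, h (grp n a j) = ((ε q.1).val, q.2) := by
    rintro ⟨c, v⟩
    have h1 := (mem_filter.mp (ε c).2).2 v
    obtain ⟨k, hk, hk'⟩ := mem_image.mp h1
    obtain ⟨j, hj, rfl⟩ := mem_image.mp hk
    exact ⟨j, hj, hk'⟩
  choose J hJ1 hJ2 using hcov
  have hJinj : ∀ q q', J q = J q' → q = q' := by
    intro q q' hqq
    have h1 := hJ2 q
    rw [hqq, hJ2 q'] at h1
    simp only [Prod.mk.injEq] at h1
    refine Prod.ext (ε.injective (Subtype.ext h1.1.symm)) h1.2.symm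
  set t0 : (Σ a : p.sc, Fin l × Fin (Ga l a.val)) := ⟨⟨a, ha⟩, ⟨⟨i, hi⟩, g⟩⟩ with ht0
  refine ⟨Sum.elim (fun kb => decide (p.code t0 kb.1 = kb.2)) (fun _ => false),
    fun q => .inr (J q), fun q q' hqq => hJinj q q' (Sum.inr_injective hqq),
    fun q => hUd _ (hJ1 q), fun x hx => ?_⟩
  have hx1 : ∀ k b, x (.inl (k, b)) = decide (p.code t0 k = b) := fun k b =>
    hx (.inl (k, b)) fun q hq => absurd hq (by simp)
  have hx2 : ∀ j, x (.inr j) = true → ∃ q, J q = j := by
    intro j hj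
    by_contra hc
    push Not at hc
    have h1 := hx (.inr j) fun q hq => hc q (Sum.inr_injective hq)
    rw [hj] at h1
    exact absurd h1 (by simp)
  have hcond : 6 * Fintype.card (Va a) ^ 2 * 2 ^ i ≤ na n a := by
    refine hU.trans ?_
    have := card_le_univ (Ud.image (grp n a))
    rwa [Fintype.card_fin] at this
  -- the values of the positions
  have hpos : ∀ c v, pull h (pull (grp n a) (fun j => x (.inr j))) (c, v) = true ↔
      ∃ q : Fin B.card × Va a, (ε q.1).val = c ∧ q.2 = v ∧ x (.inr (J q)) = true := by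
    intro c v
    rw [pull_iff]
    constructor
    · rintro ⟨k, hk, hk'⟩
      obtain ⟨j, hj, hj'⟩ := pull_iff.mp hk'
      obtain ⟨q, hq⟩ := hx2 j hj'
      have h1 := hJ2 q
      rw [hq, hj, hk] at h1
      simp only [Prod.mk.injEq] at h1
      exact ⟨q, h1.1.symm, h1.2.symm, by rw [hq]; exact hj'⟩
    · rintro ⟨q, h1, h2, h3⟩
      refine ⟨grp n a (J q), ?_, pull_iff.mpr ⟨J q, rfl, h3⟩⟩
      rw [hJ2 q, h1, h2]
  have hE : E p x = true ↔
      ∃ c : Fin (2 ^ i), ga a (fun v => pull h (pull (grp n a) (fun j => x (.inr j))) (c, v)) =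
        true := by
    unfold E
    rw [decide_eq_true_iff]
    constructor
    · rintro ⟨t, h1, h2⟩
      have h3 : t = t0 := p.inj ((sel_iff hx1).mp h1)
      subst h3
      have h4 : tf p a i g (pull (grp n a) (fun j => x (.inr j))) = true := h2
      unfold tf at h4
      rw [if_pos hcond] at h4
      exact of_decide_eq_true h4
    · intro h1
      refine ⟨t0, (sel_iff hx1).mpr rfl, ?_⟩
      show tf p a i g (pull (grp n a) (fun j => x (.inr j))) = true
      unfold tf
      rw [if_pos hcond]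
      exact decide_eq_true h1
  rw [hE]
  constructor
  · rintro ⟨c, hc⟩
    by_cases hcB : c ∈ B
    · refine ⟨ε.symm ⟨c, hcB⟩, ?_⟩
      have h1 : (fun v => x (.inr (J (ε.symm ⟨c, hcB⟩, v)))) =
          fun v => pull h (pull (grp n a) (fun j => x (.inr j))) (c, v) := by
        funext v
        rw [Bool.eq_iff_iff, hpos]
        constructor
        · intro h2
          exact ⟨(ε.symm ⟨c, hcB⟩, v), by simp, rfl, h2⟩
        · rintro ⟨q, h2, h3, h4⟩
          have h5 : q = (ε.symm ⟨c, hcB⟩, v) := by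
            refine Prod.ext ?_ h3
            rw [Equiv.eq_symm_apply]
            exact Subtype.ext h2
          rw [← h5]; exact h4
      show ga a (fun v => x (.inr (J (ε.symm ⟨c, hcB⟩, v)))) = true
      rw [h1]
      exact hc
    · exfalso
      have h1 : (fun v => pull h (pull (grp n a) (fun j => x (.inr j))) (c, v)) =
          fun _ => false := by
        funext v
        rw [Bool.eq_false_iff, ne_eq, hpos]
        rintro ⟨q, h2, _, _⟩
        exact hcB (h2 ▸ (ε q.1).2)
      rw [h1] at hc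
      have : ga a (fun _ => false) = false := gen_zero _ _
      rw [this] at hc
      exact absurd hc (by simp)
  · rintro ⟨c, hc⟩
    refine ⟨(ε c).val, ?_⟩
    have h1 : (fun v => x (.inr (J (c, v)))) =
        fun v => pull h (pull (grp n a) (fun j => x (.inr j))) ((ε c).val, v) := by
      funext v
      rw [Bool.eq_iff_iff, hpos]
      constructor
      · intro h2
        exact ⟨(c, v), rfl, rfl, h2⟩
      · rintro ⟨q, h2, h3, h4⟩
        have h5 : q = (c, v) := Prod.ext (ε.injective (Subtype.ext h2)) h3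
        rw [← h5]; exact h4
    rw [← h1]
    exact hc

end scale

end Pool.Agent.T9h19.RM
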