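import Mathlib
import Pool.Agent.T9h19.RM.Univ

/-!
# Parameters of the universal function
-/

set_option autoImplicit false

namespace Pool.Agent.T9h19.RM

open Finset Pool.Agent.H540R2 Pool.Agent.H540R2.Circuit Pool.Agent.W953.NW

/-- number of data variables -/
def nd' (S : ℕ) : ℕ := S / (40 * Nat.log 2 S ^ 4)

/-- the relevant scales -/
def scs (S : ℕ) : Finset ℕ := (range (Nat.log 2 S)).filter (fun a => wa a ^ 2 ≤ nd' S)

lemma scale_cost {n l w q : ℕ} (hl : 1 ≤ l) (hw : 1 ≤ w) (hwn : w ^ 2 ≤ n)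
    (hq : q * w ^ 2 ≤ 2 * n) :
    n + l * (4 * w * l * (l + 1 + q * (w + 1) + 2)) + 1 ≤ 34 * (l ^ 3 * n) := by
  have h1 : w * 1 ≤ w * w := Nat.mul_le_mul_left _ hw
  have hwn' : w ≤ n := by nlinarith
  have h2 : w * (w + 1) * q ≤ 4 * n := by
    calc w * (w + 1) * q ≤ (2 * w ^ 2) * q := Nat.mul_le_mul_right _ (by nlinarith)
      _ = 2 * (q * w ^ 2) := by ring
      _ ≤ 2 * (2 * n) := Nat.mul_le_mul_left _ hq
      _ = 4 * n := by ring
  have h3 : l ^ 2 ≤ l ^ 3 := Nat.pow_le_pow_right hl (by norm_num)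
  have h4 : 1 ≤ l ^ 3 := Nat.one_le_pow _ _ hl
  have hn : 1 ≤ n := le_trans hw hwn'
  have e1 : l * (4 * w * l * (l + 1 + q * (w + 1) + 2)) =
      4 * (l ^ 2 * ((l + 3) * w)) + 4 * (l ^ 2 * (w * (w + 1) * q)) := by ring
  have h5 : l ^ 2 * ((l + 3) * w) ≤ 4 * (l ^ 3 * n) := by
    calc l ^ 2 * ((l + 3) * w) ≤ l ^ 2 * ((4 * l) * n) :=
          Nat.mul_le_mul_left _ (Nat.mul_le_mul (by omega) hwn')
      _ = _ := by ring
  have h6 : l ^ 2 * (w * (w + 1) * q) ≤ 4 * (l ^ 3 * n) := by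
    calc l ^ 2 * (w * (w + 1) * q) ≤ l ^ 3 * (4 * n) := Nat.mul_le_mul h3 h2
      _ = _ := by ring
  have h7 : 1 ≤ l ^ 3 * n := Nat.mul_pos h4 hn
  have h8 : n ≤ l ^ 3 * n := Nat.le_mul_of_pos_left _ h4
  rw [e1]
  omega

/-- **The universal function.** -/
theorem univ_fun (S : ℕ) (hS : 2 ≤ S) : ∃ p : Prm (nd' S) (Nat.log 2 S),
    p.L = Nat.log 2 S + 1 ∧ MS (E p) S ∧ S ≤ 40 * Nat.log 2 S ^ 4 * (nd' S + 1) ∧
    ∀ (U : Finset (Vt p.L (nd' S))) (a : ℕ), ∃ M, Rich (E p) U a M ∧
      U.card ≤ 24 * wa a ^ 4 * (M + 1) + 2 * (Nat.log 2 S + 1) := by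
  classical
  have hl : 1 ≤ Nat.log 2 S := Nat.log_pos (by norm_num) hS
  have hlt : S < 2 ^ (Nat.log 2 S + 1) := Nat.lt_pow_succ_log_self (by norm_num) S
  have hnS : 40 * Nat.log 2 S ^ 4 * nd' S ≤ S := Nat.mul_div_le _ _
  have hnS' : S < 40 * Nat.log 2 S ^ 4 * (nd' S + 1) :=
    Nat.lt_mul_div_succ S (by positivity)
  obtain ⟨l, hle⟩ : ∃ l, Nat.log 2 S = l := ⟨_, rfl⟩
  obtain ⟨n, hne⟩ : ∃ n, nd' S = n := ⟨_, rfl⟩
  have hsc : ∀ a ∈ scs S, a < l ∧ wa a ^ 2 ≤ n := by
    intro a ha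
    rw [scs, mem_filter, mem_range] at ha
    rw [← hle, ← hne]
    exact ha
  rw [hle, hne]
  rw [hle] at hl hlt
  rw [hle, hne] at hnS hnS'
  have hl4 : 1 ≤ l ^ 4 := Nat.one_le_pow _ _ hl
  have hl3 : 1 ≤ l ^ 3 := Nat.one_le_pow _ _ hl
  have hn1 : 40 * n ≤ S := by
    calc 40 * n ≤ 40 * l ^ 4 * n := Nat.mul_le_mul_right _ (by omega)
      _ ≤ S := hnS
  have hn2 : n + 1 ≤ 2 ^ l := by
    rw [pow_succ] at hlt
    omega
  have hna : ∀ a, na n a ≤ 2 ^ l := by
    intro a
    unfold na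
    have : n / wa a ^ 2 ≤ n := Nat.div_le_self _ _
    omega
  have hcard : Fintype.card (Σ a : scs S, Fin l × Fin (Ga l a.val)) ≤
      Fintype.card (Fin (l + 1) → Bool) := by
    rw [Fintype.card_sigma, Fintype.card_pi, prod_const, card_univ, Fintype.card_fin,
      Fintype.card_bool]
    have h1 : ∀ a : scs S, Fintype.card (Fin l × Fin (Ga l a.val)) ≤ 4 * (l ^ 2 * n) := by
      intro a
      rw [Fintype.card_prod, Fintype.card_fin, Fintype.card_fin]
      unfold Ga
      have h2 := (hsc a.val a.2).2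
      have h3 := wa_pos a.val
      have h4 : wa a.val ≤ n := by nlinarith
      calc l * (4 * wa a.val * l) = 4 * (l ^ 2 * wa a.val) := by ring
        _ ≤ _ := Nat.mul_le_mul_left _ (Nat.mul_le_mul_left _ h4)
    have h2 : (univ : Finset (scs S)).card ≤ l := by
      rw [card_univ, Fintype.card_coe]
      refine (card_filter_le _ _).trans ?_
      rw [card_range]
      exact hle.le
    calc ∑ a : scs S, Fintype.card (Fin l × Fin (Ga l a.val))
        ≤ ∑ _a : scs S, 4 * (l ^ 2 * n) := sum_le_sum fun a _ => h1 a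
      _ = (univ : Finset (scs S)).card * (4 * (l ^ 2 * n)) := by rw [sum_const, smul_eq_mul]
      _ ≤ l * (4 * (l ^ 2 * n)) := Nat.mul_le_mul_right _ h2
      _ = 4 * l ^ 3 * n := by ring
      _ ≤ 40 * l ^ 4 * n := by
          apply Nat.mul_le_mul_right
          have : l ^ 3 ≤ l ^ 4 := Nat.pow_le_pow_right hl (by norm_num)
          omega
      _ ≤ S := hnS
      _ ≤ 2 ^ (l + 1) := hlt.le
  obtain ⟨code⟩ := Function.Embedding.nonempty_of_card_le hcard
  choose h hh using fun a i => exists_maps n a i l hl (hna a)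
  refine ⟨⟨l + 1, scs S, h, code, code.injective⟩, rfl, ?_, hnS'.le, ?_⟩
  · refine (E_ms _).le ?_
    show ∑ a ∈ scs S, (n + l * (Ga l a * (l + 1 + na n a * (wa a + 1) + 2)) + 1) ≤ S
    have h1 : ∀ a ∈ scs S, n + l * (Ga l a * (l + 1 + na n a * (wa a + 1) + 2)) + 1 ≤
        34 * (l ^ 3 * n) := by
      intro a ha
      have h2 := (hsc a ha).2
      refine scale_cost hl (wa_pos a) h2 ?_
      unfold na
      have h3 : n / wa a ^ 2 * wa a ^ 2 ≤ n := Nat.div_mul_le_self _ _
      rw [Nat.add_mul, one_mul]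
      omega
    have h2 : (scs S).card ≤ l := by
      refine (card_filter_le _ _).trans ?_
      rw [card_range]
      exact hle.le
    calc ∑ a ∈ scs S, (n + l * (Ga l a * (l + 1 + na n a * (wa a + 1) + 2)) + 1)
        ≤ ∑ _a ∈ scs S, 34 * (l ^ 3 * n) := sum_le_sum h1
      _ = (scs S).card * (34 * (l ^ 3 * n)) := by rw [sum_const, smul_eq_mul]
      _ ≤ l * (34 * (l ^ 3 * n)) := Nat.mul_le_mul_right _ h2
      _ = 34 * l ^ 4 * n := by ring
      _ ≤ 40 * l ^ 4 * n := Nat.mul_le_mul_right _ (Nat.mul_le_mul_right _ (by norm_num))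
      _ ≤ S := hnS
  · intro U a
    have hw := wa_pos a
    have hw2 : 1 ≤ wa a ^ 2 := Nat.one_le_pow _ _ hw
    have hv := va_pos a
    have hvw := va_le a
    have hv2 : Fintype.card (Va a) ^ 2 ≤ wa a ^ 2 := Nat.pow_le_pow_left hvw 2
    have hw4 : wa a ^ 2 * wa a ^ 2 = wa a ^ 4 := by ring
    have hw24 : wa a ^ 2 ≤ wa a ^ 4 := Nat.pow_le_pow_right hw (by norm_num)
    set Ud : Finset (Fin n) := univ.filter (fun j => (Sum.inr j : Vt (l + 1) n) ∈ U) with hUd
    have hUc : U.card ≤ Ud.card + 2 * (l + 1) := by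
      have h1 : U ⊆ Ud.image Sum.inr ∪ (univ : Finset (Fin (l + 1) × Bool)).image Sum.inl := by
        intro v hv'
        cases v with
        | inl k => exact mem_union_right _ (mem_image_of_mem _ (mem_univ _))
        | inr j => exact mem_union_left _ (mem_image_of_mem _ (mem_filter.mpr ⟨mem_univ _, hv'⟩))
      refine (card_le_card h1).trans ((card_union_le _ _).trans ?_)
      apply Nat.add_le_add card_image_le
      refine card_image_le.trans ?_
      rw [card_univ, Fintype.card_prod, Fintype.card_fin, Fintype.card_bool]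
      exact le_of_eq (mul_comm _ _)
    have hUdn : Ud.card ≤ n := by
      have := card_le_univ Ud
      rwa [Fintype.card_fin] at this
    have hfib := grp_fib (a := a) Ud
    -- the trivial case
    have htriv : Ud.card ≤ 24 * wa a ^ 4 →
        ∃ M, Rich (E (⟨l + 1, scs S, h, code, code.injective⟩ : Prm n l)) U a M ∧
          U.card ≤ 24 * wa a ^ 4 * (M + 1) + 2 * (l + 1) := by
      intro h1
      refine ⟨0, Rich.zero U a (E_zero _ (Nat.le_add_left 1 l)), ?_⟩
      omega
    by_cases ha : a ∈ scs S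
    · set u := (Ud.image (grp n a)).card with hu
      by_cases hu6 : 6 * Fintype.card (Va a) ^ 2 ≤ u
      · have hpos6 : 0 < 6 * Fintype.card (Va a) ^ 2 := by positivity
        set i := Nat.log 2 (u / (6 * Fintype.card (Va a) ^ 2)) with hi
        have hdiv : 1 ≤ u / (6 * Fintype.card (Va a) ^ 2) :=
          (Nat.one_le_div_iff hpos6).mpr hu6
        have h1 : 2 ^ i ≤ u / (6 * Fintype.card (Va a) ^ 2) :=
          Nat.pow_log_le_self 2 (by omega)
        have h2 : u / (6 * Fintype.card (Va a) ^ 2) < 2 ^ (i + 1) :=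
          Nat.lt_pow_succ_log_self (by norm_num) _
        have h3 : 6 * Fintype.card (Va a) ^ 2 * 2 ^ i ≤ u := by
          calc 6 * Fintype.card (Va a) ^ 2 * 2 ^ i
              ≤ 6 * Fintype.card (Va a) ^ 2 * (u / (6 * Fintype.card (Va a) ^ 2)) :=
                Nat.mul_le_mul_left _ h1
            _ ≤ u := Nat.mul_div_le _ _
        have h4 : u < 6 * Fintype.card (Va a) ^ 2 * 2 ^ (i + 1) := by
          have h5 := Nat.lt_mul_div_succ u hpos6
          exact h5.trans_le (Nat.mul_le_mul_left _ h2)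
        have hun : u ≤ n := card_image_le.trans hUdn
        have hil : i < l := by
          have h5 : 2 ^ i ≤ u := by
            calc 2 ^ i = 1 * 2 ^ i := (one_mul _).symm
              _ ≤ 6 * Fintype.card (Va a) ^ 2 * 2 ^ i := Nat.mul_le_mul_right _ hpos6
              _ ≤ u := h3
          have h6 : 2 ^ i < 2 ^ l := by omega
          exact (Nat.pow_lt_pow_iff_right (by norm_num)).mp h6
        obtain ⟨M, hM1, hM2⟩ := E_rich (⟨l + 1, scs S, h, code, code.injective⟩ : Prm n l) hh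
          (a := a) (i := i) ha hil U Ud (fun j hj => (mem_filter.mp hj).2) h3
        refine ⟨M, hM2, ?_⟩
        have h5 : Ud.card ≤ 24 * wa a ^ 4 * M := by
          calc Ud.card ≤ wa a ^ 2 * u := hfib
            _ ≤ wa a ^ 2 * (6 * wa a ^ 2 * (4 * M)) := by
                apply Nat.mul_le_mul_left
                refine h4.le.trans (Nat.mul_le_mul (Nat.mul_le_mul_left _ hv2) ?_)
                rw [pow_succ]
                omega
            _ = 24 * (wa a ^ 2 * wa a ^ 2) * M := by ring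
            _ = _ := by rw [hw4]
        rw [Nat.mul_add, mul_one]
        omega
      · push Not at hu6
        apply htriv
        calc Ud.card ≤ wa a ^ 2 * u := hfib
          _ ≤ wa a ^ 2 * (6 * wa a ^ 2) := Nat.mul_le_mul_left _ (by omega)
          _ = 6 * (wa a ^ 2 * wa a ^ 2) := by ring
          _ ≤ _ := by rw [hw4]; omega
    · apply htriv
      have h1 : ¬ (a < l ∧ wa a ^ 2 ≤ n) := by
        intro h2
        apply ha
        rw [scs, mem_filter, mem_range, hle, hne]
        exact h2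
      by_cases h2 : a < l
      · have h3 : ¬ wa a ^ 2 ≤ n := fun h4 => h1 ⟨h2, h4⟩
        omega
      · have h3 : 2 ^ l ≤ wa a := by
          unfold wa
          exact Nat.pow_le_pow_right (by norm_num) (by omega)
        have h4 : wa a ^ 1 ≤ wa a ^ 4 := Nat.pow_le_pow_right hw (by norm_num)
        rw [pow_one] at h4
        omega

end Pool.Agent.T9h19.RM
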