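import Mathlib
import Pool.Agent.T9h19.RM.UnivF
import Pool.Agent.T9h19.RM.SDefs

/-!
# Average-case hardness on all sets of variables
-/

set_option autoImplicit false

namespace Pool.Agent.T9h19.RM

open Finset Pool.Agent.H540R2 Pool.Agent.H540R2.Circuit Pool.Agent.W953.NW

/-- `g` is a device of depth `D` and rank at most `R` on the inputs which agree with `α` outside
`U`: for each input `ξ` there is a monotone formula `T` of depth at most `D` which accepts all
inputs `z ≥ ξ` accepted by `g`; if it accepts an input `z ≥ ξ` which `g` rejects, then the rank of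
`z` is larger than that of `ξ`. -/
def Dev {σ : Type} (U : Finset σ) (α : σ → Bool) (g : (σ → Bool) → Bool) (D R : ℕ) : Prop :=
  ∃ ρ : (σ → Bool) → ℕ, (∀ x, Agr U α x → ρ x ≤ R) ∧
    (∀ ξ z, Agr U α ξ → Agr U α z → (∀ i, ξ i = true → z i = true) → ρ ξ ≤ ρ z) ∧
    ∀ ξ, Agr U α ξ → ∃ T : (σ → Bool) → Bool, Mo T D ∧
      ∀ z, Agr U α z → (∀ i, ξ i = true → z i = true) →
        (g z = true → T z = true) ∧ (T z = true → g z = false → ρ ξ < ρ z)

section plug

variable {σ : Type} {a M : ℕ}

open Classical in
/-- the input in which the block variables have the values `y` and the others the values `α` -/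
noncomputable def plug (α : σ → Bool) (e : Fin M × Va a → σ)
    (y : Fin M → Va a → Bool) : σ → Bool :=
  fun i => if h : ∃ p, e p = i then y h.choose.1 h.choose.2 else α i

lemma plug_e {α : σ → Bool} {e : Fin M × Va a → σ} (he : Function.Injective e)
    (y : Fin M → Va a → Bool) (c : Fin M) (v : Va a) :
    plug α e y (e (c, v)) = y c v := by
  unfold plug
  have h : ∃ p, e p = e (c, v) := ⟨_, rfl⟩
  rw [dif_pos h]
  have h1 := he h.choose_spec
  rw [h1]

lemma plug_ne {α : σ → Bool} {e : Fin M × Va a → σ} (y : Fin M → Va a → Bool) {i : σ}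
    (hi : ∀ p, e p ≠ i) : plug α e y i = α i := by
  unfold plug
  rw [dif_neg]
  rintro ⟨p, hp⟩
  exact hi p hp

lemma plug_agr {α : σ → Bool} {e : Fin M × Va a → σ} {U : Finset σ} (hU : ∀ p, e p ∈ U)
    (y : Fin M → Va a → Bool) : Agr U α (plug α e y) := by
  intro i hi
  exact plug_ne y fun p hp => hi (hp ▸ hU p)

lemma plug_mono {α : σ → Bool} {e : Fin M × Va a → σ} {y z : Fin M → Va a → Bool}
    (h : ∀ c v, y c v = true → z c v = true) :
    ∀ i, plug α e y i = true → plug α e z i = true := by
  intro i
  unfold plug
  by_cases hi : ∃ p, e p = i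
  · rw [dif_pos hi, dif_pos hi]
    exact h _ _
  · rw [dif_neg hi, dif_neg hi]
    exact id

/-- one block as the variables of a formula -/
lemma plug_mo {α : σ → Bool} {e : Fin M × Va a → σ} {T : (σ → Bool) → Bool} {D : ℕ}
    (hT : Mo T D) (y : Fin M → Va a → Bool) (j : Fin M) :
    Mo (fun w => T (plug α e (Function.update y j w))) D := by
  have key : ∀ i : σ, ∃ F : MF (Va a), F.depth = 0 ∧
      ∀ w, F.eval w = plug α e (Function.update y j w) i := by
    intro i
    by_cases hi : ∃ p, e p = i
    · by_cases hj : hi.choose.1 = j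
      · refine ⟨.var hi.choose.2, rfl, fun w => ?_⟩
        unfold plug
        rw [dif_pos hi, hj, Function.update_self]
        rfl
      · refine ⟨.const (y hi.choose.1 hi.choose.2), rfl, fun w => ?_⟩
        unfold plug
        rw [dif_pos hi, Function.update_of_ne hj]
        rfl
    · refine ⟨.const (α i), rfl, fun w => ?_⟩
      unfold plug
      rw [dif_neg hi]
      rfl
  choose s hs1 hs2 using key
  refine (hT.sub s hs1).congr fun w => ?_
  congr 1
  funext i
  exact hs2 i w

end plug

/-! ### the random chain -/

section chain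

variable {a M : ℕ}

/-- the first `j` blocks are filled -/
def pre (y : Fin M → Ba a) (j : ℕ) : Fin M → Va a → Bool :=
  fun i => if i.val < j then eb (y i) else fun _ => false

lemma pre_mono (y : Fin M → Ba a) {j k : ℕ} (hjk : j ≤ k) (c : Fin M) (v : Va a)
    (h : pre y j c v = true) : pre y k c v = true := by
  unfold pre at h ⊢
  by_cases hc : c.val < j
  · rw [if_pos hc] at h
    rw [if_pos (by omega)]
    exact h
  · rw [if_neg hc] at h
    exact absurd h (by simp)

lemma pre_succ (y : Fin M → Ba a) (j : Fin M) :
    pre y (j.val + 1) = Function.update (pre y j.val) j (eb (y j)) := by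
  funext i
  unfold pre
  by_cases hij : i = j
  · subst hij
    rw [Function.update_self, if_pos (Nat.lt_succ_self _)]
  · rw [Function.update_of_ne hij]
    have h1 : i.val ≠ j.val := fun h => hij (Fin.ext h)
    by_cases h2 : i.val < j.val
    · rw [if_pos (by omega), if_pos h2]
    · rw [if_neg (by omega), if_neg h2]

lemma pre_update (y : Fin M → Ba a) (j : Fin M) (b : Ba a) :
    pre (Function.update y j b) j.val = pre y j.val := by
  funext i
  unfold pre
  by_cases h : i.val < j.val
  · rw [if_pos h, if_pos h, Function.update_of_ne (fun h' => by subst h'; omega)]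
  · rw [if_neg h, if_neg h]

lemma pre_le_update (y : Fin M → Ba a) (j : Fin M) (w : Va a → Bool) (c : Fin M) (v : Va a)
    (h : pre y j.val c v = true) : Function.update (pre y j.val) j w c v = true := by
  by_cases hc : c = j
  · subst hc
    unfold pre at h
    rw [if_neg (lt_irrefl _)] at h
    exact absurd h (by simp)
  · rw [Function.update_of_ne hc]
    exact h

/-- resampling a coordinate -/
lemma resample {B : Type} [Fintype B] [DecidableEq B] (j : Fin M) (H : (Fin M → B) → B → ℕ)
    (hH : ∀ y b b', H (Function.update y j b') b = H y b) :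
    Fintype.card B * ∑ y : Fin M → B, H y (y j) = ∑ y : Fin M → B, ∑ b : B, H y b := by
  have h1 : Fintype.card B * ∑ y : Fin M → B, H y (y j) =
      ∑ p : (Fin M → B) × B, H p.1 (p.1 j) := by
    rw [Fintype.sum_prod_type, mul_sum]
    refine sum_congr rfl fun y _ => ?_
    show _ = ∑ _b : B, H y (y j)
    rw [sum_const, card_univ, smul_eq_mul]
  have h2 : ∑ y : Fin M → B, ∑ b : B, H y b = ∑ p : (Fin M → B) × B, H p.1 p.2 := by
    rw [Fintype.sum_prod_type]
  rw [h1, h2]
  have hinv : Function.Involutive
      (fun p : (Fin M → B) × B => (Function.update p.1 j p.2, p.1 j)) := by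
    rintro ⟨y, b⟩
    simp
  rw [← Equiv.sum_comp (Function.Involutive.toPerm _ hinv)
    (fun p : (Fin M → B) × B => H p.1 p.2)]
  refine sum_congr rfl fun p _ => ?_
  show H p.1 (p.1 j) = H (Function.update p.1 j p.2) (p.1 j)
  rw [hH]

/-- increases of a bounded monotone sequence -/
lemma increases (r : ℕ → ℕ) (hr : ∀ j, r j ≤ r (j + 1)) (M : ℕ) :
    ∑ j ∈ range M, (if r j < r (j + 1) then 1 else 0) + r 0 ≤ r M := by
  induction M with
  | zero => simp
  | succ M ih =>
    rw [sum_range_succ]
    have h1 := hr M
    by_cases h : r M < r (M + 1)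
    · rw [if_pos h]; omega
    · rw [if_neg h]; omega

lemma mix_bound {p q A B P : ℕ} (hp : p ≤ A) (hq : q ≤ B)
    (h : p * P < A ∨ q * (2 * P) < B) : P * (B * p + A * q) ≤ A * B * (P + 1) := by
  rcases h with h | h
  · have h1 : B * (p * P) ≤ B * A := Nat.mul_le_mul_left _ h.le
    have h2 : P * (A * q) ≤ P * (A * B) := Nat.mul_le_mul_left _ (Nat.mul_le_mul_left _ hq)
    calc P * (B * p + A * q) = B * (p * P) + P * (A * q) := by ring
      _ ≤ B * A + P * (A * B) := Nat.add_le_add h1 h2
      _ = _ := by ring
  · have h1 : A * (q * (2 * P)) ≤ A * B := Nat.mul_le_mul_left _ h.le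
    have h2 : P * (B * p) ≤ P * (B * A) := Nat.mul_le_mul_left _ (Nat.mul_le_mul_left _ hp)
    have h3 : P * (A * q) ≤ A * B := by
      calc P * (A * q) ≤ A * (q * (2 * P)) := by
            have : A * (q * (2 * P)) = P * (A * q) + P * (A * q) := by ring
            rw [this]
            exact Nat.le_add_right _ _
        _ ≤ _ := h1
    calc P * (B * p + A * q) = P * (B * p) + P * (A * q) := by ring
      _ ≤ P * (B * A) + A * B := Nat.add_le_add h2 h3
      _ = _ := by ring

lemma gen_avg2 (a : ℕ) {F : (Va a → Bool) → Bool} {d : ℕ} (hF : Mo F d)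
    (hd : a + 1 + d + 1 < 2 ^ a) :
    (univ.filter (fun x : Aa a => F (ea x) = true)).card * 2 ^ a < Fintype.card (Aa a) ∨
    (univ.filter (fun y : Ba a => F (eb y) = false)).card * (2 * 2 ^ a) <
      Fintype.card (Ba a) := by
  have e1 : 2 * 2 ^ a = 2 ^ (a + 1) := by ring
  rw [e1]
  exact gen_avg a hF (le_refl (a + 1)) hd

/-- the sample space -/
abbrev Om (a M : ℕ) : Type := Fin M × Bool × Aa a × (Fin M → Ba a)

/-- the blocks of the random input -/
def smp (ω : Om a M) : Fin M → Va a → Bool :=
  Function.update (pre ω.2.2.2 ω.1.val) ω.1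
    (if ω.2.1 = true then ea ω.2.2.1 else eb (ω.2.2.2 ω.1))

lemma or_smp (ω : Om a M) : (∃ c, ga a (smp ω c) = true) ↔ ω.2.1 = true := by
  obtain ⟨j, s, x, y⟩ := ω
  constructor
  · rintro ⟨c, hc⟩
    by_contra hs
    have hs' : s = false := Bool.eq_false_iff.mpr hs
    subst hs'
    unfold smp at hc
    simp only [Bool.false_eq_true, if_false] at hc
    by_cases hcj : c = j
    · subst hcj
      rw [Function.update_self] at hc
      have : ga a (eb (y c)) = false := gen_eb _
      rw [this] at hc
      exact absurd hc (by simp)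
    · rw [Function.update_of_ne hcj] at hc
      unfold pre at hc
      by_cases h : c.val < j.val
      · rw [if_pos h] at hc
        have : ga a (eb (y c)) = false := gen_eb _
        rw [this] at hc
        exact absurd hc (by simp)
      · rw [if_neg h] at hc
        have : ga a (fun _ => false) = false := gen_zero _ _
        rw [this] at hc
        exact absurd hc (by simp)
  · intro hs
    have hs' : s = true := hs
    subst hs'
    refine ⟨j, ?_⟩
    unfold smp
    rw [Function.update_self]
    exact gen_ea _

/-- **The random chain.** -/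
theorem chain_avg {σ : Type} {U : Finset σ} {α : σ → Bool} {e : Fin M × Va a → σ}
    (heU : ∀ p, e p ∈ U)
    {g : (σ → Bool) → Bool} {D R : ℕ} (hg : Dev U α g D R) (hD : a + 1 + D + 1 < 2 ^ a) :
    2 ^ a * (univ.filter (fun ω : Om a M => g (plug α e (smp ω)) = ω.2.1)).card ≤
      Fintype.card (Aa a) * Fintype.card (Ba a) ^ M * (M * (2 ^ a + 1) + 2 ^ a * R) := by
  classical
  obtain ⟨ρ, hρR, hρm, hT⟩ := hg
  have hcY0 : (univ : Finset (Fin M → Ba a)).card = Fintype.card (Ba a) ^ M := by
    rw [card_univ, Fintype.card_fun, Fintype.card_fin]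
  have hBpos : 0 < Fintype.card (Ba a) := by
    have : Nonempty (Ba a) := ⟨fun _ _ => false⟩
    exact Fintype.card_pos
  have hcX0 : (univ : Finset (Aa a)).card = Fintype.card (Aa a) := card_univ
  obtain ⟨NA, hNA⟩ : ∃ NA, NA = Fintype.card (Aa a) := ⟨_, rfl⟩
  obtain ⟨NB, hNB⟩ : ∃ NB, NB = Fintype.card (Ba a) := ⟨_, rfl⟩
  rw [← hNA, ← hNB]
  rw [← hNA] at hcX0
  rw [← hNB] at hcY0 hBpos
  choose T hT1 hT2 using fun z : Fin M → Va a → Bool => hT (plug α e z) (plug_agr heU z)
  -- the rank along the chain
  set r : (Fin M → Ba a) → ℕ → ℕ := fun y j => ρ (plug α e (pre y j)) with hr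
  have hr1 : ∀ y j, r y j ≤ r y (j + 1) := fun y j =>
    hρm _ _ (plug_agr heU _) (plug_agr heU _) (plug_mono (pre_mono y (Nat.le_succ j)))
  set inc : (Fin M → Ba a) → ℕ → ℕ := fun y j => if r y j < r y (j + 1) then 1 else 0 with hinc
  -- one stage
  have hstage : ∀ j : Fin M,
      2 ^ a * (∑ y : Fin M → Ba a, (∑ x : Aa a,
          (if g (plug α e (Function.update (pre y j.val) j (ea x))) = true then 1 else 0) +
        NA * (if g (plug α e (pre y (j.val + 1))) = false then 1 else 0))) ≤
      NA * NB ^ M * (2 ^ a + 1) + 2 ^ a * (NA * ∑ y : Fin M → Ba a, inc y j.val) := by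
    intro j
    set H : (Fin M → Ba a) → Ba a → ℕ := fun y b =>
      (if T (pre y j.val) (plug α e (Function.update (pre y j.val) j (eb b))) = false
        then 1 else 0) with hH
    have hHu : ∀ y b b', H (Function.update y j b') b = H y b := by
      intro y b b'
      simp only [hH, pre_update]
    -- accepted instances
    have e1 : ∀ y : Fin M → Ba a, ∑ x : Aa a,
        (if g (plug α e (Function.update (pre y j.val) j (ea x))) = true then 1 else 0) ≤
        (univ.filter (fun x : Aa a => T (pre y j.val)
          (plug α e (Function.update (pre y j.val) j (ea x))) = true)).card := by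
      intro y
      rw [card_filter]
      refine sum_le_sum fun x _ => ?_
      by_cases h : g (plug α e (Function.update (pre y j.val) j (ea x))) = true
      · rw [if_pos h, if_pos ((hT2 (pre y j.val) _ (plug_agr heU _)
          (plug_mono (pre_le_update y j _))).1 h)]
      · rw [if_neg h]; exact Nat.zero_le _
    -- rejected instances
    have e2 : ∀ y : Fin M → Ba a, (if g (plug α e (pre y (j.val + 1))) = false then 1 else 0) ≤
        H y (y j) + inc y j.val := by
      intro y
      by_cases h : g (plug α e (pre y (j.val + 1))) = false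
      · rw [if_pos h]
        by_cases h2 : T (pre y j.val) (plug α e (Function.update (pre y j.val) j (eb (y j)))) =
            false
        · simp only [hH, if_pos h2]
          exact Nat.le_add_right _ _
        · have h3 : ρ (plug α e (pre y j.val)) < ρ (plug α e (pre y (j.val + 1))) := by
            refine (hT2 (pre y j.val) _ (plug_agr heU _)
              (plug_mono (pre_mono y (Nat.le_succ j.val)))).2 ?_ h
            rw [pre_succ]
            simpa using h2
          have h4 : inc y j.val = 1 := by
            simp only [hinc]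
            rw [if_pos h3]
          omega
      · rw [if_neg h]; exact Nat.zero_le _
    -- the two kinds together
    have e3 : ∀ y : Fin M → Ba a, 2 ^ a * (NB * (univ.filter (fun x : Aa a => T (pre y j.val)
          (plug α e (Function.update (pre y j.val) j (ea x))) = true)).card +
        NA * ∑ b : Ba a, H y b) ≤ NA * NB * (2 ^ a + 1) := by
      intro y
      have h1 : ∑ b : Ba a, H y b = (univ.filter (fun b : Ba a => T (pre y j.val)
          (plug α e (Function.update (pre y j.val) j (eb b))) = false)).card := by
        rw [card_filter]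
      rw [h1]
      rw [hNA, hNB]
      have hmo : Mo (fun w => T (pre y j.val) (plug α e (Function.update (pre y j.val) j w))) D :=
        plug_mo (hT1 (pre y j.val)) (pre y j.val) j
      exact mix_bound (card_le_univ _) (card_le_univ _) (gen_avg2 a hmo hD)
    have e4 := resample j H hHu
    rw [← hNB] at e4
    have e5 : NB * (2 ^ a * (∑ y : Fin M → Ba a, (∑ x : Aa a,
          (if g (plug α e (Function.update (pre y j.val) j (ea x))) = true then 1 else 0) +
        NA * (if g (plug α e (pre y (j.val + 1))) = false then 1 else 0)))) ≤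
        NB * (NA * NB ^ M * (2 ^ a + 1) + 2 ^ a * (NA * ∑ y : Fin M → Ba a, inc y j.val)) := by
      calc NB * (2 ^ a * (∑ y : Fin M → Ba a, (∑ x : Aa a,
            (if g (plug α e (Function.update (pre y j.val) j (ea x))) = true then 1 else 0) +
            NA * (if g (plug α e (pre y (j.val + 1))) = false then 1 else 0))))
          ≤ NB * (2 ^ a * (∑ y : Fin M → Ba a, ((univ.filter (fun x : Aa a => T (pre y j.val)
              (plug α e (Function.update (pre y j.val) j (ea x))) = true)).card +
              NA * (H y (y j) + inc y j.val)))) :=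
            Nat.mul_le_mul_left _ (Nat.mul_le_mul_left _ (sum_le_sum fun y _ =>
              Nat.add_le_add (e1 y) (Nat.mul_le_mul_left _ (e2 y))))
        _ = 2 ^ a * (NB * ∑ y : Fin M → Ba a, (univ.filter (fun x : Aa a => T (pre y j.val)
              (plug α e (Function.update (pre y j.val) j (ea x))) = true)).card +
              NA * (NB * ∑ y : Fin M → Ba a, H y (y j))) +
              NB * (2 ^ a * (NA * ∑ y : Fin M → Ba a, inc y j.val)) := by
            rw [sum_add_distrib, ← mul_sum, sum_add_distrib]
            ring
        _ = (∑ y : Fin M → Ba a, 2 ^ a * (NB * (univ.filter (fun x : Aa a => T (pre y j.val)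
              (plug α e (Function.update (pre y j.val) j (ea x))) = true)).card +
              NA * ∑ b : Ba a, H y b)) +
              NB * (2 ^ a * (NA * ∑ y : Fin M → Ba a, inc y j.val)) := by
            rw [e4, ← mul_sum, sum_add_distrib, ← mul_sum, ← mul_sum]
        _ ≤ (∑ _y : Fin M → Ba a, NA * NB * (2 ^ a + 1)) +
              NB * (2 ^ a * (NA * ∑ y : Fin M → Ba a, inc y j.val)) :=
            Nat.add_le_add_right (sum_le_sum fun y _ => e3 y) _
        _ = _ := by
            rw [sum_const, hcY0, smul_eq_mul]
            ring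
    exact Nat.le_of_mul_le_mul_left e5 hBpos
  -- all stages
  have hcount : (univ.filter (fun ω : Om a M => g (plug α e (smp ω)) = ω.2.1)).card =
      ∑ j : Fin M, (∑ y : Fin M → Ba a, (∑ x : Aa a,
          (if g (plug α e (Function.update (pre y j.val) j (ea x))) = true then 1 else 0) +
        NA * (if g (plug α e (pre y (j.val + 1))) = false then 1 else 0))) := by
    rw [card_filter, Fintype.sum_prod_type]
    refine sum_congr rfl fun j _ => ?_
    rw [Fintype.sum_prod_type, Fintype.sum_bool, Fintype.sum_prod_type, Fintype.sum_prod_type,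
      sum_add_distrib]
    congr 1
    · rw [sum_comm]
      refine sum_congr rfl fun y _ => sum_congr rfl fun x _ => ?_
      simp [smp]
    · rw [sum_comm]
      refine sum_congr rfl fun y _ => ?_
      have h1 : ∀ x : Aa a, (if g (plug α e (smp (j, false, x, y))) = false then 1 else 0) =
          (if g (plug α e (pre y (j.val + 1))) = false then 1 else 0) := by
        intro x
        have : smp (j, false, x, y) = pre y (j.val + 1) := by
          rw [pre_succ]
          simp [smp]
        rw [this]
      rw [sum_congr rfl fun x _ => h1 x, sum_const, hcX0, smul_eq_mul]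
  rw [hcount, mul_sum]
  have hinc2 : ∀ y : Fin M → Ba a, ∑ j : Fin M, inc y j.val ≤ R := by
    intro y
    have h1 := increases (r y) (hr1 y) M
    have h2 : r y M ≤ R := hρR _ (plug_agr heU _)
    have h3 : ∑ j : Fin M, inc y j.val = ∑ j ∈ range M, inc y j :=
      Fin.sum_univ_eq_sum_range (fun j => inc y j) M
    rw [h3]
    simp only [hinc]
    omega
  calc ∑ j : Fin M, 2 ^ a * (∑ y : Fin M → Ba a, (∑ x : Aa a,
          (if g (plug α e (Function.update (pre y j.val) j (ea x))) = true then 1 else 0) +
          NA * (if g (plug α e (pre y (j.val + 1))) = false then 1 else 0)))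
      ≤ ∑ j : Fin M, (NA * NB ^ M * (2 ^ a + 1) +
          2 ^ a * (NA * ∑ y : Fin M → Ba a, inc y j.val)) := sum_le_sum fun j _ => hstage j
    _ = M * (NA * NB ^ M * (2 ^ a + 1)) +
          2 ^ a * (NA * ∑ y : Fin M → Ba a, ∑ j : Fin M, inc y j.val) := by
        rw [sum_add_distrib, sum_const, card_univ, Fintype.card_fin, smul_eq_mul, ← mul_sum,
          ← mul_sum, sum_comm]
    _ ≤ M * (NA * NB ^ M * (2 ^ a + 1)) +
          2 ^ a * (NA * ∑ _y : Fin M → Ba a, R) :=
        Nat.add_le_add_left (Nat.mul_le_mul_left _ (Nat.mul_le_mul_left _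
          (sum_le_sum fun y _ => hinc2 y))) _
    _ = _ := by
        rw [sum_const, hcY0, smul_eq_mul]
        ring

end chain

end Pool.Agent.T9h19.RM
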