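import Mathlib
import Pool.Agent.T9h19.RM.Avg

/-!
# Functions which are hard on average on all sets of variables
-/

set_option autoImplicit false

namespace Pool.Agent.T9h19.RM

open Finset Pool.Agent.H540R2 Pool.Agent.H540R2.Circuit Pool.Agent.W953.NW

/-- The function `f` is hard on average on all sets of variables. -/
def HardA {n : ℕ} (S : ℕ) (f : (Fin n → Bool) → Bool) : Prop :=
  ∀ (U : Finset (Fin n)) (D e : ℕ), 1 ≤ e → ∃ (α : Fin n → Bool) (N : ℕ)
    (X : Fin N → (Fin n → Bool)), 0 < N ∧ (∀ i, Agr U α (X i)) ∧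
      ∀ (g : (Fin n → Bool) → Bool) (R : ℕ), Dev U α g D R →
        (U.card : ℝ) * (((univ.filter (fun i => g (X i) = f (X i))).card : ℝ) / N -
          1 / 2 - 1 / e) ≤ ((140 * (D + e + Nat.log 2 S)) ^ 140 : ℕ) * (R + 1)

lemma numA {D e l a : ℕ} (he : 1 ≤ e) (hl : 1 ≤ l) (ha : 2 ^ a ≤ 2 * (2 * (D + 3) + e)) :
    24 * wa a ^ 4 + (l + 1) ≤ (140 * (D + e + l)) ^ 140 := by
  obtain ⟨X, hX⟩ : ∃ X, X = D + e + l := ⟨_, rfl⟩
  rw [← hX]
  have hX1 : 1 ≤ X := by omega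
  have h1 : 2 ^ a ≤ 8 * X := by omega
  have h2 : wa a ^ 4 ≤ 8 ^ 140 * 2 ^ 376 * X ^ 140 := by
    have e1 : wa a ^ 4 = (2 ^ a) ^ 140 * 2 ^ 376 := by
      unfold wa
      rw [← pow_mul, ← pow_mul, ← pow_add]
      congr 1
      ring
    rw [e1]
    calc (2 ^ a) ^ 140 * 2 ^ 376 ≤ (8 * X) ^ 140 * 2 ^ 376 :=
          Nat.mul_le_mul_right _ (Nat.pow_le_pow_left h1 140)
      _ = _ := by
          rw [mul_pow]
          obtain ⟨A, hA⟩ : ∃ A, A = 8 ^ 140 := ⟨_, rfl⟩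
          obtain ⟨B, hB⟩ : ∃ B, B = 2 ^ 376 := ⟨_, rfl⟩
          rw [← hA, ← hB]
          ring
  have h3 : l + 1 ≤ 2 * X ^ 140 := by
    have : X ^ 1 ≤ X ^ 140 := Nat.pow_le_pow_right hX1 (by norm_num)
    rw [pow_one] at this
    omega
  have h4 : 24 * wa a ^ 4 ≤ (24 * (8 ^ 140 * 2 ^ 376)) * X ^ 140 := by
    calc 24 * wa a ^ 4 ≤ 24 * (8 ^ 140 * 2 ^ 376 * X ^ 140) := Nat.mul_le_mul_left _ h2
      _ = _ := (mul_assoc _ _ _).symm
  have h5 : 24 * (8 ^ 140 * 2 ^ 376) + 2 ≤ 140 ^ 140 := by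
    rw [show (2 : ℕ) ^ 376 = 2 ^ 188 * 2 ^ 188 by rw [← pow_add]]
    norm_num
  obtain ⟨c, hc⟩ : ∃ c, c = 24 * (8 ^ 140 * 2 ^ 376) := ⟨_, rfl⟩
  rw [← hc] at h4 h5
  calc 24 * wa a ^ 4 + (l + 1) ≤ c * X ^ 140 + 2 * X ^ 140 := Nat.add_le_add h4 h3
    _ = (c + 2) * X ^ 140 := by ring
    _ ≤ 140 ^ 140 * X ^ 140 := Nat.mul_le_mul_right _ h5
    _ = _ := by rw [mul_pow]

lemma final_real {u cnt N M W P R Q e w l : ℕ} (hM : 1 ≤ M) (hW : 1 ≤ W) (he : 1 ≤ e)
    (hP : e ≤ P) (hN : N = 2 * M * W)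
    (hcnt : P * cnt ≤ W * (M * (P + 1) + P * R))
    (hu : u ≤ 24 * w * (M + 1) + 2 * (l + 1)) (hQ : 24 * w + (l + 1) ≤ Q) :
    (u : ℝ) * ((cnt : ℝ) / N - 1 / 2 - 1 / e) ≤ (Q : ℝ) * (R + 1) := by
  have hP1 : 1 ≤ P := he.trans hP
  have hMr : (1 : ℝ) ≤ M := by exact_mod_cast hM
  have hWr : (1 : ℝ) ≤ W := by exact_mod_cast hW
  have hPr : (1 : ℝ) ≤ P := by exact_mod_cast hP1
  have her : (1 : ℝ) ≤ e := by exact_mod_cast he
  have hePr : (e : ℝ) ≤ P := by exact_mod_cast hP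
  have hRr : (0 : ℝ) ≤ R := Nat.cast_nonneg R
  have hur : (0 : ℝ) ≤ u := Nat.cast_nonneg u
  have hcr : (P : ℝ) * cnt ≤ W * (M * (P + 1) + P * R) := by exact_mod_cast hcnt
  have hNr : (N : ℝ) = 2 * M * W := by rw [hN]; push_cast; ring
  have h1 : (cnt : ℝ) / N - 1 / 2 - 1 / e ≤ R / (2 * M) := by
    have h2 : (cnt : ℝ) / N ≤ 1 / 2 + 1 / (2 * P) + R / (2 * M) := by
      rw [hNr, div_le_iff₀ (by positivity)]
      have h3 : (cnt : ℝ) ≤ W * (M * (P + 1) + P * R) / P := by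
        rw [le_div_iff₀ (by positivity)]
        linarith
      refine h3.trans (le_of_eq ?_)
      field_simp
    have h4 : (1 : ℝ) / (2 * P) ≤ 1 / e := by
      apply one_div_le_one_div_of_le (by positivity)
      linarith
    linarith
  have hur2 : (u : ℝ) ≤ M * (2 * (24 * w + (l + 1))) := by
    have h2 : u ≤ M * (2 * (24 * w + (l + 1))) := by
      calc u ≤ 24 * w * (M + 1) + 2 * (l + 1) := hu
        _ ≤ 24 * w * (2 * M) + 2 * (l + 1) * M := by
            apply Nat.add_le_add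
            · exact Nat.mul_le_mul_left _ (by omega)
            · exact Nat.le_mul_of_pos_right _ hM
        _ = _ := by ring
    exact_mod_cast h2
  have hQr : (24 * w + (l + 1) : ℝ) ≤ Q := by exact_mod_cast hQ
  calc (u : ℝ) * ((cnt : ℝ) / N - 1 / 2 - 1 / e) ≤ u * (R / (2 * M)) :=
        mul_le_mul_of_nonneg_left h1 hur
    _ ≤ (M * (2 * (24 * w + (l + 1)))) * (R / (2 * M)) :=
        mul_le_mul_of_nonneg_right hur2 (by positivity)
    _ = (24 * w + (l + 1)) * R := by field_simp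
    _ ≤ Q * R := mul_le_mul_of_nonneg_right hQr hRr
    _ ≤ Q * (R + 1) := by
        apply mul_le_mul_of_nonneg_left (by linarith) (Nat.cast_nonneg Q)

/-- **From richness to average-case hardness.** -/
lemma hardA_of_rich {n S : ℕ} (hS : 2 ≤ S) {f : (Fin n → Bool) → Bool}
    (h : ∀ (U : Finset (Fin n)) (a : ℕ), ∃ M, Rich f U a M ∧
      U.card ≤ 24 * wa a ^ 4 * (M + 1) + 2 * (Nat.log 2 S + 1)) : HardA S f := by
  classical
  intro U D e he
  have hL : 1 ≤ Nat.log 2 S := Nat.log_pos (by norm_num) hS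
  set a := Nat.clog 2 (2 * (D + 3) + e) with ha
  have ha1 : 2 * (D + 3) + e ≤ 2 ^ a := Nat.le_pow_clog (by norm_num) _
  have hapos : 1 ≤ a := Nat.clog_pos (by norm_num) (by omega)
  have hpow : 2 ^ a = 2 * 2 ^ (a - 1) := by
    rw [← pow_succ', show a - 1 + 1 = a by omega]
  have ha2 : 2 ^ a ≤ 2 * (2 * (D + 3) + e) := by
    have h2 : 2 ^ (a - 1) < 2 * (D + 3) + e := by
      have h4 : 1 < 2 * (D + 3) + e := by omega
      exact Nat.pow_pred_clog_lt_self (b := 2) (by norm_num) h4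
    omega
  have ha3 : a + 1 + D + 1 < 2 ^ a := by
    have h1 : a - 1 < 2 ^ (a - 1) := Nat.lt_two_pow_self
    omega
  have hQ := numA he hL ha2
  obtain ⟨M, ⟨α, em, hem, hemU, hf⟩, hM⟩ := h U a
  rcases Nat.eq_zero_or_pos M with hM0 | hMpos
  · -- trivial
    refine ⟨α, 1, fun _ => α, one_pos, fun _ i _ => rfl, fun g R _ => ?_⟩
    subst hM0
    have h1 : (((univ.filter (fun _ : Fin 1 => g α = f α)).card : ℝ) / ((1 : ℕ) : ℝ)) ≤ 1 := by
      rw [Nat.cast_one, div_one]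
      have : (univ.filter (fun _ : Fin 1 => g α = f α)).card ≤ 1 :=
        (card_filter_le _ _).trans (by simp)
      exact_mod_cast this
    have he0 : (0 : ℝ) ≤ 1 / e := by positivity
    have hur : (0 : ℝ) ≤ U.card := Nat.cast_nonneg _
    have h2 : (U.card : ℝ) ≤ 2 * (24 * wa a ^ 4 + (Nat.log 2 S + 1)) := by
      have : U.card ≤ 2 * (24 * wa a ^ 4 + (Nat.log 2 S + 1)) := by
        omega
      exact_mod_cast this
    have hQr : ((24 * wa a ^ 4 + (Nat.log 2 S + 1) : ℕ) : ℝ) ≤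
        ((140 * (D + e + Nat.log 2 S)) ^ 140 : ℕ) := by exact_mod_cast hQ
    obtain ⟨Q, hQe⟩ : ∃ Q, Q = (140 * (D + e + Nat.log 2 S)) ^ 140 := ⟨_, rfl⟩
    rw [← hQe] at hQr ⊢
    push_cast at hQr
    have hRr : (0 : ℝ) ≤ R := Nat.cast_nonneg R
    have hQ0 : (0 : ℝ) ≤ Q := Nat.cast_nonneg Q
    calc (U.card : ℝ) * (((univ.filter (fun _ : Fin 1 => g α = f α)).card : ℝ) / ((1 : ℕ) : ℝ) -
          1 / 2 - 1 / e) ≤ U.card * (1 / 2) := mul_le_mul_of_nonneg_left (by linarith) hur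
      _ ≤ Q := by linarith
      _ ≤ Q * (R + 1) := by nlinarith
  · set N := Fintype.card (Om a M) with hN
    have hWpos : 1 ≤ Fintype.card (Aa a) * Fintype.card (Ba a) ^ M := by
      have h1 : Nonempty (Ba a) := ⟨fun _ _ => false⟩
      have h2 : Nonempty (Aa a) := ⟨fun _ => 0⟩
      have h3 : 0 < Fintype.card (Aa a) := Fintype.card_pos
      have h4 : 0 < Fintype.card (Ba a) := Fintype.card_pos
      exact Nat.mul_pos h3 (Nat.pow_pos h4)
    have hNe : N = 2 * M * (Fintype.card (Aa a) * Fintype.card (Ba a) ^ M) := by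
      have e1 : Fintype.card (Fin M → Ba a) = Fintype.card (Ba a) ^ M := by
        rw [Fintype.card_fun, Fintype.card_fin]
      rw [hN, Fintype.card_prod, Fintype.card_prod, Fintype.card_prod, Fintype.card_fin,
        Fintype.card_bool, e1]
      obtain ⟨x, hx⟩ : ∃ x, x = Fintype.card (Aa a) := ⟨_, rfl⟩
      obtain ⟨y, hy⟩ : ∃ y, y = Fintype.card (Ba a) ^ M := ⟨_, rfl⟩
      rw [← hx, ← hy]
      ring
    have hNpos : 0 < N := by
      rw [hNe]
      exact Nat.mul_pos (Nat.mul_pos two_pos hMpos) hWpos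
    set ε : Om a M ≃ Fin N := Fintype.equivFin _ with hε
    refine ⟨α, N, fun i => plug α em (smp (ε.symm i)), hNpos, fun i => plug_agr hemU _,
      fun g R hg => ?_⟩
    have hfX : ∀ ω : Om a M, f (plug α em (smp ω)) = ω.2.1 := by
      intro ω
      rw [Bool.eq_iff_iff, hf _ (fun i hi => plug_ne _ hi), ← or_smp ω]
      simp only [plug_e hem]
    have hcard : (univ.filter (fun i : Fin N => g (plug α em (smp (ε.symm i))) =
        f (plug α em (smp (ε.symm i))))).card =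
        (univ.filter (fun ω : Om a M => g (plug α em (smp ω)) = ω.2.1)).card := by
      refine card_bij (fun i _ => ε.symm i) ?_ ?_ ?_
      · intro i hi
        refine mem_filter.mpr ⟨mem_univ _, ?_⟩
        rw [← hfX]
        exact (mem_filter.mp hi).2
      · intro i _ j _ hij
        exact ε.symm.injective hij
      · intro ω hω
        refine ⟨ε ω, mem_filter.mpr ⟨mem_univ _, ?_⟩, by simp⟩
        rw [Equiv.symm_apply_apply, hfX]
        exact (mem_filter.mp hω).2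
    have key := chain_avg hemU hg ha3
    rw [← hcard] at key
    exact final_real hMpos hWpos he (by omega) hNe key hM hQ

/-- **Functions which are hard on average on all sets of variables.** -/
theorem exists_hardA (S : ℕ) (hS : 2 ≤ S) : ∃ (n : ℕ) (C : Circuit n), C.Monotone ∧
    C.size ≤ S ∧ n ≤ 4 * S ∧ S ≤ 40 * Nat.log 2 S ^ 4 * (n + 1) ∧
    HardA S (fun x => C.eval x) := by
  classical
  obtain ⟨p, h1, h2, h3, h4⟩ := univ_fun S hS
  obtain ⟨C, c1, c2, c3⟩ := h2.circuit (Fintype.equivFin (Vt p.L (nd' S)))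
  refine ⟨_, C, c1, c2, ?_, ?_, hardA_of_rich hS fun U a => ?_⟩
  · rw [Fintype.card_sum, Fintype.card_fin, Fintype.card_prod, Fintype.card_fin, Fintype.card_bool,
      h1]
    have e1 : Nat.log 2 S < S := Nat.log_lt_self 2 (by omega)
    have e2 : nd' S ≤ S := Nat.div_le_self _ _
    omega
  · refine h3.trans (Nat.mul_le_mul_left _ ?_)
    rw [Fintype.card_sum, Fintype.card_fin]
    omega
  · obtain ⟨M, m1, m2⟩ := h4 (U.map (Fintype.equivFin (Vt p.L (nd' S))).symm.toEmbedding) a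
    refine ⟨M, ?_, ?_⟩
    · have e : (fun x => C.eval x) = fun x : Fin _ → Bool =>
          E p (fun v => x (Fintype.equivFin (Vt p.L (nd' S)) v)) := funext c3
      rw [e]
      exact Rich.equiv _ U a M m1
    · rw [card_map] at m2
      exact m2

end Pool.Agent.T9h19.RM
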