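import Mathlib
import Pool.Agent.H540R2.Build
import Pool.Agent.H540R2.Lift.NegDefs

/-!
# Circuits with special gates

Circuits over AND and OR (fan-in 2) and special gates, each of which computes an arbitrary
function of any number of operands (for example NOT gates).
-/

set_option autoImplicit false

namespace Pool.Agent.T9h19.RM

open Finset Pool.Agent.H540R2

/-- A gate: AND or OR with two operands, or a special gate, which computes an arbitrary Boolean
function `φ` of its `k` operands. -/
inductive XGate (n : ℕ) where
  | and (a b : Node n) : XGate n
  | or (a b : Node n) : XGate n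
  | special (k : ℕ) (a : Fin k → Node n) (φ : (Fin k → Bool) → Bool) : XGate n

variable {n : ℕ}

/-- The node is an operand of the gate. -/
def XGate.Reads (g : XGate n) (w : Node n) : Prop :=
  match g with
  | .and a b => w = a ∨ w = b
  | .or a b => w = a ∨ w = b
  | .special _ a _ => ∃ i, w = a i

/-- The value of a gate, given the input `x` and the values `v` of the gates. -/
def XGate.eval (x : Fin n → Bool) (v : ℕ → Bool) : XGate n → Bool
  | .and a b => a.eval x v && b.eval x v
  | .or a b => a.eval x v || b.eval x v
  | .special _ a φ => φ (fun i => (a i).eval x v)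

/-- The depth of a gate, given the depths `d` of the gates. Special gates are not counted. -/
def XGate.depth (d : ℕ → ℕ) : XGate n → ℕ
  | .and a b => max (a.depth d) (b.depth d) + 1
  | .or a b => max (a.depth d) (b.depth d) + 1
  | .special _ a _ => Finset.univ.sup (fun i => (a i).depth d)

/-- Whether the gate is a special gate. -/
def XGate.isSpecial : XGate n → Bool
  | .and _ _ => false
  | .or _ _ => false
  | .special _ _ _ => true

/-- A circuit with special gates on `n` inputs; the gates are numbered in a topological order. -/
structure XCircuit (n : ℕ) where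
  /-- the number of gates -/
  size : ℕ
  /-- the gates -/
  gate : ℕ → XGate n
  /-- the output node -/
  out : Node n
  /-- acyclicity -/
  gate_lt : ∀ i < size, ∀ j, (gate i).Reads (.gate j) → j < i
  /-- the output is a source or one of the gates -/
  out_lt : ∀ j, out = .gate j → j < size

/-- The value of gate number `i` on input `x`. -/
def XCircuit.val (C : XCircuit n) (x : Fin n → Bool) : ℕ → Bool
  | i => (C.gate i).eval x (fun j => if _h : j < i then C.val x j else false)
termination_by i => i

/-- The value computed by the circuit on input `x`. -/
def XCircuit.eval (C : XCircuit n) (x : Fin n → Bool) : Bool := C.out.eval x (C.val x)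

/-- The depth of gate number `i`: the largest number of AND and OR gates on a path to it. -/
def XCircuit.gateDepth (C : XCircuit n) : ℕ → ℕ
  | i => (C.gate i).depth (fun j => if _h : j < i then C.gateDepth j else 0)
termination_by i => i

/-- The depth of the circuit: the largest number of AND and OR gates on a path to the output. -/
def XCircuit.depth (C : XCircuit n) : ℕ := C.out.depth C.gateDepth

open Classical in
/-- The set of special gates. -/
noncomputable def XCircuit.specials (C : XCircuit n) : Finset ℕ :=
  (Finset.range C.size).filter (fun i => (C.gate i).isSpecial = true)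

/-- The set of operands of a special gate (empty for the other gates). -/
noncomputable def XGate.ops (g : XGate n) : Set (Node n) :=
  {w | g.isSpecial = true ∧ g.Reads w}

lemma XGate.ops_finite (g : XGate n) : g.ops.Finite := by
  cases g with
  | and a b => exact Set.Finite.subset (Set.finite_empty) fun w hw => absurd hw.1 (by simp [XGate.isSpecial])
  | or a b => exact Set.Finite.subset (Set.finite_empty) fun w hw => absurd hw.1 (by simp [XGate.isSpecial])
  | special k a φ =>
    refine Set.Finite.subset (Set.finite_range a) ?_
    rintro w ⟨_, i, hi⟩
    exact ⟨i, hi.symm⟩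

open Classical in
/-- The set of the nodes which are operands of special gates of the set `s`. -/
noncomputable def XCircuit.feeders (C : XCircuit n) (s : Finset ℕ) : Finset (Node n) :=
  s.biUnion (fun i => (C.gate i).ops_finite.toFinset)

lemma XCircuit.mem_feeders (C : XCircuit n) {s : Finset ℕ} {w : Node n} :
    w ∈ C.feeders s ↔ ∃ i ∈ s, (C.gate i).isSpecial = true ∧ (C.gate i).Reads w := by
  classical
  unfold XCircuit.feeders
  simp [XGate.ops]

/-! ### basic facts -/

lemma node_eval_congr {x : Fin n → Bool} {v w : ℕ → Bool} {a : Node n}
    (h : ∀ j, a = .gate j → v j = w j) : a.eval x v = a.eval x w := by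
  cases a with
  | var i => rfl
  | const b => rfl
  | gate j => exact h j rfl

lemma node_depth_congr {v w : ℕ → ℕ} {a : Node n} (h : ∀ j, a = .gate j → v j = w j) :
    a.depth v = a.depth w := by
  cases a with
  | var i => rfl
  | const b => rfl
  | gate j => exact h j rfl

lemma XGate.eval_congr {x : Fin n → Bool} {v w : ℕ → Bool} {g : XGate n}
    (h : ∀ j, g.Reads (.gate j) → v j = w j) : g.eval x v = g.eval x w := by
  cases g with
  | and a b =>
    simp only [XGate.eval]
    rw [node_eval_congr (a := a) fun j hj => h j (Or.inl hj.symm),
      node_eval_congr (a := b) fun j hj => h j (Or.inr hj.symm)]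
  | or a b =>
    simp only [XGate.eval]
    rw [node_eval_congr (a := a) fun j hj => h j (Or.inl hj.symm),
      node_eval_congr (a := b) fun j hj => h j (Or.inr hj.symm)]
  | special k a φ =>
    simp only [XGate.eval]
    congr 1
    funext i
    exact node_eval_congr fun j hj => h j ⟨i, hj.symm⟩

lemma XGate.depth_congr {v w : ℕ → ℕ} {g : XGate n} (h : ∀ j, g.Reads (.gate j) → v j = w j) :
    g.depth v = g.depth w := by
  cases g with
  | and a b =>
    simp only [XGate.depth]
    rw [node_depth_congr (a := a) fun j hj => h j (Or.inl hj.symm),
      node_depth_congr (a := b) fun j hj => h j (Or.inr hj.symm)]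
  | or a b =>
    simp only [XGate.depth]
    rw [node_depth_congr (a := a) fun j hj => h j (Or.inl hj.symm),
      node_depth_congr (a := b) fun j hj => h j (Or.inr hj.symm)]
  | special k a φ =>
    simp only [XGate.depth]
    congr 1
    funext i
    exact node_depth_congr fun j hj => h j ⟨i, hj.symm⟩

lemma XCircuit.val_gate (C : XCircuit n) {i : ℕ} (hi : i < C.size) (x : Fin n → Bool) :
    C.val x i = (C.gate i).eval x (C.val x) := by
  rw [XCircuit.val]
  apply XGate.eval_congr
  intro j hj
  simp [C.gate_lt i hi j hj]

lemma XCircuit.gateDepth_gate (C : XCircuit n) {i : ℕ} (hi : i < C.size) :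
    C.gateDepth i = (C.gate i).depth C.gateDepth := by
  rw [XCircuit.gateDepth]
  apply XGate.depth_congr
  intro j hj
  simp [C.gate_lt i hi j hj]

/-! ### circuits with NOT gates as circuits with special gates -/

/-- a gate as a gate with special gates -/
def toXG : Gate n → XGate n
  | .and a b => .and a b
  | .or a b => .or a b
  | .not a => .special 1 (fun _ => a) (fun v => !(v 0))

lemma toXG_reads {g : Gate n} {j : ℕ} (h : (toXG g).Reads (.gate j)) : g.wires j ≠ 0 := by
  cases g with
  | and a b =>
    rcases h with h | h
    · subst h; simp [Gate.wires, Node.wires]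
    · subst h; simp [Gate.wires, Node.wires]
  | or a b =>
    rcases h with h | h
    · subst h; simp [Gate.wires, Node.wires]
    · subst h; simp [Gate.wires, Node.wires]
  | not a =>
    obtain ⟨_, h⟩ := h
    subst h
    simp [Gate.wires, Node.wires]

/-- a circuit as a circuit with special gates -/
def toX (C : Circuit n) : XCircuit n where
  size := C.size
  gate i := toXG (C.gate i)
  out := C.out
  gate_lt i hi j hj := C.gate_lt i hi j (toXG_reads hj)
  out_lt j hj := C.out_lt j (by rw [hj]; simp [Node.wires])

lemma toXG_eval (x : Fin n → Bool) (v : ℕ → Bool) (g : Gate n) :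
    (toXG g).eval x v = g.eval x v := by
  cases g <;> rfl

lemma toX_val (C : Circuit n) (x : Fin n → Bool) : ∀ i < C.size, (toX C).val x i = C.val x i := by
  intro i
  induction i using Nat.strong_induction_on with
  | _ i ih =>
    intro hi
    rw [(toX C).val_gate (show i < (toX C).size from hi), C.val_gate hi]
    show (toXG (C.gate i)).eval x _ = _
    rw [toXG_eval]
    apply Gate.eval_congr
    intro j hj
    exact ih j (C.gate_lt i hi j hj) ((C.gate_lt i hi j hj).trans hi)

lemma toX_eval (C : Circuit n) (x : Fin n → Bool) : (toX C).eval x = C.eval x := by
  show C.out.eval x _ = C.out.eval x _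
  apply Node.eval_congr
  intro j hj
  exact toX_val C x j (C.out_lt j hj)

lemma node_depth_le {v w : ℕ → ℕ} {a : Node n} (h : ∀ j, a = .gate j → v j ≤ w j) :
    a.depth v ≤ a.depth w := by
  cases a with
  | var i => exact le_rfl
  | const b => exact le_rfl
  | gate j => exact h j rfl

lemma toX_gateDepth (C : Circuit n) : ∀ i < C.size, (toX C).gateDepth i ≤ C.gateDepth i := by
  intro i
  induction i using Nat.strong_induction_on with
  | _ i ih =>
    intro hi
    rw [(toX C).gateDepth_gate (show i < (toX C).size from hi), C.gateDepth_gate hi]
    show (toXG (C.gate i)).depth _ ≤ _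
    have hlt := C.gate_lt i hi
    cases hg : C.gate i with
    | and a b =>
      rw [hg] at hlt
      simp only [toXG, XGate.depth, Gate.depth]
      have h1 : a.depth (toX C).gateDepth ≤ a.depth C.gateDepth := node_depth_le fun j hj => by
        have := hlt j (by subst hj; simp [Gate.wires, Node.wires])
        exact ih j this (this.trans hi)
      have h2 : b.depth (toX C).gateDepth ≤ b.depth C.gateDepth := node_depth_le fun j hj => by
        have := hlt j (by subst hj; simp [Gate.wires, Node.wires])
        exact ih j this (this.trans hi)
      omega
    | or a b =>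
      rw [hg] at hlt
      simp only [toXG, XGate.depth, Gate.depth]
      have h1 : a.depth (toX C).gateDepth ≤ a.depth C.gateDepth := node_depth_le fun j hj => by
        have := hlt j (by subst hj; simp [Gate.wires, Node.wires])
        exact ih j this (this.trans hi)
      have h2 : b.depth (toX C).gateDepth ≤ b.depth C.gateDepth := node_depth_le fun j hj => by
        have := hlt j (by subst hj; simp [Gate.wires, Node.wires])
        exact ih j this (this.trans hi)
      omega
    | not a =>
      rw [hg] at hlt
      simp only [toXG, XGate.depth, Gate.depth]
      have h1 : a.depth (toX C).gateDepth ≤ a.depth C.gateDepth := node_depth_le fun j hj => by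
        have := hlt j (by subst hj; simp [Gate.wires, Node.wires])
        exact ih j this (this.trans hi)
      refine (Finset.sup_le fun _ _ => h1).trans (Nat.le_succ _)

lemma toX_depth (C : Circuit n) : (toX C).depth ≤ C.depth :=
  node_depth_le fun j hj => toX_gateDepth C j (C.out_lt j (by
    have : C.out = .gate j := hj
    rw [this]; simp [Node.wires]))

lemma toX_specials (C : Circuit n) : (toX C).specials.card = C.nots := by
  classical
  unfold XCircuit.specials Circuit.nots
  congr 1
  apply Finset.filter_congr
  intro i _
  show (toXG (C.gate i)).isSpecial = true ↔ _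
  cases C.gate i <;> simp [toXG, XGate.isSpecial, Gate.isNot]

lemma toX_feeders (C : Circuit n) (s : Finset ℕ) : ((toX C).feeders s).card ≤ s.card := by
  classical
  unfold XCircuit.feeders
  refine (Finset.card_biUnion_le_card_mul _ _ 1 fun i _ => ?_).trans (by rw [mul_one])
  rw [Finset.card_le_one]
  intro w hw w' hw'
  rw [Set.Finite.mem_toFinset] at hw hw'
  obtain ⟨h1, h2⟩ := hw
  obtain ⟨h3, h4⟩ := hw'
  revert h1 h2 h3 h4
  show (toXG (C.gate i)).isSpecial = true → (toXG (C.gate i)).Reads w →
    (toXG (C.gate i)).isSpecial = true → (toXG (C.gate i)).Reads w' → w = w'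
  cases C.gate i with
  | and a b => intro h; exact absurd h (by simp [toXG, XGate.isSpecial])
  | or a b => intro h; exact absurd h (by simp [toXG, XGate.isSpecial])
  | not a =>
    rintro _ ⟨_, h2⟩ _ ⟨_, h4⟩
    rw [h2, h4]

end Pool.Agent.T9h19.RM
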