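import Mathlib
import Pool.Agent.T9h19.RM.XCirc
import Pool.Agent.T9h19.RM.MF

/-!
# Circuits with special gates: fixing the outputs of the special gates
-/

set_option autoImplicit false

namespace Pool.Agent.T9h19.RM

open Finset Pool.Agent.H540R2

variable {n : ℕ} {C : XCircuit n}

/-! ### the gates below the output -/

/-- There is a path from the gate to the output. -/
inductive XCircuit.Below (C : XCircuit n) : ℕ → Prop
  | out (j : ℕ) (h : C.out = .gate j) : XCircuit.Below C j
  | step (i j : ℕ) (hi : XCircuit.Below C i) (h : (C.gate i).Reads (.gate j)) :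
      XCircuit.Below C j

/-- the depth of an operand of a gate -/
lemma reads_depth {i : ℕ} {w : Node n} (h : (C.gate i).Reads w) :
    w.depth C.gateDepth ≤ (C.gate i).depth C.gateDepth := by
  cases hg : C.gate i with
  | and a b =>
    rw [hg] at h
    simp only [XGate.depth]
    rcases h with h | h
    · subst h; omega
    · subst h; omega
  | or a b =>
    rw [hg] at h
    simp only [XGate.depth]
    rcases h with h | h
    · subst h; omega
    · subst h; omega
  | special k a φ =>
    rw [hg] at h
    obtain ⟨l, h⟩ := h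
    subst h
    simp only [XGate.depth]
    exact Finset.le_sup (f := fun i => (a i).depth C.gateDepth) (mem_univ l)

lemma Below.lt {i : ℕ} (h : C.Below i) : i < C.size ∧ C.gateDepth i ≤ C.depth := by
  induction h with
  | out j h =>
    refine ⟨C.out_lt j h, ?_⟩
    unfold XCircuit.depth
    rw [h]
    exact le_rfl
  | step i j _ h ih =>
    obtain ⟨h1, h2⟩ := ih
    refine ⟨(C.gate_lt i h1 j h).trans h1, ?_⟩
    have h3 := reads_depth h
    rw [← C.gateDepth_gate h1] at h3
    exact h3.trans h2

/-! ### fixing the outputs of the special gates -/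

open Classical in
/-- The value of a gate when exactly the special gates in `s` are given the value `1`. -/
noncomputable def XCircuit.valB (C : XCircuit n) (s : Finset ℕ) (x : Fin n → Bool) : ℕ → Bool
  | i => if (C.gate i).isSpecial = true then decide (i ∈ s) else
      (C.gate i).eval x (fun j => if _h : j < i then C.valB s x j else false)
termination_by i => i

lemma valB_special {s : Finset ℕ} {x : Fin n → Bool} {i : ℕ}
    (hi : (C.gate i).isSpecial = true) : C.valB s x i = true ↔ i ∈ s := by
  rw [XCircuit.valB, if_pos hi]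
  simp

lemma valB_gate {s : Finset ℕ} {x : Fin n → Bool} {i : ℕ} (hs : i < C.size)
    (hi : (C.gate i).isSpecial = false) : C.valB s x i = (C.gate i).eval x (C.valB s x) := by
  rw [XCircuit.valB, if_neg (by rw [hi]; simp)]
  apply XGate.eval_congr
  intro j hj
  simp [C.gate_lt i hs j hj]

open Classical in
/-- the special gates below the output -/
noncomputable def XCircuit.sp (C : XCircuit n) : Finset ℕ :=
  C.specials.filter (fun i => C.Below i)

/-- the special gates below the output with value `1` -/
noncomputable def XCircuit.ones (C : XCircuit n) (x : Fin n → Bool) : Finset ℕ :=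
  C.sp.filter (fun i => C.val x i = true)

lemma mem_specials {i : ℕ} : i ∈ C.specials ↔ i < C.size ∧ (C.gate i).isSpecial = true := by
  simp [XCircuit.specials]

lemma mem_sp {i : ℕ} : i ∈ C.sp ↔ (C.gate i).isSpecial = true ∧ C.Below i := by
  classical
  unfold XCircuit.sp
  rw [mem_filter, mem_specials]
  exact ⟨fun h => ⟨h.1.2, h.2⟩, fun h => ⟨⟨(Below.lt h.2).1, h.1⟩, h.2⟩⟩

lemma mem_ones {i : ℕ} {x : Fin n → Bool} :
    i ∈ C.ones x ↔ ((C.gate i).isSpecial = true ∧ C.Below i) ∧ C.val x i = true := by
  unfold XCircuit.ones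
  rw [mem_filter, mem_sp]

lemma sp_subset (C : XCircuit n) : C.sp ⊆ C.specials := by
  classical
  exact filter_subset _ _

lemma valB_ones (x : Fin n → Bool) : ∀ i, C.Below i → C.valB (C.ones x) x i = C.val x i := by
  intro i
  induction i using Nat.strong_induction_on with
  | _ i ih =>
    intro hb
    have hi := (Below.lt hb).1
    by_cases h : (C.gate i).isSpecial = true
    · rw [Bool.eq_iff_iff, valB_special h, mem_ones]
      exact ⟨fun hh => hh.2, fun hh => ⟨⟨h, hb⟩, hh⟩⟩
    · rw [valB_gate hi (Bool.eq_false_iff.mpr h), C.val_gate hi]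
      apply XGate.eval_congr
      intro j hj
      exact ih j (C.gate_lt i hi j hj) (.step i j hb hj)

/-- monotone formulas for the gates -/
lemma valB_mo (C : XCircuit n) (s : Finset ℕ) : ∀ i < C.size,
    Mo (fun x => C.valB s x i) (C.gateDepth i) := by
  have hn : ∀ a : Node n, (∀ j, a = .gate j → Mo (fun x => C.valB s x j) (C.gateDepth j)) →
      Mo (fun x => a.eval x (C.valB s x)) (a.depth C.gateDepth) := by
    intro a ha
    cases a with
    | var i => exact Mo.var i _
    | const b => exact Mo.const b _
    | gate j => exact ha j rfl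
  intro i
  induction i using Nat.strong_induction_on with
  | _ i ih =>
    intro hi
    have hlt := C.gate_lt i hi
    rw [C.gateDepth_gate hi]
    by_cases h : (C.gate i).isSpecial = true
    · by_cases his : i ∈ s
      · exact (Mo.const true _).congr fun x => ((valB_special h).mpr his).symm
      · refine (Mo.const false _).congr fun x => ?_
        symm
        rw [Bool.eq_false_iff, ne_eq, valB_special h]
        exact his
    · have h' := Bool.eq_false_iff.mpr h
      have e : ∀ x, (C.gate i).eval x (C.valB s x) = C.valB s x i :=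
        fun x => (valB_gate hi h').symm
      cases hg : C.gate i with
      | and a b =>
        rw [hg] at hlt e
        have h1 := hn a fun j hj => by
          have := hlt j (Or.inl hj.symm)
          exact ih j this (this.trans hi)
        have h2 := hn b fun j hj => by
          have := hlt j (Or.inr hj.symm)
          exact ih j this (this.trans hi)
        exact ((h1.mono (le_max_left _ _)).and (h2.mono (le_max_right _ _))).congr e
      | or a b =>
        rw [hg] at hlt e
        have h1 := hn a fun j hj => by
          have := hlt j (Or.inl hj.symm)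
          exact ih j this (this.trans hi)
        have h2 := hn b fun j hj => by
          have := hlt j (Or.inr hj.symm)
          exact ih j this (this.trans hi)
        exact ((h1.mono (le_max_left _ _)).or (h2.mono (le_max_right _ _))).congr e
      | special k a φ =>
        rw [hg] at h'
        exact absurd h' (by simp [XGate.isSpecial])

/-- all gates that the node refers to are below the output -/
def XCircuit.Ok (C : XCircuit n) (w : Node n) : Prop := ∀ j, w = .gate j → C.Below j

/-- monotone formulas for nodes below the output -/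
lemma node_mo (s : Finset ℕ) {w : Node n} (hw : C.Ok w) :
    Mo (fun x => w.eval x (C.valB s x)) C.depth := by
  cases w with
  | var i => exact Mo.var i _
  | const b => exact Mo.const b _
  | gate j =>
    obtain ⟨h1, h2⟩ := Below.lt (hw j rfl)
    exact (valB_mo C s j h1).mono h2

/-- the nodes that matter: operands of special gates below the output, and the output -/
noncomputable def XCircuit.nodes (C : XCircuit n) : Finset (Node n) :=
  letI : DecidableEq (Node n) := Classical.decEq _
  insert C.out (C.feeders C.sp)

lemma feeders_mono (C : XCircuit n) {s t : Finset ℕ} (h : s ⊆ t) : C.feeders s ⊆ C.feeders t := by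
  intro w hw
  obtain ⟨i, hi, h1⟩ := C.mem_feeders.mp hw
  exact C.mem_feeders.mpr ⟨i, h hi, h1⟩

lemma nodes_card (C : XCircuit n) : C.nodes.card ≤ (C.feeders C.sp).card + 1 := by
  classical
  unfold XCircuit.nodes
  convert Finset.card_insert_le C.out (C.feeders C.sp)

lemma mem_nodes {w : Node n} : w ∈ C.nodes ↔ w = C.out ∨ w ∈ C.feeders C.sp := by
  classical
  unfold XCircuit.nodes
  simp

lemma nodes_ok {w : Node n} (hw : w ∈ C.nodes) : C.Ok w := by
  intro j hj
  rcases mem_nodes.mp hw with h | h
  · exact .out j (by rw [← h, hj])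
  · obtain ⟨i, hi, h1, h2⟩ := C.mem_feeders.mp h
    subst hj
    exact .step i j (mem_sp.mp hi).2 h2

lemma out_mem (C : XCircuit n) : C.out ∈ C.nodes := mem_nodes.mpr (Or.inl rfl)

/-- Let `V` be a set of gates below the output that is closed under passing to operands. If the
operands of the special gates in `V` have the same values on `z` as on `ξ`, then all gates in `V`
have the same value on `z` as when the special gates have the values that they have on `ξ`. -/
lemma same (ξ z : Fin n → Bool) (V : ℕ → Prop) (hVB : ∀ i, V i → C.Below i)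
    (hV : ∀ i, V i → ∀ j, (C.gate i).Reads (.gate j) → V j)
    (hU : ∀ i, V i → (C.gate i).isSpecial = true → ∀ w, (C.gate i).Reads w →
      w.eval z (C.val z) = w.eval ξ (C.val ξ)) :
    ∀ i, V i → C.val z i = C.valB (C.ones ξ) z i := by
  intro i
  induction i using Nat.strong_induction_on with
  | _ i ih =>
    intro hVi
    have hb := hVB i hVi
    have hi := (Below.lt hb).1
    by_cases h : (C.gate i).isSpecial = true
    · have e1 : C.val z i = C.val ξ i := by
        have h2 := hU i hVi h
        rw [C.val_gate hi, C.val_gate hi]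
        cases hg : C.gate i with
        | and a b => rw [hg] at h; exact absurd h (by simp [XGate.isSpecial])
        | or a b => rw [hg] at h; exact absurd h (by simp [XGate.isSpecial])
        | special k a φ =>
          rw [hg] at h2
          simp only [XGate.eval]
          congr 1
          funext l
          exact h2 (a l) ⟨l, rfl⟩
      rw [e1, Bool.eq_iff_iff, valB_special h, mem_ones]
      exact ⟨fun hh => ⟨⟨h, hb⟩, hh⟩, fun hh => hh.2⟩
    · rw [valB_gate hi (Bool.eq_false_iff.mpr h), C.val_gate hi]
      apply XGate.eval_congr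
      intro j hj
      exact ih j (C.gate_lt i hi j hj) (hV i hVi j hj)

open Classical in
/-- the detecting function -/
noncomputable def XCircuit.det (C : XCircuit n) (ξ : Fin n → Bool) : (Fin n → Bool) → Bool :=
  fun z => decide (∃ w ∈ C.nodes, w.eval ξ (C.val ξ) = false ∧
    w.eval z (C.valB (C.ones ξ) z) = true)

lemma det_iff {ξ z : Fin n → Bool} : C.det ξ z = true ↔
    ∃ w ∈ C.nodes, w.eval ξ (C.val ξ) = false ∧ w.eval z (C.valB (C.ones ξ) z) = true := by
  simp [XCircuit.det]

lemma det_mo (C : XCircuit n) (ξ : Fin n → Bool) {k : ℕ} (hk : C.nodes.card ≤ 2 ^ k) :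
    Mo (C.det ξ) (C.depth + k) := by
  classical
  set L : List ((Fin n → Bool) → Bool) :=
    (C.nodes.filter (fun w => w.eval ξ (C.val ξ) = false)).toList.map
      (fun w z => w.eval z (C.valB (C.ones ξ) z)) with hL
  have h1 : L.length ≤ 2 ^ k := by
    rw [hL, List.length_map, Finset.length_toList]
    exact (card_filter_le _ _).trans hk
  refine (Mo.orList k L h1 ?_).congr fun z => ?_
  · intro f hf
    rw [hL, List.mem_map] at hf
    obtain ⟨w, hw, rfl⟩ := hf
    rw [Finset.mem_toList, mem_filter] at hw
    exact node_mo _ (nodes_ok hw.1)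
  · rw [Bool.eq_iff_iff, det_iff, List.any_eq_true, hL]
    constructor
    · rintro ⟨f, hf, hf'⟩
      obtain ⟨w, hw, rfl⟩ := List.mem_map.mp hf
      rw [Finset.mem_toList, mem_filter] at hw
      exact ⟨w, hw.1, hw.2, hf'⟩
    · rintro ⟨w, hw1, hw2, hw3⟩
      exact ⟨_, List.mem_map.mpr ⟨w, Finset.mem_toList.mpr (mem_filter.mpr ⟨hw1, hw2⟩), rfl⟩, hw3⟩

/-- values of nodes with fixed special gates are monotone -/
lemma node_valB_mono (s : Finset ℕ) {w : Node n} (hw : C.Ok w)
    {ξ z : Fin n → Bool} (hz : ∀ i, ξ i = true → z i = true)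
    (h : w.eval ξ (C.valB s ξ) = true) : w.eval z (C.valB s z) = true := by
  obtain ⟨F, _, hF⟩ := node_mo s hw
  have h1 := hF ξ
  have h2 := hF z
  simp only at h1 h2
  rw [← h2]
  exact F.eval_mono hz (by rw [h1]; exact h)

lemma node_ones (x : Fin n → Bool) {w : Node n} (hw : C.Ok w) :
    w.eval x (C.valB (C.ones x) x) = w.eval x (C.val x) :=
  node_eval_congr fun j hj => valB_ones x j (hw j hj)

/-- with the special gates fixed, an undetected node has the same value -/
lemma fixed_eq {ξ z : Fin n → Bool} (hz : ∀ i, ξ i = true → z i = true)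
    (h : C.det ξ z = false) {w : Node n} (hw : w ∈ C.nodes) :
    w.eval z (C.valB (C.ones ξ) z) = w.eval ξ (C.val ξ) := by
  rw [Bool.eq_iff_iff]
  constructor
  · intro h2
    by_contra h3
    have h4 : C.det ξ z = true := det_iff.mpr ⟨w, hw, Bool.eq_false_iff.mpr h3, h2⟩
    rw [h] at h4
    exact absurd h4 (by simp)
  · intro h2
    apply node_valB_mono _ (nodes_ok hw) hz
    rw [node_ones ξ (nodes_ok hw)]
    exact h2

/-- If nothing is detected, nothing changes. -/
lemma not_det {ξ z : Fin n → Bool} (hz : ∀ i, ξ i = true → z i = true)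
    (h : C.det ξ z = false) : ∀ w ∈ C.nodes, w.eval z (C.val z) = w.eval ξ (C.val ξ) := by
  -- by induction, the values on `z` are those with the special gates fixed
  have h2 : ∀ i, C.Below i → C.val z i = C.valB (C.ones ξ) z i := by
    intro i
    induction i using Nat.strong_induction_on with
    | _ i ih =>
      intro hb
      have hi := (Below.lt hb).1
      by_cases hsp : (C.gate i).isSpecial = true
      · have e1 : C.val z i = C.val ξ i := by
          rw [C.val_gate hi, C.val_gate hi]
          cases hg : C.gate i with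
          | and a b => rw [hg] at hsp; exact absurd hsp (by simp [XGate.isSpecial])
          | or a b => rw [hg] at hsp; exact absurd hsp (by simp [XGate.isSpecial])
          | special k a φ =>
            simp only [XGate.eval]
            congr 1
            funext l
            have hr : (C.gate i).Reads (a l) := by
              rw [hg]
              exact ⟨l, rfl⟩
            have hmem : a l ∈ C.nodes :=
              mem_nodes.mpr (Or.inr (C.mem_feeders.mpr ⟨i, mem_sp.mpr ⟨hsp, hb⟩, hsp, hr⟩))
            rw [← fixed_eq hz h hmem]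
            apply node_eval_congr
            intro j hj
            rw [hj] at hr
            exact ih j (C.gate_lt i hi j hr) (.step i j hb hr)
        rw [e1, Bool.eq_iff_iff, valB_special hsp, mem_ones]
        exact ⟨fun hh => ⟨⟨hsp, hb⟩, hh⟩, fun hh => hh.2⟩
      · rw [valB_gate hi (Bool.eq_false_iff.mpr hsp), C.val_gate hi]
        apply XGate.eval_congr
        intro j hj
        exact ih j (C.gate_lt i hi j hj) (.step i j hb hj)
  intro w hw
  rw [← fixed_eq hz h hw]
  exact node_eval_congr fun j hj => h2 j (nodes_ok hw j hj)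

/-- an accepted input above a rejected one is detected -/
lemma det_out {ξ z : Fin n → Bool} (hz : ∀ i, ξ i = true → z i = true) (h0 : C.eval ξ = false)
    (h1 : C.eval z = true) : C.det ξ z = true := by
  by_contra hc
  have h2 := not_det hz (Bool.eq_false_iff.mpr hc) C.out (out_mem C)
  have h3 : C.eval z = C.eval ξ := h2
  rw [h0, h1] at h3
  exact absurd h3 (by simp)

/-! ### the first rank function -/

/-- the number of pairs of a set of special gates and a node that have value `1` -/
noncomputable def XCircuit.rk (C : XCircuit n) (x : Fin n → Bool) : ℕ :=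
  ((C.sp.powerset ×ˢ C.nodes).filter
    (fun p => p.2.eval x (C.valB p.1 x) = true)).card

lemma rk_le (C : XCircuit n) (x : Fin n → Bool) :
    C.rk x ≤ 2 ^ C.specials.card * ((C.feeders C.specials).card + 1) := by
  unfold XCircuit.rk
  refine (card_filter_le _ _).trans ?_
  rw [card_product, card_powerset]
  refine Nat.mul_le_mul (Nat.pow_le_pow_right (by norm_num) (card_le_card (sp_subset C))) ?_
  have := card_le_card (feeders_mono C (sp_subset C))
  exact (nodes_card C).trans (by omega)

lemma rk_lt {ξ z : Fin n → Bool} (hz : ∀ i, ξ i = true → z i = true) (h : C.det ξ z = true) :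
    C.rk ξ < C.rk z := by
  obtain ⟨w, hw, h1, h2⟩ := det_iff.mp h
  apply card_lt_card
  rw [ssubset_iff_of_subset]
  · refine ⟨(C.ones ξ, w), ?_, ?_⟩
    · refine mem_filter.mpr ⟨mem_product.mpr ⟨mem_powerset.mpr (filter_subset _ _), hw⟩, h2⟩
    · intro h3
      have h4 := (mem_filter.mp h3).2
      rw [node_ones ξ (nodes_ok hw), h1] at h4
      exact absurd h4 (by simp)
  · rintro ⟨s, w'⟩ hp
    obtain ⟨h3, h4⟩ := mem_filter.mp hp
    exact mem_filter.mpr ⟨h3, node_valB_mono s (nodes_ok (mem_product.mp h3).2) hz h4⟩

/-! ### the second rank function -/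

/-- a mixed-radix number with digits `c 0, …, c r` (most significant first), where `c l ≤ κ l` -/
def mix (c κ : ℕ → ℕ) : ℕ → ℕ
  | 0 => c 0
  | r + 1 => mix c κ r * (κ (r + 1) + 1) + c (r + 1)

lemma mix_lt (c κ : ℕ → ℕ) (hc : ∀ l, c l ≤ κ l) (r : ℕ) :
    mix c κ r + 1 ≤ ∏ l ∈ range (r + 1), (κ l + 1) := by
  induction r with
  | zero => simpa [mix] using hc 0
  | succ r ih =>
    rw [prod_range_succ]
    have h1 := hc (r + 1)
    calc mix c κ (r + 1) + 1 = mix c κ r * (κ (r + 1) + 1) + c (r + 1) + 1 := rfl
      _ ≤ (mix c κ r + 1) * (κ (r + 1) + 1) := by nlinarith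
      _ ≤ _ := Nat.mul_le_mul_right _ ih

lemma mix_lt_mix (c c' κ : ℕ → ℕ) (hc : ∀ l, c l ≤ κ l) {l0 r : ℕ} (hl : l0 ≤ r)
    (h1 : ∀ l < l0, c l = c' l) (h2 : c l0 < c' l0) : mix c κ r < mix c' κ r := by
  induction r with
  | zero =>
    have : l0 = 0 := by omega
    subst this
    exact h2
  | succ r ih =>
    rcases Nat.lt_or_ge l0 (r + 1) with h | h
    · have h3 := ih (by omega)
      have h4 := hc (r + 1)
      calc mix c κ (r + 1) = mix c κ r * (κ (r + 1) + 1) + c (r + 1) := rfl
        _ < (mix c κ r + 1) * (κ (r + 1) + 1) := by nlinarith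
        _ ≤ mix c' κ r * (κ (r + 1) + 1) := Nat.mul_le_mul_right _ h3
        _ ≤ mix c' κ (r + 1) := Nat.le_add_right _ _
    · have : l0 = r + 1 := by omega
      subst this
      have h3 : ∀ k ≤ r, mix c κ k = mix c' κ k := by
        intro k
        induction k with
        | zero => intro _; exact h1 0 (by omega)
        | succ k ihk =>
          intro hk
          show mix c κ k * (κ (k + 1) + 1) + c (k + 1) = mix c' κ k * (κ (k + 1) + 1) + c' (k + 1)
          rw [ihk (by omega), h1 (k + 1) (by omega)]
      show mix c κ r * (κ (r + 1) + 1) + c (r + 1) < mix c' κ r * (κ (r + 1) + 1) + c' (r + 1)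
      rw [h3 r le_rfl]
      omega

/-- An assignment of levels `0, …, r` to the gates: the level never drops from an operand to a
gate and increases strictly at special gates. -/
def XCircuit.Levels (C : XCircuit n) (lev : ℕ → ℕ) (r : ℕ) : Prop :=
  ∀ i < C.size, lev i ≤ r ∧ ∀ j, (C.gate i).Reads (.gate j) →
    lev j ≤ lev i ∧ ((C.gate i).isSpecial = true → lev j < lev i)

/-- The number of nodes which are operands of special gates of level `l`. -/
noncomputable def XCircuit.feedAt (C : XCircuit n) (lev : ℕ → ℕ) (l : ℕ) : ℕ :=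
  (C.feeders (C.specials.filter (fun i => lev i = l))).card

/-- the operands, with value `1`, of the special gates of level `l` below the output -/
noncomputable def XCircuit.dig (C : XCircuit n) (lev : ℕ → ℕ) (x : Fin n → Bool) (l : ℕ) : ℕ :=
  ((C.feeders (C.sp.filter (fun i => lev i = l))).filter
    (fun w => w.eval x (C.val x) = true)).card

lemma dig_le (lev : ℕ → ℕ) (x : Fin n → Bool) (l : ℕ) : C.dig lev x l ≤ C.feedAt lev l :=
  (card_filter_le _ _).trans (card_le_card (feeders_mono C (filter_subset_filter _ (sp_subset C))))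

/-- something changes -/
def XCircuit.Chg (C : XCircuit n) (lev : ℕ → ℕ) (ξ z : Fin n → Bool) : Prop :=
  ∃ l, ∃ w ∈ C.feeders (C.sp.filter (fun i => lev i = l)), w.eval z (C.val z) ≠ w.eval ξ (C.val ξ)

/-- if nothing changes, all values are as with frozen special gates -/
lemma not_chg {lev : ℕ → ℕ} {ξ z : Fin n → Bool} (hc : ¬ C.Chg lev ξ z) {w : Node n}
    (hw : C.Ok w) : w.eval z (C.val z) = w.eval z (C.valB (C.ones ξ) z) := by
  classical
  unfold XCircuit.Chg at hc
  push Not at hc
  have h1 := same (C := C) ξ z C.Below (fun _ h => h) (fun i hi j hj => .step i j hi hj)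
    (by
      intro i hi hs w hw
      refine hc (lev i) w (C.mem_feeders.mpr ⟨i, mem_filter.mpr ⟨mem_sp.mpr ⟨hs, hi⟩, rfl⟩,
        hs, hw⟩))
  exact node_eval_congr fun j hj => h1 j (hw j hj)

/-- if nothing changes, values only increase -/
lemma not_chg_mono {lev : ℕ → ℕ} {ξ z : Fin n → Bool} (hc : ¬ C.Chg lev ξ z)
    (hz : ∀ i, ξ i = true → z i = true) {w : Node n} (hw : C.Ok w)
    (h : w.eval ξ (C.val ξ) = true) : w.eval z (C.val z) = true := by
  rw [not_chg hc hw]
  apply node_valB_mono _ hw hz
  rw [node_ones ξ hw]
  exact h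

/-- a change increases the rank -/
lemma mix_chg {lev : ℕ → ℕ} {r : ℕ} (hlev : C.Levels lev r) {ξ z : Fin n → Bool}
    (hz : ∀ i, ξ i = true → z i = true) (hex : C.Chg lev ξ z) :
    mix (C.dig lev ξ) (C.feedAt lev) r < mix (C.dig lev z) (C.feedAt lev) r := by
  classical
  unfold XCircuit.Chg at hex
  obtain ⟨w0, hw0, hne⟩ := Nat.find_spec hex
  have hmin : ∀ l < Nat.find hex, ∀ w ∈ C.feeders (C.sp.filter (fun i => lev i = l)),
      w.eval z (C.val z) = w.eval ξ (C.val ξ) := by
    intro l hl w hw
    by_contra hc
    exact Nat.find_min hex hl ⟨w, hw, hc⟩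
  set l0 := Nat.find hex with hl0
  have hl0r : l0 ≤ r := by
    obtain ⟨i, hi, _, _⟩ := C.mem_feeders.mp hw0
    obtain ⟨h1, h2⟩ := mem_filter.mp hi
    have := (hlev i (Below.lt (mem_sp.mp h1).2).1).1
    omega
  -- below that level, the special gates have not changed
  have h1 := same (C := C) ξ z (fun i => C.Below i ∧ lev i < l0) (fun _ h => h.1)
    (fun i hi j hj => ⟨.step i j hi.1 hj,
      lt_of_le_of_lt ((hlev i (Below.lt hi.1).1).2 j hj).1 hi.2⟩)
    (by
      intro i hi hs w hw
      exact hmin (lev i) hi.2 w (C.mem_feeders.mpr ⟨i, mem_filter.mpr ⟨mem_sp.mpr ⟨hs, hi.1⟩, rfl⟩,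
        hs, hw⟩))
  -- so the operands at that level have increased
  have h2 : ∀ w ∈ C.feeders (C.sp.filter (fun i => lev i = l0)),
      w.eval ξ (C.val ξ) = true → w.eval z (C.val z) = true := by
    intro w hw hw1
    obtain ⟨i, hi, h3, h4⟩ := C.mem_feeders.mp hw
    obtain ⟨h5, h6⟩ := mem_filter.mp hi
    have hb := (mem_sp.mp h5).2
    have hok : C.Ok w := fun j hj => .step i j hb (by rw [← hj]; exact h4)
    have e : w.eval z (C.val z) = w.eval z (C.valB (C.ones ξ) z) := by
      apply node_eval_congr
      intro j hj
      have hr : (C.gate i).Reads (.gate j) := by rw [← hj]; exact h4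
      refine h1 j ⟨.step i j hb hr, ?_⟩
      have := ((hlev i (Below.lt hb).1).2 j hr).2 h3
      omega
    rw [e]
    apply node_valB_mono _ hok hz
    rw [node_ones ξ hok]
    exact hw1
  refine mix_lt_mix _ _ _ (fun l => dig_le lev ξ l) hl0r ?_ ?_
  · intro l hl
    unfold XCircuit.dig
    congr 1
    apply filter_congr
    intro w hw
    rw [hmin l hl w hw]
  · apply card_lt_card
    rw [ssubset_iff_of_subset]
    · have h3 : w0.eval ξ (C.val ξ) = false := by
        rw [Bool.eq_false_iff]
        intro h4
        rw [h4, h2 w0 hw0 h4] at hne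
        exact hne rfl
      refine ⟨w0, mem_filter.mpr ⟨hw0, ?_⟩, fun h4 => ?_⟩
      · rw [h3] at hne
        simpa using hne
      · rw [(mem_filter.mp h4).2] at h3
        exact absurd h3 (by simp)
    · intro w hw
      obtain ⟨h3, h4⟩ := mem_filter.mp hw
      exact mem_filter.mpr ⟨h3, h2 w h3 h4⟩

/-- the rank never decreases -/
lemma mix_mono {lev : ℕ → ℕ} {r : ℕ} (hlev : C.Levels lev r) {ξ z : Fin n → Bool}
    (hz : ∀ i, ξ i = true → z i = true) :
    mix (C.dig lev ξ) (C.feedAt lev) r ≤ mix (C.dig lev z) (C.feedAt lev) r := by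
  classical
  by_cases hex : C.Chg lev ξ z
  · exact (mix_chg hlev hz hex).le
  · refine le_of_eq ?_
    have h1 : C.dig lev ξ = C.dig lev z := by
      funext l
      unfold XCircuit.dig
      congr 1
      apply filter_congr
      intro w hw
      have h2 : w.eval z (C.val z) = w.eval ξ (C.val ξ) := by
        by_contra hne
        exact hex ⟨l, w, hw, hne⟩
      rw [h2]
    rw [h1]

/-- detection without acceptance is a change -/
lemma chg_of_det (lev : ℕ → ℕ) {ξ z : Fin n → Bool}
    (h0 : C.eval z = false) (h : C.det ξ z = true) : C.Chg lev ξ z := by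
  by_contra hc
  obtain ⟨w, hw, h2, h3⟩ := det_iff.mp h
  have h4 : w.eval z (C.val z) = true := by
    rw [not_chg hc (nodes_ok hw)]
    exact h3
  rcases mem_nodes.mp hw with h5 | h5
  · subst h5
    have : C.eval z = true := h4
    rw [h0] at this
    exact absurd this (by simp)
  · obtain ⟨i, hi, h6, h7⟩ := C.mem_feeders.mp h5
    apply hc
    refine ⟨lev i, w, C.mem_feeders.mpr ⟨i, mem_filter.mpr ⟨hi, rfl⟩, h6, h7⟩, ?_⟩
    rw [h2, h4]
    simp

/-- losing acceptance is a change -/
lemma chg_of_drop (lev : ℕ → ℕ) {ξ z : Fin n → Bool} (hz : ∀ i, ξ i = true → z i = true)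
    (h0 : C.eval z = false) (h : C.eval ξ = true) : C.Chg lev ξ z := by
  by_contra hc
  have h1 : C.eval z = true := not_chg_mono hc hz (fun j hj => .out j hj) h
  rw [h0] at h1
  exact absurd h1 (by simp)

/-- the number of relevant nodes in terms of levels -/
lemma nodes_card_levels {lev : ℕ → ℕ} {r : ℕ} (hlev : C.Levels lev r) :
    C.nodes.card ≤ ∏ l ∈ range (r + 1), (C.feedAt lev l + 1) := by
  classical
  have h1 : C.feeders C.sp ⊆ (range (r + 1)).biUnion
      (fun l => C.feeders (C.specials.filter (fun i => lev i = l))) := by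
    intro w hw
    obtain ⟨i, hi, h2, h3⟩ := C.mem_feeders.mp hw
    have h4 := mem_specials.mp (sp_subset C hi)
    refine mem_biUnion.mpr ⟨lev i, mem_range.mpr (Nat.lt_succ_of_le (hlev i h4.1).1), ?_⟩
    exact C.mem_feeders.mpr ⟨i, mem_filter.mpr ⟨sp_subset C hi, rfl⟩, h2, h3⟩
  have h2 : (C.feeders C.sp).card ≤ ∑ l ∈ range (r + 1), C.feedAt lev l :=
    (card_le_card h1).trans card_biUnion_le
  have h3 : ∀ r, (∑ l ∈ range (r + 1), C.feedAt lev l) + 1 ≤
      ∏ l ∈ range (r + 1), (C.feedAt lev l + 1) := by
    intro r
    induction r with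
    | zero => simp
    | succ r ih =>
      rw [sum_range_succ, prod_range_succ]
      have h5 : 1 ≤ ∏ l ∈ range (r + 1), (C.feedAt lev l + 1) := by omega
      nlinarith
  exact (nodes_card C).trans ((Nat.add_le_add_right h2 1).trans (h3 r))

end Pool.Agent.T9h19.RM
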