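import Mathlib
import Pool.Agent.T9h19.RM.HardA
import Pool.Agent.T9h19.RM.XLow

/-!
# Circuits with NOT gates and sets of variables
-/

set_option autoImplicit false

namespace Pool.Agent.T9h19.RM

open Finset Pool.Agent.H540R2 Pool.Agent.H540R2.Circuit Pool.Agent.W953.NW

variable {n : ℕ} {S : ℕ}

lemma GReads.wires {g : Gate n} {j : ℕ} (h : GReads g (.gate j)) : g.wires j ≠ 0 := by
  cases g with
  | and a b =>
    rcases h with h | h
    · subst h; simp [Gate.wires, Node.wires]
    · subst h; simp [Gate.wires, Node.wires]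
  | or a b =>
    rcases h with h | h
    · subst h; simp [Gate.wires, Node.wires]
    · subst h; simp [Gate.wires, Node.wires]
  | not a =>
    subst h
    simp [Gate.wires, Node.wires]

lemma toXG_reads_iff {g : Gate n} {w : Node n} : (toXG g).Reads w ↔ GReads g w := by
  cases g with
  | and a b => exact Iff.rfl
  | or a b => exact Iff.rfl
  | not a => exact ⟨fun ⟨_, h⟩ => h, fun h => ⟨0, h⟩⟩

/-! ### gates which do not depend on `U` -/

lemma node_const {D : Circuit n} {U : Finset (Fin n)} {α x : Fin n → Bool} (hx : Agr U α x)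
    {w : Node n} (hw : ¬ Above D U w) {v v' : ℕ → Bool}
    (hv : ∀ j, w = .gate j → v j = v' j) : w.eval x v = w.eval α v' := by
  cases w with
  | var i => exact hx i fun hi => hw (.var i hi)
  | const b => rfl
  | gate j => exact hv j rfl

lemma val_const {D : Circuit n} {U : Finset (Fin n)} {α x : Fin n → Bool} (hx : Agr U α x) :
    ∀ i < D.size, ¬ Above D U (.gate i) → D.val x i = D.val α i := by
  intro i
  induction i using Nat.strong_induction_on with
  | _ i ih =>
    intro hi ha
    rw [D.val_gate hi, D.val_gate hi]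
    have key : ∀ w, GReads (D.gate i) w → w.eval x (D.val x) = w.eval α (D.val α) := by
      intro w hw
      refine node_const (D := D) hx (fun h => ha (.gate i w hw h)) fun j hj => ?_
      subst hj
      have hlt := D.gate_lt i hi j hw.wires
      exact ih j hlt (hlt.trans hi) fun h => ha (.gate i _ hw h)
    cases hg : D.gate i with
    | and a b =>
      rw [hg] at key
      simp only [Gate.eval]
      rw [key a (Or.inl rfl), key b (Or.inr rfl)]
    | or a b =>
      rw [hg] at key
      simp only [Gate.eval]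
      rw [key a (Or.inl rfl), key b (Or.inr rfl)]
    | not a =>
      rw [hg] at key
      simp only [Gate.eval]
      rw [key a rfl]

open Classical in
/-- The circuit in which the gates which are not above `U` are replaced by constants. -/
noncomputable def restr (D : Circuit n) (U : Finset (Fin n)) (α : Fin n → Bool) : XCircuit n where
  size := D.size
  gate i := if Above D U (.gate i) then toXG (D.gate i) else
    .special 0 Fin.elim0 (fun _ => D.val α i)
  out := D.out
  gate_lt i hi j hj := by
    by_cases h : Above D U (.gate i)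
    · rw [if_pos h] at hj
      exact D.gate_lt i hi j (toXG_reads_iff.mp hj).wires
    · rw [if_neg h] at hj
      obtain ⟨k, _⟩ := hj
      exact k.elim0
  out_lt j hj := D.out_lt j (by rw [hj]; simp [Node.wires])

lemma restr_gate_pos {D : Circuit n} {U : Finset (Fin n)} {α : Fin n → Bool} {i : ℕ}
    (h : Above D U (.gate i)) : (restr D U α).gate i = toXG (D.gate i) := if_pos h

lemma restr_gate_neg {D : Circuit n} {U : Finset (Fin n)} {α : Fin n → Bool} {i : ℕ}
    (h : ¬ Above D U (.gate i)) :
    (restr D U α).gate i = .special 0 Fin.elim0 (fun _ => D.val α i) := if_neg h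

lemma restr_val {D : Circuit n} {U : Finset (Fin n)} {α x : Fin n → Bool} (hx : Agr U α x) :
    ∀ i < D.size, (restr D U α).val x i = D.val x i := by
  intro i
  induction i using Nat.strong_induction_on with
  | _ i ih =>
    intro hi
    rw [(restr D U α).val_gate (show i < (restr D U α).size from hi)]
    by_cases h : Above D U (.gate i)
    · rw [restr_gate_pos h, toXG_eval, D.val_gate hi]
      apply Gate.eval_congr
      intro j hj
      exact ih j (D.gate_lt i hi j hj) ((D.gate_lt i hi j hj).trans hi)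
    · rw [restr_gate_neg h, val_const hx i hi h]
      rfl

lemma restr_eval {D : Circuit n} {U : Finset (Fin n)} {α x : Fin n → Bool} (hx : Agr U α x) :
    (restr D U α).eval x = D.eval x := by
  show D.out.eval x _ = D.out.eval x _
  apply Node.eval_congr
  intro j hj
  exact restr_val hx j (D.out_lt j hj)

lemma restr_depth (D : Circuit n) (U : Finset (Fin n)) (α : Fin n → Bool) :
    (restr D U α).depth ≤ D.depth := by
  have key : ∀ i < D.size, (restr D U α).gateDepth i ≤ D.gateDepth i := by
    intro i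
    induction i using Nat.strong_induction_on with
    | _ i ih =>
      intro hi
      rw [(restr D U α).gateDepth_gate (show i < (restr D U α).size from hi)]
      by_cases h : Above D U (.gate i)
      · rw [restr_gate_pos h, D.gateDepth_gate hi]
        have hle : ∀ w, GReads (D.gate i) w →
            w.depth (restr D U α).gateDepth ≤ w.depth D.gateDepth := fun w hw =>
          node_depth_le fun j hj => by
            subst hj
            have hlt := D.gate_lt i hi j hw.wires
            exact ih j hlt (hlt.trans hi)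
        cases hg : D.gate i with
        | and a b =>
          rw [hg] at hle
          have h1 := hle a (Or.inl rfl)
          have h2 := hle b (Or.inr rfl)
          simp only [toXG, XGate.depth, Gate.depth]
          omega
        | or a b =>
          rw [hg] at hle
          have h1 := hle a (Or.inl rfl)
          have h2 := hle b (Or.inr rfl)
          simp only [toXG, XGate.depth, Gate.depth]
          omega
        | not a =>
          rw [hg] at hle
          have h1 := hle a rfl
          simp only [toXG, XGate.depth, Gate.depth]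
          exact (Finset.sup_le fun _ _ => h1).trans (Nat.le_succ _)
      · rw [restr_gate_neg h]
        simp [XGate.depth]
  exact node_depth_le fun j hj => key j (D.out_lt j (by
    have : D.out = .gate j := hj
    rw [this]; simp [Node.wires]))

lemma restr_levels {D : Circuit n} {U : Finset (Fin n)} {lev : ℕ → ℕ} {r : ℕ}
    (h : NotLevels D U lev r) (α : Fin n → Bool) : (restr D U α).Levels lev r := by
  intro i hi
  refine ⟨(h i hi).1, fun j hj => ?_⟩
  by_cases ha : Above D U (.gate i)
  · rw [restr_gate_pos ha] at hj ⊢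
    obtain ⟨h1, h2⟩ := (h i hi).2 j (toXG_reads_iff.mp hj)
    refine ⟨h1, fun h3 => h2 ?_ ha⟩
    cases hg : D.gate i with
    | and a b => rw [hg] at h3; exact absurd h3 (by simp [toXG, XGate.isSpecial])
    | or a b => rw [hg] at h3; exact absurd h3 (by simp [toXG, XGate.isSpecial])
    | not a => rfl
  · rw [restr_gate_neg ha] at hj
    obtain ⟨k, _⟩ := hj
    exact k.elim0

lemma restr_feedAt (D : Circuit n) (U : Finset (Fin n)) (α : Fin n → Bool) (lev : ℕ → ℕ)
    (l : ℕ) : (restr D U α).feedAt lev l ≤ notsAt D U lev l := by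
  classical
  unfold XCircuit.feedAt XCircuit.feeders
  set s := (restr D U α).specials.filter (fun i => lev i = l) with hs
  set s' := (range D.size).filter
    (fun i => (D.gate i).isNot = true ∧ Above D U (.gate i) ∧ lev i = l) with hs'
  have h1 : s.biUnion (fun i => ((restr D U α).gate i).ops_finite.toFinset) ⊆
      s'.biUnion (fun i => ((restr D U α).gate i).ops_finite.toFinset) := by
    intro w hw
    obtain ⟨i, hi, hw'⟩ := mem_biUnion.mp hw
    refine mem_biUnion.mpr ⟨i, ?_, hw'⟩
    obtain ⟨h2, h3⟩ := mem_filter.mp hi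
    obtain ⟨h4, h5⟩ := mem_specials.mp h2
    rw [Set.Finite.mem_toFinset] at hw'
    obtain ⟨_, h6⟩ := hw'
    by_cases ha : Above D U (.gate i)
    · refine mem_filter.mpr ⟨mem_range.mpr h4, ?_, ha, h3⟩
      rw [restr_gate_pos ha] at h5
      cases hg : D.gate i with
      | and a b => rw [hg] at h5; exact absurd h5 (by simp [toXG, XGate.isSpecial])
      | or a b => rw [hg] at h5; exact absurd h5 (by simp [toXG, XGate.isSpecial])
      | not a => rfl
    · rw [restr_gate_neg ha] at h6
      obtain ⟨k, _⟩ := h6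
      exact k.elim0
  refine (card_le_card h1).trans ((Finset.card_biUnion_le_card_mul _ _ 1 fun i hi => ?_).trans
    (by rw [mul_one]; exact le_rfl))
  obtain ⟨_, h2, h3, _⟩ := mem_filter.mp hi
  rw [Finset.card_le_one]
  intro w hw w' hw'
  rw [Set.Finite.mem_toFinset] at hw hw'
  obtain ⟨_, h5⟩ := hw
  obtain ⟨_, h6⟩ := hw'
  rw [restr_gate_pos h3] at h5 h6
  rw [toXG_reads_iff] at h5 h6
  cases hg : D.gate i with
  | and a b => rw [hg] at h2; exact absurd h2 (by simp [Gate.isNot])
  | or a b => rw [hg] at h2; exact absurd h2 (by simp [Gate.isNot])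
  | not a =>
    rw [hg] at h5 h6
    exact h5.trans h6.symm

/-! ### devices -/

/-- Circuits with special gates are devices. -/
lemma dev_levels {U : Finset (Fin n)} {α : Fin n → Bool} (X : XCircuit n) {k d : ℕ}
    (hd : X.depth ≤ d) (hk : X.nodes.card ≤ 2 ^ k) {lev : ℕ → ℕ} {r : ℕ} (hlev : X.Levels lev r)
    {g : (Fin n → Bool) → Bool} (hg : ∀ x, Agr U α x → X.eval x = g x) :
    Dev U α g (d + k) (∏ l ∈ range (r + 1), (X.feedAt lev l + 1) - 1) := by
  refine ⟨fun x => mix (X.dig lev x) (X.feedAt lev) r, fun x _ => ?_, fun ξ z _ _ hz => ?_,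
    fun ξ hξ => ?_⟩
  · have := mix_lt (X.dig lev x) (X.feedAt lev) (fun l => dig_le lev x l) r
    show mix (X.dig lev x) (X.feedAt lev) r ≤ _
    omega
  · exact mix_mono hlev hz
  · by_cases h : X.eval ξ = true
    · refine ⟨fun _ => true, Mo.const true _, fun z hz hξz => ⟨fun _ => rfl, fun _ h2 => ?_⟩⟩
      exact mix_chg hlev hξz (chg_of_drop lev hξz (by rw [hg z hz]; exact h2) h)
    · refine ⟨X.det ξ, (det_mo X ξ hk).mono (by omega), fun z hz hξz => ⟨fun h2 => ?_,
        fun h2 h3 => ?_⟩⟩
      · exact det_out hξz (Bool.eq_false_iff.mpr h) (by rw [hg z hz]; exact h2)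
      · exact mix_chg hlev hξz (chg_of_det lev (by rw [hg z hz]; exact h3) h2)

lemma clog_small {S n P : ℕ} (hn : n ≤ 4 * S) (hP : P < n) :
    Nat.clog 2 P ≤ Nat.log 2 S + 3 := by
  have h1 : S < 2 ^ (Nat.log 2 S + 1) := Nat.lt_pow_succ_log_self (by norm_num) S
  apply Nat.clog_le_of_le_pow
  rw [show Nat.log 2 S + 3 = (Nat.log 2 S + 1) + 2 by ring, pow_add 2 _ 2]
  omega

lemma num3 {d e l : ℕ} (he : 1 ≤ e) (hl : 1 ≤ l) :
    (140 * (d + (l + 4) + e + l)) ^ 140 ≤ (175 * (d + e + l)) ^ 175 := by
  obtain ⟨X, hX⟩ : ∃ X, X = d + e + l := ⟨_, rfl⟩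
  rw [← hX]
  have hX1 : 1 ≤ X := by omega
  calc (140 * (d + (l + 4) + e + l)) ^ 140 ≤ (560 * X) ^ 140 :=
        Nat.pow_le_pow_left (by omega) _
    _ = 560 ^ 140 * X ^ 140 := by rw [mul_pow]
    _ ≤ 175 ^ 175 * X ^ 175 :=
        Nat.mul_le_mul (by norm_num) (Nat.pow_le_pow_right hX1 (by norm_num))
    _ = _ := by rw [mul_pow]

lemma agree_le_one {N : ℕ} (hN : 0 < N) (X : Fin N → (Fin n → Bool))
    (g f : (Fin n → Bool) → Bool) : agree X g f ≤ 1 := by
  unfold agree
  have hNr : (0 : ℝ) < N := by exact_mod_cast hN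
  rw [div_le_one hNr]
  have : (univ.filter (fun i => g (X i) = f (X i))).card ≤ N :=
    (card_filter_le _ _).trans (by simp)
  exact_mod_cast this

/-- an average-case bound in the range where it is trivial -/
lemma triv_real {u P N e Q : ℕ} (he : 1 ≤ e) (hQ : 1 ≤ Q) (hP : u ≤ P) {A : ℝ} (hA : A ≤ 1)
    (_ : 0 < N) : (u : ℝ) * (A - 1 / 2 - 1 / e) ≤ (Q : ℝ) * P := by
  have her : (0 : ℝ) < e := by exact_mod_cast he
  have h1 : (0 : ℝ) ≤ 1 / e := by positivity
  have hur : (0 : ℝ) ≤ u := Nat.cast_nonneg u
  have h2 : (u : ℝ) ≤ P := by exact_mod_cast hP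
  have hQr : (1 : ℝ) ≤ Q := by exact_mod_cast hQ
  have hPr : (0 : ℝ) ≤ P := Nat.cast_nonneg P
  calc (u : ℝ) * (A - 1 / 2 - 1 / e) ≤ u * 1 :=
        mul_le_mul_of_nonneg_left (by linarith) hur
    _ ≤ P := by linarith
    _ = 1 * P := (one_mul _).symm
    _ ≤ _ := mul_le_mul_of_nonneg_right hQr hPr

/-- Circuits with special gates, by levels. -/
lemma HardA.levels (hS : 2 ≤ S) (hn : n ≤ 4 * S) {f : (Fin n → Bool) → Bool} (hC : HardA S f)
    (U : Finset (Fin n)) (d e : ℕ) (he : 1 ≤ e) : ∃ (α : Fin n → Bool) (N : ℕ)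
      (X : Fin N → (Fin n → Bool)), 0 < N ∧ (∀ i, Agr U α (X i)) ∧
      ∀ (g : (Fin n → Bool) → Bool) (Y : XCircuit n), Y.depth ≤ d →
      (∀ x, Agr U α x → Y.eval x = g x) → ∀ (lev : ℕ → ℕ) (r : ℕ), Y.Levels lev r →
        (U.card : ℝ) * (agree X g f - 1 / 2 - 1 / e) ≤
          ((175 * (d + e + Nat.log 2 S)) ^ 175 : ℕ) *
            (∏ l ∈ range (r + 1), (Y.feedAt lev l + 1) : ℕ) := by
  have hL : 1 ≤ Nat.log 2 S := Nat.log_pos (by norm_num) hS
  obtain ⟨α, N, X, hN, hX, hα⟩ := hC U (d + (Nat.log 2 S + 4)) e he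
  refine ⟨α, N, X, hN, hX, fun g Y hd hg lev r hlev => ?_⟩
  obtain ⟨P, hP⟩ : ∃ P, P = ∏ l ∈ range (r + 1), (Y.feedAt lev l + 1) := ⟨_, rfl⟩
  have hP1 : 1 ≤ P := by
    rw [hP]
    exact Finset.one_le_prod' fun l _ => Nat.le_add_left 1 _
  rw [← hP]
  by_cases hbig : U.card ≤ P
  · exact triv_real he (Nat.one_le_pow _ _ (by omega)) hbig (agree_le_one hN X g f) hN
  · push Not at hbig
    have hUn : U.card ≤ n := by
      have := card_le_univ U
      rwa [Fintype.card_fin] at this
    have hcl := clog_small hn (hbig.trans_le hUn)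
    have hk : Y.nodes.card ≤ 2 ^ (Nat.log 2 S + 4) := by
      refine (nodes_card_levels hlev).trans ?_
      rw [← hP]
      exact (Nat.le_pow_clog (by norm_num) _).trans
        (Nat.pow_le_pow_right (by norm_num) (by omega))
    have h1 := hα g _ (dev_levels Y hd hk hlev hg)
    rw [← hP] at h1
    have h2 : (((P - 1 : ℕ) : ℝ) + 1) = P := by
      rw [Nat.cast_sub hP1]
      push_cast
      ring
    rw [h2] at h1
    refine h1.trans ?_
    apply mul_le_mul_of_nonneg_right _ (Nat.cast_nonneg P)
    exact_mod_cast num3 he hL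

/-- **Circuits with NOT gates, by levels, on average.** -/
theorem HardA.notLevels (hS : 2 ≤ S) (hn : n ≤ 4 * S) {f : (Fin n → Bool) → Bool}
    (hC : HardA S f) (U : Finset (Fin n)) (d e : ℕ) (he : 1 ≤ e) :
    ∃ (α : Fin n → Bool) (N : ℕ) (X : Fin N → (Fin n → Bool)), 0 < N ∧ (∀ i, Agr U α (X i)) ∧
      ∀ D : Circuit n, D.depth ≤ d → ∀ (lev : ℕ → ℕ) (r : ℕ), NotLevels D U lev r →
        (U.card : ℝ) * (agree X (fun x => D.eval x) f - 1 / 2 - 1 / e) ≤
          ((175 * (d + e + Nat.log 2 S)) ^ 175 : ℕ) *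
            (∏ l ∈ range (r + 1), (notsAt D U lev l + 1) : ℕ) := by
  obtain ⟨α, N, X, hN, hX, hα⟩ := hC.levels hS hn U d e he
  refine ⟨α, N, X, hN, hX, fun D hd lev r hlev => ?_⟩
  refine (hα (fun x => D.eval x) (restr D U α) ((restr_depth D U α).trans hd)
    (fun x hx => restr_eval hx) lev r (restr_levels hlev α)).trans ?_
  apply mul_le_mul_of_nonneg_left _ (Nat.cast_nonneg _)
  exact_mod_cast prod_le_prod' fun l _ => Nat.add_le_add_right (restr_feedAt D U α lev l) 1

/-- one NOT gate for each level -/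
lemma exists_notLevels (D : Circuit n) (U : Finset (Fin n)) : ∃ (lev : ℕ → ℕ) (r : ℕ),
    NotLevels D U lev r ∧
      ∏ l ∈ range (r + 1), (notsAt D U lev l + 1) ≤ 2 ^ RM.notsAbove D U := by
  classical
  set T := (range D.size).filter (fun i => (D.gate i).isNot = true ∧ Above D U (.gate i)) with hT
  set lev : ℕ → ℕ := fun i => (T.filter (fun j => j ≤ i)).card with hlev
  have hlevT : ∀ i, lev i ≤ T.card := fun i => card_filter_le _ _
  refine ⟨lev, T.card, ?_, ?_⟩
  · intro i hi
    refine ⟨hlevT i, fun j hj => ?_⟩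
    have hji : j < i := D.gate_lt i hi j hj.wires
    have hsub : T.filter (fun k => k ≤ j) ⊆ T.filter (fun k => k ≤ i) := by
      intro k hk
      obtain ⟨h2, h3⟩ := mem_filter.mp hk
      exact mem_filter.mpr ⟨h2, by omega⟩
    refine ⟨card_le_card hsub, fun hn1 ha => ?_⟩
    apply card_lt_card
    rw [ssubset_iff_of_subset hsub]
    refine ⟨i, mem_filter.mpr ⟨mem_filter.mpr ⟨mem_range.mpr hi, hn1, ha⟩, le_rfl⟩, fun h2 => ?_⟩
    have := (mem_filter.mp h2).2
    omega
  · have h2 : ∀ l ∈ range (T.card + 1), notsAt D U lev l + 1 ≤ 2 ^ notsAt D U lev l :=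
      fun l _ => Nat.lt_two_pow_self
    refine (prod_le_prod' h2).trans ?_
    rw [prod_pow_eq_pow_sum]
    apply Nat.pow_le_pow_right (by norm_num)
    have h3 : ∀ l, notsAt D U lev l = (T.filter (fun i => lev i = l)).card := by
      intro l
      unfold RM.notsAt
      rw [hT, filter_filter]
      congr 1
      apply filter_congr
      intro i _
      tauto
    rw [sum_congr rfl fun l _ => h3 l]
    refine le_of_eq ?_
    show _ = T.card
    exact (card_eq_sum_card_fiberwise (f := lev) (s := T) (t := range (T.card + 1))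
      (fun i _ => mem_coe.mpr (mem_range.mpr (Nat.lt_succ_of_le (hlevT i))))).symm

end Pool.Agent.T9h19.RM
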