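import Pool.Agent.T9h19.RM.SDefs

/-!
# Definitions: advice and oracles
-/

set_option autoImplicit false

namespace Pool.Agent.T9h19.RM

open Finset Pool.Agent.H540R2

/-- `O` is antitone in the variables in `U` (and may depend in any way on the others). -/
def AntiOn {n : ℕ} (U : Finset (Fin n)) (O : (Fin n → Bool) → Bool) : Prop :=
  ∀ x y : Fin n → Bool, (∀ i, i ∉ U → x i = y i) → (∀ i, x i = true → y i = true) →
    O y = true → O x = true

/-- The function computed with `R` bits of advice and `t` oracles: the values of the circuits
`h 0, …, h (R - 1)` select one of the circuits `M v`, which reads the input and the values of the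
oracles `O 0, …, O (t - 1)`. -/
def adv {n R t : ℕ} (h : Fin R → Circuit n) (O : Fin t → (Fin n → Bool) → Bool)
    (M : (Fin R → Bool) → Circuit (n + t)) (x : Fin n → Bool) : Bool :=
  (M (fun i => (h i).eval x)).eval (Fin.append x (fun j => O j x))

end Pool.Agent.T9h19.RM
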