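import Mathlib
import Pool.Agent.T9h19.RM.NotsU
import Pool.Agent.T9h19.RM.ODefs

/-!
# Monotone advice and antitone oracles
-/

set_option autoImplicit false

namespace Pool.Agent.T9h19.RM

open Finset Pool.Agent.H540R2 Pool.Agent.H540R2.Circuit Pool.Agent.W953.NW

variable {n : ℕ} {S : ℕ}

/-- monotone circuits as monotone formulas -/
lemma circ_mo {C : Circuit n} (hC : C.Monotone) : Mo (fun x => C.eval x) C.depth := by
  have hn : ∀ a : Node n, (∀ j, a = .gate j → Mo (fun x => C.val x j) (C.gateDepth j)) →
      Mo (fun x => a.eval x (C.val x)) (a.depth C.gateDepth) := by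
    intro a ha
    cases a with
    | var i => exact Mo.var i _
    | const b => exact Mo.const b _
    | gate j => exact ha j rfl
  have key : ∀ i < C.size, Mo (fun x => C.val x i) (C.gateDepth i) := by
    intro i
    induction i using Nat.strong_induction_on with
    | _ i ih =>
      intro hi
      have hlt := C.gate_lt i hi
      rw [C.gateDepth_gate hi]
      have e : ∀ x, (C.gate i).eval x (C.val x) = C.val x i := fun x => (C.val_gate hi x).symm
      have hnot := hC i hi
      cases hg : C.gate i with
      | and a b =>
        rw [hg] at hlt e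
        have h1 := hn a fun j hj => by
          have := hlt j (GReads.wires (g := .and a b) (Or.inl hj.symm))
          exact ih j this (this.trans hi)
        have h2 := hn b fun j hj => by
          have := hlt j (GReads.wires (g := .and a b) (Or.inr hj.symm))
          exact ih j this (this.trans hi)
        exact ((h1.mono (le_max_left _ _)).and (h2.mono (le_max_right _ _))).congr e
      | or a b =>
        rw [hg] at hlt e
        have h1 := hn a fun j hj => by
          have := hlt j (GReads.wires (g := .or a b) (Or.inl hj.symm))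
          exact ih j this (this.trans hi)
        have h2 := hn b fun j hj => by
          have := hlt j (GReads.wires (g := .or a b) (Or.inr hj.symm))
          exact ih j this (this.trans hi)
        exact ((h1.mono (le_max_left _ _)).or (h2.mono (le_max_right _ _))).congr e
      | not a => exact absurd hg (hnot a)
  exact hn C.out fun j hj => key j (C.out_lt j (by rw [hj]; simp [Node.wires]))

lemma Mo.eval_mono {σ : Type} {f : (σ → Bool) → Bool} {d : ℕ} (h : Mo f d) {x y : σ → Bool}
    (hxy : ∀ i, x i = true → y i = true) (hx : f x = true) : f y = true := by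
  obtain ⟨F, _, hF⟩ := h
  rw [← hF] at hx ⊢
  exact F.eval_mono hxy hx

lemma dev_adv {U : Finset (Fin n)} {α : Fin n → Bool} {R t d k : ℕ} {h : Fin R → Circuit n}
    {O : Fin t → (Fin n → Bool) → Bool} {M : (Fin R → Bool) → Circuit (n + t)}
    (hh : ∀ i, (h i).Monotone ∧ (h i).depth ≤ d)
    (hO : ∀ j, AntiOn U (O j))
    (hM : ∀ v, (M v).Monotone ∧ (M v).depth ≤ d) (hk : R ≤ 2 ^ k) :
    Dev U α (adv h O M) (d + k + 1) (R + t) := by
  classical
  have hhm : ∀ i, Mo (fun x => (h i).eval x) d := fun i => (circ_mo (hh i).1).mono (hh i).2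
  have hMm : ∀ v, Mo (fun x => (M v).eval x) d := fun v => (circ_mo (hM v).1).mono (hM v).2
  set A : (Fin n → Bool) → Finset (Fin R) := fun x => univ.filter (fun i => (h i).eval x = true)
    with hA
  set B : (Fin n → Bool) → Finset (Fin t) := fun x => univ.filter (fun j => O j x = false) with hB
  have hAm : ∀ ξ z : Fin n → Bool, (∀ i, ξ i = true → z i = true) → A ξ ⊆ A z := by
    intro ξ z hz i hi
    exact mem_filter.mpr ⟨mem_univ _, (hhm i).eval_mono hz (mem_filter.mp hi).2⟩
  have hag : ∀ {ξ z : Fin n → Bool}, Agr U α ξ → Agr U α z → ∀ i, i ∉ U → ξ i = z i :=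
    fun h1 h2 i hi => (h1 i hi).trans (h2 i hi).symm
  have hBm : ∀ ξ z : Fin n → Bool, Agr U α ξ → Agr U α z → (∀ i, ξ i = true → z i = true) →
      B ξ ⊆ B z := by
    intro ξ z hξ hζ hz j hj
    refine mem_filter.mpr ⟨mem_univ _, ?_⟩
    have h1 := (mem_filter.mp hj).2
    rw [Bool.eq_false_iff] at h1 ⊢
    exact fun h2 => h1 (hO j ξ z (hag hξ hζ) hz h2)
  refine ⟨fun x => (A x).card + (B x).card, fun x _ => ?_, fun ξ z hξ hζ hz => ?_, fun ξ hξ => ?_⟩
  · have h1 : (A x).card ≤ R := (card_le_univ _).trans (by simp)
    have h2 : (B x).card ≤ t := (card_le_univ _).trans (by simp)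
    exact Nat.add_le_add h1 h2
  · exact Nat.add_le_add (card_le_card (hAm ξ z hz)) (card_le_card (hBm ξ z hξ hζ hz))
  · -- the detector
    set v : Fin R → Bool := fun i => (h i).eval ξ with hv
    set L : List ((Fin n → Bool) → Bool) :=
      ((univ.filter (fun i => (h i).eval ξ = false)).toList.map (fun i x => (h i).eval x)) with hL
    have hLk : L.length ≤ 2 ^ k := by
      rw [hL, List.length_map, Finset.length_toList]
      exact ((card_le_univ _).trans (by simp)).trans hk
    have h1 : Mo (fun x => L.any (fun f => f x)) (d + k) := by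
      refine Mo.orList k L hLk ?_
      intro f hf
      rw [hL, List.mem_map] at hf
      obtain ⟨i, _, rfl⟩ := hf
      exact hhm i
    have h2 : Mo (fun z => (M v).eval (Fin.append z (fun j => O j ξ))) d := by
      refine ((hMm v).sub (fun i : Fin (n + t) => Fin.addCases (fun i => MF.var i)
        (fun j => MF.const (O j ξ)) i) (fun i => ?_)).congr fun z => ?_
      · refine Fin.addCases (fun i => ?_) (fun j => ?_) i
        · simp [MF.depth]
        · simp [MF.depth]
      · congr 1
        funext i
        refine Fin.addCases (fun i => ?_) (fun j => ?_) i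
        · simp [MF.eval]
        · simp [MF.eval]
    refine ⟨fun z => L.any (fun f => f z) || (M v).eval (Fin.append z (fun j => O j ξ)),
      (h1.or (h2.mono (Nat.le_add_right _ _))), fun z hζ hz => ?_⟩
    have hany : L.any (fun f => f z) = false → A ξ = A z := by
      intro h3
      apply Subset.antisymm (hAm ξ z hz)
      intro i hi
      by_contra hc
      have h4 : (h i).eval ξ = false := by
        rw [Bool.eq_false_iff]
        exact fun h5 => hc (mem_filter.mpr ⟨mem_univ _, h5⟩)
      have h5 : L.any (fun f => f z) = true := by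
        rw [List.any_eq_true]
        refine ⟨fun x => (h i).eval x, ?_, (mem_filter.mp hi).2⟩
        rw [hL, List.mem_map]
        exact ⟨i, Finset.mem_toList.mpr (mem_filter.mpr ⟨mem_univ _, h4⟩), rfl⟩
      rw [h3] at h5
      exact absurd h5 (by simp)
    have hvz : A ξ = A z → (fun i => (h i).eval z) = v := by
      intro h3
      funext i
      rw [Bool.eq_iff_iff]
      have h4 : i ∈ A ξ ↔ i ∈ A z := by rw [h3]
      simp only [hA, mem_filter, mem_univ, true_and] at h4
      exact h4.symm
    constructor
    · intro h3
      rw [Bool.or_eq_true]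
      by_cases h4 : L.any (fun f => f z) = true
      · exact Or.inl h4
      · right
        have h5 := hvz (hany (Bool.eq_false_iff.mpr h4))
        unfold adv at h3
        rw [h5] at h3
        refine (hMm v).eval_mono ?_ h3
        intro i
        refine Fin.addCases (fun i => ?_) (fun j => ?_) i
        · simp
        · simp only [Fin.append_right]
          exact hO j ξ z (hag hξ hζ) hz
    · intro h3 h4
      have hsubA := hAm ξ z hz
      have hsubB := hBm ξ z hξ hζ hz
      by_contra hc
      push Not at hc
      have hcA := card_le_card hsubA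
      have hcB := card_le_card hsubB
      have e1 : A ξ = A z := eq_of_subset_of_card_le hsubA (by omega)
      have e2 : B ξ = B z := eq_of_subset_of_card_le hsubB (by omega)
      have e3 : (fun j => O j z) = fun j => O j ξ := by
        funext j
        rw [Bool.eq_iff_iff, not_iff_not.symm]
        have h5 : j ∈ B ξ ↔ j ∈ B z := by rw [e2]
        simp only [hB, mem_filter, mem_univ, true_and] at h5
        simp only [Bool.not_eq_true]
        exact h5.symm
      have e4 := hvz e1
      have h5 : L.any (fun f => f z) = false := by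
        rw [Bool.eq_false_iff]
        intro h6
        rw [List.any_eq_true] at h6
        obtain ⟨f, hf, hf2⟩ := h6
        rw [hL, List.mem_map] at hf
        obtain ⟨i, hi, rfl⟩ := hf
        have h7 := (mem_filter.mp (Finset.mem_toList.mp hi)).2
        have h8 : i ∈ A z := mem_filter.mpr ⟨mem_univ _, hf2⟩
        rw [← e1] at h8
        rw [(mem_filter.mp h8).2] at h7
        exact absurd h7 (by simp)
      have h3' : (L.any (fun f => f z) || (M v).eval (Fin.append z (fun j => O j ξ))) = true := h3
      rw [h5, Bool.false_or] at h3'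
      unfold adv at h4
      rw [e4, e3, h3'] at h4
      exact absurd h4 (by simp)

/-- **Monotone advice and antitone oracles, on average.** -/
theorem HardA.adv (hS : 2 ≤ S) (hn : n ≤ 4 * S) {f : (Fin n → Bool) → Bool}
    (hC : HardA S f) (U : Finset (Fin n)) (d e : ℕ) (he : 1 ≤ e) :
    ∃ (α : Fin n → Bool) (N : ℕ) (X : Fin N → (Fin n → Bool)), 0 < N ∧ (∀ i, Agr U α (X i)) ∧
      ∀ (R t : ℕ) (h : Fin R → Circuit n) (O : Fin t → (Fin n → Bool) → Bool)
        (M : (Fin R → Bool) → Circuit (n + t)), (∀ i, (h i).Monotone ∧ (h i).depth ≤ d) →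
        (∀ j, AntiOn U (O j)) →
        (∀ v, (M v).Monotone ∧ (M v).depth ≤ d) →
        (U.card : ℝ) * (agree X (RM.adv h O M) f - 1 / 2 - 1 / e) ≤
          ((175 * (d + e + Nat.log 2 S)) ^ 175 : ℕ) * ((R + t + 1 : ℕ) : ℝ) := by
  have hL : 1 ≤ Nat.log 2 S := Nat.log_pos (by norm_num) hS
  obtain ⟨α, N, X, hN, hX, hα⟩ := hC U (d + (Nat.log 2 S + 4)) e he
  refine ⟨α, N, X, hN, hX, fun R t h O M hh hO hM => ?_⟩
  by_cases hbig : U.card ≤ R + t + 1
  · exact triv_real he (Nat.one_le_pow _ _ (by omega)) hbig (agree_le_one hN X _ f) hN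
  · push Not at hbig
    have hUn : U.card ≤ n := by
      have := card_le_univ U
      rwa [Fintype.card_fin] at this
    have hR : R < n := by omega
    have hcl := clog_small hn hR
    have hk : R ≤ 2 ^ (Nat.log 2 S + 3) :=
      (Nat.le_pow_clog (by norm_num) _).trans (Nat.pow_le_pow_right (by norm_num) hcl)
    have h1 := hα _ _ (dev_adv (U := U) (α := α) hh hO hM hk)
    have h2 : (((R + t : ℕ) : ℝ) + 1) = ((R + t + 1 : ℕ) : ℝ) := by
      push_cast
      ring
    rw [h2] at h1
    refine h1.trans ?_
    apply mul_le_mul_of_nonneg_right _ (Nat.cast_nonneg _)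
    exact_mod_cast num3 he hL

end Pool.Agent.T9h19.RM
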