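import Pool.Agent.T9h19.RM.SDefs

/-!
# Definitions: NOT gates which change their values
-/

set_option autoImplicit false

namespace Pool.Agent.T9h19.RM

open Finset Pool.Agent.H540R2

/-- The nodes of a circuit which are connected to the output: the output node, and the operands of
the gates which are connected to the output. -/
inductive Feeds {n : ℕ} (D : Circuit n) : Node n → Prop where
  | out : Feeds D D.out
  | step (j : ℕ) (w : Node n) (h : Feeds D (.gate j)) (hw : GReads (D.gate j) w) : Feeds D w

/-- Some NOT gate which is connected to the output has different values on `x` and on `z`. -/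
def NotChange {n : ℕ} (D : Circuit n) (x z : Fin n → Bool) : Prop :=
  ∃ i, i < D.size ∧ (D.gate i).isNot = true ∧ Feeds D (.gate i) ∧ D.val x i ≠ D.val z i

end Pool.Agent.T9h19.RM
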