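import Mathlib
import Pool.Agent.T9h19.RM.OracU
import Pool.Agent.T9h19.RM.ZDefs

/-!
# NOT gates change their values on almost every step of a random chain
-/

set_option autoImplicit false

namespace Pool.Agent.T9h19.RM

open Finset Pool.Agent.H540R2 Pool.Agent.H540R2.Circuit Pool.Agent.W953.NW

variable {n : ℕ}

lemma feeds_lt {D : Circuit n} {w : Node n} (h : Feeds D w) : ∀ j, w = .gate j → j < D.size := by
  induction h with
  | out =>
    intro j hj
    exact D.out_lt j (by rw [hj]; simp [Node.wires])
  | step i w h hw ih =>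
    intro j hj
    have hi := ih i rfl
    subst hj
    exact (D.gate_lt i hi j (GReads.wires hw)).trans hi

/-- detectors for the gates -/
lemma det_gate (D : Circuit n) (ξ : Fin n → Bool) (i : ℕ) (hF : Feeds D (.gate i)) :
    ∃ T Δ : (Fin n → Bool) → Bool, Mo T (D.gateDepth i) ∧ Mo Δ (D.gateDepth i) ∧
      ∀ z, (∀ k, ξ k = true → z k = true) →
        (D.val z i = true → T z = true) ∧ (T z = true → D.val z i = true ∨ NotChange D ξ z) ∧
        (Δ z = true → NotChange D ξ z) ∧ (Δ z = false → D.val ξ i = true → D.val z i = true) := by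
  induction i using Nat.strong_induction_on with
  | _ i ih =>
    have hi := feeds_lt hF i rfl
    have hn : ∀ a : Node n, GReads (D.gate i) a →
        ∃ T Δ : (Fin n → Bool) → Bool, Mo T (a.depth D.gateDepth) ∧ Mo Δ (a.depth D.gateDepth) ∧
        ∀ z, (∀ k, ξ k = true → z k = true) →
          (a.eval z (D.val z) = true → T z = true) ∧
          (T z = true → a.eval z (D.val z) = true ∨ NotChange D ξ z) ∧
          (Δ z = true → NotChange D ξ z) ∧
          (Δ z = false → a.eval ξ (D.val ξ) = true → a.eval z (D.val z) = true) := by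
      intro a ha
      cases a with
      | var k =>
        exact ⟨fun z => z k, fun _ => false, Mo.var k _, Mo.const false _, fun z hz =>
          ⟨id, Or.inl, fun h => absurd h (by simp), fun _ h => hz k h⟩⟩
      | const b =>
        exact ⟨fun _ => b, fun _ => false, Mo.const b _, Mo.const false _, fun z hz =>
          ⟨id, Or.inl, fun h => absurd h (by simp), fun _ h => h⟩⟩
      | gate j =>
        have hj : j < i := D.gate_lt i hi j (GReads.wires ha)
        exact ih j hj (Feeds.step i _ hF ha)
    have hg : ∀ x, D.val x i = (D.gate i).eval x (D.val x) := fun x => D.val_gate hi x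
    rw [D.gateDepth_gate hi]
    cases hgi : D.gate i with
    | and a b =>
      rw [hgi] at hn hg
      obtain ⟨Ta, Δa, h1, h2, h3⟩ := hn a (Or.inl rfl)
      obtain ⟨Tb, Δb, h4, h5, h6⟩ := hn b (Or.inr rfl)
      refine ⟨fun z => Ta z && Tb z, fun z => Δa z || Δb z,
        (h1.mono (le_max_left _ _)).and (h4.mono (le_max_right _ _)),
        (h2.mono (le_max_left _ _)).or (h5.mono (le_max_right _ _)), fun z hz => ?_⟩
      obtain ⟨p1, p2, p3, p4⟩ := h3 z hz
      obtain ⟨q1, q2, q3, q4⟩ := h6 z hz
      simp only [hg, Gate.eval, Bool.and_eq_true, Bool.or_eq_true, Bool.or_eq_false_iff]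
      exact ⟨fun h => ⟨p1 h.1, q1 h.2⟩, fun h => by
        rcases p2 h.1 with h' | h'
        · rcases q2 h.2 with h'' | h''
          · exact Or.inl ⟨h', h''⟩
          · exact Or.inr h''
        · exact Or.inr h', fun h => h.elim p3 q3, fun h h' => ⟨p4 h.1 h'.1, q4 h.2 h'.2⟩⟩
    | or a b =>
      rw [hgi] at hn hg
      obtain ⟨Ta, Δa, h1, h2, h3⟩ := hn a (Or.inl rfl)
      obtain ⟨Tb, Δb, h4, h5, h6⟩ := hn b (Or.inr rfl)
      refine ⟨fun z => Ta z || Tb z, fun z => Δa z || Δb z,
        (h1.mono (le_max_left _ _)).or (h4.mono (le_max_right _ _)),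
        (h2.mono (le_max_left _ _)).or (h5.mono (le_max_right _ _)), fun z hz => ?_⟩
      obtain ⟨p1, p2, p3, p4⟩ := h3 z hz
      obtain ⟨q1, q2, q3, q4⟩ := h6 z hz
      simp only [hg, Gate.eval, Bool.or_eq_true, Bool.or_eq_false_iff]
      exact ⟨fun h => h.imp p1 q1, fun h => by
        rcases h with h | h
        · exact (p2 h).imp_left Or.inl
        · exact (q2 h).imp_left Or.inr, fun h => h.elim p3 q3,
        fun h h' => h'.imp (p4 h.1) (q4 h.2)⟩
    | not a =>
      rw [hgi] at hn hg
      obtain ⟨Ta, Δa, h1, h2, h3⟩ := hn a rfl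
      have hc : ∀ z, D.val ξ i ≠ D.val z i → NotChange D ξ z := fun z h =>
        ⟨i, hi, by rw [hgi]; rfl, hF, h⟩
      cases hξ : a.eval ξ (D.val ξ) with
      | false =>
        refine ⟨fun _ => true, Ta, Mo.const true _, h1.mono (Nat.le_succ _), fun z hz => ?_⟩
        obtain ⟨p1, p2, p3, p4⟩ := h3 z hz
        have hvi : D.val ξ i = true := by rw [hg, Gate.eval, hξ]; rfl
        refine ⟨fun _ => rfl, fun _ => ?_, fun h => ?_, fun h _ => ?_⟩
        · by_cases h : D.val z i = true
          · exact Or.inl h
          · exact Or.inr (hc z (by rw [hvi]; exact fun h' => h h'.symm))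
        · rcases p2 h with h' | h'
          · refine hc z ?_
            rw [hvi, hg, Gate.eval, h']
            simp
          · exact h'
        · rw [hg, Gate.eval]
          by_contra h'
          have h'' : a.eval z (D.val z) = true := by simpa using h'
          rw [p1 h''] at h
          exact absurd h (by simp)
      | true =>
        have hvi : D.val ξ i = false := by rw [hg, Gate.eval, hξ]; rfl
        refine ⟨Δa, fun _ => false, h2.mono (Nat.le_succ _), Mo.const false _, fun z hz => ?_⟩
        obtain ⟨p1, p2, p3, p4⟩ := h3 z hz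
        refine ⟨fun h => ?_, fun h => Or.inr (p3 h), fun h => absurd h (by simp), fun _ h => ?_⟩
        · by_contra h'
          have h'' := p4 (Bool.eq_false_iff.mpr h') hξ
          rw [hg, Gate.eval, h''] at h
          exact absurd h (by simp)
        · rw [hvi] at h
          exact absurd h (by simp)

/-- the detector of a circuit -/
lemma det_circuit (D : Circuit n) (ξ : Fin n → Bool) :
    ∃ T : (Fin n → Bool) → Bool, Mo T D.depth ∧ ∀ z, (∀ k, ξ k = true → z k = true) →
      (D.eval z = true → T z = true) ∧ (T z = true → D.eval z = true ∨ NotChange D ξ z) := by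
  have key : ∀ a : Node n, Feeds D a → ∃ T : (Fin n → Bool) → Bool,
      Mo T (a.depth D.gateDepth) ∧ ∀ z, (∀ k, ξ k = true → z k = true) →
      (a.eval z (D.val z) = true → T z = true) ∧
      (T z = true → a.eval z (D.val z) = true ∨ NotChange D ξ z) := by
    intro a ha
    cases a with
    | var k => exact ⟨fun z => z k, Mo.var k _, fun z _ => ⟨id, Or.inl⟩⟩
    | const b => exact ⟨fun _ => b, Mo.const b _, fun z _ => ⟨id, Or.inl⟩⟩
    | gate j =>
      obtain ⟨T, Δ, h1, _, h3⟩ := det_gate D ξ j ha
      exact ⟨T, h1, fun z hz => ⟨(h3 z hz).1, (h3 z hz).2.1⟩⟩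
  exact key D.out Feeds.out


/-! ### all steps of a random chain -/

section steps

variable {a M : ℕ} {σ : Type}

/-- one step: all but a `2 ^ (-κ)` fraction of the chains change -/
theorem step_all {U : Finset σ} {α : σ → Bool} {e : Fin M × Va a → σ}
    (heU : ∀ p, e p ∈ U) {g : (σ → Bool) → Bool} {D κ : ℕ}
    {Chg : (σ → Bool) → (σ → Bool) → Prop} [∀ x z, Decidable (Chg x z)]
    (hT : ∀ ξ, Agr U α ξ → ∃ T : (σ → Bool) → Bool, Mo T D ∧
      ∀ z, Agr U α z → (∀ i, ξ i = true → z i = true) →
        (g z = true → T z = true) ∧ (T z = true → g z = true ∨ Chg ξ z))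
    (hA : ∀ (y : Fin M → Ba a) (j : Fin M) (x : Aa a),
      g (plug α e (Function.update (pre y j.val) j (ea x))) = true)
    (hB : ∀ (y : Fin M → Ba a) (j : ℕ), g (plug α e (pre y j)) = false)
    (hκ : a + 1 ≤ κ) (hD : κ + D + 1 < 2 ^ a) (j : Fin M) :
    (univ.filter (fun y : Fin M → Ba a =>
      ¬ Chg (plug α e (pre y j.val)) (plug α e (pre y (j.val + 1))))).card * 2 ^ κ ≤
      Fintype.card (Ba a) ^ M := by
  classical
  have hBpos : 0 < Fintype.card (Ba a) := by
    have : Nonempty (Ba a) := ⟨fun _ _ => false⟩
    exact Fintype.card_pos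
  choose T hT1 hT2 using fun z : Fin M → Va a → Bool => hT (plug α e z) (plug_agr heU z)
  set H : (Fin M → Ba a) → Ba a → ℕ := fun y b =>
    (if T (pre y j.val) (plug α e (Function.update (pre y j.val) j (eb b))) = false
      then 1 else 0) with hH
  have hHu : ∀ y b b', H (Function.update y j b') b = H y b := by
    intro y b b'
    simp only [hH, pre_update]
  have e1 : (univ.filter (fun y : Fin M → Ba a =>
      ¬ Chg (plug α e (pre y j.val)) (plug α e (pre y (j.val + 1))))).card ≤
      ∑ y : Fin M → Ba a, H y (y j) := by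
    rw [card_filter]
    refine sum_le_sum fun y _ => ?_
    by_cases h : Chg (plug α e (pre y j.val)) (plug α e (pre y (j.val + 1)))
    · rw [if_neg (not_not.mpr h)]
      exact Nat.zero_le _
    · rw [if_pos h]
      have h2 := (hT2 (pre y j.val) _ (plug_agr heU _)
        (plug_mono (e := e) (α := α) (pre_mono y (Nat.le_succ j.val)))).2
      rw [hB y (j.val + 1)] at h2
      have h3 : T (pre y j.val) (plug α e (Function.update (pre y j.val) j (eb (y j)))) =
          false := by
        rw [← pre_succ, Bool.eq_false_iff]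
        intro h4
        rcases h2 h4 with h5 | h5
        · exact absurd h5 (by simp)
        · exact h h5
      simp only [hH, if_pos h3]
      exact le_refl 1
  have e2 : ∀ y : Fin M → Ba a, (∑ b : Ba a, H y b) * 2 ^ κ ≤ Fintype.card (Ba a) := by
    intro y
    have h1 : ∑ b : Ba a, H y b = (univ.filter (fun b : Ba a => T (pre y j.val)
        (plug α e (Function.update (pre y j.val) j (eb b))) = false)).card := by
      rw [card_filter]
    rw [h1]
    have hmo : Mo (fun w => T (pre y j.val) (plug α e (Function.update (pre y j.val) j w))) D :=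
      plug_mo (hT1 (pre y j.val)) (pre y j.val) j
    rcases gen_avg a hmo hκ hD with h | h
    · exfalso
      have h2 : (univ.filter (fun x : Aa a => T (pre y j.val)
          (plug α e (Function.update (pre y j.val) j (ea x))) = true)) = univ := by
        rw [filter_eq_self]
        intro x _
        exact (hT2 (pre y j.val) _ (plug_agr heU _)
          (plug_mono (pre_le_update y j _))).1 (hA y j x)
      rw [h2, card_univ] at h
      have h3 : Fintype.card (Aa a) ≤ Fintype.card (Aa a) * 2 ^ a :=
        Nat.le_mul_of_pos_right _ (by positivity)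
      omega
    · exact h.le
  have e3 := resample j H hHu
  have e4 : Fintype.card (Ba a) * ((∑ y : Fin M → Ba a, H y (y j)) * 2 ^ κ) ≤
      Fintype.card (Ba a) * Fintype.card (Ba a) ^ M := by
    calc Fintype.card (Ba a) * ((∑ y : Fin M → Ba a, H y (y j)) * 2 ^ κ)
        = (Fintype.card (Ba a) * ∑ y : Fin M → Ba a, H y (y j)) * 2 ^ κ := by ring
      _ = ∑ y : Fin M → Ba a, (∑ b : Ba a, H y b) * 2 ^ κ := by rw [e3, sum_mul]
      _ ≤ ∑ _y : Fin M → Ba a, Fintype.card (Ba a) := sum_le_sum fun y _ => e2 y
      _ = _ := by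
          rw [sum_const, card_univ, Fintype.card_fun, Fintype.card_fin, smul_eq_mul, mul_comm]
  exact (Nat.mul_le_mul_right _ e1).trans (Nat.le_of_mul_le_mul_left e4 hBpos)

/-- all steps -/
theorem steps_all {U : Finset σ} {α : σ → Bool} {e : Fin M × Va a → σ}
    (heU : ∀ p, e p ∈ U) {g : (σ → Bool) → Bool} {D κ l : ℕ}
    {Chg : (σ → Bool) → (σ → Bool) → Prop}
    (hT : ∀ ξ, Agr U α ξ → ∃ T : (σ → Bool) → Bool, Mo T D ∧
      ∀ z, Agr U α z → (∀ i, ξ i = true → z i = true) →
        (g z = true → T z = true) ∧ (T z = true → g z = true ∨ Chg ξ z))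
    (hA : ∀ (y : Fin M → Ba a) (j : Fin M) (x : Aa a),
      g (plug α e (Function.update (pre y j.val) j (ea x))) = true)
    (hB : ∀ (y : Fin M → Ba a) (j : ℕ), g (plug α e (pre y j)) = false)
    (hκ : a + 1 ≤ κ + l) (hD : κ + l + D + 1 < 2 ^ a) (hM : M ≤ 2 ^ l)
    (P : (Fin M → Ba a) → Prop) [DecidablePred P]
    (hP : ∀ y, P y ↔ ¬ ∀ j : Fin M, Chg (plug α e (pre y j.val)) (plug α e (pre y (j.val + 1)))) :
    2 ^ κ * (univ.filter P).card ≤ Fintype.card (Ba a) ^ M := by
  classical
  have h1 : univ.filter P ⊆ (univ : Finset (Fin M)).biUnion (fun j =>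
      univ.filter (fun y : Fin M → Ba a =>
        ¬ Chg (plug α e (pre y j.val)) (plug α e (pre y (j.val + 1))))) := by
    intro y hy
    have h2 := (hP y).mp (mem_filter.mp hy).2
    push Not at h2
    obtain ⟨j, hj⟩ := h2
    exact mem_biUnion.mpr ⟨j, mem_univ _, mem_filter.mpr ⟨mem_univ _, hj⟩⟩
  have h2 : (univ.filter P).card * 2 ^ (κ + l) ≤ M * Fintype.card (Ba a) ^ M := by
    calc (univ.filter P).card * 2 ^ (κ + l)
        ≤ (∑ j : Fin M, (univ.filter (fun y : Fin M → Ba a =>
          ¬ Chg (plug α e (pre y j.val)) (plug α e (pre y (j.val + 1))))).card) * 2 ^ (κ + l) :=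
          Nat.mul_le_mul_right _ ((card_le_card h1).trans card_biUnion_le)
      _ = ∑ j : Fin M, (univ.filter (fun y : Fin M → Ba a =>
          ¬ Chg (plug α e (pre y j.val)) (plug α e (pre y (j.val + 1))))).card * 2 ^ (κ + l) := by
          rw [sum_mul]
      _ ≤ ∑ _j : Fin M, Fintype.card (Ba a) ^ M :=
          sum_le_sum fun j _ => step_all heU hT hA hB hκ hD j
      _ = _ := by rw [sum_const, card_univ, Fintype.card_fin, smul_eq_mul]
  obtain ⟨W, hW⟩ : ∃ W, W = Fintype.card (Ba a) ^ M := ⟨_, rfl⟩
  obtain ⟨c, hc⟩ : ∃ c, c = (univ.filter P).card := ⟨_, rfl⟩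
  rw [← hW, ← hc] at h2
  rw [← hW, ← hc]
  have hl : 0 < 2 ^ l := by positivity
  have h3 : 2 ^ κ * c * 2 ^ l ≤ W * 2 ^ l := by
    calc 2 ^ κ * c * 2 ^ l = c * 2 ^ (κ + l) := by rw [pow_add]; ring
      _ ≤ M * W := h2
      _ ≤ 2 ^ l * W := Nat.mul_le_mul_right _ hM
      _ = _ := mul_comm _ _
  exact Nat.le_of_mul_le_mul_right h3 hl

end steps

/-- **The average number of changes on a random chain.** -/
theorem chain_chg {a M : ℕ} {σ : Type} {U : Finset σ} {α : σ → Bool} {e : Fin M × Va a → σ}
    (heU : ∀ p, e p ∈ U) {g : (σ → Bool) → Bool} {D : ℕ}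
    {Chg : (σ → Bool) → (σ → Bool) → Prop} [∀ x z, Decidable (Chg x z)]
    (hT : ∀ ξ, Agr U α ξ → ∃ T : (σ → Bool) → Bool, Mo T D ∧
      ∀ z, Agr U α z → (∀ i, ξ i = true → z i = true) →
        (g z = true → T z = true) ∧ (T z = true → g z = true ∨ Chg ξ z))
    (hD : a + 1 + D + 1 < 2 ^ a) :
    2 ^ a * (univ.filter (fun ω : Om a M => g (plug α e (smp ω)) = ω.2.1)).card ≤
      M * (Fintype.card (Aa a) * Fintype.card (Ba a) ^ M * (2 ^ a + 1)) + 2 ^ a *
        (Fintype.card (Aa a) * ∑ y : Fin M → Ba a, ∑ j : Fin M,
          (if Chg (plug α e (pre y j.val)) (plug α e (pre y (j.val + 1))) then 1 else 0)) := by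
  classical
  have hcY0 : (univ : Finset (Fin M → Ba a)).card = Fintype.card (Ba a) ^ M := by
    rw [card_univ, Fintype.card_fun, Fintype.card_fin]
  have hBpos : 0 < Fintype.card (Ba a) := by
    have : Nonempty (Ba a) := ⟨fun _ _ => false⟩
    exact Fintype.card_pos
  have hcX0 : (univ : Finset (Aa a)).card = Fintype.card (Aa a) := card_univ
  obtain ⟨NA, hNA⟩ : ∃ NA, NA = Fintype.card (Aa a) := ⟨_, rfl⟩
  obtain ⟨NB, hNB⟩ : ∃ NB, NB = Fintype.card (Ba a) := ⟨_, rfl⟩
  rw [← hNA, ← hNB]
  rw [← hNA] at hcX0
  rw [← hNB] at hcY0 hBpos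
  choose T hT1 hT2 using fun z : Fin M → Va a → Bool => hT (plug α e z) (plug_agr heU z)
  set inc : (Fin M → Ba a) → ℕ → ℕ := fun y j =>
    if Chg (plug α e (pre y j)) (plug α e (pre y (j + 1))) then 1 else 0 with hinc
  -- one stage
  have hstage : ∀ j : Fin M,
      2 ^ a * (∑ y : Fin M → Ba a, (∑ x : Aa a,
          (if g (plug α e (Function.update (pre y j.val) j (ea x))) = true then 1 else 0) +
        NA * (if g (plug α e (pre y (j.val + 1))) = false then 1 else 0))) ≤
      NA * NB ^ M * (2 ^ a + 1) + 2 ^ a * (NA * ∑ y : Fin M → Ba a, inc y j.val) := by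
    intro j
    set H : (Fin M → Ba a) → Ba a → ℕ := fun y b =>
      (if T (pre y j.val) (plug α e (Function.update (pre y j.val) j (eb b))) = false
        then 1 else 0) with hH
    have hHu : ∀ y b b', H (Function.update y j b') b = H y b := by
      intro y b b'
      simp only [hH, pre_update]
    -- accepted instances
    have e1 : ∀ y : Fin M → Ba a, ∑ x : Aa a,
        (if g (plug α e (Function.update (pre y j.val) j (ea x))) = true then 1 else 0) ≤
        (univ.filter (fun x : Aa a => T (pre y j.val)
          (plug α e (Function.update (pre y j.val) j (ea x))) = true)).card := by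
      intro y
      rw [card_filter]
      refine sum_le_sum fun x _ => ?_
      by_cases h : g (plug α e (Function.update (pre y j.val) j (ea x))) = true
      · rw [if_pos h, if_pos ((hT2 (pre y j.val) _ (plug_agr heU _)
          (plug_mono (pre_le_update y j _))).1 h)]
      · rw [if_neg h]; exact Nat.zero_le _
    -- rejected instances
    have e2 : ∀ y : Fin M → Ba a, (if g (plug α e (pre y (j.val + 1))) = false then 1 else 0) ≤
        H y (y j) + inc y j.val := by
      intro y
      by_cases h : g (plug α e (pre y (j.val + 1))) = false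
      · rw [if_pos h]
        by_cases h2 : T (pre y j.val) (plug α e (Function.update (pre y j.val) j (eb (y j)))) =
            false
        · simp only [hH, if_pos h2]
          exact Nat.le_add_right _ _
        · have h3 : Chg (plug α e (pre y j.val)) (plug α e (pre y (j.val + 1))) := by
            refine ((hT2 (pre y j.val) _ (plug_agr heU _)
              (plug_mono (pre_mono y (Nat.le_succ j.val)))).2 ?_).resolve_left ?_
            · rw [pre_succ]
              simpa using h2
            · rw [h]
              simp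
          have h4 : inc y j.val = 1 := by
            simp only [hinc]
            rw [if_pos h3]
          omega
      · rw [if_neg h]; exact Nat.zero_le _
    -- the two kinds together
    have e3 : ∀ y : Fin M → Ba a, 2 ^ a * (NB * (univ.filter (fun x : Aa a => T (pre y j.val)
          (plug α e (Function.update (pre y j.val) j (ea x))) = true)).card +
        NA * ∑ b : Ba a, H y b) ≤ NA * NB * (2 ^ a + 1) := by
      intro y
      have h1 : ∑ b : Ba a, H y b = (univ.filter (fun b : Ba a => T (pre y j.val)
          (plug α e (Function.update (pre y j.val) j (eb b))) = false)).card := by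
        rw [card_filter]
      rw [h1]
      rw [hNA, hNB]
      have hmo : Mo (fun w => T (pre y j.val) (plug α e (Function.update (pre y j.val) j w))) D :=
        plug_mo (hT1 (pre y j.val)) (pre y j.val) j
      exact mix_bound (card_le_univ _) (card_le_univ _) (gen_avg2 a hmo hD)
    have e4 := resample j H hHu
    rw [← hNB] at e4
    have e5 : NB * (2 ^ a * (∑ y : Fin M → Ba a, (∑ x : Aa a,
          (if g (plug α e (Function.update (pre y j.val) j (ea x))) = true then 1 else 0) +
        NA * (if g (plug α e (pre y (j.val + 1))) = false then 1 else 0)))) ≤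
        NB * (NA * NB ^ M * (2 ^ a + 1) + 2 ^ a * (NA * ∑ y : Fin M → Ba a, inc y j.val)) := by
      calc NB * (2 ^ a * (∑ y : Fin M → Ba a, (∑ x : Aa a,
            (if g (plug α e (Function.update (pre y j.val) j (ea x))) = true then 1 else 0) +
            NA * (if g (plug α e (pre y (j.val + 1))) = false then 1 else 0))))
          ≤ NB * (2 ^ a * (∑ y : Fin M → Ba a, ((univ.filter (fun x : Aa a => T (pre y j.val)
              (plug α e (Function.update (pre y j.val) j (ea x))) = true)).card +
              NA * (H y (y j) + inc y j.val)))) :=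
            Nat.mul_le_mul_left _ (Nat.mul_le_mul_left _ (sum_le_sum fun y _ =>
              Nat.add_le_add (e1 y) (Nat.mul_le_mul_left _ (e2 y))))
        _ = 2 ^ a * (NB * ∑ y : Fin M → Ba a, (univ.filter (fun x : Aa a => T (pre y j.val)
              (plug α e (Function.update (pre y j.val) j (ea x))) = true)).card +
              NA * (NB * ∑ y : Fin M → Ba a, H y (y j))) +
              NB * (2 ^ a * (NA * ∑ y : Fin M → Ba a, inc y j.val)) := by
            rw [sum_add_distrib, ← mul_sum, sum_add_distrib]
            ring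
        _ = (∑ y : Fin M → Ba a, 2 ^ a * (NB * (univ.filter (fun x : Aa a => T (pre y j.val)
              (plug α e (Function.update (pre y j.val) j (ea x))) = true)).card +
              NA * ∑ b : Ba a, H y b)) +
              NB * (2 ^ a * (NA * ∑ y : Fin M → Ba a, inc y j.val)) := by
            rw [e4, ← mul_sum, sum_add_distrib, ← mul_sum, ← mul_sum]
        _ ≤ (∑ _y : Fin M → Ba a, NA * NB * (2 ^ a + 1)) +
              NB * (2 ^ a * (NA * ∑ y : Fin M → Ba a, inc y j.val)) :=
            Nat.add_le_add_right (sum_le_sum fun y _ => e3 y) _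
        _ = _ := by
            rw [sum_const, hcY0, smul_eq_mul]
            ring
    exact Nat.le_of_mul_le_mul_left e5 hBpos
  -- all stages
  have hcount : (univ.filter (fun ω : Om a M => g (plug α e (smp ω)) = ω.2.1)).card =
      ∑ j : Fin M, (∑ y : Fin M → Ba a, (∑ x : Aa a,
          (if g (plug α e (Function.update (pre y j.val) j (ea x))) = true then 1 else 0) +
        NA * (if g (plug α e (pre y (j.val + 1))) = false then 1 else 0))) := by
    rw [card_filter, Fintype.sum_prod_type]
    refine sum_congr rfl fun j _ => ?_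
    rw [Fintype.sum_prod_type, Fintype.sum_bool, Fintype.sum_prod_type, Fintype.sum_prod_type,
      sum_add_distrib]
    congr 1
    · rw [sum_comm]
      refine sum_congr rfl fun y _ => sum_congr rfl fun x _ => ?_
      simp [smp]
    · rw [sum_comm]
      refine sum_congr rfl fun y _ => ?_
      have h1 : ∀ x : Aa a, (if g (plug α e (smp (j, false, x, y))) = false then 1 else 0) =
          (if g (plug α e (pre y (j.val + 1))) = false then 1 else 0) := by
        intro x
        have : smp (j, false, x, y) = pre y (j.val + 1) := by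
          rw [pre_succ]
          simp [smp]
        rw [this]
      rw [sum_congr rfl fun x _ => h1 x, sum_const, hcX0, smul_eq_mul]
  rw [hcount, mul_sum]
  calc ∑ j : Fin M, 2 ^ a * (∑ y : Fin M → Ba a, (∑ x : Aa a,
          (if g (plug α e (Function.update (pre y j.val) j (ea x))) = true then 1 else 0) +
          NA * (if g (plug α e (pre y (j.val + 1))) = false then 1 else 0)))
      ≤ ∑ j : Fin M, (NA * NB ^ M * (2 ^ a + 1) +
          2 ^ a * (NA * ∑ y : Fin M → Ba a, inc y j.val)) := sum_le_sum fun j _ => hstage j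
    _ = _ := by
        rw [sum_add_distrib, sum_const, card_univ, Fintype.card_fin, smul_eq_mul, ← mul_sum,
          ← mul_sum, sum_comm]


end Pool.Agent.T9h19.RM
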