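import Mathlib
import Pool.Agent.T9h19.RM.ZChg

/-!
# Functions with hard chains in all sets of variables
-/

set_option autoImplicit false

namespace Pool.Agent.T9h19.RM

open Finset Pool.Agent.H540R2 Pool.Agent.H540R2.Circuit Pool.Agent.W953.NW

lemma numZ {X l a M : ℕ} (hX1 : 1 ≤ X) (hl : l ≤ X) (ha : 2 ^ a ≤ 14 * X) :
    24 * wa a ^ 4 * (M + 1) + 2 * (l + 1) ≤ (160 * X) ^ 160 * (M + 1) := by
  have h2 : wa a ^ 4 ≤ 14 ^ 140 * 2 ^ 376 * X ^ 140 := by
    have e1 : wa a ^ 4 = (2 ^ a) ^ 140 * 2 ^ 376 := by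
      unfold wa
      rw [← pow_mul, ← pow_mul, ← pow_add]
      congr 1
      ring
    rw [e1]
    calc (2 ^ a) ^ 140 * 2 ^ 376 ≤ (14 * X) ^ 140 * 2 ^ 376 :=
          Nat.mul_le_mul_right _ (Nat.pow_le_pow_left ha 140)
      _ = _ := by
          rw [mul_pow]
          obtain ⟨A, hA⟩ : ∃ A, A = 14 ^ 140 := ⟨_, rfl⟩
          obtain ⟨B, hB⟩ : ∃ B, B = 2 ^ 376 := ⟨_, rfl⟩
          rw [← hA, ← hB]
          ring
  have h3 : 2 * (l + 1) ≤ 4 * X ^ 140 := by
    have : X ^ 1 ≤ X ^ 140 := Nat.pow_le_pow_right hX1 (by norm_num)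
    rw [pow_one] at this
    omega
  have h4 : 24 * wa a ^ 4 ≤ (24 * (14 ^ 140 * 2 ^ 376)) * X ^ 140 := by
    calc 24 * wa a ^ 4 ≤ 24 * (14 ^ 140 * 2 ^ 376 * X ^ 140) := Nat.mul_le_mul_left _ h2
      _ = _ := (mul_assoc _ _ _).symm
  have h5 : 24 * (14 ^ 140 * 2 ^ 376) + 4 ≤ 160 ^ 160 := by
    rw [show (2 : ℕ) ^ 376 = 2 ^ 188 * 2 ^ 188 by rw [← pow_add]]
    norm_num
  obtain ⟨c, hc⟩ : ∃ c, c = 24 * (14 ^ 140 * 2 ^ 376) := ⟨_, rfl⟩
  rw [← hc] at h4 h5
  calc 24 * wa a ^ 4 * (M + 1) + 2 * (l + 1)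
      ≤ c * X ^ 140 * (M + 1) + 4 * X ^ 140 * (M + 1) :=
        Nat.add_le_add (Nat.mul_le_mul_right _ h4)
          (h3.trans (Nat.le_mul_of_pos_right _ (Nat.succ_pos M)))
    _ = (c + 4) * X ^ 140 * (M + 1) := by ring
    _ ≤ 160 ^ 160 * X ^ 160 * (M + 1) :=
        Nat.mul_le_mul_right _ (Nat.mul_le_mul h5 (Nat.pow_le_pow_right hX1 (by norm_num)))
    _ = _ := by rw [mul_pow]

lemma gen_pre {a M : ℕ} (y : Fin M → Ba a) (j : ℕ) (c : Fin M) : ga a (pre y j c) = false := by
  unfold pre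
  by_cases h : c.val < j
  · rw [if_pos h]
    exact gen_eb _
  · rw [if_neg h]
    exact gen_zero _ _

lemma avg_real {cnt N' M W P sm N NA e : ℕ} (hM : 1 ≤ M) (hNA : 1 ≤ NA) (hN : 1 ≤ N)
    (he : 1 ≤ e) (hP : e ≤ P) (hW : W = NA * N) (hN' : N' = 2 * M * W)
    (hcnt : P * cnt ≤ M * (W * (P + 1)) + P * (NA * sm)) :
    2 * (M : ℝ) * ((cnt : ℝ) / N' - 1 / 2 - 1 / e) ≤ (sm : ℝ) / N := by
  have hP1 : 1 ≤ P := he.trans hP
  have hMr : (1 : ℝ) ≤ M := by exact_mod_cast hM
  have hNr : (1 : ℝ) ≤ N := by exact_mod_cast hN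
  have hNAr : (1 : ℝ) ≤ NA := by exact_mod_cast hNA
  have hPr : (1 : ℝ) ≤ P := by exact_mod_cast hP1
  have her : (1 : ℝ) ≤ e := by exact_mod_cast he
  have hePr : (e : ℝ) ≤ P := by exact_mod_cast hP
  have hcr : (P : ℝ) * cnt ≤ M * (W * (P + 1)) + P * (NA * sm) := by exact_mod_cast hcnt
  have hWr : (W : ℝ) = NA * N := by rw [hW]; push_cast; ring
  have hNr' : (N' : ℝ) = 2 * M * (NA * N) := by rw [hN', hW]; push_cast; ring
  rw [hWr] at hcr
  have h2 : (cnt : ℝ) / N' ≤ 1 / 2 + 1 / (2 * P) + sm / (2 * M * N) := by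
    rw [hNr', div_le_iff₀ (by positivity)]
    have h3 : (cnt : ℝ) ≤ (M * (NA * N * (P + 1)) + P * (NA * sm)) / P := by
      rw [le_div_iff₀ (by positivity)]
      linarith
    refine h3.trans (le_of_eq ?_)
    field_simp
  have h4 : (1 : ℝ) / (2 * P) ≤ 1 / e := by
    apply one_div_le_one_div_of_le (by positivity)
    linarith
  calc 2 * (M : ℝ) * ((cnt : ℝ) / N' - 1 / 2 - 1 / e) ≤ 2 * (M : ℝ) * (sm / (2 * M * N)) := by
        apply mul_le_mul_of_nonneg_left (by linarith) (by positivity)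
    _ = _ := by field_simp

open Classical in
/-- **Random chains on which all circuits of small depth change their NOT gates.** -/
theorem chains {n S : ℕ} (hS : 2 ≤ S) (hn : n ≤ 4 * S) {C : Circuit n}
    (h : ∀ (U : Finset (Fin n)) (a : ℕ), ∃ M, Rich (fun x => C.eval x) U a M ∧
      U.card ≤ 24 * wa a ^ 4 * (M + 1) + 2 * (Nat.log 2 S + 1))
    (U : Finset (Fin n)) (d κ : ℕ) (hκ : 1 ≤ κ) :
    ∃ (α : Fin n → Bool) (M N L : ℕ) (z : Fin N → ℕ → (Fin n → Bool))
      (X : Fin L → (Fin n → Bool)), 0 < N ∧ 0 < L ∧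
      U.card ≤ (160 * (d + κ + Nat.log 2 S)) ^ 160 * (M + 1) ∧
      (∀ i j k, z i j k = true → z i (j + 1) k = true) ∧
      (∀ i j k, k ∉ U → z i j k = α k) ∧ (∀ i k, k ∉ U → X i k = α k) ∧
      (∀ i j, C.eval (z i j) = false) ∧
      ∀ D : Circuit n, D.depth ≤ d →
        2 * (M : ℝ) * (agree X (fun x => D.eval x) (fun x => C.eval x) - 1 / 2 - 1 / κ) ≤
          ((∑ i, ((range M).filter (fun j => NotChange D (z i j) (z i (j + 1)))).card : ℕ) : ℝ) /
            N ∧
        ((∀ x, (∀ k, k ∉ U → x k = α k) → D.eval x = C.eval x) →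
          2 ^ κ * (univ.filter (fun i => ¬ ∀ j < M,
            NotChange D (z i j) (z i (j + 1)))).card ≤ N) := by
  have hL : 1 ≤ Nat.log 2 S := Nat.log_pos (by norm_num) hS
  obtain ⟨X, hX⟩ : ∃ X, X = d + κ + Nat.log 2 S := ⟨_, rfl⟩
  have hX1 : 1 ≤ X := by omega
  set a := Nat.clog 2 (2 * X + 5) with ha
  have ha1 : 2 * X + 5 ≤ 2 ^ a := Nat.le_pow_clog (by norm_num) _
  have hapos : 1 ≤ a := Nat.clog_pos (by norm_num) (by omega)
  have hpow : 2 ^ a = 2 * 2 ^ (a - 1) := by
    rw [← pow_succ', show a - 1 + 1 = a by omega]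
  have ha2 : 2 ^ a ≤ 14 * X := by
    have h4 : 1 < 2 * X + 5 := by omega
    have h2 : 2 ^ (a - 1) < 2 * X + 5 := Nat.pow_pred_clog_lt_self (b := 2) (by norm_num) h4
    omega
  have ha3 : a ≤ X + 2 := by
    apply Nat.clog_le_of_le_pow
    have h1 : X < 2 ^ X := Nat.lt_two_pow_self
    rw [pow_add]
    omega
  obtain ⟨M, ⟨α, em, hem, hemU, hf⟩, hM⟩ := h U a
  have hMS : M ≤ 2 ^ (Nat.log 2 S + 3) := by
    have h1 : M ≤ n := by
      have h2 := Fintype.card_le_of_injective em hem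
      rw [Fintype.card_prod, Fintype.card_fin, Fintype.card_fin] at h2
      exact (Nat.le_mul_of_pos_right M (va_pos a)).trans h2
    have h2 : S < 2 ^ (Nat.log 2 S + 1) := Nat.lt_pow_succ_log_self (by norm_num) S
    rw [show Nat.log 2 S + 3 = (Nat.log 2 S + 1) + 2 by ring, pow_add 2 _ 2]
    omega
  have hB0 : Nonempty (Ba a) := ⟨fun _ _ => false⟩
  set N := Fintype.card (Fin M → Ba a) with hN
  have hNe : N = Fintype.card (Ba a) ^ M := by
    rw [hN, Fintype.card_fun, Fintype.card_fin]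
  set ε : (Fin M → Ba a) ≃ Fin N := Fintype.equivFin _ with hε
  have hA : ∀ (y : Fin M → Ba a) (j : Fin M) (x : Aa a),
      C.eval (plug α em (Function.update (pre y j.val) j (ea x))) = true := by
    intro y j x
    refine (hf _ fun i hi => plug_ne _ hi).mpr ⟨j, ?_⟩
    simp only [plug_e hem, Function.update_self]
    exact gen_ea _
  have hB : ∀ (y : Fin M → Ba a) (j : ℕ), C.eval (plug α em (pre y j)) = false := by
    intro y j
    rw [Bool.eq_false_iff]
    intro hc
    obtain ⟨c, hc'⟩ := (hf _ fun i hi => plug_ne _ hi).mp hc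
    simp only [plug_e hem] at hc'
    rw [show (fun v => pre y j c v) = pre y j c from rfl, gen_pre] at hc'
    exact absurd hc' (by simp)
  -- the list of inputs
  obtain ⟨L, X, hLpos, hXα, hXD⟩ : ∃ (L : ℕ) (X : Fin L → (Fin n → Bool)), 0 < L ∧
      (∀ i k, k ∉ U → X i k = α k) ∧ ∀ D : Circuit n, D.depth ≤ d →
        2 * (M : ℝ) * (agree X (fun x => D.eval x) (fun x => C.eval x) - 1 / 2 - 1 / κ) ≤
          ((∑ i : Fin N, ((range M).filter (fun j => NotChange D (plug α em (pre (ε.symm i) j))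
            (plug α em (pre (ε.symm i) (j + 1))))).card : ℕ) : ℝ) / N := by
    rcases Nat.eq_zero_or_pos M with hM0 | hMpos
    · refine ⟨1, fun _ => α, one_pos, fun _ _ _ => rfl, fun D _ => ?_⟩
      subst hM0
      simp
    · set L := Fintype.card (Om a M) with hL'
      have hNA : 1 ≤ Fintype.card (Aa a) := by
        have h2 : Nonempty (Aa a) := ⟨fun _ => 0⟩
        exact Fintype.card_pos
      have hNpos : 1 ≤ N := Fintype.card_pos
      have hLe : L = 2 * M * (Fintype.card (Aa a) * N) := by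
        rw [hL', Fintype.card_prod, Fintype.card_prod, Fintype.card_prod, Fintype.card_fin,
          Fintype.card_bool, ← hN]
        obtain ⟨x, hx⟩ : ∃ x, x = Fintype.card (Aa a) := ⟨_, rfl⟩
        rw [← hx]
        ring
      have hLpos : 0 < L := by
        rw [hLe]
        exact Nat.mul_pos (Nat.mul_pos two_pos hMpos) (Nat.mul_pos hNA hNpos)
      set ε' : Om a M ≃ Fin L := Fintype.equivFin _ with hε'
      refine ⟨L, fun i => plug α em (smp (ε'.symm i)), hLpos, fun i k hk => plug_agr hemU _ k hk,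
        fun D hD => ?_⟩
      have hfX : ∀ ω : Om a M, C.eval (plug α em (smp ω)) = ω.2.1 := by
        intro ω
        rw [Bool.eq_iff_iff, hf _ (fun i hi => plug_ne _ hi), ← or_smp ω]
        simp only [plug_e hem]
      have hcard : (univ.filter (fun i : Fin L => D.eval (plug α em (smp (ε'.symm i))) =
          C.eval (plug α em (smp (ε'.symm i))))).card =
          (univ.filter (fun ω : Om a M => D.eval (plug α em (smp ω)) = ω.2.1)).card := by
        refine card_bij (fun i _ => ε'.symm i) ?_ ?_ ?_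
        · intro i hi
          refine mem_filter.mpr ⟨mem_univ _, ?_⟩
          rw [← hfX]
          exact (mem_filter.mp hi).2
        · intro i _ j _ hij
          exact ε'.symm.injective hij
        · intro ω hω
          refine ⟨ε' ω, mem_filter.mpr ⟨mem_univ _, ?_⟩, by simp⟩
          rw [Equiv.symm_apply_apply, hfX]
          exact (mem_filter.mp hω).2
      have key := chain_chg (α := α) (g := fun x => D.eval x) (D := d) (Chg := NotChange D) hemU
        (fun ξ hξ => by
          obtain ⟨T, t1, t2⟩ := det_circuit D ξ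
          exact ⟨T, t1.mono hD, fun z _ hz => t2 z hz⟩) (by omega)
      rw [← hcard, ← hNe] at key
      have hsum : ∑ y : Fin M → Ba a, ∑ j : Fin M,
          (if NotChange D (plug α em (pre y j.val)) (plug α em (pre y (j.val + 1)))
            then 1 else 0) =
          ∑ i : Fin N, ((range M).filter (fun j => NotChange D (plug α em (pre (ε.symm i) j))
            (plug α em (pre (ε.symm i) (j + 1))))).card := by
        rw [← Equiv.sum_comp ε.symm]
        refine sum_congr rfl fun i _ => ?_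
        rw [card_filter, ← Fin.sum_univ_eq_sum_range (fun j => if NotChange D
          (plug α em (pre (ε.symm i) j)) (plug α em (pre (ε.symm i) (j + 1))) then 1 else 0)]
      rw [hsum] at key
      exact avg_real hMpos hNA hNpos hκ (by omega) rfl hLe key
  refine ⟨α, M, N, L, fun i j => plug α em (pre (ε.symm i) j), X, Fintype.card_pos, hLpos,
    ?_, ?_, ?_, hXα, ?_, fun D hD => ⟨hXD D hD, ?_⟩⟩
  · rw [← hX]
    exact hM.trans (numZ hX1 (by omega) ha2)
  · intro i j k
    exact plug_mono (pre_mono _ (Nat.le_succ j)) k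
  · intro i j k hk
    exact plug_agr hemU _ k hk
  · intro i j
    exact hB _ j
  · intro hDC
    have h1 := steps_all (g := fun x => D.eval x) (D := d) (κ := κ + d) (l := Nat.log 2 S + 3)
      (Chg := NotChange D) hemU (fun ξ hξ => by
        obtain ⟨T, t1, t2⟩ := det_circuit D ξ
        exact ⟨T, t1.mono hD, fun z _ hz => t2 z hz⟩)
      (fun y j x => by
        show D.eval _ = true
        rw [hDC _ (plug_agr hemU _)]
        exact hA y j x)
      (fun y j => by
        show D.eval _ = false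
        rw [hDC _ (plug_agr hemU _)]
        exact hB y j) (by omega) (by omega) hMS
      (fun y => ¬ ∀ j : Fin M, NotChange D (plug α em (pre y j.val))
        (plug α em (pre y (j.val + 1)))) (fun y => Iff.rfl)
    have h2 : (univ.filter (fun i : Fin N => ¬ ∀ j < M, NotChange D
        (plug α em (pre (ε.symm i) j)) (plug α em (pre (ε.symm i) (j + 1))))).card =
        (univ.filter (fun y : Fin M → Ba a => ¬ ∀ j : Fin M, NotChange D
          (plug α em (pre y j.val)) (plug α em (pre y (j.val + 1))))).card := by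
      refine card_bij (fun i _ => ε.symm i) ?_ ?_ ?_
      · intro i hi
        refine mem_filter.mpr ⟨mem_univ _, fun h3 => (mem_filter.mp hi).2 fun j hj => ?_⟩
        exact h3 ⟨j, hj⟩
      · intro i _ j _ hij
        exact ε.symm.injective hij
      · intro y hy
        refine ⟨ε y, mem_filter.mpr ⟨mem_univ _, fun h3 => (mem_filter.mp hy).2 fun j => ?_⟩,
          by simp⟩
        have := h3 j.val j.isLt
        rw [Equiv.symm_apply_apply] at this
        exact this
    rw [← h2, ← hNe] at h1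
    refine le_trans (Nat.mul_le_mul_right _ ?_) h1
    exact Nat.pow_le_pow_right (by norm_num) (Nat.le_add_right _ _)

/-- the circuits -/
theorem exists_rich (S : ℕ) (hS : 2 ≤ S) : ∃ (n : ℕ) (C : Circuit n), C.Monotone ∧
    C.size ≤ S ∧ n ≤ 4 * S ∧ S ≤ 40 * Nat.log 2 S ^ 4 * (n + 1) ∧
    ∀ (U : Finset (Fin n)) (a : ℕ), ∃ M, Rich (fun x => C.eval x) U a M ∧
      U.card ≤ 24 * wa a ^ 4 * (M + 1) + 2 * (Nat.log 2 S + 1) := by
  classical
  obtain ⟨p, h1, h2, h3, h4⟩ := univ_fun S hS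
  obtain ⟨C, c1, c2, c3⟩ := h2.circuit (Fintype.equivFin (Vt p.L (nd' S)))
  refine ⟨_, C, c1, c2, ?_, ?_, fun U a => ?_⟩
  · rw [Fintype.card_sum, Fintype.card_fin, Fintype.card_prod, Fintype.card_fin, Fintype.card_bool,
      h1]
    have e1 : Nat.log 2 S < S := Nat.log_lt_self 2 (by omega)
    have e2 : nd' S ≤ S := Nat.div_le_self _ _
    omega
  · refine h3.trans (Nat.mul_le_mul_left _ ?_)
    rw [Fintype.card_sum, Fintype.card_fin]
    omega
  · obtain ⟨M, m1, m2⟩ := h4 (U.map (Fintype.equivFin (Vt p.L (nd' S))).symm.toEmbedding) a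
    refine ⟨M, ?_, ?_⟩
    · have e : (fun x => C.eval x) = fun x : Fin _ → Bool =>
          E p (fun v => x (Fintype.equivFin (Vt p.L (nd' S)) v)) := funext c3
      rw [e]
      exact Rich.equiv _ U a M m1
    · rw [card_map] at m2
      exact m2

end Pool.Agent.T9h19.RM
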