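import Mathlib

/-!
# Definitions: formulas over AND, OR and arbitrary further gates
-/

set_option autoImplicit false

namespace Pool.Agent.T9h19.RM

open Finset

/-- Formulas over AND and OR of two formulas and arbitrary further gates: Boolean functions `φ` of
the values of any number of formulas, for example NOT of one formula. -/
inductive GFm (n : ℕ) where
  | var (i : Fin n) : GFm n
  | const (b : Bool) : GFm n
  | and (F G : GFm n) : GFm n
  | or (F G : GFm n) : GFm n
  | gate (k : ℕ) (φ : (Fin k → Bool) → Bool) (F : Fin k → GFm n) : GFm n

namespace GFm

variable {n : ℕ}

/-- The value of a formula. -/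
def eval (x : Fin n → Bool) : GFm n → Bool
  | .var i => x i
  | .const b => b
  | .and F G => F.eval x && G.eval x
  | .or F G => F.eval x || G.eval x
  | .gate _ φ F => φ fun j => (F j).eval x

/-- The size of a formula: its number of gates. -/
def size : GFm n → ℕ
  | .var _ => 0
  | .const _ => 0
  | .and F G => F.size + G.size + 1
  | .or F G => F.size + G.size + 1
  | .gate _ _ F => ∑ j, (F j).size + 1

/-- A variable in `U` occurs in the formula. -/
def Reads (U : Finset (Fin n)) : GFm n → Prop
  | .var i => i ∈ U
  | .const _ => False
  | .and F G => F.Reads U ∨ G.Reads U
  | .or F G => F.Reads U ∨ G.Reads U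
  | .gate _ _ F => ∃ j, (F j).Reads U

open Classical in
/-- The number of operands of further gates in which a variable in `U` occurs. If the further gates
are NOT gates, this is the number of NOT gates above variables in `U`. -/
noncomputable def wires (U : Finset (Fin n)) : GFm n → ℕ
  | .var _ => 0
  | .const _ => 0
  | .and F G => F.wires U + G.wires U
  | .or F G => F.wires U + G.wires U
  | .gate _ _ F => ∑ j, ((F j).wires U + if (F j).Reads U then 1 else 0)

end GFm

end Pool.Agent.T9h19.RM
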