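import Mathlib
import Pool.Agent.T9h19.RM.OracU
import Pool.Agent.T9h19.RM.FDefs

/-!
# Formulas with few non-monotone gates
-/

set_option autoImplicit false

namespace Pool.Agent.T9h19.RM

open Finset Pool.Agent.H540R2 Pool.Agent.H540R2.Circuit Pool.Agent.W953.NW

/-! ### balancing monotone formulas -/

namespace MF

variable {σ : Type}

/-- the number of leaves which are variables -/
def leaves : MF σ → ℕ
  | .var _ => 1
  | .const _ => 0
  | .and F G => F.leaves + G.leaves
  | .or F G => F.leaves + G.leaves

end MF

/-- `f` is computed by a monotone formula with at most `s` leaves. -/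
def MoS {σ : Type} (f : (σ → Bool) → Bool) (s : ℕ) : Prop :=
  ∃ F : MF σ, F.leaves ≤ s ∧ ∀ x, F.eval x = f x

section MoS

variable {σ : Type} {f g : (σ → Bool) → Bool} {s t : ℕ}

lemma MoS.mono (h : MoS f s) (hd : s ≤ t) : MoS f t := by
  obtain ⟨F, h1, h2⟩ := h
  exact ⟨F, h1.trans hd, h2⟩

lemma MoS.congr (h : MoS f s) (hg : ∀ x, f x = g x) : MoS g s := by
  obtain ⟨F, h1, h2⟩ := h
  exact ⟨F, h1, fun x => (h2 x).trans (hg x)⟩

lemma MoS.const (b : Bool) (s : ℕ) : MoS (fun _ : σ → Bool => b) s :=
  ⟨.const b, Nat.zero_le _, fun _ => rfl⟩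

lemma MoS.var (v : σ) (s : ℕ) (hs : 1 ≤ s) : MoS (fun x : σ → Bool => x v) s :=
  ⟨.var v, hs, fun _ => rfl⟩

lemma MoS.and (hf : MoS f s) (hg : MoS g t) : MoS (fun x => f x && g x) (s + t) := by
  obtain ⟨F, h1, h2⟩ := hf
  obtain ⟨G, h3, h4⟩ := hg
  exact ⟨F.and G, Nat.add_le_add h1 h3, fun x => by simp [MF.eval, h2, h4]⟩

lemma MoS.or (hf : MoS f s) (hg : MoS g t) : MoS (fun x => f x || g x) (s + t) := by
  obtain ⟨F, h1, h2⟩ := hf
  obtain ⟨G, h3, h4⟩ := hg
  exact ⟨F.or G, Nat.add_le_add h1 h3, fun x => by simp [MF.eval, h2, h4]⟩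

lemma leaves_zero (F : MF σ) (h : F.leaves = 0) : ∃ b, ∀ x, F.eval x = b := by
  induction F with
  | var v => simp [MF.leaves] at h
  | const b => exact ⟨b, fun _ => rfl⟩
  | and F G hF hG =>
    simp only [MF.leaves] at h
    obtain ⟨b, hb⟩ := hF (by omega)
    obtain ⟨c, hc⟩ := hG (by omega)
    exact ⟨b && c, fun x => by simp [MF.eval, hb, hc]⟩
  | or F G hF hG =>
    simp only [MF.leaves] at h
    obtain ⟨b, hb⟩ := hF (by omega)
    obtain ⟨c, hc⟩ := hG (by omega)
    exact ⟨b || c, fun x => by simp [MF.eval, hb, hc]⟩

lemma leaves_one (F : MF σ) (h : F.leaves ≤ 1) : Mo (fun x => F.eval x) 0 := by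
  induction F with
  | var v => exact Mo.var v _
  | const b => exact Mo.const b _
  | and F G hF hG =>
    simp only [MF.leaves] at h
    by_cases h0 : F.leaves = 0
    · obtain ⟨b, hb⟩ := leaves_zero F h0
      cases b
      · exact (Mo.const false 0).congr fun x => by simp [MF.eval, hb]
      · exact (hG (by omega)).congr fun x => by simp [MF.eval, hb]
    · obtain ⟨b, hb⟩ := leaves_zero G (by omega)
      cases b
      · exact (Mo.const false 0).congr fun x => by simp [MF.eval, hb]
      · exact (hF (by omega)).congr fun x => by simp [MF.eval, hb]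
  | or F G hF hG =>
    simp only [MF.leaves] at h
    by_cases h0 : F.leaves = 0
    · obtain ⟨b, hb⟩ := leaves_zero F h0
      cases b
      · exact (hG (by omega)).congr fun x => by simp [MF.eval, hb]
      · exact (Mo.const true 0).congr fun x => by simp [MF.eval, hb]
    · obtain ⟨b, hb⟩ := leaves_zero G (by omega)
      cases b
      · exact (hF (by omega)).congr fun x => by simp [MF.eval, hb]
      · exact (Mo.const true 0).congr fun x => by simp [MF.eval, hb]

/-- splitting off a subformula -/
lemma split (m : ℕ) (F : MF σ) (h : m < F.leaves) : ∃ (G A B : (σ → Bool) → Bool),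
    ((∃ G1 G2, MoS G1 m ∧ MoS G2 m ∧ (∀ x, G x = (G1 x && G2 x))) ∨
      (∃ G1 G2, MoS G1 m ∧ MoS G2 m ∧ (∀ x, G x = (G1 x || G2 x))) ∨ m = 0) ∧
    MoS A (F.leaves - (m + 1)) ∧ MoS B (F.leaves - (m + 1)) ∧
    ∀ x, F.eval x = ((G x && A x) || B x) := by
  induction F with
  | var v =>
    simp only [MF.leaves] at h
    exact ⟨fun x => x v, fun _ => true, fun _ => false, Or.inr (Or.inr (by omega)), MoS.const _ _,
      MoS.const _ _, fun x => by simp [MF.eval]⟩
  | const b => simp [MF.leaves] at h
  | and F G hF hG =>
    simp only [MF.leaves] at h ⊢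
    by_cases h1 : m < F.leaves
    · obtain ⟨H, A, B, h2, h3, h4, h5⟩ := hF h1
      refine ⟨H, fun x => A x && G.eval x, fun x => B x && G.eval x, h2,
        (h3.and ⟨G, le_rfl, fun _ => rfl⟩).mono (by omega),
        (h4.and ⟨G, le_rfl, fun _ => rfl⟩).mono (by omega), fun x => ?_⟩
      simp only [MF.eval]
      rw [h5]
      cases H x <;> cases A x <;> cases B x <;> cases G.eval x <;> rfl
    · by_cases h1' : m < G.leaves
      · obtain ⟨H, A, B, h2, h3, h4, h5⟩ := hG h1'
        refine ⟨H, fun x => A x && F.eval x, fun x => B x && F.eval x, h2,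
          (h3.and ⟨F, le_rfl, fun _ => rfl⟩).mono (by omega),
          (h4.and ⟨F, le_rfl, fun _ => rfl⟩).mono (by omega), fun x => ?_⟩
        simp only [MF.eval]
        rw [h5]
        cases H x <;> cases A x <;> cases B x <;> cases F.eval x <;> rfl
      · exact ⟨fun x => F.eval x && G.eval x, fun _ => true, fun _ => false,
          Or.inl ⟨fun x => F.eval x, fun x => G.eval x, ⟨F, by omega, fun _ => rfl⟩,
            ⟨G, by omega, fun _ => rfl⟩, fun _ => rfl⟩, MoS.const _ _, MoS.const _ _,
          fun x => by simp [MF.eval]⟩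
  | or F G hF hG =>
    simp only [MF.leaves] at h ⊢
    by_cases h1 : m < F.leaves
    · obtain ⟨H, A, B, h2, h3, h4, h5⟩ := hF h1
      refine ⟨H, A, fun x => B x || G.eval x, h2, h3.mono (by omega),
        (h4.or ⟨G, le_rfl, fun _ => rfl⟩).mono (by omega), fun x => ?_⟩
      simp only [MF.eval]
      rw [h5]
      cases H x <;> cases A x <;> cases B x <;> cases G.eval x <;> rfl
    · by_cases h1' : m < G.leaves
      · obtain ⟨H, A, B, h2, h3, h4, h5⟩ := hG h1'
        refine ⟨H, A, fun x => B x || F.eval x, h2, h3.mono (by omega),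
          (h4.or ⟨F, le_rfl, fun _ => rfl⟩).mono (by omega), fun x => ?_⟩
        simp only [MF.eval]
        rw [h5]
        cases H x <;> cases A x <;> cases B x <;> cases F.eval x <;> rfl
      · exact ⟨fun x => F.eval x || G.eval x, fun _ => true, fun _ => false,
          Or.inr (Or.inl ⟨fun x => F.eval x, fun x => G.eval x, ⟨F, by omega, fun _ => rfl⟩,
            ⟨G, by omega, fun _ => rfl⟩, fun _ => rfl⟩), MoS.const _ _, MoS.const _ _,
          fun x => by simp [MF.eval]⟩

/-- **Balancing.** -/
lemma spira (r : ℕ) : ∀ f : (σ → Bool) → Bool, MoS f (2 ^ r) → Mo f (3 * r) := by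
  induction r with
  | zero =>
    intro f hf
    obtain ⟨F, h1, h2⟩ := hf
    exact (leaves_one F (by simpa using h1)).congr h2
  | succ r ih =>
    intro f hf
    obtain ⟨F, h1, h2⟩ := hf
    rw [pow_succ] at h1
    by_cases h3 : F.leaves ≤ 2 ^ r
    · exact (ih f ⟨F, h3, h2⟩).mono (by omega)
    · obtain ⟨G, A, B, h4, h5, h6, h7⟩ := split (2 ^ r) F (by omega)
      have hA : Mo A (3 * r) := ih A (h5.mono (by omega))
      have hB : Mo B (3 * r) := ih B (h6.mono (by omega))
      have hG : Mo G (3 * r + 1) := by
        rcases h4 with ⟨G1, G2, g1, g2, g3⟩ | ⟨G1, G2, g1, g2, g3⟩ | h4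
        · exact ((ih G1 g1).and (ih G2 g2)).congr fun x => (g3 x).symm
        · exact ((ih G1 g1).or (ih G2 g2)).congr fun x => (g3 x).symm
        · have := Nat.one_le_two_pow (n := r)
          omega
      refine (((hG.and (hA.mono (Nat.le_succ _))).or (hB.mono (Nat.le_add_right _ 2))).congr
        fun x => ?_).mono (by omega)
      rw [← h2, h7]

end MoS

/-! ### formulas with further gates -/

variable {n : ℕ}

/-- `f` is determined on the inputs satisfying `P` by the functions in `L`. -/
def DetOn (P : (Fin n → Bool) → Prop) (L : List ((Fin n → Bool) → Bool))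
    (f : (Fin n → Bool) → Bool) : Prop :=
  ∀ x y : Fin n → Bool, P x → P y → (∀ g ∈ L, g x = g y) → f x = f y

lemma not_reads {U : Finset (Fin n)} (F : GFm n) (h : ¬ F.Reads U) {x y : Fin n → Bool}
    (hxy : ∀ i, i ∉ U → x i = y i) : F.eval x = F.eval y := by
  induction F with
  | var i => exact hxy i h
  | const b => rfl
  | and F G hF hG =>
    simp only [GFm.Reads, not_or] at h
    simp only [GFm.eval, hF h.1, hG h.2]
  | or F G hF hG =>
    simp only [GFm.Reads, not_or] at h
    simp only [GFm.eval, hF h.1, hG h.2]
  | gate k φ F hF =>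
    simp only [GFm.Reads, not_exists] at h
    simp only [GFm.eval]
    congr 1
    funext j
    exact hF j (h j)

lemma wires_not_reads {U : Finset (Fin n)} (F : GFm n) (h : ¬ F.Reads U) : F.wires U = 0 := by
  induction F with
  | var i => rfl
  | const b => rfl
  | and F G hF hG =>
    simp only [GFm.Reads, not_or] at h
    simp only [GFm.wires, hF h.1, hG h.2]
  | or F G hF hG =>
    simp only [GFm.Reads, not_or] at h
    simp only [GFm.wires, hF h.1, hG h.2]
  | gate k φ F hF =>
    simp only [GFm.Reads, not_exists] at h
    simp only [GFm.wires]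
    refine sum_eq_zero fun j _ => ?_
    simp only [hF j (h j), if_neg (h j), Nat.add_zero]

lemma size_le_gate {k : ℕ} {φ : (Fin k → Bool) → Bool} {F : Fin k → GFm n} (j : Fin k) :
    (F j).size + 1 ≤ (GFm.gate k φ F).size := by
  simp only [GFm.size]
  have : (F j).size ≤ ∑ j, (F j).size :=
    single_le_sum (f := fun j => (F j).size) (fun _ _ => Nat.zero_le _) (mem_univ j)
  omega

/-- a formula without further gates above `U` -/
lemma g_mono {U : Finset (Fin n)} {α : Fin n → Bool} (F : GFm n) (h : F.wires U = 0) :
    ∃ g, MoS g (F.size + 1) ∧ ∀ x, Agr U α x → F.eval x = g x := by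
  induction F with
  | var i => exact ⟨_, MoS.var i _ (by omega), fun _ _ => rfl⟩
  | const b => exact ⟨_, MoS.const b _, fun _ _ => rfl⟩
  | and F G hF hG =>
    simp only [GFm.wires] at h
    obtain ⟨f, h1, h2⟩ := hF (by omega)
    obtain ⟨g, h3, h4⟩ := hG (by omega)
    exact ⟨_, (h1.and h3).mono (by simp only [GFm.size]; omega),
      fun x hx => by simp only [GFm.eval, h2 x hx, h4 x hx]⟩
  | or F G hF hG =>
    simp only [GFm.wires] at h
    obtain ⟨f, h1, h2⟩ := hF (by omega)
    obtain ⟨g, h3, h4⟩ := hG (by omega)
    exact ⟨_, (h1.or h3).mono (by simp only [GFm.size]; omega),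
      fun x hx => by simp only [GFm.eval, h2 x hx, h4 x hx]⟩
  | gate k φ F _ =>
    have hr : ¬ (GFm.gate k φ F).Reads U := by
      rintro ⟨j, hj⟩
      simp only [GFm.wires] at h
      have h1 := (sum_eq_zero_iff.mp h) j (mem_univ j)
      rw [if_pos hj] at h1
      omega
    exact ⟨fun _ => (GFm.gate k φ F).eval α, MoS.const _ _, fun x hx => not_reads _ hr hx⟩

/-- a formula with further gates, as a core with a monotone context -/
lemma g_core {U : Finset (Fin n)} {α : Fin n → Bool} (F : GFm n) (h : F.wires U ≠ 0) :
    ∃ (L : List ((Fin n → Bool) → Bool)) (G A B : (Fin n → Bool) → Bool),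
      L.length + 4 ≤ 5 * F.wires U ∧ (∀ f ∈ L, MoS f (F.size + 1)) ∧ DetOn (Agr U α) L G ∧
      MoS A (F.size + 1) ∧ MoS B (F.size + 1) ∧
      ∀ x, Agr U α x → F.eval x = ((G x && A x) || B x) := by
  classical
  induction F with
  | var i => exact absurd rfl h
  | const b => exact absurd rfl h
  | gate k φ F ih =>
    -- for each operand a list of functions
    have key : ∀ j, ∃ L : List ((Fin n → Bool) → Bool),
        L.length + 4 * (if (F j).Reads U then 1 else 0) ≤
          5 * ((F j).wires U + if (F j).Reads U then 1 else 0) ∧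
        (∀ f ∈ L, MoS f ((F j).size + 1)) ∧ DetOn (Agr U α) L (fun x => (F j).eval x) := by
      intro j
      by_cases hj : (F j).Reads U
      · rw [if_pos hj]
        by_cases hw : (F j).wires U = 0
        · obtain ⟨g, h1, h2⟩ := g_mono (α := α) (F j) hw
          refine ⟨[g], by simp [hw], fun f hf => ?_, fun x y hx hy hxy => ?_⟩
          · rw [List.mem_singleton] at hf
            subst hf
            exact h1
          · show (F j).eval x = (F j).eval y
            rw [h2 x hx, h2 y hy]
            exact hxy g (List.mem_singleton.mpr rfl)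
        · obtain ⟨L, G, A, B, h1, h2, h3, h4, h5, h6⟩ := ih j hw
          refine ⟨A :: B :: L, by simp only [List.length_cons]; omega, fun f hf => ?_,
            fun x y hx hy hxy => ?_⟩
          · rcases List.mem_cons.mp hf with rfl | hf
            · exact h4
            · rcases List.mem_cons.mp hf with rfl | hf
              · exact h5
              · exact h2 f hf
          · have e1 := hxy A (by simp)
            have e2 := hxy B (by simp)
            have e3 := h3 x y hx hy fun g hg => hxy g (by simp [hg])
            show (F j).eval x = (F j).eval y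
            rw [h6 x hx, h6 y hy, e1, e2, e3]
      · rw [if_neg hj]
        exact ⟨[], by simp, by simp, fun x y hx hy _ => not_reads (F j) hj
          fun i hi => (hx i hi).trans (hy i hi).symm⟩
    choose L hL1 hL2 hL3 using key
    refine ⟨(List.ofFn L).flatten, fun x => φ fun j => (F j).eval x, fun _ => true,
      fun _ => false, ?_, ?_, ?_, MoS.const _ _, MoS.const _ _, fun x _ => by simp [GFm.eval]⟩
    · have h1 : (List.ofFn L).flatten.length = ∑ j, (L j).length := by
        rw [List.length_flatten, List.map_ofFn, List.sum_ofFn]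
        rfl
      have h2 : ∑ j, (L j).length + 4 * ∑ j, (if (F j).Reads U then 1 else 0) ≤
          5 * ∑ j, ((F j).wires U + if (F j).Reads U then 1 else 0) := by
        rw [mul_sum, mul_sum, ← sum_add_distrib]
        exact sum_le_sum fun j _ => hL1 j
      have h3 : 1 ≤ ∑ j, (if (F j).Reads U then 1 else 0) := by
        by_contra hc
        have h4 : ∀ j, ¬ (F j).Reads U := by
          intro j hj
          have h5 : (if (F j).Reads U then 1 else 0) ≤ ∑ j, (if (F j).Reads U then 1 else 0) :=
            single_le_sum (f := fun j => if (F j).Reads U then 1 else 0)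
              (fun _ _ => Nat.zero_le _) (mem_univ j)
          rw [if_pos hj] at h5
          omega
        apply h
        simp only [GFm.wires]
        refine sum_eq_zero fun j _ => ?_
        simp only [wires_not_reads _ (h4 j), if_neg (h4 j), Nat.add_zero]
      rw [h1]
      simp only [GFm.wires]
      omega
    · intro f hf
      rw [List.mem_flatten] at hf
      obtain ⟨l, hl, hf⟩ := hf
      rw [List.mem_ofFn] at hl
      obtain ⟨j, rfl⟩ := hl
      exact (hL2 j f hf).mono (by have := size_le_gate (φ := φ) (F := F) j; omega)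
    · intro x y hx hy hxy
      show φ _ = φ _
      congr 1
      funext j
      exact hL3 j x y hx hy fun g hg => hxy g (List.mem_flatten.mpr
        ⟨L j, List.mem_ofFn.mpr ⟨j, rfl⟩, hg⟩)
  | and F G ihF ihG =>
    simp only [GFm.wires] at h
    by_cases hF : F.wires U = 0
    · obtain ⟨f, hm, hm2⟩ := g_mono (α := α) F hF
      obtain ⟨L, K, A, B, h1, h2, h3, h4, h5, h6⟩ := ihG (by omega)
      refine ⟨L, K, fun x => f x && A x, fun x => f x && B x, ?_, ?_, h3,
        (hm.and h4).mono ?_, (hm.and h5).mono ?_, fun x hx => ?_⟩
      · simp only [GFm.wires]; omega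
      · intro g hg; exact (h2 g hg).mono (by simp only [GFm.size]; omega)
      · simp only [GFm.size]; omega
      · simp only [GFm.size]; omega
      · simp only [GFm.eval]
        rw [h6 x hx, hm2 x hx]
        cases f x <;> cases K x <;> cases A x <;> cases B x <;> rfl
    · by_cases hG : G.wires U = 0
      · obtain ⟨g, hm, hm2⟩ := g_mono (α := α) G hG
        obtain ⟨L, K, A, B, h1, h2, h3, h4, h5, h6⟩ := ihF hF
        refine ⟨L, K, fun x => A x && g x, fun x => B x && g x, ?_, ?_, h3,
          (h4.and hm).mono ?_, (h5.and hm).mono ?_, fun x hx => ?_⟩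
        · simp only [GFm.wires]; omega
        · intro g hg; exact (h2 g hg).mono (by simp only [GFm.size]; omega)
        · simp only [GFm.size]; omega
        · simp only [GFm.size]; omega
        · simp only [GFm.eval]
          rw [h6 x hx, hm2 x hx]
          cases g x <;> cases K x <;> cases A x <;> cases B x <;> rfl
      · obtain ⟨L, K, A, B, h1, h2, h3, h4, h5, h6⟩ := ihF hF
        obtain ⟨L', K', A', B', h1', h2', h3', h4', h5', h6'⟩ := ihG hG
        refine ⟨A :: B :: A' :: B' :: (L ++ L'), fun x => (GFm.and F G).eval x, fun _ => true,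
          fun _ => false, ?_, ?_, ?_, MoS.const _ _, MoS.const _ _, fun x _ => by simp⟩
        · simp only [List.length_cons, List.length_append, GFm.wires]; omega
        · intro f hf
          have e1 : F.size + 1 ≤ (GFm.and F G).size + 1 := by simp only [GFm.size]; omega
          have e2 : G.size + 1 ≤ (GFm.and F G).size + 1 := by simp only [GFm.size]; omega
          simp only [List.mem_cons, List.mem_append] at hf
          rcases hf with rfl | rfl | rfl | rfl | hf | hf
          · exact h4.mono e1
          · exact h5.mono e1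
          · exact h4'.mono e2
          · exact h5'.mono e2
          · exact (h2 f hf).mono e1
          · exact (h2' f hf).mono e2
        · intro x y hx hy hxy
          have e1 := hxy A (by simp)
          have e2 := hxy B (by simp)
          have e3 := h3 x y hx hy fun g hg => hxy g (by simp [hg])
          have e1' := hxy A' (by simp)
          have e2' := hxy B' (by simp)
          have e3' := h3' x y hx hy fun g hg => hxy g (by simp [hg])
          show (F.eval x && G.eval x) = (F.eval y && G.eval y)
          rw [h6 x hx, h6 y hy, h6' x hx, h6' y hy, e1, e2, e3, e1', e2', e3']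
  | or F G ihF ihG =>
    simp only [GFm.wires] at h
    by_cases hF : F.wires U = 0
    · obtain ⟨f, hm, hm2⟩ := g_mono (α := α) F hF
      obtain ⟨L, K, A, B, h1, h2, h3, h4, h5, h6⟩ := ihG (by omega)
      refine ⟨L, K, A, fun x => f x || B x, ?_, ?_, h3,
        h4.mono ?_, (hm.or h5).mono ?_, fun x hx => ?_⟩
      · simp only [GFm.wires]; omega
      · intro g hg; exact (h2 g hg).mono (by simp only [GFm.size]; omega)
      · simp only [GFm.size]; omega
      · simp only [GFm.size]; omega
      · simp only [GFm.eval]
        rw [h6 x hx, hm2 x hx]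
        cases f x <;> cases K x <;> cases A x <;> cases B x <;> rfl
    · by_cases hG : G.wires U = 0
      · obtain ⟨g, hm, hm2⟩ := g_mono (α := α) G hG
        obtain ⟨L, K, A, B, h1, h2, h3, h4, h5, h6⟩ := ihF hF
        refine ⟨L, K, A, fun x => B x || g x, ?_, ?_, h3,
          h4.mono ?_, (h5.or hm).mono ?_, fun x hx => ?_⟩
        · simp only [GFm.wires]; omega
        · intro g hg; exact (h2 g hg).mono (by simp only [GFm.size]; omega)
        · simp only [GFm.size]; omega
        · simp only [GFm.size]; omega
        · simp only [GFm.eval]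
          rw [h6 x hx, hm2 x hx]
          cases g x <;> cases K x <;> cases A x <;> cases B x <;> rfl
      · obtain ⟨L, K, A, B, h1, h2, h3, h4, h5, h6⟩ := ihF hF
        obtain ⟨L', K', A', B', h1', h2', h3', h4', h5', h6'⟩ := ihG hG
        refine ⟨A :: B :: A' :: B' :: (L ++ L'), fun x => (GFm.or F G).eval x, fun _ => true,
          fun _ => false, ?_, ?_, ?_, MoS.const _ _, MoS.const _ _, fun x _ => by simp⟩
        · simp only [List.length_cons, List.length_append, GFm.wires]; omega
        · intro f hf
          have e1 : F.size + 1 ≤ (GFm.or F G).size + 1 := by simp only [GFm.size]; omega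
          have e2 : G.size + 1 ≤ (GFm.or F G).size + 1 := by simp only [GFm.size]; omega
          simp only [List.mem_cons, List.mem_append] at hf
          rcases hf with rfl | rfl | rfl | rfl | hf | hf
          · exact h4.mono e1
          · exact h5.mono e1
          · exact h4'.mono e2
          · exact h5'.mono e2
          · exact (h2 f hf).mono e1
          · exact (h2' f hf).mono e2
        · intro x y hx hy hxy
          have e1 := hxy A (by simp)
          have e2 := hxy B (by simp)
          have e3 := h3 x y hx hy fun g hg => hxy g (by simp [hg])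
          have e1' := hxy A' (by simp)
          have e2' := hxy B' (by simp)
          have e3' := h3' x y hx hy fun g hg => hxy g (by simp [hg])
          show (F.eval x || G.eval x) = (F.eval y || G.eval y)
          rw [h6 x hx, h6 y hy, h6' x hx, h6' y hy, e1, e2, e3, e1', e2', e3']

/-- **A formula with `q` wires into further gates is a function of `5 q + 1` monotone
functions.** -/
lemma g_det {U : Finset (Fin n)} {α : Fin n → Bool} (F : GFm n) :
    ∃ L : List ((Fin n → Bool) → Bool), L.length ≤ 5 * F.wires U + 1 ∧
      (∀ f ∈ L, MoS f (F.size + 1)) ∧ DetOn (Agr U α) L (fun x => F.eval x) := by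
  by_cases h : F.wires U = 0
  · obtain ⟨g, h1, h2⟩ := g_mono (α := α) F h
    refine ⟨[g], by simp, fun f hf => ?_, fun x y hx hy hxy => ?_⟩
    · rw [List.mem_singleton] at hf
      subst hf
      exact h1
    · show F.eval x = F.eval y
      rw [h2 x hx, h2 y hy]
      exact hxy g (List.mem_singleton.mpr rfl)
  · obtain ⟨L, G, A, B, h1, h2, h3, h4, h5, h6⟩ := g_core (α := α) F h
    refine ⟨A :: B :: L, by simp only [List.length_cons]; omega, fun f hf => ?_,
      fun x y hx hy hxy => ?_⟩
    · rcases List.mem_cons.mp hf with rfl | hf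
      · exact h4
      · rcases List.mem_cons.mp hf with rfl | hf
        · exact h5
        · exact h2 f hf
    · have e1 := hxy A (by simp)
      have e2 := hxy B (by simp)
      have e3 := h3 x y hx hy fun g hg => hxy g (by simp [hg])
      show F.eval x = F.eval y
      rw [h6 x hx, h6 y hy, e1, e2, e3]

/-- functions determined by few monotone functions of small depth are devices -/
lemma dev_det {U : Finset (Fin n)} {α : Fin n → Bool} {L : List ((Fin n → Bool) → Bool)}
    {g : (Fin n → Bool) → Bool} {d k : ℕ} (hL : ∀ f ∈ L, Mo f d) (hk : L.length ≤ 2 ^ k)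
    (hg : DetOn (Agr U α) L g) : Dev U α g (d + k + 1) L.length := by
  classical
  have hmono : ∀ f ∈ L, ∀ ξ z : Fin n → Bool, (∀ i, ξ i = true → z i = true) →
      f ξ = true → f z = true := fun f hf ξ z hz => (hL f hf).eval_mono hz
  refine ⟨fun x => (L.filter (fun f => f x)).length, fun x _ => List.length_filter_le _ _,
    fun ξ z _ _ hz => ?_, fun ξ hξ => ?_⟩
  · show (L.filter (fun f => f ξ)).length ≤ (L.filter (fun f => f z)).length
    clear hg hk
    induction L with
    | nil => simp
    | cons f L ih =>
      have h1 := ih (fun g hg => hL g (List.mem_cons_of_mem _ hg))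
        (fun g hg => hmono g (List.mem_cons_of_mem _ hg))
      by_cases h2 : f ξ = true
      · have h3 := hmono f (by simp) ξ z hz h2
        simp only [List.filter_cons, h2, h3, if_true, List.length_cons]
        omega
      · rw [Bool.not_eq_true] at h2
        by_cases h3 : f z = true
        · simp only [List.filter_cons, h2, h3, if_true, List.length_cons]
          simp only [Bool.false_eq_true, if_false]
          omega
        · rw [Bool.not_eq_true] at h3
          simp only [List.filter_cons, h2, h3, Bool.false_eq_true, if_false]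
          exact h1
  · have h1 : Mo (fun x => (L.filter (fun f => !(f ξ))).any (fun f => f x)) (d + k) :=
      Mo.orList k _ ((List.length_filter_le _ _).trans hk)
        fun f hf => hL f (List.mem_filter.mp hf).1
    refine ⟨fun x => (L.filter (fun f => !(f ξ))).any (fun f => f x) || g ξ,
      h1.or (Mo.const _ _), fun z hz hξz => ?_⟩
    -- the rank increases if and only if the detector fires
    have h2 : (L.filter (fun f => !(f ξ))).any (fun f => f z) = false → g z = g ξ := by
      intro h3
      refine (hg ξ z hξ hz fun f hf => ?_).symm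
      by_cases h4 : f ξ = true
      · rw [h4, hmono f hf ξ z hξz h4]
      · rw [Bool.not_eq_true] at h4
        rw [h4]
        rw [List.any_eq_false] at h3
        have h5 := h3 f (List.mem_filter.mpr ⟨hf, by simp [h4]⟩)
        exact (Bool.eq_false_iff.mpr h5).symm
    have h3 : (L.filter (fun f => !(f ξ))).any (fun f => f z) = true →
        (L.filter (fun f => f ξ)).length < (L.filter (fun f => f z)).length := by
      intro h4
      rw [List.any_eq_true] at h4
      obtain ⟨f, hf, hfz⟩ := h4
      obtain ⟨hf1, hf2⟩ := List.mem_filter.mp hf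
      have hf3 : f ξ = false := by simpa using hf2
      clear h2 hg hk hf h1 hf2
      induction L with
      | nil => simp at hf1
      | cons g' L ih =>
        have hmono' : ∀ M : List ((Fin n → Bool) → Bool), (∀ g ∈ M, g ∈ L) →
            (M.filter (fun f => f ξ)).length ≤ (M.filter (fun f => f z)).length := by
          intro M
          induction M with
          | nil => simp
          | cons f' M ihM =>
            intro hM
            have h1 := ihM fun g hg => hM g (List.mem_cons_of_mem _ hg)
            by_cases h2 : f' ξ = true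
            · have h3 := hmono f' (List.mem_cons_of_mem _ (hM f' (by simp))) ξ z hξz h2
              simp only [List.filter_cons, h2, h3, if_true, List.length_cons]
              omega
            · rw [Bool.not_eq_true] at h2
              by_cases h3 : f' z = true
              · simp only [List.filter_cons, h2, h3, if_true, List.length_cons]
                simp only [Bool.false_eq_true, if_false]
                omega
              · rw [Bool.not_eq_true] at h3
                simp only [List.filter_cons, h2, h3, Bool.false_eq_true, if_false]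
                exact h1
        rcases List.mem_cons.mp hf1 with h4 | h4
        · rw [← h4]
          have h5 := hmono' L fun _ h => h
          simp only [List.filter_cons, hf3, hfz, if_true, List.length_cons]
          simp only [Bool.false_eq_true, if_false]
          omega
        · have h5 := ih (fun g hg => hL g (List.mem_cons_of_mem _ hg))
            (fun g hg => hmono g (List.mem_cons_of_mem _ hg)) h4
          by_cases h2 : g' ξ = true
          · have h3 := hmono g' (by simp) ξ z hξz h2
            simp only [List.filter_cons, h2, h3, if_true, List.length_cons]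
            omega
          · rw [Bool.not_eq_true] at h2
            by_cases h3 : g' z = true
            · simp only [List.filter_cons, h2, h3, if_true, List.length_cons]
              simp only [Bool.false_eq_true, if_false]
              omega
            · rw [Bool.not_eq_true] at h3
              simp only [List.filter_cons, h2, h3, Bool.false_eq_true, if_false]
              exact h5
    constructor
    · intro h4
      rw [Bool.or_eq_true]
      by_cases h5 : (L.filter (fun f => !(f ξ))).any (fun f => f z) = true
      · exact Or.inl h5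
      · exact Or.inr ((h2 (Bool.eq_false_iff.mpr h5)) ▸ h4)
    · intro h4 h5
      apply h3
      by_contra h6
      have h7 := h2 (Bool.eq_false_iff.mpr h6)
      rw [Bool.or_eq_true] at h4
      rcases h4 with h4 | h4
      · exact h6 h4
      · rw [← h7, h5] at h4
        exact absurd h4 (by simp)

/-- **Formulas with few wires into further gates, on average.** -/
theorem HardA.formula {S : ℕ} (hS : 2 ≤ S) (hn : n ≤ 4 * S) {f : (Fin n → Bool) → Bool}
    (hC : HardA S f) (U : Finset (Fin n)) (s e : ℕ) (he : 1 ≤ e) :
    ∃ (α : Fin n → Bool) (N : ℕ) (X : Fin N → (Fin n → Bool)), 0 < N ∧ (∀ i, Agr U α (X i)) ∧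
      ∀ F : GFm n, F.size ≤ s →
        (U.card : ℝ) * (agree X (fun x => F.eval x) f - 1 / 2 - 1 / e) ≤
          ((200 * (Nat.log 2 s + e + Nat.log 2 S)) ^ 200 : ℕ) * ((F.wires U + 1 : ℕ) : ℝ) := by
  have hL : 1 ≤ Nat.log 2 S := Nat.log_pos (by norm_num) hS
  obtain ⟨α, N, X, hN, hX, hα⟩ := hC U (3 * (Nat.log 2 s + 1) + (Nat.log 2 S + 6) + 1) e he
  refine ⟨α, N, X, hN, hX, fun F hF => ?_⟩
  by_cases hbig : U.card ≤ F.wires U + 1
  · exact triv_real he (Nat.one_le_pow _ _ (by omega)) hbig (agree_le_one hN X _ f) hN
  · push Not at hbig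
    have hUn : U.card ≤ n := by
      have := card_le_univ U
      rwa [Fintype.card_fin] at this
    obtain ⟨L, h1, h2, h3⟩ := g_det (U := U) (α := α) F
    have hs : s + 1 ≤ 2 ^ (Nat.log 2 s + 1) := Nat.lt_pow_succ_log_self (by norm_num) s
    have hS' : S + 1 ≤ 2 ^ (Nat.log 2 S + 1) := Nat.lt_pow_succ_log_self (by norm_num) S
    have hd : ∀ f ∈ L, Mo f (3 * (Nat.log 2 s + 1)) :=
      fun f hf => spira _ f ((h2 f hf).mono (by omega))
    have hk : L.length ≤ 2 ^ (Nat.log 2 S + 6) := by
      have e1 : 2 ^ (Nat.log 2 S + 6) = 2 ^ (Nat.log 2 S + 1) * 32 := by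
        rw [show Nat.log 2 S + 6 = (Nat.log 2 S + 1) + 5 by ring, pow_add 2 _ 5]
        norm_num
      omega
    have h4 := hα _ _ (dev_det hd hk h3)
    have h5 : ((140 * (3 * (Nat.log 2 s + 1) + (Nat.log 2 S + 6) + 1 + e + Nat.log 2 S)) ^ 140 : ℕ) *
        (L.length + 1 : ℝ) ≤ ((200 * (Nat.log 2 s + e + Nat.log 2 S)) ^ 200 : ℕ) *
          ((F.wires U + 1 : ℕ) : ℝ) := by
      have h6 : (140 * (3 * (Nat.log 2 s + 1) + (Nat.log 2 S + 6) + 1 + e + Nat.log 2 S)) ^ 140 *
          (L.length + 1) ≤ (200 * (Nat.log 2 s + e + Nat.log 2 S)) ^ 200 * (F.wires U + 1) := by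
        obtain ⟨X, hX⟩ : ∃ X, X = Nat.log 2 s + e + Nat.log 2 S := ⟨_, rfl⟩
        have hX1 : 1 ≤ X := by omega
        rw [← hX]
        calc (140 * (3 * (Nat.log 2 s + 1) + (Nat.log 2 S + 6) + 1 + e + Nat.log 2 S)) ^ 140 *
              (L.length + 1) ≤ (1680 * X) ^ 140 * (5 * (F.wires U + 1)) :=
              Nat.mul_le_mul (Nat.pow_le_pow_left (by omega) _) (by omega)
          _ = (1680 ^ 140 * 5) * X ^ 140 * (F.wires U + 1) := by rw [mul_pow]; ring
          _ ≤ 200 ^ 200 * X ^ 200 * (F.wires U + 1) :=
              Nat.mul_le_mul_right _ (Nat.mul_le_mul (by norm_num)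
                (Nat.pow_le_pow_right hX1 (by norm_num)))
          _ = _ := by rw [mul_pow]
      exact_mod_cast h6
    exact h4.trans h5

end Pool.Agent.T9h19.RM
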