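import Mathlib
import Pool.Agent.T9h19.RM.GenCirc
import Pool.Agent.T9h19.RM.Params

/-!
# Monotone circuits of small depth for the generation function
-/

set_option autoImplicit false

namespace Pool.Agent.T9h19.RM

open Pool.Agent.H540R2 Pool.Agent.H540R2.Circuit Pool.Agent.W953.NW

variable {N : ℕ}

open Classical in
/-- the disjunction of `2 ^ k` functions -/
lemma Av.orTree (e : ℕ) : ∀ (k : ℕ) (P : Circuit N) (G : ℕ → BF N),
    (∀ j < 2 ^ k, Av P (G j) e) →
    ∃ P' : Circuit N, Stp P P' (2 ^ k - 1) 0 ∧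
      Av P' (fun x => decide (∃ j < 2 ^ k, G j x = true)) (e + k) := by
  intro k
  induction k with
  | zero =>
    intro P G h
    refine ⟨P, Stp.refl _ _ _, (h 0 (by norm_num)).congr fun x => ?_⟩
    rw [Bool.eq_iff_iff, decide_eq_true_iff]
    constructor
    · intro h1
      exact ⟨0, by norm_num, h1⟩
    · rintro ⟨j, hj, h1⟩
      rw [pow_zero, Nat.lt_one_iff] at hj
      subst hj
      exact h1
  | succ k ih =>
    intro P G h
    have hk : 2 ^ (k + 1) = 2 ^ k + 2 ^ k := by rw [pow_succ]; ring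
    have hk1 : 1 ≤ 2 ^ k := Nat.one_le_two_pow
    obtain ⟨P1, s1, a1⟩ := ih P G (fun j hj => h j (by omega))
    obtain ⟨P2, s2, a2⟩ := ih P1 (fun j => G (2 ^ k + j))
      (fun j hj => (h (2 ^ k + j) (by omega)).ext s1.1)
    obtain ⟨P3, s3, a3⟩ := (a1.ext s2.1).or a2
    refine ⟨P3, ((s1.trans s2).trans s3).le (by omega) (by omega),
      (a3.congr fun x => ?_).mono (by simp)⟩
    rw [Bool.eq_iff_iff, decide_eq_true_iff, Bool.or_eq_true, decide_eq_true_iff,
      decide_eq_true_iff]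
    constructor
    · rintro (⟨j, hj, h1⟩ | ⟨j, hj, h1⟩)
      · exact ⟨j, by omega, h1⟩
      · exact ⟨2 ^ k + j, by omega, h1⟩
    · rintro ⟨j, hj, h1⟩
      by_cases hj' : j < 2 ^ k
      · exact Or.inl ⟨j, hj', h1⟩
      · refine Or.inr ⟨j - 2 ^ k, by omega, ?_⟩
        rw [show 2 ^ k + (j - 2 ^ k) = j by omega]
        exact h1

open Classical in
/-- the conjunction of `2 ^ k` functions -/
lemma Av.andTree (e : ℕ) : ∀ (k : ℕ) (P : Circuit N) (G : ℕ → BF N),
    (∀ j < 2 ^ k, Av P (G j) e) →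
    ∃ P' : Circuit N, Stp P P' (2 ^ k - 1) 0 ∧
      Av P' (fun x => decide (∀ j < 2 ^ k, G j x = true)) (e + k) := by
  intro k
  induction k with
  | zero =>
    intro P G h
    refine ⟨P, Stp.refl _ _ _, (h 0 (by norm_num)).congr fun x => ?_⟩
    rw [Bool.eq_iff_iff, decide_eq_true_iff]
    constructor
    · intro h1 j hj
      rw [pow_zero, Nat.lt_one_iff] at hj
      subst hj
      exact h1
    · intro h1
      exact h1 0 (by norm_num)
  | succ k ih =>
    intro P G h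
    have hk : 2 ^ (k + 1) = 2 ^ k + 2 ^ k := by rw [pow_succ]; ring
    have hk1 : 1 ≤ 2 ^ k := Nat.one_le_two_pow
    obtain ⟨P1, s1, a1⟩ := ih P G (fun j hj => h j (by omega))
    obtain ⟨P2, s2, a2⟩ := ih P1 (fun j => G (2 ^ k + j))
      (fun j hj => (h (2 ^ k + j) (by omega)).ext s1.1)
    obtain ⟨P3, s3, a3⟩ := (a1.ext s2.1).and a2
    refine ⟨P3, ((s1.trans s2).trans s3).le (by omega) (by omega),
      (a3.congr fun x => ?_).mono (by simp)⟩
    rw [Bool.eq_iff_iff, decide_eq_true_iff, Bool.and_eq_true, decide_eq_true_iff,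
      decide_eq_true_iff]
    constructor
    · rintro ⟨h1, h2⟩ j hj
      by_cases hj' : j < 2 ^ k
      · exact h1 j hj'
      · have := h2 (j - 2 ^ k) (by omega)
        rwa [show 2 ^ k + (j - 2 ^ k) = j by omega] at this
    · intro h1
      exact ⟨fun j hj => h1 j (by omega), fun j hj => h1 (2 ^ k + j) (by omega)⟩

section gen

variable {h μ : ℕ} (ν : Vr h (2 ^ μ) → Fin N)

/-- one level -/
lemma DF.stepD (P : Circuit N) (k i j e : ℕ) (h1 : ∀ c, Av P (DF ν k (i + 1) j c) e)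
    (h2 : ∀ c, Av P (DF ν k i (j + 1) c) e) (c : Fin (2 ^ μ)) :
    ∃ P' : Circuit N, Stp P P' (2 ^ μ * 2 ^ μ * 3) 0 ∧
      Av P' (DF ν (k + 1) i j c) (e + (2 * μ + 2)) := by
  classical
  have hm : 2 ^ μ * 2 ^ μ = 2 ^ (2 * μ) := by rw [← pow_add]; congr 1; ring
  obtain ⟨P1, s1, a1⟩ := Stp.all P (fun q x => if hq : q < 2 ^ μ * 2 ^ μ then
      (x (ν (.inr (.inl (nd h i j, (dec (2 ^ μ) q hq).1, (dec (2 ^ μ) q hq).2, c)))) &&
        DF ν k (i + 1) j (dec (2 ^ μ) q hq).1 x) && DF ν k i (j + 1) (dec (2 ^ μ) q hq).2 x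
        else false)
    2 0 (e + 2) (2 ^ (2 * μ)) (by
      intro q hq P' hP'
      rw [← hm] at hq
      obtain ⟨P1, s1, a1⟩ := (Av.var P'
        (ν (.inr (.inl (nd h i j, (dec (2 ^ μ) q hq).1, (dec (2 ^ μ) q hq).2, c)))) e).and
        ((h1 (dec (2 ^ μ) q hq).1).ext hP')
      obtain ⟨P2, s2, a2⟩ := a1.and (((h2 (dec (2 ^ μ) q hq).2).ext hP').ext s1.1)
      refine ⟨P2, s1.trans s2, (a2.congr fun x => ?_).mono (by simp)⟩
      rw [dif_pos hq])
  obtain ⟨P2, s2, a2⟩ := Av.orTree (e + 2) (2 * μ) P1 _ a1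
  refine ⟨P2, (s1.trans s2).le (by rw [hm]; omega) (by omega),
    (a2.congr fun x => ?_).mono (by omega)⟩
  unfold DF
  congr 1
  simp only [Der]
  apply propext
  constructor
  · rintro ⟨q, hq, h3⟩
    rw [← hm] at hq
    rw [dif_pos hq] at h3
    simp only [Bool.and_eq_true] at h3
    obtain ⟨⟨h4, h5⟩, h6⟩ := h3
    exact ⟨_, _, h4, of_decide_eq_true h5, of_decide_eq_true h6⟩
  · rintro ⟨c1, c2, h4, h5, h6⟩
    obtain ⟨q, hq, hd⟩ := exists_dec (c1, c2)
    refine ⟨q, by rw [← hm]; exact hq, ?_⟩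
    rw [dif_pos hq, hd]
    simp only [Bool.and_eq_true]
    exact ⟨⟨h4, decide_eq_true h5⟩, decide_eq_true h6⟩

/-- all levels -/
lemma DF.levelsD (P : Circuit N) (k : ℕ) (hk : k ≤ h) : ∃ P' : Circuit N,
    Stp P P' (k * ((h + 1) * (2 ^ μ * (2 ^ μ * 2 ^ μ * 3)))) 0 ∧
      ∀ i j, i + j + k = h → ∀ c, Av P' (DF ν k i j c) (k * (2 * μ + 2)) := by
  classical
  induction k with
  | zero =>
    refine ⟨P, Stp.refl _ _ _, fun i j _ c => (Av.var P (ν (.inl (nd h i j, c))) _).congr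
      fun x => ?_⟩
    unfold DF
    rw [Bool.eq_iff_iff, decide_eq_true_iff]
    exact Iff.rfl
  | succ k ih =>
    obtain ⟨P1, s1, a1⟩ := ih (by omega)
    have hd : (k + 1) * (2 * μ + 2) = k * (2 * μ + 2) + (2 * μ + 2) := by ring
    -- for fixed `i`, all copies
    have h3 : ∀ i < h + 1, ∀ P', Ext P1 P' → ∃ P'' : Circuit N,
        Stp P' P'' (2 ^ μ * (2 ^ μ * 2 ^ μ * 3)) 0 ∧
        ∀ c, i + (k + 1) ≤ h → Av P'' (DF ν (k + 1) i (h - (k + 1) - i) c)
          ((k + 1) * (2 * μ + 2)) := by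
      intro i _ P' hP'
      by_cases hi : i + (k + 1) ≤ h
      · obtain ⟨P'', p1, p2⟩ := Stp.all P' (fun q x => if hq : q < 2 ^ μ then
          DF ν (k + 1) i (h - (k + 1) - i) ⟨q, hq⟩ x else false) (2 ^ μ * 2 ^ μ * 3) 0
          ((k + 1) * (2 * μ + 2)) (2 ^ μ) (by
            intro q hq Q hQ
            obtain ⟨Q', q1, q2⟩ := DF.stepD ν Q k i (h - (k + 1) - i) (k * (2 * μ + 2))
              (fun c => ((a1 (i + 1) (h - (k + 1) - i) (by omega) c).ext hP').ext hQ)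
              (fun c => ((a1 i (h - (k + 1) - i + 1) (by omega) c).ext hP').ext hQ) ⟨q, hq⟩
            refine ⟨Q', q1, (q2.congr fun x => ?_).mono (by rw [hd])⟩
            rw [dif_pos hq])
        refine ⟨P'', p1, fun c _ => ?_⟩
        have := p2 c.val c.isLt
        refine this.congr fun x => ?_
        rw [dif_pos c.isLt]
      · exact ⟨P', Stp.refl _ _ _, fun c hi' => absurd hi' hi⟩
    -- all `i`
    have h4 : ∀ r ≤ h + 1, ∃ P' : Circuit N, Stp P1 P' (r * (2 ^ μ * (2 ^ μ * 2 ^ μ * 3))) 0 ∧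
        ∀ i < r, ∀ c, i + (k + 1) ≤ h → Av P' (DF ν (k + 1) i (h - (k + 1) - i) c)
          ((k + 1) * (2 * μ + 2)) := by
      intro r
      induction r with
      | zero =>
        intro _
        exact ⟨P1, Stp.refl _ _ _, fun i hi => absurd hi (Nat.not_lt_zero i)⟩
      | succ r ihr =>
        intro hr
        obtain ⟨P2, s2, a2⟩ := ihr (by omega)
        obtain ⟨P3, s3, a3⟩ := h3 r (by omega) P2 s2.1
        refine ⟨P3, (s2.trans s3).le (by rw [Nat.succ_mul]) (by omega), fun i hi c hic => ?_⟩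
        rcases Nat.lt_succ_iff_lt_or_eq.mp hi with h' | rfl
        · exact (a2 i h' c hic).ext s3.1
        · exact a3 c hic
    obtain ⟨P2, s2, a2⟩ := h4 (h + 1) le_rfl
    refine ⟨P2, (s1.trans s2).le (le_of_eq (by ring)) (by omega), fun i j hij c => ?_⟩
    have := a2 i (by omega) c (by omega)
    rwa [show h - (k + 1) - i = j by omega] at this

/-- **Monotone circuits of small depth for the generation function.** -/
lemma gen_circD (P : Circuit N) : ∃ P' : Circuit N,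
    Stp P P' (h * ((h + 1) * (2 ^ μ * (2 ^ μ * 2 ^ μ * 3))) + 2 ^ μ * 2) 0 ∧
      Av P' (fun x => gen h (2 ^ μ) (fun v => x (ν v))) (h * (2 * μ + 2) + (μ + 1)) := by
  classical
  obtain ⟨P1, s1, a1⟩ := DF.levelsD ν P h le_rfl
  obtain ⟨P2, s2, a2⟩ := Stp.all P1 (fun q x => if hq : q < 2 ^ μ then
      DF ν h 0 0 ⟨q, hq⟩ x && x (ν (.inr (.inr ⟨q, hq⟩))) else false) 1 0
      (h * (2 * μ + 2) + 1) (2 ^ μ) (by
    intro q hq P' hP'
    obtain ⟨P2, s2, a2⟩ := ((a1 0 0 (by omega) ⟨q, hq⟩).ext hP').and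
      (Av.var P' (ν (.inr (.inr ⟨q, hq⟩))) (h * (2 * μ + 2)))
    refine ⟨P2, s2, (a2.congr fun x => ?_).mono (by simp)⟩
    rw [dif_pos hq])
  obtain ⟨P3, s3, a3⟩ := Av.orTree _ μ P2 _ a2
  refine ⟨P3, ((s1.trans s2).trans s3).le (by omega) (by omega),
    (a3.congr fun x => ?_).mono (by omega)⟩
  unfold gen
  congr 1
  apply propext
  constructor
  · rintro ⟨q, hq, h3⟩
    rw [dif_pos hq] at h3
    simp only [Bool.and_eq_true] at h3
    exact ⟨⟨q, hq⟩, of_decide_eq_true h3.1, h3.2⟩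
  · rintro ⟨c, h3, h4⟩
    refine ⟨c.val, c.isLt, ?_⟩
    rw [dif_pos c.isLt]
    simp only [Bool.and_eq_true]
    exact ⟨decide_eq_true h3, h4⟩

end gen

end Pool.Agent.T9h19.RM
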