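import Mathlib
import Pool.Agent.T9h19.RM.Avg

/-!
# One-sided approximation of disjunctions and conjunctions of generation functions
-/

set_option autoImplicit false

namespace Pool.Agent.T9h19.RM

open Finset

section prod

variable {B V : Type} [Fintype B] [DecidableEq B] {M : ℕ}

/-- the first `j` blocks are filled -/
def preG (enc : B → V → Bool) (f₀ : V → Bool) (y : Fin M → B) (j : ℕ) : Fin M → V → Bool :=
  fun i => if i.val < j then enc (y i) else f₀

variable {enc : B → V → Bool} {f₀ : V → Bool}

lemma preG_succ (y : Fin M → B) (j : Fin M) :
    preG enc f₀ y (j.val + 1) = Function.update (preG enc f₀ y j.val) j (enc (y j)) := by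
  funext i
  unfold preG
  by_cases hij : i = j
  · subst hij
    rw [Function.update_self, if_pos (Nat.lt_succ_self _)]
  · rw [Function.update_of_ne hij]
    have h1 : i.val ≠ j.val := fun h => hij (Fin.ext h)
    by_cases h2 : i.val < j.val
    · rw [if_pos (by omega), if_pos h2]
    · rw [if_neg (by omega), if_neg h2]

lemma preG_update (y : Fin M → B) (j : Fin M) (b : B) :
    preG enc f₀ (Function.update y j b) j.val = preG enc f₀ y j.val := by
  funext i
  unfold preG
  by_cases h : i.val < j.val
  · rw [if_pos h, if_pos h, Function.update_of_ne (fun h' => by subst h'; omega)]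
  · rw [if_neg h, if_neg h]

lemma preG_full (y : Fin M → B) : preG enc f₀ y M = fun i => enc (y i) := by
  funext i
  unfold preG
  rw [if_pos i.isLt]

/-- the fraction is multiplied by at most `1 / q` in each step -/
lemma prod_bound (Q : (Fin M → V → Bool) → Prop) [DecidablePred Q] (q : ℕ)
    (hmono : ∀ (y : Fin M → B) (j : Fin M), Q (preG enc f₀ y (j.val + 1)) →
      Q (preG enc f₀ y j.val))
    (hstep : ∀ (y : Fin M → B) (j : Fin M), Q (preG enc f₀ y j.val) →
      (univ.filter (fun b : B => Q (Function.update (preG enc f₀ y j.val) j (enc b)))).card * q ≤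
        Fintype.card B) (hB : 0 < Fintype.card B) :
    (univ.filter (fun y : Fin M → B => Q (fun i => enc (y i)))).card * q ^ M ≤
      Fintype.card B ^ M := by
  have key : ∀ j ≤ M, (univ.filter (fun y : Fin M → B => Q (preG enc f₀ y j))).card * q ^ j ≤
      Fintype.card B ^ M := by
    intro j
    induction j with
    | zero =>
      intro _
      rw [pow_zero, mul_one]
      refine (card_le_univ _).trans ?_
      rw [Fintype.card_fun, Fintype.card_fin]
    | succ j ih =>
      intro hj
      have ih' := ih (by omega)
      set jj : Fin M := ⟨j, by omega⟩ with hjj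
      set H : (Fin M → B) → B → ℕ := fun y b =>
        if Q (preG enc f₀ y j) ∧ Q (Function.update (preG enc f₀ y j) jj (enc b)) then 1 else 0
        with hH
      have hHu : ∀ y b b', H (Function.update y jj b') b = H y b := by
        intro y b b'
        have := preG_update (enc := enc) (f₀ := f₀) y jj b'
        simp only [hjj] at this
        simp only [hH, hjj, this]
      have e1 : (univ.filter (fun y : Fin M → B => Q (preG enc f₀ y (j + 1)))).card ≤
          ∑ y : Fin M → B, H y (y jj) := by
        rw [card_filter]
        refine sum_le_sum fun y _ => ?_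
        by_cases h : Q (preG enc f₀ y (j + 1))
        · rw [if_pos h]
          have h1 : Q (preG enc f₀ y j) := hmono y jj h
          have h2 : Q (Function.update (preG enc f₀ y j) jj (enc (y jj))) := by
            have := preG_succ (enc := enc) (f₀ := f₀) y jj
            rw [← this]
            exact h
          simp only [hH]
          rw [if_pos ⟨h1, h2⟩]
        · rw [if_neg h]
          exact Nat.zero_le _
      have e2 : ∀ y : Fin M → B, (∑ b : B, H y b) * q ≤
          Fintype.card B * (if Q (preG enc f₀ y j) then 1 else 0) := by
        intro y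
        by_cases h : Q (preG enc f₀ y j)
        · rw [if_pos h, mul_one]
          have h1 : ∑ b : B, H y b = (univ.filter (fun b : B =>
              Q (Function.update (preG enc f₀ y j) jj (enc b)))).card := by
            rw [card_filter]
            refine sum_congr rfl fun b _ => ?_
            simp only [hH, h, true_and]
          rw [h1]
          exact hstep y jj h
        · rw [if_neg h]
          have h1 : ∑ b : B, H y b = 0 := by
            refine sum_eq_zero fun b _ => ?_
            simp only [hH, h, false_and, if_false]
          rw [h1]
          simp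
      have e3 := resample jj H hHu
      have e4 : Fintype.card B * ((univ.filter (fun y : Fin M → B =>
            Q (preG enc f₀ y (j + 1)))).card * q) ≤
          Fintype.card B * (univ.filter (fun y : Fin M → B => Q (preG enc f₀ y j))).card := by
        calc Fintype.card B * ((univ.filter (fun y : Fin M → B =>
              Q (preG enc f₀ y (j + 1)))).card * q)
            ≤ Fintype.card B * ((∑ y : Fin M → B, H y (y jj)) * q) :=
              Nat.mul_le_mul_left _ (Nat.mul_le_mul_right _ e1)
          _ = (Fintype.card B * ∑ y : Fin M → B, H y (y jj)) * q := by ring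
          _ = ∑ y : Fin M → B, (∑ b : B, H y b) * q := by rw [e3, sum_mul]
          _ ≤ ∑ y : Fin M → B, Fintype.card B * (if Q (preG enc f₀ y j) then 1 else 0) :=
              sum_le_sum fun y _ => e2 y
          _ = _ := by rw [← mul_sum, card_filter]
      have e5 := Nat.le_of_mul_le_mul_left e4 hB
      calc (univ.filter (fun y : Fin M → B => Q (preG enc f₀ y (j + 1)))).card * q ^ (j + 1)
          = ((univ.filter (fun y : Fin M → B => Q (preG enc f₀ y (j + 1)))).card * q) * q ^ j := by
            ring
        _ ≤ (univ.filter (fun y : Fin M → B => Q (preG enc f₀ y j))).card * q ^ j :=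
            Nat.mul_le_mul_right _ e5
        _ ≤ _ := ih'
  have h1 := key M le_rfl
  simp only [preG_full] at h1
  exact h1

end prod

lemma Mo.evalMono {σ : Type} {f : (σ → Bool) → Bool} {d : ℕ} (h : Mo f d) {x y : σ → Bool}
    (hxy : ∀ i, x i = true → y i = true) (hx : f x = true) : f y = true := by
  obtain ⟨F, _, hF⟩ := h
  rw [← hF] at hx ⊢
  exact F.eval_mono hxy hx

section blocks

variable {a M d : ℕ}

/-- the variables of one block as the variables of a formula -/
lemma block_mo {D : (Fin M × Va a → Bool) → Bool} (hD : Mo D d) (z : Fin M → Va a → Bool)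
    (j : Fin M) : Mo (fun w : Va a → Bool => D (fun p => Function.update z j w p.1 p.2)) d := by
  refine (hD.sub (fun p : Fin M × Va a => if p.1 = j then MF.var p.2 else MF.const (z p.1 p.2))
    (fun p => ?_)).congr fun w => ?_
  · by_cases h : p.1 = j
    · simp [h, MF.depth]
    · simp [h, MF.depth]
  · congr 1
    funext p
    by_cases h : p.1 = j
    · rw [if_pos h, h, Function.update_self]
      rfl
    · rw [if_neg h, Function.update_of_ne h]
      rfl

/-- **Approximating a disjunction from above.** -/
theorem above_or {D : (Fin M × Va a → Bool) → Bool} (hD : Mo D d) (hd : a + 1 + d + 1 < 2 ^ a)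
    (h : ∀ x : Fin M × Va a → Bool, (∃ c, ga a (fun v => x (c, v)) = true) → D x = true) :
    (univ.filter (fun y : Fin M → Ba a => D (fun p => eb (y p.1) p.2) = false)).card * 2 ^ M ≤
      Fintype.card (Ba a) ^ M := by
  have hB : 0 < Fintype.card (Ba a) := by
    have : Nonempty (Ba a) := ⟨fun _ _ => false⟩
    exact Fintype.card_pos
  refine prod_bound (enc := fun b : Ba a => eb b) (f₀ := fun _ => false)
    (fun z => D (fun p => z p.1 p.2) = false) 2 (fun y j hj => ?_) (fun y j _ => ?_) hB
  · by_contra hc
    rw [Bool.not_eq_false] at hc
    have h1 := hD.evalMono (x := fun p : Fin M × Va a =>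
      preG (fun b : Ba a => eb b) (fun _ => false) y j.val p.1 p.2)
      (y := fun p => preG (fun b : Ba a => eb b) (fun _ => false) y (j.val + 1) p.1 p.2)
      (fun p hp => by
        unfold preG at hp ⊢
        by_cases h2 : p.1.val < j.val
        · rw [if_pos h2] at hp
          rw [if_pos (by omega)]
          exact hp
        · rw [if_neg h2] at hp
          exact absurd hp (by simp)) hc
    rw [hj] at h1
    exact absurd h1 (by simp)
  · set z := preG (fun b : Ba a => eb b) (fun _ => false) y j.val with hz
    have hmo := block_mo hD z j
    rcases gen_avg2 a hmo hd with h1 | h1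
    · exfalso
      have h2 : (univ.filter (fun x : Aa a =>
          D (fun p => Function.update z j (ea x) p.1 p.2) = true)) = univ := by
        rw [filter_eq_self]
        intro x _
        refine h _ ⟨j, ?_⟩
        simp only [Function.update_self]
        exact gen_ea _
      rw [h2, card_univ] at h1
      have h3 : Fintype.card (Aa a) ≤ Fintype.card (Aa a) * 2 ^ a :=
        Nat.le_mul_of_pos_right _ (by positivity)
      omega
    · have h2 : (1 : ℕ) ≤ 2 ^ a := Nat.one_le_two_pow
      refine le_trans (Nat.mul_le_mul_left _ ?_) h1.le
      omega

/-- **Approximating a conjunction from below.** -/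
theorem below_and {D : (Fin M × Va a → Bool) → Bool} (hD : Mo D d) (ha : 1 ≤ a)
    (hd : a + 1 + d + 1 < 2 ^ a)
    (h : ∀ x : Fin M × Va a → Bool, D x = true → ∀ c, ga a (fun v => x (c, v)) = true) :
    (univ.filter (fun y : Fin M → Aa a => D (fun p => ea (y p.1) p.2) = true)).card * 2 ^ M ≤
      Fintype.card (Aa a) ^ M := by
  have hA : 0 < Fintype.card (Aa a) := by
    have : Nonempty (Aa a) := ⟨fun _ => 0⟩
    exact Fintype.card_pos
  refine prod_bound (enc := fun b : Aa a => ea b) (f₀ := fun _ => true)
    (fun z => D (fun p => z p.1 p.2) = true) 2 (fun y j hj => ?_) (fun y j _ => ?_) hA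
  · refine hD.evalMono (fun p hp => ?_) hj
    unfold preG at hp ⊢
    by_cases h2 : p.1.val < j.val
    · rw [if_pos (by omega)] at hp
      rw [if_pos h2]
      exact hp
    · rw [if_neg h2]
  · set z := preG (fun b : Aa a => ea b) (fun _ => true) y j.val with hz
    have hmo := block_mo hD z j
    rcases gen_avg2 a hmo hd with h1 | h1
    · have h2 : (2 : ℕ) ≤ 2 ^ a := by
        calc (2 : ℕ) = 2 ^ 1 := rfl
          _ ≤ 2 ^ a := Nat.pow_le_pow_right (by norm_num) ha
      exact le_trans (Nat.mul_le_mul_left _ h2) h1.le
    · exfalso
      have h2 : (univ.filter (fun x : Ba a =>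
          D (fun p => Function.update z j (eb x) p.1 p.2) = false)) = univ := by
        rw [filter_eq_self]
        intro x _
        rw [Bool.eq_false_iff]
        intro h3
        have h4 := h _ h3 j
        simp only [Function.update_self] at h4
        have h5 : ga a (fun v => eb x v) = false := gen_eb _
        rw [h5] at h4
        exact absurd h4 (by simp)
      rw [h2, card_univ] at h1
      have h3 : Fintype.card (Ba a) ≤ Fintype.card (Ba a) * (2 * 2 ^ a) :=
        Nat.le_mul_of_pos_right _ (by positivity)
      omega

end blocks

end Pool.Agent.T9h19.RM
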