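import Mathlib
import Pool.Agent.T9h19.RM.WCirc
import Pool.Agent.T9h19.RM.WProd
import Pool.Agent.T9h19.RM.OracU

/-!
# Nondeterministic simulation by circuits without NOT gates
-/

set_option autoImplicit false

namespace Pool.Agent.T9h19.RM

open Finset Pool.Agent.H540R2 Pool.Agent.H540R2.Circuit Pool.Agent.W953.NW

/-- the variables: `M` blocks and two selectors -/
abbrev Bv (a M : ℕ) : Type := (Fin M × Va a) ⊕ Bool

/-- the numbering of the variables -/
noncomputable def bnu (a M : ℕ) : Bv a M ≃ Fin (Fintype.card (Bv a M)) := Fintype.equivFin _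

open Classical in
/-- the function: a disjunction or a conjunction of generation functions -/
noncomputable def bfn (a M : ℕ) (x : Bv a M → Bool) : Bool :=
  (x (.inr true) && decide (∃ c, ga a (fun v => x (.inl (c, v))) = true)) ||
    (x (.inr false) && decide (∀ c, ga a (fun v => x (.inl (c, v))) = true))

lemma cost_le (a : ℕ) : (2 ^ a - 1) * ((2 ^ a - 1 + 1) *
    (2 ^ (11 * a + 30) * (2 ^ (11 * a + 30) * 2 ^ (11 * a + 30) * 3))) + 2 ^ (11 * a + 30) * 2 + 1 ≤
    wa a := gen_cost.cost_le' a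

/-- the circuit -/
lemma bfn_circuit (a M : ℕ) (hM : 1 ≤ M) : ∃ C : Circuit (Fintype.card (Bv a M)), C.Monotone ∧
    C.size ≤ M * (wa a + 3) + 1 ∧ C.depth ≤ 2 ^ a * (22 * a + 62) + Nat.clog 2 M + 2 ∧
    ∀ x, C.eval x = bfn a M (fun v => x (bnu a M v)) := by
  classical
  set N := Fintype.card (Bv a M) with hN
  set ν := bnu a M with hν
  have hw := cost_le a
  set cost := (2 ^ a - 1) * ((2 ^ a - 1 + 1) *
    (2 ^ (11 * a + 30) * (2 ^ (11 * a + 30) * 2 ^ (11 * a + 30) * 3))) + 2 ^ (11 * a + 30) * 2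
    with hcost
  set e := (2 ^ a - 1) * (2 * (11 * a + 30) + 2) + (11 * a + 30 + 1) with he
  have hee : e ≤ 2 ^ a * (22 * a + 62) := by
    have h1 : 1 ≤ 2 ^ a := Nat.one_le_two_pow
    obtain ⟨q, hq⟩ : ∃ q, 2 ^ a = q + 1 := ⟨2 ^ a - 1, by omega⟩
    rw [he, hq]
    have : q + 1 - 1 = q := by omega
    rw [this]
    nlinarith
  set k := Nat.clog 2 M with hk
  have hk1 : M ≤ 2 ^ k := Nat.le_pow_clog (by norm_num) _
  have hk2 : 2 ^ k ≤ 2 * M := by
    rcases Nat.lt_or_ge 1 M with h1 | h1
    · have h2 : 2 ^ (k - 1) < M := Nat.pow_pred_clog_lt_self (b := 2) (by norm_num) h1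
      have h3 : 1 ≤ k := Nat.clog_pos (by norm_num) h1
      have h4 : 2 ^ k = 2 * 2 ^ (k - 1) := by
        rw [← pow_succ', show k - 1 + 1 = k by omega]
      omega
    · have : M = 1 := by omega
      subst this
      rw [hk]
      simp
  obtain ⟨P1, s1, a1⟩ := Stp.all (Circuit.empty N) (fun j x => if hj : j < M then
      ga a (fun v => x (ν (.inl (⟨j, hj⟩, v)))) else false) cost 0 e M (by
    intro j hj P' _
    obtain ⟨P'', p1, p2⟩ := gen_circD (h := 2 ^ a - 1) (μ := 11 * a + 30)
      (fun v => ν (.inl (⟨j, hj⟩, v))) P'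
    refine ⟨P'', p1, p2.congr fun x => ?_⟩
    rw [dif_pos hj])
  obtain ⟨P2, s2, a2⟩ := Av.orTree e k P1 (fun j x => if hj : j < M then
      ga a (fun v => x (ν (.inl (⟨j, hj⟩, v)))) else false) (by
    intro j _
    by_cases hj : j < M
    · exact a1 j hj
    · refine (Av.const P1 false e).congr fun x => ?_
      rw [dif_neg hj])
  obtain ⟨P3, s3, a3⟩ := Av.andTree e k P2 (fun j x => if hj : j < M then
      ga a (fun v => x (ν (.inl (⟨j, hj⟩, v)))) else true) (by
    intro j _
    by_cases hj : j < M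
    · refine ((a1 j hj).ext s2.1).congr fun x => ?_
      rw [dif_pos hj, dif_pos hj]
    · refine (Av.const P2 true e).congr fun x => ?_
      rw [dif_neg hj])
  obtain ⟨P4, s4, a4⟩ := (Av.var P3 (ν (.inr true)) (e + k)).and (a2.ext s3.1)
  obtain ⟨P5, s5, a5⟩ := (Av.var P4 (ν (.inr false)) (e + k)).and (a3.ext s4.1)
  obtain ⟨P6, s6, a6⟩ := (a4.ext s5.1).or a5
  have hs := ((((s1.trans s2).trans s3).trans s4).trans s5).trans s6
  obtain ⟨C, c1, c2, c3, c4⟩ := a6.circuit
  have hs1 := hs.2.1
  have hs2 := hs.2.2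
  rw [empty_nots] at hs2
  have e3 : (Circuit.empty N).size = 0 := rfl
  refine ⟨C, (nots_eq_zero_iff C).mp (by omega), ?_, ?_, fun x => ?_⟩
  · rw [c1]
    have h1 : M * cost + M ≤ M * wa a := by
      calc M * cost + M = M * (cost + 1) := by ring
        _ ≤ _ := Nat.mul_le_mul_left _ hw
    have h2 : M * (wa a + 3) = M * wa a + 3 * M := by ring
    omega
  · refine c3.trans ?_
    simp only [max_self]
    omega
  · have hO : (∃ j < 2 ^ k, (if hj : j < M then
        ga a (fun v => x (ν (.inl (⟨j, hj⟩, v)))) else false) = true) ↔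
        ∃ c, ga a (fun v => x (ν (.inl (c, v)))) = true := by
      constructor
      · rintro ⟨j, _, h1⟩
        by_cases hj : j < M
        · rw [dif_pos hj] at h1
          exact ⟨⟨j, hj⟩, h1⟩
        · rw [dif_neg hj] at h1
          exact absurd h1 (by simp)
      · rintro ⟨c, h1⟩
        refine ⟨c.val, lt_of_lt_of_le c.isLt hk1, ?_⟩
        rw [dif_pos c.isLt]
        exact h1
    have hA : (∀ j < 2 ^ k, (if hj : j < M then
        ga a (fun v => x (ν (.inl (⟨j, hj⟩, v)))) else true) = true) ↔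
        ∀ c, ga a (fun v => x (ν (.inl (c, v)))) = true := by
      constructor
      · intro h1 c
        have := h1 c.val (lt_of_lt_of_le c.isLt hk1)
        rw [dif_pos c.isLt] at this
        exact this
      · intro h1 j _
        by_cases hj : j < M
        · rw [dif_pos hj]
          exact h1 ⟨j, hj⟩
        · rw [dif_neg hj]
    rw [c4, Bool.eq_iff_iff]
    unfold bfn
    rw [Bool.or_eq_true, Bool.and_eq_true, Bool.and_eq_true, decide_eq_true_iff,
      decide_eq_true_iff, Bool.or_eq_true, Bool.and_eq_true, Bool.and_eq_true,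
      decide_eq_true_iff, decide_eq_true_iff, hO, hA]


/-- the input with given blocks and selectors -/
noncomputable def binp {a M : ℕ} (z : Fin M × Va a → Bool) (s : Bool) :
    Fin (Fintype.card (Bv a M)) → Bool :=
  fun i => Sum.elim z (fun b => decide (b = s)) ((bnu a M).symm i)

lemma binp_mo {a M d : ℕ} {D : Circuit (Fintype.card (Bv a M))} (hD : D.Monotone)
    (hd : D.depth ≤ d) (s : Bool) : Mo (fun z : Fin M × Va a → Bool => D.eval (binp z s)) d := by
  refine (((circ_mo hD).mono hd).sub (fun i => Sum.elim (fun p => MF.var p)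
    (fun b => MF.const (decide (b = s))) ((bnu a M).symm i)) (fun i => ?_)).congr fun z => ?_
  · cases (bnu a M).symm i <;> rfl
  · congr 1
    funext i
    unfold binp
    cases (bnu a M).symm i <;> rfl

lemma bfn_or {a M : ℕ} (z : Fin M × Va a → Bool) :
    bfn a M (fun v => binp z true (bnu a M v)) = true ↔
      ∃ c, ga a (fun v => z (c, v)) = true := by
  unfold bfn binp
  simp

lemma bfn_and {a M : ℕ} (z : Fin M × Va a → Bool) :
    bfn a M (fun v => binp z false (bnu a M v)) = true ↔
      ∀ c, ga a (fun v => z (c, v)) = true := by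
  unfold bfn binp
  simp

/-- counting -/
lemma count_cover {W : Type} [Fintype W] {N M : ℕ} (hN : 0 < N) (P : W → Fin N → Prop)
    [∀ w, DecidablePred (P w)] (h1 : ∀ i, ∃ w, P w i)
    (h2 : ∀ w, 2 ^ M * (univ.filter (P w)).card ≤ N) : 2 ^ M ≤ Fintype.card W := by
  classical
  have h3 : N ≤ ∑ w, (univ.filter (P w)).card := by
    have h4 : (univ : Finset (Fin N)) ⊆ (univ : Finset W).biUnion (fun w => univ.filter (P w)) := by
      intro i _
      obtain ⟨w, hw⟩ := h1 i
      exact mem_biUnion.mpr ⟨w, mem_univ _, mem_filter.mpr ⟨mem_univ _, hw⟩⟩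
    have h5 := (card_le_card h4).trans card_biUnion_le
    rwa [card_univ, Fintype.card_fin] at h5
  have h4 : N * 2 ^ M ≤ N * Fintype.card W := by
    calc N * 2 ^ M ≤ (∑ w, (univ.filter (P w)).card) * 2 ^ M := Nat.mul_le_mul_right _ h3
      _ = ∑ w, 2 ^ M * (univ.filter (P w)).card := by
          rw [sum_mul]
          exact sum_congr rfl fun w _ => mul_comm _ _
      _ ≤ ∑ _w : W, N := sum_le_sum fun w _ => h2 w
      _ = N * Fintype.card W := by rw [sum_const, card_univ, smul_eq_mul, mul_comm]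
  exact Nat.le_of_mul_le_mul_left h4 hN

/-- **One-sided approximation by circuits of small depth without NOT gates.** -/
theorem one_sided (S d : ℕ) (hS : 1 ≤ S) (hd : 1 ≤ d) : ∃ (n : ℕ) (C : Circuit n) (M : ℕ),
    C.Monotone ∧ C.size ≤ S ∧ n ≤ 4 * S ∧
    C.depth ≤ 3000 * (d * (Nat.log 2 d + 1) + Nat.log 2 S) ∧ S ≤ (60 * d) ^ 60 * (M + 1) ∧
    (∃ (N : ℕ) (X : Fin N → (Fin n → Bool)), 0 < N ∧ (∀ i, C.eval (X i) = false) ∧
      ∀ D : Circuit n, D.Monotone → D.depth ≤ d → (∀ x, C.eval x = true → D.eval x = true) →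
        2 ^ M * (univ.filter (fun i => D.eval (X i) = false)).card ≤ N) ∧
    (∃ (N : ℕ) (X : Fin N → (Fin n → Bool)), 0 < N ∧ (∀ i, C.eval (X i) = true) ∧
      ∀ D : Circuit n, D.Monotone → D.depth ≤ d → (∀ x, D.eval x = true → C.eval x = true) →
        2 ^ M * (univ.filter (fun i => D.eval (X i) = true)).card ≤ N) := by
  classical
  set a := Nat.clog 2 (2 * (d + 3)) with ha
  have ha1 : 2 * (d + 3) ≤ 2 ^ a := Nat.le_pow_clog (by norm_num) _
  have hapos : 1 ≤ a := Nat.clog_pos (by norm_num) (by omega)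
  have hpow : 2 ^ a = 2 * 2 ^ (a - 1) := by
    rw [← pow_succ', show a - 1 + 1 = a by omega]
  have ha2 : 2 ^ a ≤ 16 * d := by
    have h4 : 1 < 2 * (d + 3) := by omega
    have h2 : 2 ^ (a - 1) < 2 * (d + 3) := Nat.pow_pred_clog_lt_self (b := 2) (by norm_num) h4
    omega
  have ha3 : a + 1 + d + 1 < 2 ^ a := by
    have h1 : a - 1 < 2 ^ (a - 1) := Nat.lt_two_pow_self
    omega
  have ha4 : a ≤ Nat.log 2 d + 4 := by
    have h1 : d < 2 ^ (Nat.log 2 d + 1) := Nat.lt_pow_succ_log_self (by norm_num) d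
    apply Nat.clog_le_of_le_pow
    have h2 : 2 ^ (Nat.log 2 d + 4) = 8 * 2 ^ (Nat.log 2 d + 1) := by
      rw [show Nat.log 2 d + 4 = (Nat.log 2 d + 1) + 3 by ring, pow_add 2 _ 3]
      ring
    omega
  obtain ⟨w, hw⟩ : ∃ w, w = wa a := ⟨_, rfl⟩
  have hw1 : 1 ≤ w := hw ▸ wa_pos a
  obtain ⟨M, hM⟩ : ∃ M, M = (S - 1) / (w + 3) := ⟨_, rfl⟩
  have hSM : S ≤ (w + 3) * (M + 1) := by
    have := Nat.lt_mul_div_succ (S - 1) (show 0 < w + 3 by omega)
    rw [← hM] at this
    omega
  have hMS : M * (w + 3) + 1 ≤ S := by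
    have := Nat.div_mul_le_self (S - 1) (w + 3)
    rw [← hM] at this
    omega
  have hwd : w + 3 ≤ (60 * d) ^ 60 := by
    have e1 : w = (2 ^ a) ^ 35 * 2 ^ 94 := by
      rw [hw]
      unfold wa
      rw [← pow_mul, ← pow_add]
      congr 1
      ring
    have h1 : 1 ≤ d ^ 35 := Nat.one_le_pow _ _ hd
    have e2 : w ≤ (16 ^ 35 * 2 ^ 94) * d ^ 35 := by
      rw [e1]
      calc (2 ^ a) ^ 35 * 2 ^ 94 ≤ (16 * d) ^ 35 * 2 ^ 94 :=
            Nat.mul_le_mul_right _ (Nat.pow_le_pow_left ha2 35)
        _ = _ := by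
          rw [mul_pow]
          ring
    calc w + 3 ≤ (16 ^ 35 * 2 ^ 94) * d ^ 35 + 3 * d ^ 35 := by omega
      _ = (16 ^ 35 * 2 ^ 94 + 3) * d ^ 35 := by ring
      _ ≤ 60 ^ 60 * d ^ 60 := Nat.mul_le_mul (by norm_num)
          (Nat.pow_le_pow_right hd (by norm_num))
      _ = _ := by rw [mul_pow]
  have hSd : S ≤ (60 * d) ^ 60 * (M + 1) := hSM.trans (Nat.mul_le_mul_right _ hwd)
  rcases Nat.eq_zero_or_pos M with hM0 | hMpos
  · -- one variable
    have hev : ∀ x, ((Circuit.empty 1).setOut (.var 0) (fun j hj => absurd rfl hj)).eval x = x 0 :=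
      fun x => rfl
    refine ⟨1, (Circuit.empty 1).setOut (.var 0) (fun j hj => absurd rfl hj), M, ?_, ?_, ?_, ?_,
      hSd, ⟨1, fun _ _ => false, one_pos, fun _ => rfl, fun D _ _ _ => ?_⟩,
      ⟨1, fun _ _ => true, one_pos, fun _ => rfl, fun D _ _ _ => ?_⟩⟩
    · intro i hi
      exact absurd hi (Nat.not_lt_zero i)
    · exact Nat.zero_le _
    · omega
    · exact Nat.zero_le _
    · rw [hM0, pow_zero, one_mul]
      exact (card_filter_le _ _).trans (by simp)
    · rw [hM0, pow_zero, one_mul]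
      exact (card_filter_le _ _).trans (by simp)
  · obtain ⟨C, c1, c2, c3, c4⟩ := bfn_circuit a M hMpos
    refine ⟨_, C, M, c1, c2.trans (by rw [← hw]; exact hMS), ?_, ?_, hSd, ?_, ?_⟩
    · have h1 : Fintype.card (Bv a M) = M * Fintype.card (Va a) + 2 := by
        rw [Fintype.card_sum, Fintype.card_prod, Fintype.card_fin, Fintype.card_bool]
      have h2 : M * Fintype.card (Va a) ≤ M * w := Nat.mul_le_mul_left _ (hw ▸ va_le a)
      have h3 : M * (w + 3) = M * w + 3 * M := by ring
      omega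
    · refine c3.trans ?_
      have h1 : Nat.clog 2 M ≤ Nat.log 2 S + 1 := by
        apply Nat.clog_le_of_le_pow
        have h2 : S < 2 ^ (Nat.log 2 S + 1) := Nat.lt_pow_succ_log_self (by norm_num) S
        have h3 : M ≤ M * (w + 3) := Nat.le_mul_of_pos_right _ (by omega)
        omega
      have h2 : 2 ^ a * (22 * a + 62) ≤ 16 * d * (22 * (Nat.log 2 d + 4) + 62) :=
        Nat.mul_le_mul ha2 (by omega)
      have h3 : 16 * d * (22 * (Nat.log 2 d + 4) + 62) ≤ 2400 * (d * (Nat.log 2 d + 1)) := by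
        calc 16 * d * (22 * (Nat.log 2 d + 4) + 62) ≤ 16 * d * (150 * (Nat.log 2 d + 1)) :=
              Nat.mul_le_mul_left _ (by omega)
          _ = _ := by ring
      have h4 : 1 ≤ d * (Nat.log 2 d + 1) := Nat.mul_pos hd (Nat.succ_pos _)
      omega
    · -- inputs which are rejected
      have hB0 : Nonempty (Ba a) := ⟨fun _ _ => false⟩
      set N := Fintype.card (Fin M → Ba a) with hN
      have hNe : N = Fintype.card (Ba a) ^ M := by
        rw [hN, Fintype.card_fun, Fintype.card_fin]
      set ε : (Fin M → Ba a) ≃ Fin N := Fintype.equivFin _ with hε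
      refine ⟨N, fun i => binp (fun p => eb (ε.symm i p.1) p.2) true, Fintype.card_pos,
        fun i => ?_, fun D hDm hDd hDC => ?_⟩
      · rw [c4, Bool.eq_false_iff, ne_eq, bfn_or]
        rintro ⟨c, hc⟩
        have h5 : ga a (fun v => eb (ε.symm i c) v) = false := gen_eb _
        rw [h5] at hc
        exact absurd hc (by simp)
      · have h1 := above_or (binp_mo hDm hDd true) ha3 (fun z hz => hDC _ (by
          rw [c4, bfn_or]
          exact hz))
        have h2 : (univ.filter (fun i : Fin N =>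
            D.eval (binp (fun p => eb (ε.symm i p.1) p.2) true) = false)).card =
            (univ.filter (fun y : Fin M → Ba a =>
              D.eval (binp (fun p => eb (y p.1) p.2) true) = false)).card := by
          refine card_bij (fun i _ => ε.symm i) ?_ ?_ ?_
          · intro i hi
            exact mem_filter.mpr ⟨mem_univ _, (mem_filter.mp hi).2⟩
          · intro i _ j _ hij
            exact ε.symm.injective hij
          · intro y hy
            refine ⟨ε y, mem_filter.mpr ⟨mem_univ _, ?_⟩, by simp⟩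
            rw [Equiv.symm_apply_apply]
            exact (mem_filter.mp hy).2
        rw [← h2, ← hNe, mul_comm] at h1
        exact h1
    · -- inputs which are accepted
      have hA0 : Nonempty (Aa a) := ⟨fun _ => 0⟩
      set N := Fintype.card (Fin M → Aa a) with hN
      have hNe : N = Fintype.card (Aa a) ^ M := by
        rw [hN, Fintype.card_fun, Fintype.card_fin]
      set ε : (Fin M → Aa a) ≃ Fin N := Fintype.equivFin _ with hε
      refine ⟨N, fun i => binp (fun p => ea (ε.symm i p.1) p.2) false, Fintype.card_pos,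
        fun i => ?_, fun D hDm hDd hDC => ?_⟩
      · rw [c4, bfn_and]
        intro c
        show gen _ _ (ea (ε.symm i c)) = true
        exact gen_ea _
      · have h1 := below_and (binp_mo hDm hDd false) hapos ha3 (fun z hz => by
          rw [← bfn_and, ← c4]
          exact hDC _ hz)
        have h2 : (univ.filter (fun i : Fin N =>
            D.eval (binp (fun p => ea (ε.symm i p.1) p.2) false) = true)).card =
            (univ.filter (fun y : Fin M → Aa a =>
              D.eval (binp (fun p => ea (y p.1) p.2) false) = true)).card := by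
          refine card_bij (fun i _ => ε.symm i) ?_ ?_ ?_
          · intro i hi
            exact mem_filter.mpr ⟨mem_univ _, (mem_filter.mp hi).2⟩
          · intro i _ j _ hij
            exact ε.symm.injective hij
          · intro y hy
            refine ⟨ε y, mem_filter.mpr ⟨mem_univ _, ?_⟩, by simp⟩
            rw [Equiv.symm_apply_apply]
            exact (mem_filter.mp hy).2
        rw [← h2, ← hNe, mul_comm] at h1
        exact h1

end Pool.Agent.T9h19.RM
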